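import Pool.Agent.Lib.MP_721660_al.Ht.Ser2

set_option autoImplicit false

namespace Pool.Agent.Lib.MP_721660_al.Ht

namespace Ser3x

variable {G : Type} [Group G]

theorem step_one {H K : Subgroup G} (hK : K ≤ H) (hc : ⁅H, H⁆ ≤ K) {t : G} (ht : t ∈ H) {n : ℕ}
    (h : Ser n K) : Ser (n + 1) (K ⊔ Subgroup.closure {t}) := by
  have hnorm : ∀ g ∈ H, ∀ k ∈ K, g * k * g⁻¹ ∈ K := by
    intro g hg k hk
    have h1 : g * k * g⁻¹ * k⁻¹ ∈ K := hc (Subgroup.commutator_mem_commutator hg (hK hk))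
    have h2 := K.mul_mem h1 hk
    simpa using h2
  have hle : K ⊔ Subgroup.closure {t} ≤ H :=
    sup_le hK ((Subgroup.closure_le H).2 (by simpa using ht))
  let X : Subgroup G :=
    { carrier := {g | ∃ k ∈ K, ∃ z : ℤ, g = k * t ^ z}
      one_mem' := ⟨1, K.one_mem, 0, by simp⟩
      mul_mem' := by
        rintro a b ⟨k, hk, z, rfl⟩ ⟨k', hk', z', rfl⟩
        refine ⟨k * (t ^ z * k' * (t ^ z)⁻¹), K.mul_mem hk (hnorm _ (H.zpow_mem ht z) _ hk'),
          z + z', ?_⟩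
        rw [zpow_add]
        simp only [mul_assoc, inv_mul_cancel_left]
      inv_mem' := by
        rintro a ⟨k, hk, z, rfl⟩
        refine ⟨(t ^ z)⁻¹ * k⁻¹ * ((t ^ z)⁻¹)⁻¹,
          hnorm _ (H.inv_mem (H.zpow_mem ht z)) _ (K.inv_mem hk), -z, ?_⟩
        rw [zpow_neg]
        simp only [mul_inv_rev, inv_inv, mul_assoc, mul_inv_cancel, mul_one] }
  have hX : K ⊔ Subgroup.closure {t} ≤ X := by
    refine sup_le (fun k hk => ⟨k, hk, 0, by simp⟩) ((Subgroup.closure_le X).2 ?_)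
    intro g hg
    rw [Set.mem_singleton_iff] at hg
    subst hg
    exact ⟨1, K.one_mem, 1, by simp⟩
  exact Ser.inf t h le_sup_left
    (Subgroup.mem_sup_right (Subgroup.subset_closure (Set.mem_singleton t)))
    (fun g hg k hk => hnorm g (hle hg) k hk) (fun g hg => hX hg)

theorem step_fin {H K : Subgroup G} (hK : K ≤ H) (hc : ⁅H, H⁆ ≤ K) (h : ∃ n, Ser n K)
    (s : Finset G) (hs : ∀ g ∈ s, g ∈ H) : ∃ n, Ser n (K ⊔ Subgroup.closure (s : Set G)) := by
  classical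
  induction s using Finset.induction_on with
  | empty => simpa using h
  | insert t s _ ih =>
    obtain ⟨n, hn⟩ := ih fun g hg => hs g (Finset.mem_insert_of_mem hg)
    have hle : K ⊔ Subgroup.closure (s : Set G) ≤ H :=
      sup_le hK ((Subgroup.closure_le H).2 fun g hg => hs g (Finset.mem_insert_of_mem hg))
    have h1 := step_one hle (hc.trans le_sup_left) (hs t (Finset.mem_insert_self t s)) hn
    refine ⟨n + 1, ?_⟩
    have e : K ⊔ Subgroup.closure ((insert t s : Finset G) : Set G) =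
        K ⊔ Subgroup.closure (s : Set G) ⊔ Subgroup.closure {t} := by
      rw [Finset.coe_insert, Set.insert_eq, Subgroup.closure_union, sup_assoc,
        sup_comm (Subgroup.closure {t})]
    rw [e]
    exact h1

theorem comm_le {H K : Subgroup G} {t : G} (ht : t ∈ H)
    (hn : ∀ h ∈ H, ∀ k ∈ K, h * k * h⁻¹ ∈ K) (hg : ∀ h ∈ H, ∃ k ∈ K, ∃ z : ℤ, h = k * t ^ z) :
    ⁅H, H⁆ ≤ K := by
  rw [Subgroup.commutator_le]
  intro g1 h1 g2 h2
  obtain ⟨k1, hk1, a, rfl⟩ := hg g1 h1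
  obtain ⟨k2, hk2, b, rfl⟩ := hg g2 h2
  have e : (k1 * t ^ a) * (k2 * t ^ b) * (k1 * t ^ a)⁻¹ * (k2 * t ^ b)⁻¹ =
      k1 * (t ^ a * k2 * (t ^ a)⁻¹) * (t ^ b * k1⁻¹ * (t ^ b)⁻¹) * k2⁻¹ := by
    group
  rw [commutatorElement_def, e]
  exact K.mul_mem (K.mul_mem (K.mul_mem hk1 (hn _ (H.zpow_mem ht a) _ hk2))
    (hn _ (H.zpow_mem ht b) _ (K.inv_mem hk1))) (K.inv_mem hk2)

theorem fg_step {H K : Subgroup G} {t : G} (hK : K ≤ H) (ht : t ∈ H)
    (hg : ∀ h ∈ H, ∃ k ∈ K, ∃ z : ℤ, h = k * t ^ z) (h : K.FG) : H.FG := by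
  classical
  obtain ⟨S, hS⟩ := h
  refine ⟨insert t S, le_antisymm ?_ ?_⟩
  · rw [Subgroup.closure_le]
    intro g hg'
    rcases Finset.mem_insert.1 (Finset.mem_coe.1 hg') with rfl | h1
    · exact ht
    · exact hK (hS ▸ Subgroup.subset_closure h1)
  · intro g hg'
    obtain ⟨k, hk, z, rfl⟩ := hg g hg'
    refine Subgroup.mul_mem _ ?_ (Subgroup.zpow_mem _ (Subgroup.subset_closure (by simp)) z)
    rw [← hS] at hk
    exact Subgroup.closure_mono (by simp) hk

theorem ser_fg {n : ℕ} {H : Subgroup G} (h : Ser n H) : H.FG := by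
  induction h with
  | bot n => exact ⟨∅, by simp⟩
  | fin t _ hK ht _ hg _ ih => exact fg_step hK ht hg ih
  | inf t _ hK ht _ hg ih => exact fg_step hK ht hg ih

theorem iter_step {H K : Subgroup G} (hc : ⁅H, H⁆ ≤ K)
    (ih : ∃ d, (fun X : Subgroup G => ⁅X, X⁆)^[d] K = ⊥) :
    ∃ d, (fun X : Subgroup G => ⁅X, X⁆)^[d] H = ⊥ := by
  obtain ⟨d, hd⟩ := ih
  refine ⟨d + 1, ?_⟩
  rw [Function.iterate_succ_apply, eq_bot_iff, ← hd]
  have hm : Monotone (fun X : Subgroup G => ⁅X, X⁆) :=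
    fun _ _ h => Subgroup.commutator_mono h h
  exact hm.iterate d hc

theorem ser_iter {n : ℕ} {H : Subgroup G} (h : Ser n H) :
    ∃ d, (fun X : Subgroup G => ⁅X, X⁆)^[d] H = ⊥ := by
  induction h with
  | bot n => exact ⟨0, rfl⟩
  | fin t _ _ ht hn hg _ ih => exact iter_step (comm_le ht hn hg) ih
  | inf t _ _ ht hn hg ih => exact iter_step (comm_le ht hn hg) ih

theorem derived_eq (d : ℕ) :
    derivedSeries G d = (fun X : Subgroup G => ⁅X, X⁆)^[d] ⊤ := by
  induction d with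
  | zero => rfl
  | succ d ih => rw [Function.iterate_succ_apply', ← ih, derivedSeries_succ]

end Ser3x

theorem poly_of_pc (G : Type) [Group G] (hs : Group.IsSolvable G) (hfg : ∀ H : Subgroup G, H.FG) :
    ∃ n, Poly G n := by
  obtain ⟨d, hd⟩ := hs.solvable
  have key : ∀ i, (∃ n, Ser n (derivedSeries G i)) → ∃ n, Poly G n := by
    intro i
    induction i with
    | zero => exact fun h => h
    | succ i ih =>
      intro h
      apply ih
      obtain ⟨s, hs⟩ := hfg (derivedSeries G i)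
      have hc : ⁅derivedSeries G i, derivedSeries G i⁆ ≤ derivedSeries G (i + 1) :=
        (derivedSeries_succ G i).ge
      have hK : derivedSeries G (i + 1) ≤ derivedSeries G i := by
        rw [derivedSeries_succ]
        exact Subgroup.commutator_le_self _
      have h1 := Ser3x.step_fin hK hc h s fun g hg => hs ▸ Subgroup.subset_closure hg
      rwa [hs, sup_eq_right.2 hK] at h1
  exact key d ⟨0, hd ▸ Ser.bot 0⟩

theorem pc_of_poly {G : Type} [Group G] {n : ℕ} (h : Poly G n) :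
    Group.IsSolvable G ∧ ∀ H : Subgroup G, H.FG := by
  refine ⟨?_, fun H => ?_⟩
  · obtain ⟨d, hd⟩ := Ser3x.ser_iter h
    exact ⟨⟨d, (Ser3x.derived_eq d).trans hd⟩⟩
  · have h1 := Ser3x.ser_fg (Ser.sub h H).1
    rwa [top_inf_eq] at h1

end Pool.Agent.Lib.MP_721660_al.Ht
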