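import Pool.Agent.Lib.MP_721660_al.Ht.Rad

set_option autoImplicit false

namespace Pool.Agent.Lib.MP_721660_al.Ht

variable {D D' M M' : Type} [DivisionRing D] [DivisionRing D'] [AddCommGroup M] [Module D M]
  [AddCommGroup M'] [Module D' M']

namespace RadMapx

/-- The part of `W` that is mapped into `U'`. -/
def pre (σ : D ≃+* D') (f : M →+ M') (hf : ∀ (d : D) (x : M), f (d • x) = σ d • f x)
    (W : Submodule D M) (U' : Submodule D' M') : Submodule D M where
  carrier := {x | x ∈ W ∧ f x ∈ U'}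
  add_mem' := fun ha hb => ⟨W.add_mem ha.1 hb.1, by rw [map_add]; exact U'.add_mem ha.2 hb.2⟩
  zero_mem' := ⟨W.zero_mem, by rw [map_zero]; exact U'.zero_mem⟩
  smul_mem' := fun d x hx => ⟨W.smul_mem d hx.1, by rw [hf]; exact U'.smul_mem _ hx.2⟩

theorem mem_pre {σ : D ≃+* D'} {f : M →+ M'} {hf : ∀ (d : D) (x : M), f (d • x) = σ d • f x}
    {W : Submodule D M} {U' : Submodule D' M'} {x : M} :
    x ∈ pre σ f hf W U' ↔ x ∈ W ∧ f x ∈ U' := Iff.rfl

theorem aux (σ : D ≃+* D') (f : M →+ M') (hf : ∀ (d : D) (x : M), f (d • x) = σ d • f x)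
    (U : Submodule D M) (U' : Submodule D' M') (s : Finset M') :
    ∀ W : Submodule D M, (∀ x ∈ W, f x ∈ U' ⊔ Submodule.span D' (s : Set M')) →
      (∀ x, x ∈ W → f x ∈ U' → x ∈ U) → Cod s.card U W := by
  classical
  induction s using Finset.induction_on with
  | empty =>
    intro W h1 h2
    refine ⟨∅, le_rfl, fun x hx => ?_⟩
    have := h1 x hx
    simp only [Finset.coe_empty, Submodule.span_empty, sup_bot_eq] at this ⊢
    exact h2 x hx this
  | insert a s ha ih =>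
    intro W h1 h2
    obtain ⟨s0, hs0, hW0⟩ := ih (pre σ f hf W (U' ⊔ Submodule.span D' (s : Set M')))
      (fun x hx => hx.2) (fun x hx => h2 x hx.1)
    rw [Finset.card_insert_of_notMem ha]
    have dec : ∀ x ∈ W, ∃ c : D', f x - c • a ∈ U' ⊔ Submodule.span D' (s : Set M') := by
      intro x hx
      obtain ⟨u, hu, v, hv, e⟩ := Submodule.mem_sup.1 (h1 x hx)
      rw [Finset.coe_insert, Submodule.mem_span_insert] at hv
      obtain ⟨c, z, hz, rfl⟩ := hv
      refine ⟨c, ?_⟩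
      have : f x - c • a = u + z := by rw [← e]; abel
      rw [this]
      exact Submodule.add_mem_sup hu hz
    by_cases hall : ∀ x ∈ W, f x ∈ U' ⊔ Submodule.span D' (s : Set M')
    · exact ⟨s0, by omega, fun x hx => hW0 ⟨hx, hall x hx⟩⟩
    · push Not at hall
      obtain ⟨w, hw, hw'⟩ := hall
      obtain ⟨c, hc⟩ := dec w hw
      have c0 : c ≠ 0 := by
        rintro rfl
        rw [zero_smul, sub_zero] at hc
        exact hw' hc
      refine ⟨insert w s0, (Finset.card_insert_le _ _).trans (by omega), fun x hx => ?_⟩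
      obtain ⟨c', hc'⟩ := dec x hx
      have m : x - σ.symm (c' * c⁻¹) • w ∈
          pre σ f hf W (U' ⊔ Submodule.span D' (s : Set M')) := by
        refine ⟨W.sub_mem hx (W.smul_mem _ hw), ?_⟩
        have e : f (x - σ.symm (c' * c⁻¹) • w) = (f x - c' • a) - (c' * c⁻¹) • (f w - c • a) := by
          rw [map_sub, hf, RingEquiv.apply_symm_apply, smul_sub, smul_smul,
            inv_mul_cancel_right₀ c0]
          abel
        rw [e]
        exact Submodule.sub_mem _ hc' (Submodule.smul_mem _ _ hc)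
      have le1 : U ⊔ Submodule.span D (s0 : Set M) ≤
          U ⊔ Submodule.span D ((insert w s0 : Finset M) : Set M) :=
        sup_le_sup_left (Submodule.span_mono (by simp)) _
      have m2 : w ∈ U ⊔ Submodule.span D ((insert w s0 : Finset M) : Set M) :=
        Submodule.mem_sup_right (Submodule.subset_span (by simp))
      have := Submodule.add_mem _ (le1 (hW0 m)) (Submodule.smul_mem _ (σ.symm (c' * c⁻¹)) m2)
      rwa [sub_add_cancel] at this

end RadMapx

theorem cod_comap (σ : D ≃+* D') (f : M →+ M') (hf : ∀ (d : D) (x : M), f (d • x) = σ d • f x)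
    {ρ : ℕ} {U W : Submodule D M} {U' W' : Submodule D' M'} (hW : ∀ x ∈ W, f x ∈ W')
    (hc : Cod ρ U' W') (hU : ∀ x, x ∈ U ↔ x ∈ W ∧ f x ∈ U') : Cod ρ U W := by
  obtain ⟨s, hs, h⟩ := hc
  exact (RadMapx.aux σ f hf U U' s W (fun x hx => h (hW x hx))
    (fun x h1 h2 => (hU x).2 ⟨h1, h2⟩)).mono hs

theorem iter_map (σ : D ≃+* D') (f : M →+ M') (hf : ∀ (d : D) (x : M), f (d • x) = σ d • f x)
    {τ : M ≃ₗ[ℤ] M} {τ' : M' ≃ₗ[ℤ] M'} {W : Submodule D M} {W' : Submodule D' M'}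
    (hs : Stb τ W) (hW : ∀ x ∈ W, f x ∈ W') (hi : ∀ x ∈ W, f (τ x) = τ' (f x))
    {ρ ρ' : ℕ} (hρ : ρ' ≤ ρ) (l : ℕ) :
    ∀ x ∈ (rad ρ τ)^[l] W, f x ∈ (rad ρ' τ')^[l] W' := by
  induction l with
  | zero => exact hW
  | succ l ih =>
    intro x hx
    rw [Function.iterate_succ_apply', mem_rad] at hx ⊢
    refine ⟨ih x hx.1, fun U' h1 _ h3 => ?_⟩
    have st := hs.iter ρ l
    refine (RadMapx.mem_pre.1 (hx.2 (RadMapx.pre σ f hf ((rad ρ τ)^[l] W) U') ?_
      (fun y hy => hy.1) ((cod_comap σ f hf ih h3 fun _ => Iff.rfl).mono hρ))).2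
    intro y
    rw [RadMapx.mem_pre, RadMapx.mem_pre, st y]
    exact and_congr_right fun hy => by rw [hi y (iter_le ρ l W hy), h1]

theorem iter_mono (τ : M ≃ₗ[ℤ] M) (k : ℕ) {W W' : Submodule D M} (hs : Stb (τ ^ k) W)
    (hW : W ≤ W') {ρ ρ' : ℕ} (hρ : ρ' ≤ ρ) (l : ℕ) :
    (rad ρ (τ ^ k))^[l] W ≤ (rad ρ' τ)^[l] W' := by
  induction l with
  | zero => exact hW
  | succ l ih =>
    intro x hx
    rw [Function.iterate_succ_apply', mem_rad] at hx ⊢
    refine ⟨ih hx.1, fun U' h1 _ h3 => ?_⟩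
    exact (hx.2 ((rad ρ (τ ^ k))^[l] W ⊓ U') ((hs.iter ρ l).inf (h1.pow k)) inf_le_left
      ((cod_comap (RingEquiv.refl D) (AddMonoidHom.id M) (fun _ _ => rfl) (fun _ hy => ih hy) h3
        fun _ => Iff.rfl).mono hρ)).2

theorem iter_mono' {τ : M ≃ₗ[ℤ] M} {W W' : Submodule D M} (hs : Stb τ W)
    (hW : W ≤ W') {ρ ρ' : ℕ} (hρ : ρ' ≤ ρ) (l : ℕ) :
    (rad ρ τ)^[l] W ≤ (rad ρ' τ)^[l] W' := by
  have := iter_mono τ 1 (W := W) (by rwa [pow_one]) hW hρ l
  rwa [pow_one] at this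

/-- A finitely generated subspace of a division ring module has finitely generated subspaces. -/
theorem fg_of_le {W W' : Submodule D M} (h : W'.FG) (hW : W ≤ W') : W.FG := by
  have : Module.Finite D W' := Module.Finite.iff_fg.2 h
  exact Module.Finite.iff_fg.1 (Submodule.finiteDimensional_of_le hW)

end Pool.Agent.Lib.MP_721660_al.Ht
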