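import Pool.Agent.Lib.MP_721660_al.Ht.Rad

set_option autoImplicit false

namespace Pool.Agent.Lib.MP_721660_al.Ht

variable {R M E : Type} [Ring R] [AddCommGroup M] [Module R M] [Group E]

theorem scal_apply (S : SL R M E) (d : R) (x : M) : S.scal d x = d • x := rfl

theorem op_apply (S : SL R M E) (e : E) (x : M) : S.op e x = S.act e x := rfl

theorem rg_smul (S : SL R M E) (H : Set E) (t : S.rg H) (x : M) :
    t • x = (t : Module.End ℤ M) x := rfl

theorem inc_smul (S : SL R M E) (H : Set E) (d : R) (x : M) : d • x = S.inc H d • x := rfl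

theorem op_mem (S : SL R M E) {H : Set E} {e : E} (he : e ∈ H) : S.op e ∈ S.rg H :=
  Subring.subset_closure (Or.inr ⟨e, he, rfl⟩)

theorem act_mul (S : SL R M E) (e e' : E) (x : M) : S.act (e * e') x = S.act e (S.act e' x) := by
  rw [map_mul]; rfl

namespace RgBx

theorem act_one (S : SL R M E) (x : M) : S.act 1 x = x := by rw [map_one]; rfl

theorem act_inv (S : SL R M E) (e : E) (x : M) : S.act e⁻¹ (S.act e x) = x := by
  rw [← act_mul, inv_mul_cancel, act_one]

theorem inv_act (S : SL R M E) (e : E) (x : M) : S.act e (S.act e⁻¹ x) = x := by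
  rw [← act_mul, mul_inv_cancel, act_one]

theorem op_mul (S : SL R M E) (e e' : E) : S.op (e * e') = S.op e * S.op e' :=
  LinearMap.ext fun x => act_mul S e e' x

theorem op_one (S : SL R M E) : S.op 1 = 1 := LinearMap.ext fun x => act_one S x

theorem op_scal (S : SL R M E) (e : E) (d : R) :
    S.op e * S.scal d = S.scal (S.tw e d) * S.op e :=
  LinearMap.ext fun x => S.act_smul e d x

/-- A semilinear action from a multiplicative family of additive maps. -/
theorem mk_sl {V : Type} [AddCommGroup V] [Module R V] (tw : E →* RingAut R) (g : E → V →+ V)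
    (h1 : ∀ x, g 1 x = x) (hm : ∀ e e' x, g (e * e') x = g e (g e' x))
    (hs : ∀ e (d : R) x, g e (d • x) = tw e d • g e x) :
    ∃ S' : SL R V E, ∀ e x, S'.act e x = g e x := by
  let a : E → (V ≃ₗ[ℤ] V) := fun e =>
    { (g e).toIntLinearMap with
      invFun := g e⁻¹
      left_inv := fun x => by
        change g e⁻¹ (g e x) = x
        rw [← hm, inv_mul_cancel, h1]
      right_inv := fun x => by
        change g e (g e⁻¹ x) = x
        rw [← hm, mul_inv_cancel, h1] }
  exact ⟨⟨⟨⟨a, LinearEquiv.ext fun x => h1 x⟩, fun e e' => LinearEquiv.ext fun x => hm e e' x⟩,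
    tw, hs⟩, fun _ _ => rfl⟩

theorem cj_mem (S : SL R M E) (A : Subgroup E) (hA : A.Normal) (e : E) (t : Module.End ℤ M)
    (ht : t ∈ S.rg (A : Set E)) : S.op e * t * S.op e⁻¹ ∈ S.rg (A : Set E) := by
  have hi : S.op e⁻¹ * S.op e = 1 := by rw [← op_mul, inv_mul_cancel, op_one]
  have hi' : S.op e * S.op e⁻¹ = 1 := by rw [← op_mul, mul_inv_cancel, op_one]
  induction ht using Subring.closure_induction with
  | mem x hx =>
    rcases hx with ⟨d, rfl⟩ | ⟨a, ha, rfl⟩
    · rw [op_scal, mul_assoc, hi', mul_one]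
      exact Subring.subset_closure (Or.inl ⟨_, rfl⟩)
    · rw [← op_mul, ← op_mul]
      exact op_mem S (hA.conj_mem a ha e)
  | zero => rw [mul_zero, zero_mul]; exact zero_mem _
  | one => rw [mul_one, hi']; exact one_mem _
  | add x y _ _ hx hy => rw [mul_add, add_mul]; exact add_mem hx hy
  | neg x _ hx => rw [mul_neg, neg_mul]; exact neg_mem hx
  | mul x y _ _ hx hy =>
    have : S.op e * (x * y) * S.op e⁻¹ = S.op e * x * S.op e⁻¹ * (S.op e * y * S.op e⁻¹) := by
      calc _ = S.op e * x * (S.op e⁻¹ * S.op e) * y * S.op e⁻¹ := by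
            rw [hi, mul_one]; simp only [mul_assoc]
        _ = _ := by simp only [mul_assoc]
    rw [this]; exact mul_mem hx hy

/-- The action of one element as a semilinear map. -/
def sem (S : SL R M E) (e : E) : M →ₛₗ[(S.tw e : R →+* R)] M where
  toFun := S.act e
  map_add' := map_add _
  map_smul' := S.act_smul e

end RgBx

open RgBx

theorem rg_span (S : SL R M E) (H : Subgroup E) (t : Module.End ℤ M)
    (ht : t ∈ S.rg (H : Set E)) :
    t ∈ AddSubgroup.closure {s | ∃ (d : R), ∃ a ∈ H, s = S.scal d * S.op a} := by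
  induction ht using Subring.closure_induction with
  | mem x hx =>
    rcases hx with ⟨d, rfl⟩ | ⟨a, ha, rfl⟩
    · exact AddSubgroup.subset_closure ⟨d, 1, H.one_mem, by rw [op_one, mul_one]⟩
    · exact AddSubgroup.subset_closure ⟨1, a, ha, by rw [map_one, one_mul]⟩
  | zero => exact zero_mem _
  | one => exact AddSubgroup.subset_closure ⟨1, 1, H.one_mem, by rw [op_one, map_one, one_mul]⟩
  | add x y _ _ hx hy => exact add_mem hx hy
  | neg x _ hx => exact neg_mem hx
  | mul x y h1 h2 hx hy =>
    clear h1 h2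
    induction hx using AddSubgroup.closure_induction with
    | mem x hx =>
      induction hy using AddSubgroup.closure_induction with
      | mem y hy =>
        obtain ⟨d, a, ha, rfl⟩ := hx
        obtain ⟨d', a', ha', rfl⟩ := hy
        refine AddSubgroup.subset_closure ⟨d * S.tw a d', a * a', H.mul_mem ha ha', ?_⟩
        rw [map_mul, op_mul, mul_assoc, ← mul_assoc (S.op a), op_scal]
        simp only [mul_assoc]
      | zero => rw [mul_zero]; exact zero_mem _
      | add y z _ _ hy hz => rw [mul_add]; exact add_mem hy hz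
      | neg y _ hy => rw [mul_neg]; exact neg_mem hy
    | zero => rw [zero_mul]; exact zero_mem _
    | add x z _ _ hx hz => rw [add_mul]; exact add_mem hx hz
    | neg x _ hx => rw [neg_mul]; exact neg_mem hx

theorem exists_overT (S : SL R M E) (A : Subgroup E) (hA : A.Normal) :
    ∃ S' : SL (S.rg (A : Set E)) M E, S'.act = S.act := by
  let f : E → S.rg (A : Set E) → S.rg (A : Set E) := fun e t =>
    ⟨S.op e * t.1 * S.op e⁻¹, cj_mem S A hA e t.1 t.2⟩
  have f1 : ∀ t, f 1 t = t := fun t => Subtype.ext (by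
    change S.op 1 * t.1 * S.op 1⁻¹ = t.1
    rw [inv_one, op_one, one_mul, mul_one])
  have fm : ∀ e e' t, f (e * e') t = f e (f e' t) := fun e e' t => Subtype.ext (by
    change S.op (e * e') * t.1 * S.op (e * e')⁻¹ = S.op e * (S.op e' * t.1 * S.op e'⁻¹) * S.op e⁻¹
    rw [mul_inv_rev, op_mul, op_mul]; simp only [mul_assoc])
  let w : E → RingAut (S.rg (A : Set E)) := fun e =>
    { toFun := f e
      invFun := f e⁻¹
      left_inv := fun t => by rw [← fm, inv_mul_cancel, f1]
      right_inv := fun t => by rw [← fm, mul_inv_cancel, f1]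
      map_mul' := fun x y => Subtype.ext (by
        change S.op e * (x.1 * y.1) * S.op e⁻¹ =
          S.op e * x.1 * S.op e⁻¹ * (S.op e * y.1 * S.op e⁻¹)
        have hi : S.op e⁻¹ * S.op e = 1 := by rw [← op_mul, inv_mul_cancel, op_one]
        calc _ = S.op e * x.1 * (S.op e⁻¹ * S.op e) * y.1 * S.op e⁻¹ := by
              rw [hi, mul_one]; simp only [mul_assoc]
          _ = _ := by simp only [mul_assoc])
      map_add' := fun x y => Subtype.ext (by
        change S.op e * (x.1 + y.1) * S.op e⁻¹ =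
          S.op e * x.1 * S.op e⁻¹ + S.op e * y.1 * S.op e⁻¹
        rw [mul_add, add_mul]) }
  refine ⟨⟨S.act, ⟨⟨w, RingEquiv.ext f1⟩, fun e e' => RingEquiv.ext (fm e e')⟩, ?_⟩, rfl⟩
  intro e d x
  change S.act e (d.1 x) = S.act e (d.1 (S.act e⁻¹ (S.act e x)))
  rw [act_inv]

theorem exists_lift (S : SL R M E) (H : Set E) (N : Submodule R M)
    (hN : ∀ a ∈ H, ∀ x ∈ N, S.act a x ∈ N) :
    ∃ U : Submodule (S.rg H) M, ∀ x, x ∈ U ↔ x ∈ N := by
  have key : ∀ t ∈ S.rg H, ∀ x ∈ N, t x ∈ N := by
    intro t ht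
    induction ht using Subring.closure_induction with
    | mem x hx =>
      rcases hx with ⟨d, rfl⟩ | ⟨a, ha, rfl⟩
      · exact fun x hx => N.smul_mem d hx
      · exact hN a ha
    | zero => exact fun x _ => N.zero_mem
    | one => exact fun x hx => hx
    | add x y _ _ hx hy => exact fun z hz => N.add_mem (hx z hz) (hy z hz)
    | neg x _ hx => exact fun z hz => N.neg_mem (hx z hz)
    | mul x y _ _ hx hy => exact fun z hz => hx _ (hy z hz)
  exact ⟨⟨⟨⟨N, fun ha hb => N.add_mem ha hb⟩, N.zero_mem⟩, fun t x hx => key t.1 t.2 x hx⟩,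
    fun _ => Iff.rfl⟩

theorem gen_inv (S : SL R M E) (s : Set M) : S.Inv (S.gen s) := by
  intro e x hx
  induction hx using Submodule.span_induction with
  | mem y hy =>
    obtain ⟨e', z, hz, rfl⟩ := hy
    exact Submodule.subset_span ⟨e * e', z, hz, (act_mul S e e' z).symm⟩
  | zero => rw [map_zero]; exact zero_mem _
  | add y z _ _ hy hz => rw [map_add]; exact add_mem hy hz
  | smul d y _ hy => rw [S.act_smul]; exact Submodule.smul_mem _ _ hy

theorem subset_gen (S : SL R M E) (s : Set M) : s ⊆ S.gen s := fun x hx =>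
  Submodule.subset_span ⟨1, x, hx, (act_one S x).symm⟩

theorem gen_le (S : SL R M E) {s : Set M} {N : Submodule R M} (hN : S.Inv N) (hs : s ⊆ N) :
    S.gen s ≤ N := by
  refine Submodule.span_le.2 ?_
  rintro _ ⟨e, x, hx, rfl⟩
  exact hN e x (hs hx)

theorem mem_gen (S : SL R M E) {s : Set M} {x : M} (hx : x ∈ S.gen s) :
    x ∈ AddSubgroup.closure {y | ∃ (d : R) (e : E), ∃ z ∈ s, y = d • S.act e z} := by
  have key : ∀ c : R, c • x ∈
      AddSubgroup.closure {y | ∃ (d : R) (e : E), ∃ z ∈ s, y = d • S.act e z} := by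
    induction hx using Submodule.span_induction with
    | mem y hy =>
      obtain ⟨e, z, hz, rfl⟩ := hy
      exact fun c => AddSubgroup.subset_closure ⟨c, e, z, hz, rfl⟩
    | zero => intro c; rw [smul_zero]; exact zero_mem _
    | add y z _ _ hy hz => intro c; rw [smul_add]; exact add_mem (hy c) (hz c)
    | smul d y _ hy => intro c; rw [smul_smul]; exact hy _
  simpa only [one_smul] using key 1

theorem SL.Inv.stb {S : SL R M E} {N : Submodule R M} (hN : S.Inv N) (e : E) :
    Stb (S.act e) N := fun x =>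
  ⟨fun h => by simpa only [act_inv] using hN e⁻¹ _ h, hN e x⟩

theorem exists_quot (S : SL R M E) (N : Submodule R M) (hN : S.Inv N) :
    ∃ S' : SL R (M ⧸ N) E, ∀ e x, S'.act e (N.mkQ x) = N.mkQ (S.act e x) := by
  obtain ⟨S', h⟩ := mk_sl (V := M ⧸ N) S.tw
    (fun e => (N.mapQ N (sem S e) (fun x hx => hN e x hx)).toAddMonoidHom)
    (fun x => by
      obtain ⟨y, rfl⟩ := N.mkQ_surjective x
      exact congrArg N.mkQ (act_one S y))
    (fun e e' x => by
      obtain ⟨y, rfl⟩ := N.mkQ_surjective x
      exact congrArg N.mkQ (act_mul S e e' y))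
    (fun e d x => (N.mapQ N (sem S e) (fun x hx => hN e x hx)).map_smulₛₗ d x)
  exact ⟨S', fun e x => h e _⟩

theorem exists_sub (S : SL R M E) (N : Submodule R M) (hN : S.Inv N) :
    ∃ S' : SL R N E, ∀ e (x : N), (S'.act e x : M) = S.act e x := by
  obtain ⟨S', h⟩ := mk_sl (V := N) S.tw
    (fun e => AddMonoidHom.mk' (fun x => ⟨S.act e x.1, hN e x.1 x.2⟩)
      (fun x y => Subtype.ext (map_add (S.act e) x.1 y.1)))
    (fun x => Subtype.ext (act_one S x.1))
    (fun e e' x => Subtype.ext (act_mul S e e' x.1))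
    (fun e d x => Subtype.ext (S.act_smul e d x.1))
  exact ⟨S', fun e x => by rw [h]; rfl⟩

end Pool.Agent.Lib.MP_721660_al.Ht
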