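import Pool.Agent.Lib.MP_721660_al.Ht.Cl2
import Pool.Agent.Lib.MP_721660_al.Ht.RadMap
import Pool.Agent.Lib.MP_721660_al.Ht.RgB

set_option autoImplicit false

namespace Pool.Agent.Lib.MP_721660_al.Ht

namespace Cl3x

section A
variable {T M : Type} [Ring T] [AddCommGroup M] [Module T M] {W : Submodule T M}

theorem app_mem {Y : Set (W →ₗ[T] M)} {f : W →ₗ[T] M} (hf : f ∈ Y) (w : W) : f w ∈ mY Y := by
  have h : LinearMap.range f ≤ mY Y := le_iSup₂ (f := fun f (_ : f ∈ Y) => LinearMap.range f) f hf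
  exact h (LinearMap.mem_range_self f w)

theorem mY_ind {Y : Set (W →ₗ[T] M)} {C : M → Prop} (mem : ∀ f ∈ Y, ∀ w, C (f w)) (zero : C 0)
    (add : ∀ x y, C x → C y → C (x + y)) {x : M} (hx : x ∈ mY Y) : C x := by
  unfold mY at hx
  rw [iSup_subtype'] at hx
  refine Submodule.iSup_induction (motive := C) _ hx ?_ zero add
  rintro ⟨f, hf⟩ y ⟨w, rfl⟩
  exact mem f hf w

theorem mY_mono {Y Y' : Set (W →ₗ[T] M)} (h : Y ⊆ Y') : mY Y ≤ mY Y' := by
  intro x hx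
  refine mY_ind (C := fun x => x ∈ mY Y') ?_ (Submodule.zero_mem _) ?_ hx
  · intro f hf w
    exact app_mem (h hf) w
  · intro x y hx hy
    exact Submodule.add_mem _ hx hy

theorem exists_fin {Y : Set (W →ₗ[T] M)} {x : M} (hx : x ∈ mY Y) :
    ∃ F : Set (W →ₗ[T] M), F.Finite ∧ F ⊆ Y ∧ x ∈ mY F := by
  refine mY_ind (C := fun x => ∃ F : Set (W →ₗ[T] M), F.Finite ∧ F ⊆ Y ∧ x ∈ mY F) ?_ ?_ ?_ hx
  · intro f hf w
    exact ⟨{f}, Set.finite_singleton f, Set.singleton_subset_iff.2 hf,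
      app_mem (Set.mem_singleton f) w⟩
  · exact ⟨∅, Set.finite_empty, Set.empty_subset _, Submodule.zero_mem _⟩
  · rintro x y ⟨F, hF, hFY, hx⟩ ⟨G, hG, hGY, hy⟩
    exact ⟨F ∪ G, hF.union hG, Set.union_subset hFY hGY,
      Submodule.add_mem _ (mY_mono Set.subset_union_left hx) (mY_mono Set.subset_union_right hy)⟩

theorem exists_fin' {Y : Set (W →ₗ[T] M)} (s : Finset M) (hs : ∀ x ∈ s, x ∈ mY Y) :
    ∃ F : Set (W →ₗ[T] M), F.Finite ∧ F ⊆ Y ∧ ∀ x ∈ s, x ∈ mY F := by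
  classical
  induction s using Finset.induction_on with
  | empty => exact ⟨∅, Set.finite_empty, Set.empty_subset _, by simp⟩
  | insert a s _ ih =>
    obtain ⟨F, hF, hFY, hx⟩ := ih fun x hx => hs x (Finset.mem_insert_of_mem hx)
    obtain ⟨G, hG, hGY, hy⟩ := exists_fin (hs a (Finset.mem_insert_self a s))
    refine ⟨F ∪ G, hF.union hG, Set.union_subset hFY hGY, ?_⟩
    intro x hx'
    rcases Finset.mem_insert.1 hx' with rfl | hx'
    · exact mY_mono Set.subset_union_right hy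
    · exact mY_mono Set.subset_union_left (hx x hx')

/-- The two actions correspond. -/
def Pair (τ : M ≃ₗ[ℤ] M) (τ2 : (W →ₗ[T] M) ≃ₗ[ℤ] (W →ₗ[T] M)) : Prop :=
  ∃ θ : W ≃+ W, ∀ (f : W →ₗ[T] M) (w : W), τ2 f (θ w) = τ (f w)

variable {τ : M ≃ₗ[ℤ] M} {τ2 : (W →ₗ[T] M) ≃ₗ[ℤ] (W →ₗ[T] M)}

theorem Pair.symm (h : Pair τ τ2) : Pair τ.symm τ2.symm := by
  obtain ⟨θ, hθ⟩ := h
  refine ⟨θ.symm, fun f w => ?_⟩
  have := hθ (τ2.symm f) (θ.symm w)
  rw [LinearEquiv.apply_symm_apply, AddEquiv.apply_symm_apply] at this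
  rw [this, LinearEquiv.symm_apply_apply]

theorem Pair.fwd (h : Pair τ τ2) {Y : Set (W →ₗ[T] M)} (hY : ∀ f ∈ Y, τ2 f ∈ Y) :
    ∀ x ∈ mY Y, τ x ∈ mY Y := by
  obtain ⟨θ, hθ⟩ := h
  intro x hx
  refine mY_ind (C := fun x => τ x ∈ mY Y) ?_ ?_ ?_ hx
  · intro f hf w
    rw [← hθ]
    exact app_mem (hY f hf) _
  · rw [map_zero]
    exact Submodule.zero_mem _
  · intro x y hx hy
    rw [map_add]
    exact Submodule.add_mem _ hx hy

theorem Pair.back (h : Pair τ τ2) {U : Submodule T M} (hU : ∀ x ∈ U, τ x ∈ U)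
    {f : W →ₗ[T] M} (hf : LinearMap.range f ≤ U) : LinearMap.range (τ2 f) ≤ U := by
  obtain ⟨θ, hθ⟩ := h
  rintro y ⟨w, rfl⟩
  obtain ⟨w', rfl⟩ := θ.surjective w
  rw [hθ]
  exact hU _ (hf (LinearMap.mem_range_self f w'))

/-- The maps with range inside `U`. -/
def hom {D2 : Type} [DivisionRing D2] [Module D2 (W →ₗ[T] M)] (h1 : EndSc W D2)
    (U : Submodule T M) : Submodule D2 (W →ₗ[T] M) where
  carrier := {f | LinearMap.range f ≤ U}
  add_mem' := by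
    intro f g hf hg
    rintro y ⟨w, rfl⟩
    exact U.add_mem (hf (LinearMap.mem_range_self f w)) (hg (LinearMap.mem_range_self g w))
  zero_mem' := by
    rintro y ⟨w, rfl⟩
    exact U.zero_mem
  smul_mem' := by
    intro κ f hf
    obtain ⟨k, hk⟩ := h1.ex1 κ
    rintro y ⟨w, rfl⟩
    rw [hk]
    exact hf (LinearMap.mem_range_self f (k w))

end A

section B
variable {D T M : Type} [DivisionRing D] [Ring T] [AddCommGroup M] [Module D M] [Module T M]
  (j : D →+* T) (hc : ∀ (d : D) (x : M), d • x = j d • x) {W : Submodule T M}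

theorem mem_toD {U : Submodule T M} {x : M} : x ∈ toD j hc U ↔ x ∈ U := Iff.rfl

theorem gens (hW : (toD j hc W).FG) : ∃ g : Finset W, ∀ (f : W →ₗ[T] M) (Z : Submodule D M),
    (∀ w ∈ g, f w ∈ Z) → ∀ w, f w ∈ Z := by
  classical
  obtain ⟨s, hs⟩ := hW
  refine ⟨s.subtype (· ∈ W), fun f Z hZ w => ?_⟩
  have hw : (w : M) ∈ Submodule.span D (s : Set M) := by
    rw [hs]
    exact w.2
  have key : ∀ x ∈ Submodule.span D (s : Set M), ∃ hx : x ∈ W, f ⟨x, hx⟩ ∈ Z := by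
    intro x hx
    induction hx using Submodule.span_induction with
    | mem x hx =>
      have hxW : x ∈ W := by
        have : x ∈ toD j hc W := by
          rw [← hs]
          exact Submodule.subset_span hx
        exact this
      exact ⟨hxW, hZ _ (Finset.mem_subtype.2 hx)⟩
    | zero => exact ⟨W.zero_mem, by
        have : (⟨0, W.zero_mem⟩ : W) = 0 := rfl
        rw [this, map_zero]
        exact Z.zero_mem⟩
    | add x y _ _ hx hy =>
      obtain ⟨hxW, hx⟩ := hx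
      obtain ⟨hyW, hy⟩ := hy
      refine ⟨W.add_mem hxW hyW, ?_⟩
      have : (⟨x + y, W.add_mem hxW hyW⟩ : W) = ⟨x, hxW⟩ + ⟨y, hyW⟩ := rfl
      rw [this, map_add]
      exact Z.add_mem hx hy
    | smul d x _ hx =>
      obtain ⟨hxW, hx⟩ := hx
      have hm : d • x ∈ W := by
        rw [hc]
        exact W.smul_mem _ hxW
      refine ⟨hm, ?_⟩
      have : (⟨d • x, hm⟩ : W) = j d • (⟨x, hxW⟩ : W) := Subtype.ext (hc d x)
      rw [this, map_smul, ← hc]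
      exact Z.smul_mem d hx
  obtain ⟨_, h⟩ := key w hw
  exact h

variable [IsSimpleModule T W] {D2 : Type} [DivisionRing D2] [Module D2 (W →ₗ[T] M)]

theorem cod_m (h1 : EndSc W D2) (g : Finset W)
    (hg : ∀ (f : W →ₗ[T] M) (Z : Submodule D M), (∀ w ∈ g, f w ∈ Z) → ∀ w, f w ∈ Z)
    {ρ : ℕ} {Y Y' : Submodule D2 (W →ₗ[T] M)} (h : Cod ρ Y Y') :
    Cod (ρ * g.card) (toD j hc (mY (Y : Set (W →ₗ[T] M))))
      (toD j hc (mY (Y' : Set (W →ₗ[T] M)))) := by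
  classical
  obtain ⟨s, hs, hY⟩ := h
  refine ⟨(s ×ˢ g).image fun q => q.1 q.2, ?_, ?_⟩
  · refine Finset.card_image_le.trans ?_
    rw [Finset.card_product]
    exact Nat.mul_le_mul_right _ hs
  · set Z : Submodule D M := Submodule.span D
      (((s ×ˢ g).image fun q => q.1 q.2 : Finset M) : Set M) with hZ
    have hs2 : ∀ x ∈ mY (s : Set (W →ₗ[T] M)), x ∈ Z := by
      intro x hx
      refine mY_ind (C := fun x => x ∈ Z) ?_ Z.zero_mem (fun x y hx hy => Z.add_mem hx hy) hx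
      intro f hf
      refine hg f Z fun w hw => Submodule.subset_span ?_
      rw [Finset.mem_coe, Finset.mem_image]
      exact ⟨(f, w), Finset.mem_product.2 ⟨hf, hw⟩, rfl⟩
    intro x hx
    refine mY_ind (C := fun x => x ∈ toD j hc (mY (Y : Set (W →ₗ[T] M))) ⊔ Z) ?_
      (Submodule.zero_mem _) (fun x y hx hy => Submodule.add_mem _ hx hy) hx
    intro f hf w
    obtain ⟨a, ha, b, hb, rfl⟩ := Submodule.mem_sup.1 (hY hf)
    rw [LinearMap.add_apply]
    refine Submodule.add_mem_sup ((mem_toD j hc).2 (app_mem ha w)) (hs2 _ ?_)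
    rw [← mY_span h1]
    exact app_mem hb w

variable {τ : M ≃ₗ[ℤ] M} {τ2 : (W →ₗ[T] M) ≃ₗ[ℤ] (W →ₗ[T] M)}

omit [IsSimpleModule T W] in
theorem stb_m (hp : Pair τ τ2) {Y : Submodule D2 (W →ₗ[T] M)} (hY : Stb τ2 Y) :
    Stb τ (toD j hc (mY (Y : Set (W →ₗ[T] M)))) := by
  refine stb_of ?_ ?_
  · exact hp.fwd fun f hf => (hY f).2 hf
  · exact hp.symm.fwd fun f hf => hY.symm_mem hf

theorem step (h1 : EndSc W D2) (g : Finset W)
    (hg : ∀ (f : W →ₗ[T] M) (Z : Submodule D M), (∀ w ∈ g, f w ∈ Z) → ∀ w, f w ∈ Z)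
    (hp : Pair τ τ2) (ρ : ℕ) (Y : Submodule D2 (W →ₗ[T] M)) :
    rad (ρ * g.card) τ (toD j hc (mY (Y : Set (W →ₗ[T] M)))) ≤
      toD j hc (mY ((rad ρ τ2 Y : Submodule D2 (W →ₗ[T] M)) : Set (W →ₗ[T] M))) := by
  intro x hx
  obtain ⟨hx0, hx1⟩ := mem_rad.1 hx
  let U : Submodule T M := mY (Y : Set (W →ₗ[T] M)) ⊓
    sInf {V | ∃ Y' : Submodule D2 (W →ₗ[T] M), Stb τ2 Y' ∧ Y' ≤ Y ∧ Cod ρ Y' Y ∧
      V = mY (Y' : Set (W →ₗ[T] M))}
  have hxU : x ∈ U := by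
    refine Submodule.mem_inf.2 ⟨hx0, Submodule.mem_sInf.2 ?_⟩
    rintro V ⟨Y', ha, hb, hd, rfl⟩
    exact hx1 _ (stb_m j hc hp ha) (fun y hy => mY_mono hb hy) (cod_m j hc h1 g hg hd)
  have h2 := le_mY_of_le _ U inf_le_left hxU
  refine mY_mono ?_ h2
  intro f hf
  have hf' : LinearMap.range f ≤ U := hf
  refine mem_rad.2 ⟨mem_of_range_le h1 Y f (hf'.trans inf_le_left), fun Y' ha hb hd => ?_⟩
  exact mem_of_range_le h1 Y' f (hf'.trans (inf_le_right.trans (sInf_le ⟨Y', ha, hb, hd, rfl⟩)))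

theorem iter (h1 : EndSc W D2) (g : Finset W)
    (hg : ∀ (f : W →ₗ[T] M) (Z : Submodule D M), (∀ w ∈ g, f w ∈ Z) → ∀ w, f w ∈ Z)
    (hp : Pair τ τ2) (ρ : ℕ) (Y : Submodule D2 (W →ₗ[T] M)) {V : Submodule D M} (hV : Stb τ V)
    (hVY : V ≤ toD j hc (mY (Y : Set (W →ₗ[T] M)))) (l : ℕ) :
    (rad (ρ * g.card) τ)^[l] V ≤
      toD j hc (mY (((rad ρ τ2)^[l] Y : Submodule D2 (W →ₗ[T] M)) : Set (W →ₗ[T] M))) := by
  induction l with
  | zero => exact hVY
  | succ l ih =>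
    rw [Function.iterate_succ_apply', Function.iterate_succ_apply']
    have h := iter_mono' (hV.iter (ρ * g.card) l) ih (le_refl (ρ * g.card)) 1
    exact le_trans h (step j hc h1 g hg hp ρ _)

theorem hull (h1 : EndSc W D2) (hp : Pair τ τ2)
    (hτ : ∀ (t : T) (x : M), ∃ t' : T, τ (t • x) = t' • τ x)
    (hτ' : ∀ (t : T) (x : M), ∃ t' : T, τ.symm (t • x) = t' • τ.symm x)
    (Y : Submodule D2 (W →ₗ[T] M)) {V : Submodule D M} (hV : Stb τ V) (hfg : V.FG)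
    (hVY : V ≤ toD j hc (mY (Y : Set (W →ₗ[T] M)))) :
    ∃ Y0 : Submodule D2 (W →ₗ[T] M), Y0 ≤ Y ∧ Y0.FG ∧ Stb τ2 Y0 ∧
      V ≤ toD j hc (mY (Y0 : Set (W →ₗ[T] M))) := by
  let U : Submodule T M := Submodule.span T (V : Set M)
  have hUY : U ≤ mY (Y : Set (W →ₗ[T] M)) := Submodule.span_le.2 fun x hx => hVY hx
  have hst : ∀ σ : M ≃ₗ[ℤ] M, (∀ (t : T) (x : M), ∃ t' : T, σ (t • x) = t' • σ x) →
      (∀ x ∈ V, σ x ∈ V) → ∀ x ∈ U, σ x ∈ U := by
    intro σ hσ hσV x hx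
    induction hx using Submodule.span_induction with
    | mem x hx => exact Submodule.subset_span (hσV x hx)
    | zero => rw [map_zero]; exact U.zero_mem
    | add x y _ _ hx hy => rw [map_add]; exact U.add_mem hx hy
    | smul t x _ hx =>
      obtain ⟨t', ht⟩ := hσ t x
      rw [ht]
      exact U.smul_mem _ hx
  have hU1 := hst τ hτ fun x hx => (hV x).2 hx
  have hU2 := hst τ.symm hτ' fun x hx => hV.symm_mem hx
  have hU3 : U ≤ mY ((hom h1 U : Submodule D2 (W →ₗ[T] M)) : Set (W →ₗ[T] M)) :=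
    le_mY_of_le _ U hUY
  refine ⟨hom h1 U, fun f hf => mem_of_range_le h1 Y f (le_trans hf hUY), ?_, ?_,
    fun x hx => hU3 (Submodule.subset_span hx)⟩
  · obtain ⟨s, hs⟩ := hfg
    have hsV : ∀ x ∈ s, x ∈ V := fun x hx => by
      rw [← hs]
      exact Submodule.subset_span hx
    obtain ⟨F, hF, hFU, hsF⟩ := exists_fin' s fun x hx => hU3 (Submodule.subset_span (hsV x hx))
    have hVF : V ≤ toD j hc (mY F) := by
      rw [← hs]
      exact Submodule.span_le.2 fun x hx => hsF x hx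
    have hUF : U ≤ mY F := Submodule.span_le.2 fun x hx => hVF hx
    refine Submodule.fg_def.2 ⟨F, hF, le_antisymm (Submodule.span_le.2 hFU) fun f hf => ?_⟩
    refine mem_of_range_le h1 _ f ?_
    rw [mY_span h1]
    exact le_trans hf hUF
  · exact stb_of (fun f hf => hp.back hU1 hf) fun f hf => hp.symm.back hU2 hf

end B

end Cl3x

variable {D T M E : Type} [DivisionRing D] [Ring T] [AddCommGroup M] [Module D M]
  [Module T M] [Group E]

theorem cliff_bd (j : D →+* T) (hc : ∀ (d : D) (x : M), d • x = j d • x) (S : SL D M E)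
    (S' : SL T M E) (hS : S'.act = S.act) (W : Submodule T M) [IsSimpleModule T W]
    (hW : (toD j hc W).FG) (H : Subgroup E) {D2 : Type} [DivisionRing D2]
    [Module D2 (W →ₗ[T] M)] {E2 : Type} [Group E2] (p : E2 →* E)
    (S2 : SL D2 (W →ₗ[T] M) E2) (h1 : EndSc W D2) (h2 : p.range = H)
    (h3 : ∀ e2, ∃ θ : W ≃+ W, ∀ (f : W →ₗ[T] M) (w : W),
      S2.act e2 f (θ w) = S.act (p e2) (f w))
    (Y : Submodule D2 (W →ₗ[T] M)) (hB : S2.Bd Y) :
    (S.comap H.subtype).Bd (toD j hc (mY (Y : Set (W →ₗ[T] M)))) := by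
  obtain ⟨g, hg⟩ := Cl3x.gens j hc hW
  obtain ⟨n, l, ρ, hn, hB⟩ := hB
  refine ⟨n, l, ρ * g.card, hn, fun e V hVY hfg hV => ?_⟩
  have he : (e : E) ∈ p.range := by
    rw [h2]
    exact e.2
  obtain ⟨e2, he2⟩ := he
  have hact : (S.comap H.subtype).act e = S.act (p e2) := by
    rw [he2]
    rfl
  rw [hact] at hV ⊢
  have hp : Cl3x.Pair (S.act (p e2)) (S2.act e2) := h3 e2
  have hpn : Cl3x.Pair (S.act (p e2) ^ n) (S2.act e2 ^ n) := by
    have := h3 (e2 ^ n)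
    rw [map_pow, map_pow, map_pow] at this
    exact this
  have hτ : ∀ (a : E) (t : T) (x : M), ∃ t' : T, S.act a (t • x) = t' • S.act a x := by
    intro a t x
    rw [← hS]
    exact ⟨_, S'.act_smul a t x⟩
  have hinv : (S.act (p e2)).symm = S.act (p e2)⁻¹ := by
    rw [map_inv]
    rfl
  obtain ⟨Y0, hY0, hfg0, hs0, hV0⟩ := Cl3x.hull j hc h1 hp (hτ _) (by rw [hinv]; exact hτ _)
    Y hV hfg hVY
  have h := Cl3x.iter j hc h1 g hg hpn ρ Y0 (hV.pow n) hV0 l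
  rw [hB e2 Y0 hY0 hfg0 hs0] at h
  refine le_bot_iff.1 fun x hx => ?_
  refine Cl3x.mY_ind (C := fun x => x ∈ (⊥ : Submodule D M)) ?_ (Submodule.zero_mem _)
    (fun x y hx hy => Submodule.add_mem _ hx hy) (h hx)
  intro f hf w
  have hf0 : f = 0 := (Submodule.mem_bot D2).1 hf
  rw [hf0]
  exact Submodule.zero_mem _

end Pool.Agent.Lib.MP_721660_al.Ht
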