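import Pool.Agent.Lib.MP_721660_al.Ht.Defs

set_option autoImplicit false

namespace Pool.Agent.Lib.MP_721660_al.Ht

namespace Cl1x

section Hom
variable {T : Type} [Ring T] {G : Type} [Group G]
  {A B : Type} [AddCommGroup A] [Module T A] [AddCommGroup B] [Module T B]

theorem tw_inv (S : SL T A G) (e : G) (t : T) : S.tw e (S.tw e⁻¹ t) = t := by
  have h : S.tw e * S.tw e⁻¹ = 1 := by rw [← map_mul, mul_inv_cancel, map_one]
  have h2 : (S.tw e * S.tw e⁻¹) t = t := by rw [h]; rfl
  exact h2

theorem act_mul (S : SL T A G) (a b : G) (x : A) : S.act (a * b) x = S.act a (S.act b x) := by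
  rw [map_mul]; rfl

theorem act_one (S : SL T A G) (x : A) : S.act 1 x = x := by
  rw [map_one]; rfl

theorem act_inv (S : SL T A G) (e : G) (x : A) : S.act e⁻¹ (S.act e x) = x := by
  rw [← act_mul, inv_mul_cancel, act_one]

theorem act_inv' (S : SL T A G) (e : G) (x : A) : S.act e (S.act e⁻¹ x) = x := by
  rw [← act_mul, mul_inv_cancel, act_one]

/-- Transport of a linear map along two semilinear actions with the same twist. -/
def hm (S1 : SL T A G) (S2 : SL T B G) (h : S1.tw = S2.tw) (e : G) (f : A →ₗ[T] B) :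
    A →ₗ[T] B where
  toFun w := S2.act e (f (S1.act e⁻¹ w))
  map_add' a b := by rw [map_add, map_add, map_add]
  map_smul' t w := by
    rw [S1.act_smul, map_smul, S2.act_smul, h, tw_inv]
    rfl

theorem hm_apply (S1 : SL T A G) (S2 : SL T B G) (h : S1.tw = S2.tw) (e : G) (f : A →ₗ[T] B)
    (w : A) : hm S1 S2 h e f w = S2.act e (f (S1.act e⁻¹ w)) := rfl

theorem hm_one (S1 : SL T A G) (S2 : SL T B G) (h : S1.tw = S2.tw) (f : A →ₗ[T] B) :
    hm S1 S2 h 1 f = f := by
  ext w
  rw [hm_apply, inv_one, act_one, act_one]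

theorem hm_mul (S1 : SL T A G) (S2 : SL T B G) (h : S1.tw = S2.tw) (a b : G) (f : A →ₗ[T] B) :
    hm S1 S2 h (a * b) f = hm S1 S2 h a (hm S1 S2 h b f) := by
  ext w
  rw [hm_apply, hm_apply, hm_apply, mul_inv_rev, act_mul, act_mul]

theorem hm_add (S1 : SL T A G) (S2 : SL T B G) (h : S1.tw = S2.tw) (a : G) (f g : A →ₗ[T] B) :
    hm S1 S2 h a (f + g) = hm S1 S2 h a f + hm S1 S2 h a g := by
  ext w
  rw [LinearMap.add_apply, hm_apply, hm_apply, hm_apply, LinearMap.add_apply, map_add]

theorem hm_comp (S1 : SL T A G) (S2 : SL T B G) (h : S1.tw = S2.tw) (a : G) (f : A →ₗ[T] B)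
    (k : A →ₗ[T] A) : hm S1 S2 h a (f ∘ₗ k) = hm S1 S2 h a f ∘ₗ hm S1 S1 rfl a k := by
  ext w
  rw [LinearMap.comp_apply, hm_apply, hm_apply, hm_apply, act_inv, LinearMap.comp_apply]

/-- The additive automorphism of the space of maps. -/
def hmE (S1 : SL T A G) (S2 : SL T B G) (h : S1.tw = S2.tw) (e : G) :
    (A →ₗ[T] B) ≃+ (A →ₗ[T] B) where
  toFun := hm S1 S2 h e
  invFun := hm S1 S2 h e⁻¹
  left_inv f := by rw [← hm_mul, inv_mul_cancel, hm_one]
  right_inv f := by rw [← hm_mul, mul_inv_cancel, hm_one]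
  map_add' := hm_add S1 S2 h e

/-- Conjugation on the opposite endomorphism ring. -/
def cj (S1 : SL T A G) (e : G) : (Module.End T A)ᵐᵒᵖ ≃+* (Module.End T A)ᵐᵒᵖ where
  toFun κ := MulOpposite.op (hm S1 S1 rfl e κ.unop)
  invFun κ := MulOpposite.op (hm S1 S1 rfl e⁻¹ κ.unop)
  left_inv κ := by
    simp only [MulOpposite.unop_op]
    rw [← hm_mul, inv_mul_cancel, hm_one, MulOpposite.op_unop]
  right_inv κ := by
    simp only [MulOpposite.unop_op]
    rw [← hm_mul, mul_inv_cancel, hm_one, MulOpposite.op_unop]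
  map_mul' a b := by
    rw [← MulOpposite.op_mul, MulOpposite.unop_mul]
    exact congrArg MulOpposite.op (hm_comp S1 S1 rfl e b.unop a.unop)
  map_add' a b := by
    rw [← MulOpposite.op_add, MulOpposite.unop_add]
    exact congrArg MulOpposite.op (hm_add S1 S1 rfl e a.unop b.unop)

/-- Composition on the right as a module structure. -/
@[reducible] def cmod (T : Type) [Ring T] (A B : Type) [AddCommGroup A] [Module T A]
    [AddCommGroup B] [Module T B] : Module (Module.End T A)ᵐᵒᵖ (A →ₗ[T] B) where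
  smul κ f := f ∘ₗ κ.unop
  one_smul _ := rfl
  mul_smul _ _ _ := rfl
  smul_zero _ := rfl
  smul_add _ _ _ := rfl
  add_smul a b f := LinearMap.comp_add a.unop b.unop f
  zero_smul f := LinearMap.comp_zero f

/-- The semilinear action on the space of maps. -/
def homSL (S1 : SL T A G) (S2 : SL T B G) (h : S1.tw = S2.tw) :
    @SL (Module.End T A)ᵐᵒᵖ (A →ₗ[T] B) G _ _ (cmod T A B) _ :=
  letI := cmod T A B
  { act :=
      { toFun := fun e => (hmE S1 S2 h e).toIntLinearEquiv
        map_one' := LinearEquiv.ext fun f => hm_one S1 S2 h f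
        map_mul' := fun a b => LinearEquiv.ext fun f => hm_mul S1 S2 h a b f }
    tw :=
      { toFun := fun e => cj S1 e
        map_one' := RingEquiv.ext fun κ =>
          (congrArg MulOpposite.op (hm_one S1 S1 rfl κ.unop)).trans (MulOpposite.op_unop κ)
        map_mul' := fun a b => RingEquiv.ext fun κ =>
          congrArg MulOpposite.op (hm_mul S1 S1 rfl a b κ.unop) }
    act_smul := fun e κ f => hm_comp S1 S2 h e f κ.unop }

end Hom

variable {T M : Type} [Ring T] [AddCommGroup M] [Module T M] {E : Type} [Group E]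

/-- The group of pairs. -/
def pairs (S : SL T M E) (W : Submodule T M) (H : Subgroup E) :
    Subgroup (E × (W ≃ₗ[ℤ] W)) where
  carrier := {q | q.1 ∈ H ∧ ∀ (t : T) (w : W), q.2 (t • w) = S.tw q.1 t • q.2 w}
  one_mem' := ⟨H.one_mem, fun t w => by
    have : S.tw (1 : E × (W ≃ₗ[ℤ] W)).1 t = t := by
      rw [Prod.fst_one, map_one]; rfl
    rw [this]; rfl⟩
  mul_mem' := fun {a b} ha hb => ⟨H.mul_mem ha.1 hb.1, fun t w => by
    have h1 : S.tw (a * b).1 t = S.tw a.1 (S.tw b.1 t) := by
      rw [Prod.fst_mul, map_mul]; rfl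
    have h2 : ∀ v : W, (a * b).2 v = a.2 (b.2 v) := fun _ => rfl
    rw [h1, h2, h2, hb.2, ha.2]⟩
  inv_mem' := fun {a} ha => ⟨H.inv_mem ha.1, fun t w => by
    have h2 : ∀ v : W, (a⁻¹).2 v = a.2.symm v := fun _ => rfl
    rw [h2, h2]
    apply a.2.injective
    rw [LinearEquiv.apply_symm_apply, ha.2, LinearEquiv.apply_symm_apply, Prod.fst_inv, tw_inv]⟩

/-- First projection. -/
def pr (S : SL T M E) (W : Submodule T M) (H : Subgroup E) : pairs S W H →* E :=
  (MonoidHom.fst _ _).comp (pairs S W H).subtype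

/-- The pairs act on `W`. -/
def onW (S : SL T M E) (W : Submodule T M) (H : Subgroup E) : SL T W (pairs S W H) where
  act := (MonoidHom.snd _ _).comp (pairs S W H).subtype
  tw := S.tw.comp (pr S W H)
  act_smul e t w := e.2.2 t w

end Cl1x

open Cl1x

variable {T M : Type} [Ring T] [AddCommGroup M] [Module T M] {E : Type} [Group E]

theorem cliff_data (S : SL T M E) (W : Submodule T M) [IsSimpleModule T W] (H : Subgroup E)
    (hH : ∀ e ∈ H, ∃ θ : W ≃+ W, ∀ (t : T) (w : W), θ (t • w) = S.tw e t • θ w) :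
    ∃ (D2 : Type) (_ : DivisionRing D2) (_ : Module D2 (W →ₗ[T] M)) (E2 : Type) (_ : Group E2)
      (p : E2 →* E) (S2 : SL D2 (W →ₗ[T] M) E2), EndSc W D2 ∧ p.range = H ∧
      (∀ e2, ∃ θ : W ≃+ W, ∀ (f : W →ₗ[T] M) (w : W),
        S2.act e2 f (θ w) = S.act (p e2) (f w)) ∧
      (∀ (e2 : E2) (t : T), (∀ x : M, S.act (p e2) x = t • x) →
        ∃ κ : D2, ∀ f, S2.act e2 f = κ • f) := by
  classical
  letI : DivisionRing (Module.End T W) := Module.End.instDivisionRing
  letI dr : DivisionRing (Module.End T W)ᵐᵒᵖ := inferInstance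
  letI md : Module (Module.End T W)ᵐᵒᵖ (W →ₗ[T] M) := cmod T W M
  have hact : ∀ (e2 : pairs S W H) (f : W →ₗ[T] M) (w : W),
      (homSL (onW S W H) (S.comap (pr S W H)) rfl).act e2 f w =
        S.act (pr S W H e2) (f ((onW S W H).act e2⁻¹ w)) := fun _ _ _ => rfl
  refine ⟨(Module.End T W)ᵐᵒᵖ, dr, md, pairs S W H, inferInstance, pr S W H,
    homSL (onW S W H) (S.comap (pr S W H)) rfl, ⟨fun κ => ⟨κ.unop, fun _ => rfl⟩,
      fun k => ⟨MulOpposite.op k, fun _ => rfl⟩⟩, ?_, ?_, ?_⟩
  · ext e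
    constructor
    · rintro ⟨q, rfl⟩
      exact q.2.1
    · intro he
      obtain ⟨θ, hθ⟩ := hH e he
      exact ⟨⟨(e, θ.toIntLinearEquiv), he, hθ⟩, rfl⟩
  · intro e2
    refine ⟨((onW S W H).act e2).toAddEquiv, fun f w => ?_⟩
    refine (hact e2 f _).trans ?_
    have : (onW S W H).act e2⁻¹ (((onW S W H).act e2).toAddEquiv w) = w := act_inv _ e2 w
    rw [this]
  · intro e2 t ht
    let k : W →ₗ[T] W :=
      { toFun := fun w => t • (onW S W H).act e2⁻¹ w
        map_add' := fun a b => by rw [map_add, smul_add]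
        map_smul' := fun r w => by
          apply Subtype.ext
          rw [(onW S W H).act_smul]
          have h1 : (onW S W H).tw e2⁻¹ r = S.tw (pr S W H e2)⁻¹ r := by
            rw [← map_inv]; rfl
          simp only [RingHom.id_apply, Submodule.coe_smul]
          rw [h1, ← ht, ← ht, S.act_smul, tw_inv] }
    refine ⟨MulOpposite.op k, fun f => ?_⟩
    apply LinearMap.ext
    intro w
    refine (hact e2 f w).trans ?_
    rw [ht, ← map_smul]
    rfl

theorem theta_of_sim (S : SL T M E) (x : M) [IsSimpleModule T (Submodule.span T {x})] (e : E)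
    (h : Sim T x (S.act e x)) :
    ∃ θ : Submodule.span T {x} ≃+ Submodule.span T {x},
      ∀ (t : T) (w : Submodule.span T {x}), θ (t • w) = S.tw e t • θ w := by
  classical
  obtain ⟨s, t, hs, hst⟩ := h
  let x0 : Submodule.span T {x} := ⟨x, Submodule.mem_span_singleton_self x⟩
  let a : Submodule.span T {x} := s • x0
  let b : Submodule.span T {x} := S.tw e⁻¹ t • x0
  have key : ∀ r : T, r • b = 0 ↔ S.tw e r • a = 0 := by
    intro r
    have h1 : S.act e (r • S.tw e⁻¹ t • x) = S.tw e r • t • S.act e x := by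
      rw [S.act_smul, S.act_smul, tw_inv]
    have h2 : r • b = 0 ↔ r • S.tw e⁻¹ t • x = 0 := Subtype.ext_iff
    have h3 : S.tw e r • a = 0 ↔ S.tw e r • s • x = 0 := Subtype.ext_iff
    rw [h2, h3, hst, ← h1]
    exact (map_eq_zero_iff (S.act e) (S.act e).injective).symm
  have ha : a ≠ 0 := fun h0 => hs (congrArg Subtype.val h0)
  have hb : b ≠ 0 := by
    intro h0
    have := (key 1).1 (by rw [h0, smul_zero])
    rw [map_one, one_smul] at this
    exact ha this
  have gen : ∀ c : Submodule.span T {x}, c ≠ 0 → ∀ w : Submodule.span T {x},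
      ∃ r : T, r • c = w := by
    intro c hc w
    have h1 : Submodule.span T {c} = ⊤ := by
      rcases eq_bot_or_eq_top (Submodule.span T {c}) with h | h
      · exact absurd (Submodule.span_singleton_eq_bot.1 h) hc
      · exact h
    have h2 : w ∈ Submodule.span T {c} := by rw [h1]; trivial
    exact Submodule.mem_span_singleton.1 h2
  choose c hc using gen b hb
  have hθ : ∀ r : T, S.tw e (c (r • b)) • a = S.tw e r • a := by
    intro r
    have h1 : (c (r • b) - r) • b = 0 := by rw [sub_smul, hc, sub_self]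
    have h2 := (key _).1 h1
    rw [map_sub, sub_smul] at h2
    exact sub_eq_zero.1 h2
  let θ0 : Submodule.span T {x} →+ Submodule.span T {x} :=
    AddMonoidHom.mk' (fun w => S.tw e (c w) • a) (by
      intro u v
      have h1 : u + v = (c u + c v) • b := by rw [add_smul, hc, hc]
      show S.tw e (c (u + v)) • a = S.tw e (c u) • a + S.tw e (c v) • a
      rw [h1, hθ, map_add, add_smul])
  have hθ0 : ∀ w, θ0 w = S.tw e (c w) • a := fun _ => rfl
  have hbij : Function.Bijective θ0 := by
    constructor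
    · rw [injective_iff_map_eq_zero]
      intro w hw
      rw [hθ0] at hw
      rw [← hc w]
      exact (key _).2 hw
    · intro w
      obtain ⟨r, hr⟩ := gen a ha w
      refine ⟨S.tw e⁻¹ r • b, ?_⟩
      rw [hθ0, hθ, tw_inv, hr]
  refine ⟨AddEquiv.ofBijective θ0 hbij, fun r w => ?_⟩
  show θ0 (r • w) = S.tw e r • θ0 w
  have h1 : r • w = (r * c w) • b := by rw [mul_smul, hc]
  rw [hθ0, hθ0, h1, hθ, map_mul, mul_smul]

end Pool.Agent.Lib.MP_721660_al.Ht
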