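import Pool.Agent.Lib.MP_721660_al.Ht.Defs

set_option autoImplicit false

namespace Pool.Agent.Lib.MP_721660_al.Ht

variable {T M : Type} [Ring T] [AddCommGroup M] [Module T M]

theorem Crit.smul {x : M} (hx : Crit T x) (t : T) (h : t • x ≠ 0) : Crit T (t • x) := by
  refine ⟨h, fun t' y hy H => ?_, fun s s2 h1 h2 => ?_⟩
  · have := hx.2.1 (t' * t) y hy (by simpa only [mul_smul] using H)
    simpa only [mul_smul] using this
  · have := hx.2.2 (s * t) (s2 * t) (by simpa only [mul_smul] using h1)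
      (by simpa only [mul_smul] using h2)
    simpa only [mul_smul] using this

theorem Crit.of_ann {x y : M} (hx : Crit T x) (h : ∀ r : T, r • x = 0 ↔ r • y = 0) :
    Crit T y := by
  have h2 : ∀ r t : T, r • t • x = 0 ↔ r • t • y = 0 := fun r t => by
    simpa only [mul_smul] using h (r * t)
  refine ⟨fun h0 => hx.1 ?_, fun t z hz H r hr => ?_, fun s t h3 h4 => ?_⟩
  · simpa using (h 1).2 (by simpa using h0)
  · exact (h2 r t).1 (hx.2.1 t z hz (fun r' hr' => H r' ((h2 r' t).1 hr')) r hr)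
  · obtain ⟨s', t', e, hne⟩ := hx.2.2 s t (fun h0 => h3 ((h s).1 h0)) (fun h0 => h4 ((h t).1 h0))
    refine ⟨s', t', ?_, fun h0 => hne ((h2 s' s).2 h0)⟩
    have := (h (s' * s - t' * t)).1 (by rw [sub_smul, mul_smul, mul_smul, e, sub_self])
    rwa [sub_smul, mul_smul, mul_smul, sub_eq_zero] at this

theorem Sim.refl {x : M} (hx : x ≠ 0) : Sim T x x :=
  ⟨1, 1, by simpa using hx, fun _ => Iff.rfl⟩

theorem Sim.symm {x y : M} (h : Sim T x y) : Sim T y x := by
  obtain ⟨s, t, h0, H⟩ := h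
  refine ⟨t, s, fun h1 => h0 ?_, fun r => (H r).symm⟩
  simpa using (H 1).2 (by simpa using h1)

theorem Sim.trans {x y z : M} (hy : Crit T y) (h1 : Sim T x y) (h2 : Sim T y z) :
    Sim T x z := by
  obtain ⟨s, t, h0, H⟩ := h1
  obtain ⟨s2, t2, h0', H'⟩ := h2
  have hty : t • y ≠ 0 := fun h1 => h0 (by simpa using (H 1).2 (by simpa using h1))
  obtain ⟨s', t', e, hne⟩ := hy.2.2 t s2 hty h0'
  refine ⟨s' * s, t' * t2, fun h3 => hne ((H s').1 (by rwa [mul_smul] at h3)), fun r => ?_⟩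
  have a1 := H (r * s')
  have a2 := H' (r * t')
  simp only [mul_smul] at a1 a2 ⊢
  rw [a1, e, a2]

theorem sim_smul {x : M} (t : T) (h : t • x ≠ 0) : Sim T x (t • x) :=
  ⟨t, 1, h, fun r => by rw [one_smul]⟩

theorem cr2_smul {E : Type} [Group E] (S : SL T M E) (e : E) (r : T) (x : M) :
    r • S.act e x = S.act e ((S.tw e).symm r • x) := by
  rw [S.act_smul, RingEquiv.apply_symm_apply]

theorem cr2_zero {E : Type} [Group E] (S : SL T M E) (e : E) (x : M) :
    S.act e x = 0 ↔ x = 0 := (S.act e).map_eq_zero_iff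

theorem Crit.act {E : Type} [Group E] (S : SL T M E) (e : E) {x : M} (hx : Crit T x) :
    Crit T (S.act e x) := by
  refine ⟨fun h0 => hx.1 ((cr2_zero S e x).1 h0), fun t y hy H r hr => ?_, fun s t h3 h4 => ?_⟩
  · obtain ⟨y0, rfl⟩ := (S.act e).surjective y
    rw [cr2_smul, cr2_zero] at hr
    rw [cr2_smul, cr2_smul, cr2_zero]
    refine hx.2.1 _ y0 (fun h0 => hy ((cr2_zero S e y0).2 h0)) (fun r' hr' => ?_) _ hr
    have := H (S.tw e r') (by
      rw [cr2_smul, cr2_smul, cr2_zero, RingEquiv.symm_apply_apply]; exact hr')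
    rwa [cr2_smul, cr2_zero, RingEquiv.symm_apply_apply] at this
  · rw [cr2_smul] at h3 h4
    obtain ⟨s', t', e1, hne⟩ := hx.2.2 _ _ (fun h0 => h3 ((cr2_zero S e _).2 h0))
      (fun h0 => h4 ((cr2_zero S e _).2 h0))
    refine ⟨S.tw e s', S.tw e t', ?_, ?_⟩
    · rw [cr2_smul S e s, cr2_smul S e t, ← S.act_smul, ← S.act_smul, e1]
    · rw [cr2_smul S e s, ← S.act_smul]
      exact fun h0 => hne ((cr2_zero S e _).1 h0)

theorem Sim.act {E : Type} [Group E] (S : SL T M E) (e : E) {x y : M} (h : Sim T x y) :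
    Sim T (S.act e x) (S.act e y) := by
  obtain ⟨s, t, h0, H⟩ := h
  refine ⟨S.tw e s, S.tw e t, ?_, fun r => ?_⟩
  · rw [← S.act_smul]
    exact fun h1 => h0 ((cr2_zero S e _).1 h1)
  · rw [← S.act_smul, ← S.act_smul, cr2_smul, cr2_smul, cr2_zero, cr2_zero]
    exact H _

theorem exists_stab {E : Type} [Group E] (S : SL T M E) {x : M} (hx : Crit T x) :
    ∃ H : Subgroup E, ∀ e, e ∈ H ↔ Sim T x (S.act e x) := by
  have hm : ∀ a b : E, S.act (a * b) x = S.act a (S.act b x) := fun a b => by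
    rw [map_mul]; rfl
  refine ⟨{ carrier := {e | Sim T x (S.act e x)}
            mul_mem' := fun {a b} ha hb => ?_
            one_mem' := ?_
            inv_mem' := fun {a} ha => ?_ }, fun e => Iff.rfl⟩
  · change Sim T x (S.act (a * b) x)
    rw [hm]
    exact Sim.trans (hx.act S a) ha (Sim.act S a hb)
  · change Sim T x (S.act 1 x)
    rw [map_one]
    exact Sim.refl hx.1
  · change Sim T x (S.act a⁻¹ x)
    have h1 := Sim.act S a⁻¹ (show Sim T x (S.act a x) from ha)
    rw [← hm, inv_mul_cancel, map_one] at h1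
    exact Sim.symm h1

end Pool.Agent.Lib.MP_721660_al.Ht
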