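import Pool.Agent.Lib.MP_721660_al.Ht.Ser2

set_option autoImplicit false

namespace Pool.Agent.Lib.MP_721660_al.Ht

variable {E : Type} [Group E] {Γ : Type} [Group Γ] {π : E →* Γ} {A : Subgroup E} {m : ℕ} {β : E → Zm m}
  {φ : E →* (Zm m ≃ₗ[ℤ] Zm m)}

theorem ser4_poly {n : ℕ} {H : Subgroup Γ} (h : Ser n H) : Poly H n := by
  have h1 := h.comap H.subtype H.subtype_injective (by rw [Subgroup.range_subtype])
  rwa [Subgroup.comap_subtype, Subgroup.subgroupOf_self] at h1

theorem poly_sub {n : ℕ} (h : Poly Γ n) (H : Subgroup Γ) : Poly H n := by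
  have h1 := (Ser.sub h H).1
  rw [top_inf_eq] at h1
  exact ser4_poly h1

theorem poly_inf_index {n : ℕ} (h : Poly Γ n) (π : E →* Γ) (H : Subgroup E) (hk : π.ker ≤ H)
    (hi : H.index = 0) : ∃ n' < n, Poly (H.map π) n' := by
  have h0 : (H.map π).index = 0 := by
    rw [Subgroup.index_map, sup_eq_left.2 hk, hi, zero_mul]
  obtain ⟨n', hn, h1⟩ := (Ser.sub h (H.map π)).2 (by rwa [Subgroup.relIndex_top_right])
  rw [top_inf_eq] at h1
  exact ⟨n', hn, ser4_poly h1⟩

theorem poly_quot {n : ℕ} (h : Poly Γ n) (hP : Plinth π A m β φ) [A.Normal] :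
    ∃ n' < n, Poly (E ⧸ A) n' := by
  have hk : π.rangeRestrict.ker ≤ (QuotientGroup.mk' A).ker := by
    rw [MonoidHom.ker_rangeRestrict, QuotientGroup.ker_mk']
    exact hP.ker_le
  obtain ⟨f, hf⟩ : ∃ f : π.range →* E ⧸ A,
      ∀ e, f (π.rangeRestrict e) = QuotientGroup.mk' A e :=
    ⟨π.rangeRestrict.liftOfSurjective π.rangeRestrict_surjective ⟨QuotientGroup.mk' A, hk⟩,
      fun e => MonoidHom.liftOfRightInverse_comp_apply _ _ _ _ e⟩
  have hs : Function.Surjective f := by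
    intro q
    obtain ⟨e, rfl⟩ := QuotientGroup.mk'_surjective A q
    exact ⟨_, hf e⟩
  choose a ha hβ using hP.surj
  have : Nonempty (Fin m) := ⟨⟨0, hP.pos⟩⟩
  have hinf : (((⊤ : Subgroup π.range) ⊓ f.ker : Subgroup π.range) : Set π.range).Infinite := by
    refine Set.infinite_of_injective_forall_mem (f := fun v : Zm m => π.rangeRestrict (a v)) ?_ ?_
    · intro v w hvw
      have h1 : π (a v) = π (a w) := congrArg Subtype.val hvw
      have hm : (a v)⁻¹ * a w ∈ A := mul_mem (inv_mem (ha v)) (ha w)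
      have h2 : β ((a v)⁻¹ * a w) = 0 :=
        (hP.zero_iff _ hm).2 (by rw [map_mul, map_inv, h1, inv_mul_cancel])
      have h3 := hP.add _ (ha v) _ hm
      rw [mul_inv_cancel_left, h2, add_zero, hβ, hβ] at h3
      exact h3.symm
    · intro v
      refine ⟨trivial, ?_⟩
      change f (π.rangeRestrict (a v)) = 1
      rw [hf]
      exact (QuotientGroup.eq_one_iff _).2 (ha v)
  obtain ⟨n', hn, h1⟩ := (Ser.map (poly_sub h π.range) f).2 hinf
  rw [Subgroup.map_top_of_surjective f hs] at h1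
  exact ⟨n', hn, h1⟩

end Pool.Agent.Lib.MP_721660_al.Ht
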