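import Pool.Agent.Lib.MP_721660_al.Ht.Hilb
import Pool.Agent.Lib.MP_721660_al.Ht.Ser4
import Pool.Agent.Lib.MP_721660_al.Ht.RgB

set_option autoImplicit false

namespace Pool.Agent.Lib.MP_721660_al.Ht

namespace Noex

variable {S0 E Γ : Type} [Ring S0] [Group E] [Group Γ]

theorem conj_closure (y : S0ˣ) (s : Set S0)
    (h : ∀ r ∈ s, (y : S0) * r * ↑y⁻¹ ∈ Subring.closure s) :
    ∀ r ∈ Subring.closure s, (y : S0) * r * ↑y⁻¹ ∈ Subring.closure s := by
  intro r hr
  induction hr using Subring.closure_induction with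
  | mem x hx => exact h x hx
  | zero => simp
  | one => simp
  | add a b _ _ ha hb =>
    rw [mul_add, add_mul]
    exact add_mem ha hb
  | neg a _ ha =>
    rw [mul_neg, neg_mul]
    exact neg_mem ha
  | mul a b _ _ ha hb =>
    have e : (y : S0) * (a * b) * ↑y⁻¹ = ((y : S0) * a * ↑y⁻¹) * ((y : S0) * b * ↑y⁻¹) := by
      simp [mul_assoc]
    rw [e]
    exact mul_mem ha hb

/-- the ring generated by `R` and the elements over `H` -/
def RH (R : Subring S0) (υ : E →* S0ˣ) (π : E →* Γ) (H : Subgroup Γ) : Subring S0 :=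
  Subring.closure ((R : Set S0) ∪ {s | ∃ e, π e ∈ H ∧ s = (υ e : S0)})

variable {R : Subring S0} {υ : E →* S0ˣ} {π : E →* Γ}

theorem mem_R (H : Subgroup Γ) {r : S0} (hr : r ∈ R) : r ∈ RH R υ π H :=
  Subring.subset_closure (Or.inl hr)

theorem mem_u {H : Subgroup Γ} {e : E} (he : π e ∈ H) : (υ e : S0) ∈ RH R υ π H :=
  Subring.subset_closure (Or.inr ⟨e, he, rfl⟩)

theorem RH_le {H : Subgroup Γ} {T : Subring S0} (h1 : ∀ r ∈ R, r ∈ T)
    (h2 : ∀ e, π e ∈ H → (υ e : S0) ∈ T) : RH R υ π H ≤ T := by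
  refine Subring.closure_le.2 ?_
  rintro s (hs | ⟨e, he, rfl⟩)
  · exact h1 s hs
  · exact h2 e he

theorem RH_conj (hn : ∀ e, ∀ r ∈ R, (υ e : S0) * r * ↑(υ e)⁻¹ ∈ R) {K : Subgroup Γ} {e : E}
    (he : ∀ k ∈ K, π e * k * (π e)⁻¹ ∈ K) :
    ∀ r ∈ RH R υ π K, (υ e : S0) * r * ↑(υ e)⁻¹ ∈ RH R υ π K := by
  refine conj_closure _ _ ?_
  rintro s (hs | ⟨f, hf, rfl⟩)
  · exact mem_R K (hn e s hs)
  · have k : (υ (e * f * e⁻¹) : S0) ∈ RH R υ π K :=
      mem_u (by rw [map_mul, map_mul, map_inv]; exact he _ hf)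
    rw [map_mul, map_mul, map_inv, Units.val_mul, Units.val_mul] at k
    exact k

theorem step (hn : ∀ e, ∀ r ∈ R, (υ e : S0) * r * ↑(υ e)⁻¹ ∈ R) {K H : Subgroup Γ} (t : E)
    (hKH : K ≤ H) (ht : π t ∈ H) (hc : ∀ h ∈ H, ∀ k ∈ K, h * k * h⁻¹ ∈ K)
    (hz : ∀ h ∈ H, ∃ k ∈ K, ∃ z : ℤ, h = k * π t ^ z) (hK : IsNoetherianRing (RH R υ π K)) :
    IsNoetherianRing (RH R υ π H) := by
  have ht' : π t⁻¹ ∈ H := by rw [map_inv]; exact H.inv_mem ht
  have c1 := RH_conj hn (hc _ ht)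
  have c2 := RH_conj hn (hc _ ht')
  rw [map_inv υ, inv_inv] at c2
  have n2 := hilb (RH R υ π K) (υ t) fun r hr => ⟨c1 r hr, c2 r hr⟩
  have d1 := conj_closure (υ t) ((RH R υ π K : Set S0) ∪ {((υ t : S0ˣ) : S0)}) (by
    rintro s (hs | hs)
    · exact Subring.subset_closure (Or.inl (c1 s hs))
    · rw [Set.mem_singleton_iff.1 hs, Units.mul_inv_cancel_right]
      exact Subring.subset_closure (Or.inr rfl))
  have d2 := conj_closure (υ t)⁻¹ ((RH R υ π K : Set S0) ∪ {((υ t : S0ˣ) : S0)}) (by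
    rintro s (hs | hs)
    · rw [inv_inv]
      exact Subring.subset_closure (Or.inl (c2 s hs))
    · rw [Set.mem_singleton_iff.1 hs, inv_inv, Units.inv_mul, one_mul]
      exact Subring.subset_closure (Or.inr rfl))
  have n3 := hilb (Subring.closure ((RH R υ π K : Set S0) ∪ {((υ t : S0ˣ) : S0)})) (υ t)⁻¹
    fun r hr => ⟨d2 r hr, by rw [inv_inv]; exact d1 r hr⟩
  have e : Subring.closure (((Subring.closure ((RH R υ π K : Set S0) ∪ {((υ t : S0ˣ) : S0)}) :
      Subring S0) : Set S0) ∪ {(((υ t)⁻¹ : S0ˣ) : S0)}) = RH R υ π H := by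
    refine le_antisymm (Subring.closure_le.2 ?_) (RH_le (fun r hr => ?_) fun e he => ?_)
    · rintro s (hs | hs)
      · refine (Subring.closure_le.2 ?_ : _ ≤ RH R υ π H) hs
        rintro s (hs | hs)
        · exact RH_le (fun r hr => mem_R H hr) (fun e he => mem_u (hKH he)) hs
        · rw [Set.mem_singleton_iff.1 hs]
          exact mem_u ht
      · rw [Set.mem_singleton_iff.1 hs, ← map_inv]
        exact mem_u ht'
    · exact Subring.subset_closure (Or.inl (Subring.subset_closure (Or.inl (mem_R K hr))))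
    · obtain ⟨k, hk, z, e1⟩ := hz _ he
      have e2 : π (e * (t ^ z)⁻¹) ∈ K := by
        rw [map_mul, map_inv, map_zpow, e1, mul_inv_cancel_right]
        exact hk
      have e3 : (υ e : S0) = (υ (e * (t ^ z)⁻¹) : S0) * ((υ t ^ z : S0ˣ) : S0) := by
        rw [← map_zpow, ← Units.val_mul, ← map_mul, inv_mul_cancel_right]
      rw [e3]
      refine mul_mem
        (Subring.subset_closure (Or.inl (Subring.subset_closure (Or.inl (mem_u e2))))) ?_
      obtain ⟨j, rfl | rfl⟩ := Int.eq_nat_or_neg z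
      · rw [zpow_natCast, Units.val_pow_eq_pow_val]
        refine Subring.pow_mem _ ?_ j
        exact Subring.subset_closure (Or.inl (Subring.subset_closure (Or.inr rfl)))
      · rw [zpow_neg, zpow_natCast, ← inv_pow, Units.val_pow_eq_pow_val]
        refine Subring.pow_mem _ ?_ j
        exact Subring.subset_closure (Or.inr rfl)
  rw [← e]
  exact n3

theorem ser [IsNoetherianRing R] (hn : ∀ e, ∀ r ∈ R, (υ e : S0) * r * ↑(υ e)⁻¹ ∈ R)
    (hk : ∀ e ∈ π.ker, (υ e : S0) ∈ R) {n : ℕ} {H : Subgroup Γ} (h : Ser n H) :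
    H ≤ π.range → IsNoetherianRing (RH R υ π H) := by
  induction h with
  | bot n =>
    intro _
    have e : RH R υ π ⊥ = R :=
      le_antisymm (RH_le (fun r hr => hr) fun e he => hk e (Subgroup.mem_bot.1 he))
        fun r hr => mem_R _ hr
    rw [e]
    infer_instance
  | fin t _ hKH ht hc hz _ ih =>
    intro hH
    obtain ⟨t', rfl⟩ := hH ht
    exact step hn t' hKH ht hc hz (ih (hKH.trans hH))
  | inf t _ hKH ht hc hz ih =>
    intro hH
    obtain ⟨t', rfl⟩ := hH ht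
    exact step hn t' hKH ht hc hz (ih (hKH.trans hH))

end Noex

theorem noeth_ser {S0 E Γ : Type} [Ring S0] [Group E] [Group Γ] (R : Subring S0)
    [IsNoetherianRing R] (υ : E →* S0ˣ) (π : E →* Γ)
    (hn : ∀ e, ∀ r ∈ R, (υ e : S0) * r * ↑(υ e)⁻¹ ∈ R) (hk : ∀ e ∈ π.ker, (υ e : S0) ∈ R)
    {n : ℕ} (h : Poly Γ n) :
    IsNoetherianRing (Subring.closure ((R : Set S0) ∪ Set.range fun e => (υ e : S0))) := by
  have k := Noex.ser hn hk (Ser.sub h π.range).1 inf_le_right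
  have e : Noex.RH R υ π (⊤ ⊓ π.range) =
      Subring.closure ((R : Set S0) ∪ Set.range fun e => (υ e : S0)) := by
    unfold Noex.RH
    congr 2
    ext s
    exact ⟨fun ⟨e, _, he⟩ => ⟨e, he.symm⟩, fun ⟨e, he⟩ => ⟨e, ⟨trivial, e, rfl⟩, he.symm⟩⟩
  rw [← e]
  exact k

theorem noeth_rg {D M E : Type} [DivisionRing D] [AddCommGroup M] [Module D M] [Group E]
    {Γ : Type} [Group Γ] (S : SL D M E) (π : E →* Γ) {n : ℕ} (h : Poly Γ n)
    (hs : S.Scal π.ker) (H : Subgroup E) : IsNoetherianRing (S.rg (H : Set E)) := by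
  let f : H →* Module.End ℤ M :=
    { toFun := fun e => S.op e.1
      map_one' := by
        refine LinearMap.ext fun x => ?_
        change S.act 1 x = x
        rw [map_one]; rfl
      map_mul' := fun a b => LinearMap.ext fun x => act_mul S a.1 b.1 x }
  have k := noeth_ser S.scal.range f.toHomUnits (π.comp H.subtype) (by
    rintro e r ⟨d, rfl⟩
    refine ⟨S.tw e.1 d, LinearMap.ext fun x => ?_⟩
    rw [← map_inv]
    change S.tw e.1 d • x = S.act e.1 (d • S.act (e.1)⁻¹ x)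
    rw [S.act_smul, ← act_mul, mul_inv_cancel, map_one]
    rfl) (by
    intro e he
    obtain ⟨d, hd⟩ := hs e.1 he
    exact ⟨d, LinearMap.ext fun x => (hd x).symm⟩) h
  have e : S.rg (H : Set E) = Subring.closure ((S.scal.range : Set (Module.End ℤ M)) ∪
      Set.range fun e => (f.toHomUnits e : Module.End ℤ M)) := by
    unfold SL.rg
    congr 2
    ext s
    exact ⟨fun ⟨e, he, k⟩ => ⟨⟨e, he⟩, k⟩, fun ⟨e, k⟩ => ⟨e.1, e.2, k⟩⟩
  rw [e]
  exact k

end Pool.Agent.Lib.MP_721660_al.Ht
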