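import Pool.Agent.Lib.MP_721660_al.Ht.Rel

set_option autoImplicit false

namespace Pool.Agent.Lib.MP_721660_al.Ht

variable {D M E : Type} [DivisionRing D] [AddCommGroup M] [Module D M] [Group E]

namespace Indx

theorem smul_act (S : SL D M E) (g : E) (d : D) (y : M) :
    d • S.act g y = S.act g ((S.tw g).symm d • y) := by
  rw [S.act_smul, RingEquiv.apply_symm_apply]

theorem act_one (S : SL D M E) (x : M) : S.act 1 x = x := by
  rw [map_one]; rfl

/-- the sum of the translates by elements outside `H` -/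
def Cs (S : SL D M E) (H : Subgroup E) (N : Submodule D M) : Submodule D M where
  carrier := AddSubgroup.closure {z | ∃ g : E, g ∉ H ∧ ∃ y ∈ N, z = S.act g y}
  add_mem' := fun ha hb => AddSubgroup.add_mem _ ha hb
  zero_mem' := AddSubgroup.zero_mem _
  smul_mem' := fun d x hx => by
    have hx' : x ∈ AddSubgroup.closure {z | ∃ g : E, g ∉ H ∧ ∃ y ∈ N, z = S.act g y} := hx
    show d • x ∈ AddSubgroup.closure {z | ∃ g : E, g ∉ H ∧ ∃ y ∈ N, z = S.act g y}
    clear hx
    induction hx' using AddSubgroup.closure_induction with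
    | mem z hz =>
      obtain ⟨g, hg, y, hy, rfl⟩ := hz
      exact AddSubgroup.subset_closure ⟨g, hg, _, N.smul_mem _ hy, smul_act S g d y⟩
    | zero => rw [smul_zero]; exact AddSubgroup.zero_mem _
    | add a b _ _ ha hb => rw [smul_add]; exact AddSubgroup.add_mem _ ha hb
    | neg a _ ha => rw [smul_neg]; exact AddSubgroup.neg_mem _ ha

/-- a projection on `N` along the other translates -/
structure Pr (S : SL D M E) (H : Subgroup E) (N : Submodule D M) (P : M →ₗ[D] M) : Prop where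
  mem : ∀ x, P x ∈ N
  inv : ∀ h ∈ H, ∀ y ∈ N, S.act h y ∈ N
  on : ∀ y ∈ N, P y = y
  off : ∀ g, g ∉ H → ∀ y ∈ N, P (S.act g y) = 0

theorem exists_pr (S : SL D M E) (H : Subgroup E) (N : Submodule D M)
    (hN : (S.comap H.subtype).Inv N) (hI : S.Indp H N) : ∃ P, Pr S H N P := by
  have hd : Disjoint (Cs S H N) N := (Submodule.disjoint_def.2 fun x h1 h2 => hI x h2 h1)
  obtain ⟨C, h1, h2⟩ := hd.exists_isCompl
  refine ⟨N.subtype ∘ₗ N.projectionOnto C h2.symm, fun x => Subtype.property _,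
    fun h hh y hy => hN ⟨h, hh⟩ y hy, fun y hy => ?_, fun g hg y hy => ?_⟩
  · exact congrArg Subtype.val (Submodule.projectionOnto_apply_left h2.symm ⟨y, hy⟩)
  · have : S.act g y ∈ C := h1 (AddSubgroup.subset_closure ⟨g, hg, y, hy, rfl⟩)
    exact congrArg Subtype.val (Submodule.projectionOnto_apply_right h2.symm ⟨_, this⟩)

variable {S : SL D M E} {H : Subgroup E} {N : Submodule D M} {P : M →ₗ[D] M}

theorem gen_ind {p : M → Prop} (h1 : ∀ g, ∀ y ∈ N, p (S.act g y)) (h0 : p 0)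
    (h2 : ∀ a b, p a → p b → p (a + b)) (h3 : ∀ a, p a → p (-a)) {x : M}
    (hx : x ∈ S.gen (N : Set M)) : p x := by
  have hx' := mem_gen S hx
  clear hx
  induction hx' using AddSubgroup.closure_induction with
  | mem z hz =>
    obtain ⟨d, g, y, hy, rfl⟩ := hz
    rw [smul_act]
    exact h1 g _ (N.smul_mem _ hy)
  | zero => exact h0
  | add a b _ _ ha hb => exact h2 a b ha hb
  | neg a _ ha => exact h3 a ha

theorem Pr.comm (hP : Pr S H N P) {h : E} (hh : h ∈ H) {x : M} (hx : x ∈ S.gen (N : Set M)) :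
    P (S.act h x) = S.act h (P x) := by
  refine gen_ind (p := fun x => P (S.act h x) = S.act h (P x)) (fun g y hy => ?_) (by simp)
    (fun a b ha hb => by simp only [map_add, ha, hb]) (fun a ha => by simp only [map_neg, ha]) hx
  by_cases hg : g ∈ H
  · rw [hP.on _ (hP.inv g hg y hy), hP.on _ (hP.inv h hh _ (hP.inv g hg y hy))]
  · rw [hP.off g hg y hy, map_zero, ← act_mul, hP.off _ (fun e => hg ?_) y hy]
    exact (H.mul_mem_cancel_left hh).1 e

/-- the component at `g`, moved back to `N` -/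
def cp (S : SL D M E) (P : M →ₗ[D] M) (g : E) : M →+ M :=
  P.toAddMonoidHom.comp (S.act g⁻¹).toLinearMap.toAddMonoidHom

theorem cp_apply (g : E) (x : M) : cp S P g x = P (S.act g⁻¹ x) := rfl

theorem cp_smul (g : E) (d : D) (x : M) : cp S P g (d • x) = S.tw g⁻¹ d • cp S P g x := by
  rw [cp_apply, cp_apply, S.act_smul, map_smul]

theorem Pr.move (hP : Pr S H N P) {g g' a : E} (h : g'⁻¹ * a * g ∈ H) {x : M}
    (hx : x ∈ S.gen (N : Set M)) :
    cp S P g' (S.act a x) = S.act (g'⁻¹ * a * g) (cp S P g x) := by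
  rw [cp_apply, cp_apply, ← hP.comm h (gen_inv S _ _ _ hx), ← act_mul, ← act_mul,
    mul_inv_cancel_right]

theorem Pr.dec (hP : Pr S H N P) {x : M} (hx : x ∈ S.gen (N : Set M)) :
    ∃ s : Finset (E ⧸ H), (∀ q, q ∉ s → cp S P q.out x = 0) ∧
      ∑ q ∈ s, S.act q.out (cp S P q.out x) = x := by
  classical
  refine gen_ind (p := fun x => ∃ s : Finset (E ⧸ H), (∀ q, q ∉ s → cp S P q.out x = 0) ∧
      ∑ q ∈ s, S.act q.out (cp S P q.out x) = x) (fun g y hy => ?_) ⟨∅, by simp, by simp⟩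
    ?_ ?_ hx
  · have key : ∀ q : E ⧸ H, q.out⁻¹ * g ∈ H ↔ q = (g : E ⧸ H) := fun q => by
      rw [← QuotientGroup.eq, QuotientGroup.out_eq']
    refine ⟨{(g : E ⧸ H)}, fun q hq => ?_, ?_⟩
    · rw [cp_apply, ← act_mul]
      exact hP.off _ (fun e => hq (Finset.mem_singleton.2 ((key q).1 e))) y hy
    · rw [Finset.sum_singleton, cp_apply, ← act_mul, hP.on _ (hP.inv _ ((key _).2 rfl) y hy),
        ← act_mul, mul_inv_cancel_left]
  · rintro a b ⟨s, h1, h2⟩ ⟨s', h3, h4⟩
    refine ⟨s ∪ s', fun q hq => ?_, ?_⟩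
    · rw [Finset.mem_union, not_or] at hq
      rw [map_add, h1 q hq.1, h3 q hq.2, add_zero]
    · simp only [map_add, Finset.sum_add_distrib]
      rw [← Finset.sum_subset Finset.subset_union_left fun q _ hq => by rw [h1 q hq, map_zero],
        ← Finset.sum_subset Finset.subset_union_right fun q _ hq => by rw [h3 q hq, map_zero],
        h2, h4]
  · rintro a ⟨s, h1, h2⟩
    refine ⟨s, fun q hq => by rw [map_neg, h1 q hq, neg_zero], ?_⟩
    simp only [map_neg, Finset.sum_neg_distrib, h2]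

theorem Pr.supp (hP : Pr S H N P) {W : Submodule D M} (hW : W ≤ S.gen (N : Set M))
    (hf : W.FG) : ∃ s : Finset (E ⧸ H), ∀ g : E, (g : E ⧸ H) ∉ s → ∀ x ∈ W, cp S P g x = 0 := by
  classical
  obtain ⟨t, rfl⟩ := hf
  have h1 : ∀ x : t, ∃ s : Finset (E ⧸ H), ∀ q, q ∉ s → cp S P q.out x = 0 := fun x =>
    (hP.dec (hW (Submodule.subset_span x.2))).imp fun _ h => h.1
  choose s hs using h1
  refine ⟨Finset.univ.biUnion s, fun g hg x hx => ?_⟩
  induction hx using Submodule.span_induction with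
  | mem y hy =>
    have h2 := hs ⟨y, hy⟩ g fun e => hg (Finset.mem_biUnion.2 ⟨_, Finset.mem_univ _, e⟩)
    have h3 : g⁻¹ * 1 * (g : E ⧸ H).out ∈ H := by
      rw [mul_one, ← QuotientGroup.eq, QuotientGroup.out_eq']
    have h4 := hP.move h3 (hW (Submodule.subset_span hy))
    rw [act_one] at h4
    rw [h4, h2, map_zero]
  | zero => exact map_zero _
  | add a b _ _ ha hb => rw [map_add, ha, hb, add_zero]
  | smul d a _ ha => rw [cp_smul, ha, smul_zero]

theorem Pr.per (hP : Pr S H N P) {W : Submodule D M} (hW : W ≤ S.gen (N : Set M))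
    (hf : W.FG) {e : E} (hs : Stb (S.act e) W) {g : E} {w : M} (hw : w ∈ W)
    (h0 : cp S P g w ≠ 0) : ∃ r, 0 < r ∧ (g⁻¹ * e * g) ^ r ∈ H := by
  obtain ⟨s, h1⟩ := hP.supp hW hf
  have h2 : ∀ k : ℕ, ((e ^ k * g : E) : E ⧸ H) ∈ s := fun k => by
    by_contra hc
    have h3 := h1 _ hc (S.act (e ^ k) w) (by rw [map_pow]; exact (hs.pow k w).2 hw)
    rw [cp_apply, ← act_mul, mul_inv_rev, inv_mul_cancel_right] at h3
    exact h0 h3
  obtain ⟨i, j, hij, h3⟩ := (s.finite_toSet).exists_lt_map_eq_of_forall_mem h2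
  obtain ⟨r, rfl⟩ := Nat.exists_eq_add_of_lt hij
  refine ⟨r + 1, Nat.succ_pos r, ?_⟩
  have h4 := QuotientGroup.eq.1 h3
  have h5 : (g⁻¹ * e * g) ^ (r + 1) = (e ^ i * g)⁻¹ * (e ^ (i + r + 1) * g) := by
    have := conj_pow (i := r + 1) (a := g⁻¹) (b := e)
    rw [inv_inv] at this
    rw [this, add_assoc, pow_add e i]
    group
  rw [h5]
  exact h4

theorem img (g : E) {W : Submodule D M} (hf : W.FG) :
    ∃ W' : Submodule D M, W'.FG ∧ ∀ y, y ∈ W' ↔ ∃ x ∈ W, cp S P g x = y := by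
  classical
  obtain ⟨t, rfl⟩ := hf
  refine ⟨Submodule.span D (t.image (cp S P g) : Set M), ⟨_, rfl⟩, fun y => ⟨fun hy => ?_, ?_⟩⟩
  · induction hy using Submodule.span_induction with
    | mem y hy =>
      obtain ⟨x, hx, rfl⟩ := Finset.mem_image.1 hy
      exact ⟨x, Submodule.subset_span hx, rfl⟩
    | zero => exact ⟨0, zero_mem _, map_zero _⟩
    | add a b _ _ ha hb =>
      obtain ⟨x, hx, rfl⟩ := ha
      obtain ⟨x', hx', rfl⟩ := hb
      exact ⟨x + x', add_mem hx hx', map_add _ _ _⟩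
    | smul d a _ ha =>
      obtain ⟨x, hx, rfl⟩ := ha
      exact ⟨(S.tw g⁻¹).symm d • x, Submodule.smul_mem _ _ hx, by
        rw [cp_smul, RingEquiv.apply_symm_apply]⟩
  · rintro ⟨x, hx, rfl⟩
    induction hx using Submodule.span_induction with
    | mem y hy => exact Submodule.subset_span (Finset.mem_image_of_mem _ hy)
    | zero => rw [map_zero]; exact zero_mem _
    | add a b _ _ ha hb => rw [map_add]; exact add_mem ha hb
    | smul d a _ ha => rw [cp_smul]; exact Submodule.smul_mem _ _ ha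

end Indx

open Indx

theorem bd_induced (S : SL D M E) (H : Subgroup E) (N : Submodule D M)
    (hN : (S.comap H.subtype).Inv N) (hI : S.Indp H N) (hH : Isol H)
    (hB : (S.comap H.subtype).Bd N) : S.Bd (S.gen (N : Set M)) := by
  obtain ⟨P, hP⟩ := exists_pr S H N hN hI
  obtain ⟨n1, hn1, hiso⟩ := hH
  obtain ⟨n, l, ρ, hn, hb⟩ := hB
  refine ⟨n1 * n, l, ρ, Nat.mul_pos hn1 hn, fun e W hW hf hs => ?_⟩
  refine (Submodule.eq_bot_iff _).2 fun x hx => ?_
  have hxW : x ∈ W := iter_le ρ l W hx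
  have key : ∀ g, cp S P g x = 0 := fun g => by
    by_contra h0
    obtain ⟨r, hr, h1⟩ := hP.per hW hf hs hxW h0
    have h2 := hiso _ r hr h1
    have cj : ∀ k : ℕ, (g⁻¹ * e * g) ^ k = g⁻¹ * e ^ k * g := fun k => by
      have := conj_pow (i := k) (a := g⁻¹) (b := e)
      rwa [inv_inv] at this
    rw [cj] at h2
    obtain ⟨W', f1, f2⟩ := img (S := S) (P := P) g hf
    have s1 : Stb (S.act (e ^ n1)) W := by rw [map_pow]; exact hs.pow n1
    have h3 : g⁻¹ * (e ^ n1)⁻¹ * g ∈ H := by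
      have := H.inv_mem h2
      rwa [mul_inv_rev, mul_inv_rev, inv_inv, ← mul_assoc] at this
    have s2 : Stb (S.act (g⁻¹ * e ^ n1 * g)) W' := by
      refine stb_of (fun y hy => ?_) fun y hy => ?_
      · obtain ⟨w, hw, rfl⟩ := (f2 y).1 hy
        exact (f2 _).2 ⟨_, (s1 w).2 hw, hP.move h2 (hW hw)⟩
      · obtain ⟨w, hw, rfl⟩ := (f2 y).1 hy
        have hw' := s1.symm_mem hw
        refine (f2 _).2 ⟨_, hw', ?_⟩
        rw [LinearEquiv.eq_symm_apply, ← hP.move h2 (hW hw'), LinearEquiv.apply_symm_apply]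
    have h4 := hb ⟨_, h2⟩ W' (fun y hy => by
      obtain ⟨w, -, rfl⟩ := (f2 y).1 hy
      exact hP.mem _) f1 s2
    have h5 : g⁻¹ * e ^ (n1 * n) * g = (g⁻¹ * e ^ n1 * g) ^ n := by rw [← cj, ← cj, pow_mul]
    have h6 := iter_map (S.tw g⁻¹) (cp S P g) (cp_smul g) (τ := S.act e ^ (n1 * n))
      (τ' := (S.comap H.subtype).act ⟨_, h2⟩ ^ n) (W := W) (W' := W') (hs.pow _)
      (fun w hw => (f2 _).2 ⟨w, hw, rfl⟩) (fun w hw => by
        rw [← map_pow, hP.move (h5 ▸ H.pow_mem h2 n) (hW hw), h5, map_pow]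
        rfl) le_rfl l x hx
    rw [h4] at h6
    exact h0 h6
  obtain ⟨s, -, h2⟩ := hP.dec (hW hxW)
  rw [← h2]
  exact Finset.sum_eq_zero fun q _ => by rw [key, map_zero]

end Pool.Agent.Lib.MP_721660_al.Ht
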