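import Pool.Agent.Lib.MP_721660_al.Ht.RadMap

set_option autoImplicit false

namespace Pool.Agent.Lib.MP_721660_al.Ht

variable {D M : Type} [DivisionRing D] [AddCommGroup M] [Module D M]

theorem rad_bot_of_simples {ι : Type} {τ : M ≃ₗ[ℤ] M} {ρ : ℕ} (P X : Submodule D M)
    (Z : ι → Submodule D M) (hP : Stb τ P) (hX : Stb τ X) (hZ : ∀ i, Smp τ (Z i))
    (hc : ∀ i, Cod ρ ⊥ (Z i)) (hle : X ≤ P ⊔ ⨆ i, Z i) (hd : X ⊓ P = ⊥) :
    rad ρ τ X = ⊥ := by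
  rw [eq_bot_iff]
  intro x hx
  by_contra hx0
  have hxX : x ∈ X := rad_le _ _ _ hx
  have hxP : x ∉ P := fun h => hx0 (hd ▸ Submodule.mem_inf.2 ⟨hxX, h⟩)
  obtain ⟨U, hPU, hU⟩ := zorn_le_nonempty₀ {U : Submodule D M | Stb τ U ∧ x ∉ U}
    (fun c hcs hch y hy => by
      have hm : ∀ z, z ∈ sSup c ↔ ∃ V ∈ c, z ∈ V := fun z =>
        Submodule.mem_sSup_of_directed ⟨y, hy⟩ hch.directedOn
      refine ⟨sSup c, ⟨fun z => ?_, fun h => ?_⟩, fun V hV => le_sSup hV⟩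
      · rw [hm, hm]
        exact exists_congr fun V => and_congr_right fun hV => (hcs hV).1 z
      · obtain ⟨V, hV, h'⟩ := (hm x).1 h
        exact (hcs hV).2 h') P ⟨hP, hxP⟩
  have h1 : ∀ i, ¬ Z i ≤ U → x ∈ U ⊔ Z i := by
    intro i hi
    by_contra h
    exact hi (le_sup_right.trans (hU.2 ⟨hU.1.1.sup (hZ i).2.1, h⟩ le_sup_left))
  have h2 : ∃ i, ¬ Z i ≤ U := by
    by_contra h
    exact hU.1.2 (sup_le hPU (iSup_le fun i => by_contra fun h' => h ⟨i, h'⟩) (hle hxX))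
  obtain ⟨i, hi⟩ := h2
  have h3 : ∀ j, Z j ≤ U ⊔ Z i := by
    intro j
    by_cases hj : Z j ≤ U
    · exact hj.trans le_sup_left
    rcases (hZ j).2.2 ((U ⊔ Z i) ⊓ Z j) ((hU.1.1.sup (hZ i).2.1).inf (hZ j).2.1) inf_le_right
      with h | h
    · obtain ⟨u, hu, z, hz, huz⟩ := Submodule.mem_sup.1 (h1 j hj)
      have h4 : z ∈ (U ⊔ Z i) ⊓ Z j := by
        refine Submodule.mem_inf.2 ⟨?_, hz⟩
        have h5 : z = x - u := by rw [← huz, add_sub_cancel_left]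
        rw [h5]
        exact sub_mem (h1 i hi) (Submodule.mem_sup_left hu)
      rw [h, Submodule.mem_bot] at h4
      rw [h4, add_zero] at huz
      exact absurd (huz ▸ hu) hU.1.2
    · rw [← h]
      exact inf_le_left
  have h4 : Cod ρ U X := by
    obtain ⟨s, hs, hs'⟩ := hc i
    rw [bot_sup_eq] at hs'
    exact ⟨s, hs, hle.trans ((sup_le (hPU.trans le_sup_left) (iSup_le h3)).trans
      (sup_le_sup_left hs' U))⟩
  have h5 : Cod ρ (X ⊓ U) X :=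
    cod_comap (RingEquiv.refl D) (AddMonoidHom.id M) (fun _ _ => rfl) (fun _ h => h) h4
      (fun _ => Submodule.mem_inf)
  exact hU.1.2 (Submodule.mem_inf.1 ((mem_rad.1 hx).2 _ (hX.inf hU.1.1) inf_le_left h5)).2

theorem exists_smp {τ : M ≃ₗ[ℤ] M} (X : Submodule D M) (hX : Stb τ X) (hfg : X.FG)
    (hne : X ≠ ⊥) : ∃ Z : Submodule D M, Z ≤ X ∧ Smp τ Z := by
  classical
  have : FiniteDimensional D X := Module.Finite.iff_fg.2 hfg
  have hex : ∃ n, ∃ Z : Submodule D M, Z ≤ X ∧ Stb τ Z ∧ Z ≠ ⊥ ∧ Module.finrank D Z = n :=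
    ⟨_, X, le_rfl, hX, hne, rfl⟩
  obtain ⟨Z, h1, h2, h3, h4⟩ := Nat.find_spec hex
  refine ⟨Z, h1, h3, h2, fun U hU hUZ => ?_⟩
  by_cases h : U = ⊥
  · exact Or.inl h
  · have : FiniteDimensional D Z := Submodule.finiteDimensional_of_le h1
    refine Or.inr (Submodule.eq_of_le_of_finrank_le hUZ ?_)
    rw [h4]
    exact Nat.find_min' hex ⟨U, hUZ.trans h1, hU, h, rfl⟩

end Pool.Agent.Lib.MP_721660_al.Ht
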