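import Pool.Agent.Lib.MP_721660_al.Ht.Per
import Pool.Agent.Lib.MP_721660_al.Ht.SS

set_option autoImplicit false

namespace Pool.Agent.Lib.MP_721660_al.Ht

variable {K L B V : Type} [DivisionRing K] [DivisionRing L] [AddCommGroup B] [AddCommGroup V]
  [Module L V] [Module K V] {j : K →+* L} {u : B → L} {σ : L ≃+* L} {φ : B ≃ₗ[ℤ] B}
  {τ : V ≃ₗ[ℤ] V}

namespace Zsubx

theorem self_mem {P : Set B} {X : Set V} {b : B} {x : V} (hb : b ∈ P) (hx : x ∈ X) :
    u b • x ∈ usp K u P X := Submodule.subset_span ⟨b, hb, x, hx, rfl⟩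

theorem mem_single (h : CR j u) (hc : Cmp j V) (a : B) (Z : Submodule K V) {v : V}
    (hv : v ∈ usp K u {a} (Z : Set V)) : ∃ z ∈ Z, v = u a • z := by
  induction hv using Submodule.span_induction with
  | mem y hy =>
    obtain ⟨b, hb, x, hx, rfl⟩ := hy
    exact ⟨x, hx, by rw [Set.mem_singleton_iff.1 hb]⟩
  | zero => exact ⟨0, Z.zero_mem, (smul_zero _).symm⟩
  | add y y' _ _ h1 h2 =>
    obtain ⟨z, hz, rfl⟩ := h1
    obtain ⟨z', hz', rfl⟩ := h2
    exact ⟨z + z', Z.add_mem hz hz', (smul_add _ _ _).symm⟩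
  | smul k y _ h1 =>
    obtain ⟨z, hz, rfl⟩ := h1
    obtain ⟨k', hk⟩ := h.nr a k
    exact ⟨k' • z, Z.smul_mem k' hz, by rw [hc, hc, smul_smul, smul_smul, hk]⟩

theorem smp_single (h : CR j u) (ht : Tw j u σ φ) (hc : Cmp j V) (hτ : Semi σ τ) {a : B}
    (ha : φ a = a) {Z : Submodule K V} (hZ : Smp τ Z) : Smp τ (usp K u {a} (Z : Set V)) := by
  refine ⟨?_, stb_usp h ht hc hτ (fun b hb => by rw [Set.mem_singleton_iff.1 hb, ha]) hZ.2.1,
    fun U hU hle => ?_⟩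
  · obtain ⟨z, hz, hz0⟩ := (Submodule.ne_bot_iff Z).1 hZ.1
    exact (Submodule.ne_bot_iff _).2 ⟨u a • z, self_mem rfl hz, smul_ne_zero (h.ne a) hz0⟩
  · let U' : Submodule K V :=
      { carrier := {z | z ∈ Z ∧ u a • z ∈ U}
        add_mem' := fun h1 h2 => ⟨Z.add_mem h1.1 h2.1, by
          rw [smul_add]; exact U.add_mem h1.2 h2.2⟩
        zero_mem' := ⟨Z.zero_mem, by rw [smul_zero]; exact U.zero_mem⟩
        smul_mem' := fun k z hz => ⟨Z.smul_mem k hz.1, by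
          obtain ⟨k', hk⟩ := h.nl a k
          rw [hc, smul_smul, hk, ← smul_smul, ← hc]
          exact U.smul_mem k' hz.2⟩ }
    have hU' : Stb τ U' := by
      intro x
      obtain ⟨k, hk⟩ := ht.uu a
      rw [ha] at hk
      have k0 : k ≠ 0 := by
        rintro rfl
        rw [map_zero, zero_mul] at hk
        exact h.ne a (by simpa using hk)
      have e : τ (u a • x) = k • u a • τ x := by rw [hτ, hk, hc, smul_smul]
      change (τ x ∈ Z ∧ u a • τ x ∈ U) ↔ (x ∈ Z ∧ u a • x ∈ U)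
      rw [hZ.2.1 x, ← hU (u a • x), e, U.smul_mem_iff k0]
    rcases hZ.2.2 U' hU' (fun z hz => hz.1) with e | e
    · refine Or.inl ((Submodule.eq_bot_iff U).2 fun v hv => ?_)
      obtain ⟨z, hz, rfl⟩ := mem_single h hc a Z (hle hv)
      have h1 : z ∈ U' := ⟨hz, hv⟩
      rw [e, Submodule.mem_bot] at h1
      rw [h1, smul_zero]
    · refine Or.inr (le_antisymm hle fun v hv => ?_)
      obtain ⟨z, hz, rfl⟩ := mem_single h hc a Z hv
      have h1 : z ∈ U' := e.symm ▸ hz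
      exact h1.2

theorem cod_single (h : CR j u) (hc : Cmp j V) (a : B) {Z : Submodule K V} {ρ : ℕ}
    (hZ : Cod ρ ⊥ Z) : Cod ρ ⊥ (usp K u {a} (Z : Set V)) := by
  classical
  obtain ⟨s, hs, hle⟩ := hZ
  refine ⟨s.image fun x => u a • x, Finset.card_image_le.trans hs, fun v hv => ?_⟩
  obtain ⟨z, hz, rfl⟩ := mem_single h hc a Z hv
  have h1 := hle hz
  rw [bot_sup_eq] at h1 ⊢
  clear hz hv
  induction h1 using Submodule.span_induction with
  | mem y hy => exact Submodule.subset_span (Finset.mem_coe.2 (Finset.mem_image_of_mem _ hy))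
  | zero => rw [smul_zero]; exact Submodule.zero_mem _
  | add y y' _ _ h1 h2 => rw [smul_add]; exact Submodule.add_mem _ h1 h2
  | smul k y _ h1 =>
    obtain ⟨k', hk⟩ := h.nl a k
    rw [hc, smul_smul, hk, ← smul_smul, ← hc]
    exact Submodule.smul_mem _ k' h1

theorem ev_smul_mem (hc : Cmp j V) (s : B →₀ K) {P : Set B} {X : Set V} {x : V} (hx : x ∈ X)
    (hP : ∀ b ∈ s.support, b ∈ P) : ev j u s • x ∈ usp K u P X := by
  unfold ev Finsupp.sum
  rw [Finset.sum_smul]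
  refine Submodule.sum_mem _ fun b hb => ?_
  rw [← smul_smul, ← hc]
  exact Submodule.smul_mem _ _ (self_mem (hP b hb) hx)

theorem usp_split {P P1 P2 : Set B} (X : Set V) (hP : ∀ b ∈ P, b ∈ P1 ∨ b ∈ P2) :
    usp K u P X ≤ usp K u P1 X ⊔ usp K u P2 X := by
  refine Submodule.span_le.2 ?_
  rintro _ ⟨b, hb, x, hx, rfl⟩
  rcases hP b hb with h | h
  · exact Submodule.mem_sup_left (self_mem h hx)
  · exact Submodule.mem_sup_right (self_mem h hx)

theorem usp_sup (P : Set B) {x : V} {A A' : Submodule K V} (hx : x ∈ A ⊔ A') :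
    usp K u P {x} ≤ usp K u P (A : Set V) ⊔ usp K u P (A' : Set V) := by
  refine Submodule.span_le.2 ?_
  rintro _ ⟨b, hb, y, hy, rfl⟩
  obtain ⟨p, hp, q, hq, e⟩ := Submodule.mem_sup.1 hx
  rw [Set.mem_singleton_iff.1 hy, ← e, smul_add]
  exact Submodule.add_mem_sup (self_mem hb hp) (self_mem hb hq)

theorem zero_mem (h : CR j u) (hc : Cmp j V) {P : Set B} {X : Set V} {x : V} (h0 : (0 : B) ∈ P)
    (hx : x ∈ X) : x ∈ usp K u P X := by
  obtain ⟨k, k0, hk⟩ := u_zero h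
  have h1 : u 0 • x ∈ usp K u P X := self_mem h0 hx
  rw [hk, ← hc] at h1
  exact (Submodule.smul_mem_iff _ k0).1 h1

theorem clear_den (h : FC j u) (hc : Cmp j V) (Z : Set V) {x : V}
    (hx : x ∈ Submodule.span L Z) :
    ∃ t : B →₀ K, t ≠ 0 ∧ ev j u t • x ∈ usp K u Set.univ Z := by
  obtain ⟨n, f, g, rfl⟩ := Submodule.mem_span_set'.1 hx
  obtain ⟨t, t0, ht⟩ := common_left h Finset.univ f
  refine ⟨t, t0, ?_⟩
  rw [Finset.smul_sum]
  refine Submodule.sum_mem _ fun i hi => ?_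
  obtain ⟨s, hs⟩ := ht i hi
  rw [smul_smul, hs]
  exact ev_smul_mem hc s (g i).2 fun _ _ => trivial

theorem exists_eps {ι : Type} (T : Finset ι) (f : ι → ℝ) (h : ∀ b ∈ T, 0 < f b) :
    ∃ ε : ℝ, 0 < ε ∧ ∀ b ∈ T, ε ≤ f b := by
  rcases T.eq_empty_or_nonempty with rfl | hT
  · exact ⟨1, one_pos, fun b hb => absurd hb (Finset.notMem_empty b)⟩
  · obtain ⟨b, hb, hm⟩ := T.exists_min_image f hT
    exact ⟨f b, h b hb, hm⟩

theorem relation (h : FC j u) (ht : Tw j u σ φ) (hf : FO φ) (hc : Cmp j V) (hτ : Semi σ τ)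
    (χ : B →+ ℝ) (hχ : Function.Injective χ) (X Z : Submodule K V) (hX : X.FG) (hs : Stb τ X)
    (hZX : Z ≤ X) {x : V} (hx : x ∈ X) (h2 : x ∈ Submodule.span L (Z : Set V)) :
    ∃ ε : ℝ, 0 < ε ∧ x ∈ usp K u {b | φ b = b} (Z : Set V) ⊔
      usp K u {b | φ b = b ∧ ε ≤ χ b} {x} := by
  classical
  obtain ⟨t, t0, hw⟩ := clear_den h hc (Z : Set V) h2
  obtain ⟨b0, hb0, hmin⟩ := t.support.exists_min_image χ (Finsupp.support_nonempty_iff.2 t0)
  obtain ⟨ε, hε, hle⟩ := exists_eps (t.support.erase b0) (fun b => χ (-b0 + b)) (by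
    intro b hb
    obtain ⟨h3, h4⟩ := Finset.mem_erase.1 hb
    have h5 := lt_of_le_of_ne (hmin b h4) (fun e => h3 (hχ e).symm)
    rw [map_add, map_neg]
    linarith)
  refine ⟨ε, hε, ?_⟩
  have e1 : ev j u t = j (t b0) * u b0 + ev j u (t.erase b0) := by
    unfold ev
    exact (Finsupp.add_sum_erase t b0 (fun b k => j k * u b) hb0).symm
  obtain ⟨κ, hκ⟩ : ∃ κ, u (-b0) * (j (t b0) * u b0) = j κ := by
    obtain ⟨k1, h3⟩ := h.nl (-b0) (t b0)
    obtain ⟨k2, h4⟩ := h.mul (-b0) b0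
    obtain ⟨k3, -, h5⟩ := u_zero h.toCR
    refine ⟨k1 * k2 * k3, ?_⟩
    rw [← mul_assoc, h3, mul_assoc, h4, neg_add_cancel, h5, map_mul, map_mul, mul_assoc]
  have κ0 : κ ≠ 0 := by
    rintro rfl
    rw [map_zero] at hκ
    exact mul_ne_zero (h.ne _) (mul_ne_zero
      ((map_ne_zero j).2 (Finsupp.mem_support_iff.1 hb0)) (h.ne _)) hκ
  have hg : u (-b0) • ev j u (t.erase b0) • x ∈ usp K u {b | ε ≤ χ b} {x} := by
    refine usp_mono ?_ subset_rfl (u_smul_mem h.toCR hc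
      ((t.support.erase b0 : Finset B) : Set B) {x} (-b0)
      (ev_smul_mem hc _ rfl fun b hb => by rwa [Finsupp.support_erase] at hb))
    rintro _ ⟨b, hb, rfl⟩
    exact hle b hb
  have hw' : u (-b0) • ev j u t • x ∈ usp K u Set.univ (Z : Set V) :=
    usp_mono (Set.subset_univ _) subset_rfl (u_smul_mem h.toCR hc _ _ (-b0) hw)
  have e2 : u (-b0) • ev j u t • x = κ • x + u (-b0) • ev j u (t.erase b0) • x := by
    rw [e1, add_smul, smul_add, smul_smul, hκ, ← hc]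
  obtain ⟨g1, hg1, g2, hg2, eg⟩ := Submodule.mem_sup.1
    (usp_split (P1 := {b | φ b = b ∧ ε ≤ χ b}) (P2 := {b | φ b ≠ b}) _
      (fun b hb => (em (φ b = b)).imp (fun e => ⟨e, hb⟩) id) hg)
  obtain ⟨w1, hw1, w2, hw2, ew⟩ := Submodule.mem_sup.1
    (usp_split (P1 := {b | φ b = b}) (P2 := {b | φ b ≠ b}) _ (fun b _ => em (φ b = b)) hw')
  have hxX : ({x} : Set V) ⊆ X := Set.singleton_subset_iff.2 hx
  have e3 : κ • x + g1 - w1 = w2 - g2 := by
    have e4 : w1 + w2 = κ • x + (g1 + g2) := by rw [ew, eg, e2]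
    rw [sub_eq_sub_iff_add_eq_add, add_comm w2 w1, e4, add_assoc]
  have e5 : κ • x + g1 - w1 = 0 := by
    refine dir_lemma h ht hf hc hτ X hX hs _ ?_ ?_
    · refine Submodule.sub_mem _ (Submodule.add_mem _ (Submodule.smul_mem _ _ ?_) ?_) ?_
      · exact zero_mem h.toCR hc (map_zero φ) hx
      · exact usp_mono (fun b hb => hb.1) hxX hg1
      · exact usp_mono subset_rfl hZX hw1
    · rw [e3]
      exact Submodule.sub_mem _ (usp_mono subset_rfl hZX hw2) (usp_mono subset_rfl hxX hg2)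
  have e6 : κ • x = w1 - g1 := by rw [eq_sub_iff_add_eq, ← sub_eq_zero, e5]
  rw [← Submodule.smul_mem_iff _ κ0, e6]
  exact Submodule.sub_mem _ (Submodule.mem_sup_left hw1) (Submodule.mem_sup_right hg1)

theorem iterate (h : CR j u) (hc : Cmp j V) (χ : B →+ ℝ) (Z : Set V) {x : V} {ε : ℝ}
    (hx : x ∈ usp K u {b | φ b = b} Z ⊔ usp K u {b | φ b = b ∧ ε ≤ χ b} {x}) (k : ℕ) :
    x ∈ usp K u {b | φ b = b} Z ⊔ usp K u {b | φ b = b ∧ k * ε ≤ χ b} {x} := by
  induction k with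
  | zero =>
    exact Submodule.mem_sup_right (zero_mem h hc ⟨map_zero φ, by simp⟩ rfl)
  | succ k ih =>
    refine (sup_le le_sup_left ((usp_sup _ ih).trans (sup_le_sup ?_ ?_))) hx
    · exact usp_usp h hc Z fun a ha b hb => by
        change φ (a + b) = a + b
        rw [map_add, ha.1, hb]
    · refine usp_usp h hc _ fun a ha b hb => ⟨by rw [map_add, ha.1, hb.1], ?_⟩
      have h1 := ha.2
      have h2 := hb.2
      rw [map_add]
      push_cast
      linarith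

end Zsubx

theorem sub_rad (h : FC j u) (ht : Tw j u σ φ) (hf : FO φ) (hc : Cmp j V) (hτ : Semi σ τ)
    (χ : B →+ ℝ) (hχ : Function.Injective χ) (X Z : Submodule K V) (hX : X.FG) (hs : Stb τ X)
    (hZX : Z ≤ X) (hZ : Smp τ Z) {ρ : ℕ} (hcod : Cod ρ ⊥ Z) (X' : Submodule K V)
    (hs' : Stb τ X') (h1 : X' ≤ X) (h2 : (X' : Set V) ⊆ Submodule.span L (Z : Set V)) :
    rad ρ τ X' = ⊥ := by
  obtain ⟨Ψ, hΨ⟩ := sup_lemma h hc X hX
  obtain ⟨r, hr⟩ := (Ψ.finite_toSet.image χ).bddAbove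
  refine rad_bot_of_simples (usp K u {b | φ b = b ∧ r < χ b} (X : Set V)) X'
    (fun a : {a // φ a = a} => usp K u {a.1} (Z : Set V))
    (stb_usp h.toCR ht hc hτ (fun b hb => hb.1) hs) hs'
    (fun a => Zsubx.smp_single h.toCR ht hc hτ a.2 hZ)
    (fun a => Zsubx.cod_single h.toCR hc a.1 hcod) (fun x hx => ?_) ?_
  · obtain ⟨ε, hε, hrel⟩ := Zsubx.relation h ht hf hc hτ χ hχ X Z hX hs hZX (h1 hx) (h2 hx)
    obtain ⟨k, hk⟩ := exists_nat_gt (r / ε)
    rw [div_lt_iff₀ hε] at hk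
    obtain ⟨p, hp, q, hq, e⟩ := Submodule.mem_sup.1 (Zsubx.iterate h.toCR hc χ _ hrel k)
    rw [← e, add_comm]
    refine Submodule.add_mem_sup ?_ ?_
    rotate_left
    · refine (?_ : usp K u {b | φ b = b} (Z : Set V) ≤ _) hp
      refine Submodule.span_le.2 ?_
      rintro _ ⟨b, hb, z, hz, rfl⟩
      exact Submodule.mem_iSup_of_mem (⟨b, hb⟩ : {a // φ a = a}) (Zsubx.self_mem rfl hz)
    · refine usp_mono ?_ (Set.singleton_subset_iff.2 (h1 hx)) hq
      exact fun b hb => ⟨hb.1, lt_of_lt_of_le hk hb.2⟩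
  · refine (Submodule.eq_bot_iff _).2 fun v hv => hΨ v (h1 hv.1) (usp_mono ?_ subset_rfl hv.2)
    intro b hb hbΨ
    exact absurd (hr ⟨b, hbΨ, rfl⟩) (not_le.2 hb.2)

end Pool.Agent.Lib.MP_721660_al.Ht
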