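import Pool.Agent.Lib.MP_721660_al.Ht.Zin
import Pool.Agent.Lib.MP_721660_al.Ht.Zsub

set_option autoImplicit false

namespace Pool.Agent.Lib.MP_721660_al.Ht

namespace LemLx

variable {L V : Type} [DivisionRing L] [AddCommGroup V] [Module L V]

theorem semi_symm {σ : L ≃+* L} {τ : V ≃ₗ[ℤ] V} (hτ : Semi σ τ) : Semi σ.symm τ.symm := by
  intro c v
  apply τ.injective
  rw [hτ]
  simp

theorem span_mem {σ : L ≃+* L} {τ : V ≃ₗ[ℤ] V} (hτ : Semi σ τ) {Z : Set V}
    (hZ : ∀ x ∈ Z, τ x ∈ Z) : ∀ x ∈ Submodule.span L Z, τ x ∈ Submodule.span L Z := by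
  intro x hx
  induction hx using Submodule.span_induction with
  | mem x hx => exact Submodule.subset_span (hZ x hx)
  | zero => rw [map_zero]; exact Submodule.zero_mem _
  | add x y _ _ hx hy => rw [map_add]; exact Submodule.add_mem _ hx hy
  | smul c x _ hx => rw [hτ]; exact Submodule.smul_mem _ _ hx

theorem exists_quot {τ : V ≃ₗ[ℤ] V} {U : Submodule L V} (hU : Stb τ U) :
    ∃ τ' : (V ⧸ U) ≃ₗ[ℤ] (V ⧸ U), ∀ x, τ' (U.mkQ x) = U.mkQ (τ x) := by
  have hmap : (U.restrictScalars ℤ).map (τ : V →ₗ[ℤ] V) = U.restrictScalars ℤ := by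
    ext y
    constructor
    · rintro ⟨x, hx, rfl⟩
      exact (hU x).2 hx
    · intro hy
      exact ⟨τ.symm y, hU.symm_mem hy, τ.apply_symm_apply y⟩
  refine ⟨((Submodule.Quotient.restrictScalarsEquiv ℤ U).symm.trans
    (Submodule.Quotient.equiv _ _ τ hmap)).trans (Submodule.Quotient.restrictScalarsEquiv ℤ U),
    fun x => ?_⟩
  rfl

theorem dim_drop {Q : Type} [AddCommGroup Q] [Module L Q] (f : V →ₗ[L] Q) {d : ℕ} {X : Set V}
    (hd : Dim L (d + 1) X) {z : V} (hz : z ∈ X) (hz0 : z ≠ 0) (hfz : f z = 0) :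
    Dim L d (f '' X) := by
  classical
  obtain ⟨s, hs, hX⟩ := hd
  obtain ⟨c, -, hc⟩ := Submodule.mem_span_finset.1 (hX hz)
  have hi : ∃ i ∈ s, c i ≠ 0 := by
    by_contra hn
    push Not at hn
    apply hz0
    rw [← hc]
    exact Finset.sum_eq_zero fun i hi => by rw [hn i hi, zero_smul]
  obtain ⟨i, his, hci⟩ := hi
  refine ⟨(s.erase i).image f, ?_, ?_⟩
  · refine Finset.card_image_le.trans ?_
    rw [Finset.card_erase_of_mem his]
    omega
  · have hm : ∀ k ∈ s.erase i, f k ∈ Submodule.span L (((s.erase i).image f : Finset Q) : Set Q) :=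
      fun k hk => Submodule.subset_span (Finset.mem_coe.2 (Finset.mem_image_of_mem f hk))
    have h1 : c i • f i + ∑ k ∈ s.erase i, c k • f k = 0 := by
      rw [Finset.add_sum_erase s (fun k => c k • f k) his, ← hfz, ← hc, map_sum]
      exact Finset.sum_congr rfl fun k _ => (map_smul f _ _).symm
    have h2 : f i ∈ Submodule.span L (((s.erase i).image f : Finset Q) : Set Q) := by
      have h3 : f i = (c i)⁻¹ • (-(∑ k ∈ s.erase i, c k • f k)) := by
        rw [← eq_neg_of_add_eq_zero_left h1, smul_smul, inv_mul_cancel₀ hci, one_smul]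
      rw [h3]
      exact Submodule.smul_mem _ _ (Submodule.neg_mem _
        (Submodule.sum_mem _ fun k hk => Submodule.smul_mem _ _ (hm k hk)))
    have h4 : Submodule.span L (s : Set V) ≤
        (Submodule.span L (((s.erase i).image f : Finset Q) : Set Q)).comap f := by
      rw [Submodule.span_le]
      intro k hk
      by_cases e : k = i
      · rw [e]; exact h2
      · exact hm k (Finset.mem_erase.2 ⟨e, hk⟩)
    rintro _ ⟨x, hx, rfl⟩
    exact h4 (hX hx)

end LemLx

open LemLx in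
theorem lemL {K L B : Type} [DivisionRing K] [DivisionRing L] [AddCommGroup B] {j : K →+* L}
    {u : B → L} {σ : L ≃+* L} {φ : B ≃ₗ[ℤ] B} (h : FC j u) (ht : Tw j u σ φ) (hf : FO φ)
    (χ : B →+ ℝ) (hχ : Function.Injective χ) (ρ : ℕ) : Down j σ ρ ρ := by
  have aux : ∀ d : ℕ, d ≤ ρ → ∀ (V : Type) [AddCommGroup V] [Module L V] [Module K V]
      (τ : V ≃ₗ[ℤ] V) (X : Submodule K V), Cmp j V → Semi σ τ → Dim L d (X : Set V) → X.FG →
      Stb τ X → (rad ρ τ)^[d] X = ⊥ := by
    intro d
    induction d with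
    | zero =>
      intro _ V _ _ _ τ X _ _ hd _ _
      obtain ⟨s, hs, hX⟩ := hd
      rw [Finset.card_eq_zero.1 (Nat.le_zero.1 hs)] at hX
      rw [Function.iterate_zero_apply, eq_bot_iff]
      intro x hx
      simpa using hX hx
    | succ d ih =>
      intro hdρ V _ _ _ τ X hc hτ hd hX hs
      by_cases hb : X = ⊥
      · exact le_bot_iff.1 ((iter_le _ _ _).trans hb.le)
      obtain ⟨Z, hZX, hZ⟩ := exists_smp X hs hX hb
      have hdZ : Dim L ρ (Z : Set V) := by
        obtain ⟨s, h1, h2⟩ := hd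
        exact ⟨s, h1.trans hdρ, fun x hx => h2 (hZX hx)⟩
      have hcod := smp_cod h ht hf hc hτ χ hχ Z (fg_of_le hX hZX) hZ hdZ
      have hU : Stb τ (Submodule.span L (Z : Set V)) :=
        stb_of (span_mem hτ fun x hx => (hZ.2.1 x).2 hx)
          (span_mem (semi_symm hτ) fun x hx => hZ.2.1.symm_mem hx)
      generalize hUe : Submodule.span L (Z : Set V) = U at hU
      obtain ⟨τ', hτ'⟩ := exists_quot hU
      letI : Module K (V ⧸ U) := Module.compHom (V ⧸ U) j
      have hcQ : Cmp j (V ⧸ U) := fun _ _ => rfl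
      let g : V →ₗ[K] V ⧸ U :=
        { toFun := U.mkQ
          map_add' := fun x y => map_add _ x y
          map_smul' := fun k x => by
            rw [hc, map_smul]
            rfl }
      have hg : ∀ x, g x = U.mkQ x := fun _ => rfl
      have hsemi : Semi σ τ' := by
        intro c q
        obtain ⟨x, rfl⟩ := U.mkQ_surjective q
        rw [← map_smul, hτ', hτ', hτ, map_smul]
      obtain ⟨z, hz, hz0⟩ := Submodule.exists_mem_ne_zero_of_ne_bot hZ.1
      have hfz : U.mkQ z = 0 := by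
        rw [Submodule.mkQ_apply, Submodule.Quotient.mk_eq_zero, ← hUe]
        exact Submodule.subset_span hz
      have hdim : Dim L d ((X.map g : Submodule K (V ⧸ U)) : Set (V ⧸ U)) :=
        dim_drop U.mkQ hd (hZX hz) hz0 hfz
      have hst : Stb τ' (X.map g) := by
        refine stb_of ?_ ?_
        · rintro _ ⟨x, hx, rfl⟩
          exact ⟨τ x, (hs x).2 hx, (hτ' x).symm⟩
        · rintro _ ⟨x, hx, rfl⟩
          refine ⟨τ.symm x, hs.symm_mem hx, ?_⟩
          apply τ'.injective
          rw [LinearEquiv.apply_symm_apply, hg, hτ', LinearEquiv.apply_symm_apply, hg]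
      have hbot := ih (by omega) (V ⧸ U) τ' (X.map g) hcQ hsemi hdim (hX.map g) hst
      have hin := iter_map (RingEquiv.refl K) g.toAddMonoidHom (fun k x => map_smul g k x)
        (τ := τ) (τ' := τ') (W := X) (W' := X.map g) hs (fun x hx => ⟨x, hx, rfl⟩)
        (fun x _ => (hτ' x).symm) (le_refl ρ) d
      rw [Function.iterate_succ_apply']
      refine sub_rad h ht hf hc hτ χ hχ X Z hX hs hZX hZ hcod _ (hs.iter ρ d) (iter_le _ _ _) ?_
      intro x hx
      have h1 := hin x hx
      rw [hbot, Submodule.mem_bot] at h1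
      rw [hUe]
      exact (Submodule.Quotient.mk_eq_zero U).1 h1
  intro V _ _ _ τ X hc hτ hd hX hs
  exact aux ρ le_rfl V τ X hc hτ hd hX hs

end Pool.Agent.Lib.MP_721660_al.Ht
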