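import Pool.Agent.Lib.MP_721660_al.Ht.Defs

set_option autoImplicit false

namespace Pool.Agent.Lib.MP_721660_al.Ht

namespace Mkx

variable {m : ℕ}

/-- Congruent to the identity modulo three. -/
def C3 (ψ : Zm m ≃ₗ[ℤ] Zm m) : Prop := ∀ v, ∃ w, ψ v = v + (3 : ℤ) • w

theorem pow_pt (ψ : Zm m ≃ₗ[ℤ] Zm m) (v : Zm m) (h : ∃ w, ψ v = v + (3 : ℤ) • w) (k : ℕ) :
    ∃ w, (ψ ^ k) v = v + (3 : ℤ) • w := by
  obtain ⟨w, hw⟩ := h
  induction k with
  | zero => exact ⟨0, by simp⟩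
  | succ k ih =>
    obtain ⟨w', hw'⟩ := ih
    refine ⟨w + ψ w', ?_⟩
    rw [pow_succ', LinearEquiv.mul_apply, hw', map_add, map_smul, hw, smul_add, add_assoc]

theorem C3.pow {ψ : Zm m ≃ₗ[ℤ] Zm m} (h : C3 ψ) (k : ℕ) : C3 (ψ ^ k) :=
  fun v => pow_pt ψ v (h v) k

theorem descent (S : Zm m → Prop) (hS : ∀ c, S c → ∃ c', c = (3 : ℤ) • c' ∧ S c') :
    ∀ c, S c → c = 0 := by
  have key : ∀ k : ℕ, ∀ c, S c → ∀ i, (3 : ℤ) ^ k ∣ c i := by
    intro k
    induction k with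
    | zero => intro c _ i; simp
    | succ k ih =>
      intro c hc i
      obtain ⟨c', rfl, hc'⟩ := hS c hc
      rw [pow_succ']
      simpa using mul_dvd_mul_left (3 : ℤ) (ih c' hc' i)
  intro c hc
  funext i
  have h1 := key (c i).natAbs c hc i
  have h2 : (c i).natAbs < 3 ^ (c i).natAbs := Nat.lt_pow_self (by norm_num)
  refine Int.eq_zero_of_abs_lt_dvd h1 ?_
  rw [Int.abs_eq_natAbs]
  exact_mod_cast h2

theorem three_cancel (c : Zm m) (h : (3 : ℤ) • c = 0) : c = 0 := by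
  funext i
  have := congrFun h i
  simp at this
  exact this

theorem norm_inj {ψ : Zm m ≃ₗ[ℤ] Zm m} (h : C3 ψ) (r : ℕ) (hr : ¬ 3 ∣ r ∨ r = 3) :
    ∀ c : Zm m, (∑ i ∈ Finset.range r, (ψ ^ i) c) = 0 → c = 0 := by
  refine descent (fun c => (∑ i ∈ Finset.range r, (ψ ^ i) c) = 0) ?_
  intro c hc
  have hex : ∃ c' : Zm m, c = (3 : ℤ) • c' := by
    rcases hr with hr | hr
    · choose w hw using fun i : ℕ => h.pow i c
      simp only [hw, Finset.sum_add_distrib, Finset.sum_const, Finset.card_range,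
        ← Finset.smul_sum] at hc
      have hd : ∀ j, (3 : ℤ) ∣ c j := by
        intro j
        have h1 := congrFun hc j
        rw [Pi.add_apply, Pi.smul_apply, Pi.smul_apply, Pi.zero_apply, nsmul_eq_mul,
          smul_eq_mul] at h1
        have h2 : (3 : ℤ) ∣ (r : ℤ) * c j :=
          ⟨-(∑ i ∈ Finset.range r, w i) j, by linarith⟩
        rcases Int.prime_three.dvd_or_dvd h2 with h3 | h3
        · exact absurd (by exact_mod_cast h3) hr
        · exact h3
      choose c' hc' using hd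
      exact ⟨c', funext fun j => by simpa using hc' j⟩
    · subst hr
      obtain ⟨w, hw⟩ := h c
      obtain ⟨w', hw'⟩ := h w
      simp only [Finset.sum_range_succ, Finset.range_zero, Finset.sum_empty, pow_succ', pow_zero,
        mul_one, LinearEquiv.mul_apply, LinearEquiv.coe_one, id_eq, zero_add] at hc
      rw [hw, map_add, map_smul, hw, hw'] at hc
      refine ⟨-(w + w'), funext fun j => ?_⟩
      have h1 := congrFun hc j
      simp only [Pi.add_apply, Pi.smul_apply, Pi.zero_apply, Pi.neg_apply, smul_eq_mul] at h1 ⊢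
      linarith
  obtain ⟨c', rfl⟩ := hex
  refine ⟨c', rfl, three_cancel _ ?_⟩
  simpa only [map_smul, ← Finset.smul_sum] using hc

theorem fix_of {ψ : Zm m ≃ₗ[ℤ] Zm m} (h : C3 ψ) (r : ℕ) (hr : ¬ 3 ∣ r ∨ r = 3) (b : Zm m)
    (hb : (ψ ^ r) b = b) : ψ b = b := by
  have h1 : (∑ i ∈ Finset.range r, (ψ ^ i) (ψ b - b)) = 0 := by
    have : ∀ i : ℕ, (ψ ^ i) (ψ b - b) = (ψ ^ (i + 1)) b - (ψ ^ i) b := by
      intro i
      rw [map_sub, pow_succ, LinearEquiv.mul_apply]
    simp only [this]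
    rw [Finset.sum_range_sub (fun i => (ψ ^ i) b), hb]
    simp
  exact sub_eq_zero.mp (norm_inj h r hr _ h1)

theorem fo_of {ψ : Zm m ≃ₗ[ℤ] Zm m} (h : C3 ψ) : FO ψ := by
  intro b r
  induction r using Nat.strong_induction_on with
  | _ r ih =>
    intro hr hb
    by_cases h3 : 3 ∣ r
    · obtain ⟨s, rfl⟩ := h3
      refine ih s (by omega) (by omega) ?_
      refine fix_of (h.pow s) 3 (Or.inr rfl) b ?_
      rw [← pow_mul, mul_comm]
      exact hb
    · exact fix_of h r (Or.inl h3) b hb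

theorem short (φ : Zm m ≃ₗ[ℤ] Zm m) (v : Zm m) :
    ∃ d : ℕ, 0 < d ∧ d ≤ 3 ^ m ∧ ∃ w, (φ ^ d) v = v + (3 : ℤ) • w := by
  have aux : ∀ i j : ℕ, i < j → j ≤ 3 ^ m →
      (fun t => (((φ ^ i) v t : ℤ) : ZMod 3)) = (fun t => (((φ ^ j) v t : ℤ) : ZMod 3)) →
      ∃ d : ℕ, 0 < d ∧ d ≤ 3 ^ m ∧ ∃ w, (φ ^ d) v = v + (3 : ℤ) • w := by
    intro i j hij hj he
    have hd : ∀ t, (3 : ℤ) ∣ (φ ^ j) v t - (φ ^ i) v t := by
      intro t
      have := (ZMod.intCast_eq_intCast_iff_dvd_sub _ _ 3).mp (congrFun he t)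
      exact_mod_cast this
    choose w hw using hd
    refine ⟨j - i, by omega, by omega, (φ ^ i).symm w, ?_⟩
    apply (φ ^ i).injective
    rw [map_add, map_smul, LinearEquiv.apply_symm_apply, ← LinearEquiv.mul_apply, ← pow_add,
      show i + (j - i) = j by omega]
    funext t
    have := hw t
    simp only [Pi.add_apply, Pi.smul_apply, smul_eq_mul]
    linarith
  obtain ⟨x, y, hxy, he⟩ := Fintype.exists_ne_map_eq_of_card_lt
    (fun (i : Fin (3 ^ m + 1)) (t : Fin m) => (((φ ^ (i : ℕ)) v t : ℤ) : ZMod 3)) (by simp)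
  rcases lt_or_gt_of_ne hxy with h | h
  · exact aux x y h (by have := y.2; omega) he
  · exact aux y x h (by have := x.2; omega) he.symm

end Mkx

theorem mk_fo (m : ℕ) : ∃ n : ℕ, 0 < n ∧ ∀ φ : Zm m ≃ₗ[ℤ] Zm m, FO (φ ^ n) := by
  refine ⟨(3 ^ m).factorial, Nat.factorial_pos _, fun φ => Mkx.fo_of fun v => ?_⟩
  obtain ⟨d, hd, hle, hw⟩ := Mkx.short φ v
  obtain ⟨k, hk⟩ := Nat.dvd_factorial hd hle
  rw [hk, pow_mul]
  exact Mkx.pow_pt _ v hw k

theorem chi_exists (m : ℕ) : ∃ χ : Zm m →+ ℝ, Function.Injective χ := by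
  have ht : Transcendental ℤ (liouvilleNumber ((2 : ℕ) : ℝ)) :=
    transcendental_liouvilleNumber (le_refl 2)
  set t : ℝ := liouvilleNumber ((2 : ℕ) : ℝ)
  refine ⟨{ toFun := fun v => ∑ i : Fin m, (v i : ℝ) * t ^ (i : ℕ)
            map_zero' := by simp
            map_add' := fun a b => by simp [add_mul, Finset.sum_add_distrib] }, ?_⟩
  rw [injective_iff_map_eq_zero]
  intro v hv
  have hv' : ∑ i : Fin m, (v i : ℝ) * t ^ (i : ℕ) = 0 := hv
  have hp := (transcendental_iff.mp ht) (∑ i : Fin m, Polynomial.monomial (i : ℕ) (v i)) (by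
    rw [map_sum]
    simpa [Polynomial.aeval_monomial] using hv')
  funext j
  have h1 := congrArg (fun p => Polynomial.coeff p (j : ℕ)) hp
  simp only [Polynomial.finsetSum_coeff, Polynomial.coeff_monomial, Polynomial.coeff_zero,
    Fin.val_inj, Finset.sum_ite_eq', Finset.mem_univ, if_true] at h1
  exact h1

end Pool.Agent.Lib.MP_721660_al.Ht
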