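import Pool.Agent.Lib.MP_721660_al.Ht.Defs

set_option autoImplicit false

namespace Pool.Agent.Lib.MP_721660_al.Ht

namespace Locx

/-- A semilinear action from bare functions. -/
theorem sl_mk {L N E : Type} [Ring L] [AddCommGroup N] [Module L N] [Group E]
    (a : E → N → N) (w : E → L → L)
    (a_add : ∀ e x y, a e (x + y) = a e x + a e y) (a_one : ∀ x, a 1 x = x)
    (a_mul : ∀ e e' x, a (e * e') x = a e (a e' x))
    (w_add : ∀ e x y, w e (x + y) = w e x + w e y) (w_one : ∀ x, w 1 x = x)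
    (w_mul : ∀ e e' x, w (e * e') x = w e (w e' x))
    (w_mul' : ∀ e x y, w e (x * y) = w e x * w e y)
    (h : ∀ e c x, a e (c • x) = w e c • a e x) :
    ∃ S : SL L N E, (∀ e x, S.act e x = a e x) ∧ (∀ e c, S.tw e c = w e c) := by
  let A : E → (N ≃+ N) := fun e =>
    { toFun := a e
      invFun := a e⁻¹
      left_inv := fun x => by rw [← a_mul, inv_mul_cancel, a_one]
      right_inv := fun x => by rw [← a_mul, mul_inv_cancel, a_one]
      map_add' := a_add e }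
  let W : E → (L ≃+* L) := fun e =>
    { toFun := w e
      invFun := w e⁻¹
      left_inv := fun x => by rw [← w_mul, inv_mul_cancel, w_one]
      right_inv := fun x => by rw [← w_mul, mul_inv_cancel, w_one]
      map_add' := w_add e
      map_mul' := w_mul' e }
  let act : E →* (N ≃ₗ[ℤ] N) := MonoidHom.mk' (fun e => (A e).toIntLinearEquiv) fun e e' => by
    ext x
    exact a_mul e e' x
  let tw : E →* RingAut L := MonoidHom.mk' (fun e => W e) fun e e' => by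
    ext x
    exact w_mul e e' x
  exact ⟨⟨act, tw, fun e d x => h e d x⟩, fun _ _ => rfl, fun _ _ => rfl⟩

open OreLocalization nonZeroDivisors

variable {T : Type} [Ring T] [IsDomain T]

/-- An automorphism on the non zero elements. -/
def sg (σ : T ≃+* T) (s : T⁰) : T⁰ :=
  ⟨σ s, mem_nonZeroDivisors_iff_ne_zero.mpr fun h =>
    mem_nonZeroDivisors_iff_ne_zero.mp s.2 (σ.injective (h.trans (map_zero σ).symm))⟩

theorem sg_coe (σ : T ≃+* T) (s : T⁰) : ((sg σ s : T⁰) : T) = σ s := rfl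

theorem sg_mul (σ : T ≃+* T) (s t : T⁰) : sg σ (s * t) = sg σ s * sg σ t :=
  Subtype.ext (by simp only [sg_coe, Submonoid.coe_mul, map_mul])

theorem sg_one (σ : T ≃+* T) : sg σ 1 = 1 :=
  Subtype.ext (by simp only [sg_coe, Submonoid.coe_one, map_one])

variable [OreSet T⁰] {X : Type} [AddCommGroup X] [Module T X]

/-- The extension of a semilinear map to fractions. -/
def mp (σ : T ≃+* T) (g : X → X) (hg : ∀ (t : T) x, g (t • x) = σ t • g x) :
    X[T⁰⁻¹] → X[T⁰⁻¹] :=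
  liftExpand (fun x s => g x /ₒ sg σ s) fun x t s ht => by
    have h2 : σ t * ((sg σ s : T⁰) : T) ∈ T⁰ := by
      rw [sg_coe, ← map_mul]
      exact (sg σ ⟨t * s, ht⟩).2
    rw [hg, OreLocalization.expand (g x) (sg σ s) (σ t) h2]
    congr 1
    exact Subtype.ext (by simp only [sg_coe, map_mul])

theorem mp_of (σ : T ≃+* T) (g : X → X) (hg : ∀ (t : T) x, g (t • x) = σ t • g x) (x : X)
    (s : T⁰) : mp σ g hg (x /ₒ s) = g x /ₒ sg σ s := rfl

theorem mp_add (σ : T ≃+* T) (g : X → X) (hg : ∀ (t : T) x, g (t • x) = σ t • g x)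
    (ha : ∀ x y, g (x + y) = g x + g y) (y z : X[T⁰⁻¹]) :
    mp σ g hg (y + z) = mp σ g hg y + mp σ g hg z := by
  induction y using OreLocalization.ind with | _ x₁ s₁
  induction z using OreLocalization.ind with | _ x₂ s₂
  obtain ⟨r, s, h, h'⟩ := oreDivAddChar' x₁ x₂ s₁ s₂
  have h3 : ((sg σ s : T⁰) : T) * (sg σ s₁ : T⁰) = σ r * (sg σ s₂ : T⁰) := by
    simp only [sg_coe, ← map_mul, h]
  rw [h', mp_of, mp_of, mp_of, oreDiv_add_char (sg σ s₁) (sg σ s₂) (σ r) (sg σ s) h3, sg_mul, ha,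
    Submonoid.smul_def, Submonoid.smul_def, hg, hg, sg_coe]

theorem tw_smul (σ : T ≃+* T) (t x : T) : σ (t • x) = σ t • σ x := map_mul σ t x

theorem mp_smul (σ : T ≃+* T) (g : X → X) (hg : ∀ (t : T) x, g (t • x) = σ t • g x)
    (c : T[T⁰⁻¹]) (z : X[T⁰⁻¹]) :
    mp σ g hg (c • z) = mp σ σ (tw_smul σ) c • mp σ g hg z := by
  induction c using OreLocalization.ind with | _ x₁ s₁
  induction z using OreLocalization.ind with | _ x₂ s₂
  obtain ⟨r, s, h, h'⟩ := oreDivSMulChar' x₁ x₂ s₁ s₂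
  have h3 : ((sg σ s : T⁰) : T) * σ x₁ = σ r * (sg σ s₂ : T⁰) := by
    simp only [sg_coe, ← map_mul, h]
  rw [h', mp_of, mp_of, mp_of, oreDiv_smul_char (σ x₁) (g x₂) (sg σ s₁) (sg σ s₂) (σ r) (sg σ s) h3,
    sg_mul, hg]

theorem mp_id (σ : T ≃+* T) (g : X → X) (hg : ∀ (t : T) x, g (t • x) = σ t • g x)
    (h1 : ∀ t, σ t = t) (h2 : ∀ x, g x = x) (z : X[T⁰⁻¹]) : mp σ g hg z = z := by
  induction z using OreLocalization.ind with | _ x s
  rw [mp_of, h2]
  congr 1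
  exact Subtype.ext (h1 s)

theorem mp_comp (σ σ₁ σ₂ : T ≃+* T) (g g₁ g₂ : X → X) (hg : ∀ (t : T) x, g (t • x) = σ t • g x)
    (hg₁ : ∀ (t : T) x, g₁ (t • x) = σ₁ t • g₁ x) (hg₂ : ∀ (t : T) x, g₂ (t • x) = σ₂ t • g₂ x)
    (h1 : ∀ t, σ t = σ₁ (σ₂ t)) (h2 : ∀ x, g x = g₁ (g₂ x)) (z : X[T⁰⁻¹]) :
    mp σ g hg z = mp σ₁ g₁ hg₁ (mp σ₂ g₂ hg₂ z) := by
  induction z using OreLocalization.ind with | _ x s
  rw [mp_of, mp_of, mp_of, h2]
  congr 1
  exact Subtype.ext (h1 s)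

theorem clear (x : X) (s : T⁰) : (((s : T) /ₒ (1 : T⁰)) : T[T⁰⁻¹]) • (x /ₒ s) = x /ₒ (1 : T⁰) :=
  OreLocalization.smul_cancel

end Locx

open OreLocalization nonZeroDivisors Locx in
theorem loc_exists {T M E : Type} [Ring T] [IsDomain T] [IsNoetherianRing T] [AddCommGroup M]
    [Module T M] [Group E] (S : SL T M E) (htf : ∀ (t : T) (x : M), t • x = 0 → t = 0 ∨ x = 0) :
    ∃ (L : Type) (_ : DivisionRing L) (M' : Type) (_ : AddCommGroup M') (_ : Module L M')
      (S' : SL L M' E) (i : T →+* L) (f : M →+ M'), Function.Injective i ∧ Function.Injective f ∧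
      (∀ t x, f (t • x) = i t • f x) ∧ (∀ e x, f (S.act e x) = S'.act e (f x)) ∧
      (∀ e t, S'.tw e (i t) = i (S.tw e t)) ∧
      (∀ y : M', ∃ (t : T) (x : M), t ≠ 0 ∧ i t • y = f x) ∧
      (∀ c : L, ∃ s t : T, t ≠ 0 ∧ i t * c = i s) := by
  obtain ⟨inst⟩ : Nonempty (OreSet T⁰) := nonempty_oreSet_of_strongRankCondition
  obtain ⟨S', hS1, hS2⟩ := sl_mk (L := T[T⁰⁻¹]) (N := M[T⁰⁻¹]) (E := E)
    (fun e => mp (S.tw e) (S.act e) (S.act_smul e))
    (fun e => mp (S.tw e) (S.tw e) (tw_smul (S.tw e)))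
    (fun e x y => mp_add _ _ _ (map_add (S.act e)) x y)
    (fun x => mp_id _ _ _ (fun t => by rw [map_one]; rfl) (fun t => by rw [map_one]; rfl) x)
    (fun e e' x => mp_comp _ _ _ _ _ _ _ _ _ (fun t => by rw [map_mul]; rfl)
      (fun t => by rw [map_mul]; rfl) x)
    (fun e x y => mp_add _ _ _ (map_add (S.tw e)) x y)
    (fun x => mp_id _ _ _ (fun t => by rw [map_one]; rfl) (fun t => by rw [map_one]; rfl) x)
    (fun e e' x => mp_comp _ _ _ _ _ _ _ _ _ (fun t => by rw [map_mul]; rfl)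
      (fun t => by rw [map_mul]; rfl) x)
    (fun e x y => mp_smul (S.tw e) (S.tw e) (tw_smul (S.tw e)) x y)
    (fun e c x => mp_smul _ _ _ c x)
  let f : M →+ M[T⁰⁻¹] := AddMonoidHom.mk' (fun x => x /ₒ (1 : T⁰)) fun x y => add_oreDiv.symm
  have hf : ∀ x, f x = x /ₒ (1 : T⁰) := fun _ => rfl
  have hi : ∀ t : T, (numeratorRingHom : T →+* T[T⁰⁻¹]) t = t /ₒ (1 : T⁰) := fun _ => rfl
  refine ⟨T[T⁰⁻¹], inferInstance, M[T⁰⁻¹], inferInstance, inferInstance, S', numeratorRingHom, f,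
    ?_, ?_, ?_, ?_, ?_, ?_, ?_⟩
  · exact numeratorHom_inj (S := T⁰) inf_le_left
  · intro x y h
    rw [hf, hf, oreDiv_eq_iff] at h
    obtain ⟨u, v, h₁, h₂⟩ := h
    rw [Submonoid.coe_one, mul_one, mul_one] at h₂
    rw [← h₂, Submonoid.smul_def, ← sub_eq_zero, ← smul_sub] at h₁
    rcases htf _ _ h₁ with h | h
    · exact absurd h (mem_nonZeroDivisors_iff_ne_zero.mp u.2)
    · exact (sub_eq_zero.mp h).symm
  · intro t x
    rw [hf, hf, hi, smul_div_one]
  · intro e x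
    rw [hS1, hf, hf, mp_of, sg_one]
  · intro e t
    rw [hS2, hi, hi, mp_of, sg_one]
  · intro y
    induction y using OreLocalization.ind with | _ x s
    exact ⟨s, x, mem_nonZeroDivisors_iff_ne_zero.mp s.2, clear x s⟩
  · intro c
    induction c using OreLocalization.ind with | _ x s
    exact ⟨x, s, mem_nonZeroDivisors_iff_ne_zero.mp s.2, clear x s⟩

end Pool.Agent.Lib.MP_721660_al.Ht
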