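import Pool.Agent.Lib.MP_721660_al.Ht.Tf1
import Pool.Agent.Lib.MP_721660_al.Ht.Loc

set_option autoImplicit false

namespace Pool.Agent.Lib.MP_721660_al.Ht

variable {D M E : Type} [DivisionRing D] [AddCommGroup M] [Module D M] [Group E]
  {Γ : Type} [Group Γ] {π : E →* Γ} {A : Subgroup E} {m : ℕ} {β : E → Zm m}
  {φ : E →* (Zm m ≃ₗ[ℤ] Zm m)}

namespace Tf2x

/-- An element of `A` inside the operator ring. -/
def o (S : SL D M E) (A : Subgroup E) (a : E) (ha : a ∈ A) : S.rg (A : Set E) :=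
  ⟨S.op a, op_mem S ha⟩

theorem o_smul (S : SL D M E) (a : E) (ha : a ∈ A) (x : M) : o S A a ha • x = S.act a x := rfl

theorem text (S : SL D M E) {s t : S.rg (A : Set E)} (h : ∀ x : M, s • x = t • x) : s = t :=
  Subtype.ext (LinearMap.ext h)

theorem tw_eq (S : SL D M E) (ST : SL (S.rg (A : Set E)) M E) (hST : ST.act = S.act) (e : E)
    (t t' : S.rg (A : Set E)) (h : ∀ x : M, S.act e (t • x) = t' • S.act e x) :
    ST.tw e t = t' := by
  refine text S fun x => ?_
  obtain ⟨y, rfl⟩ := (S.act e).surjective x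
  rw [← h, ← hST, ST.act_smul]

theorem line (S : SL D M E) (hP : Plinth π A m β φ) (hs : S.Scal π.ker) {a a' : E} (ha : a ∈ A)
    (ha' : a' ∈ A) (h : β a = β a') : ∃ d : D, ∀ x : M, S.act a x = d • S.act a' x := by
  have hg : a * a'⁻¹ ∈ A := A.mul_mem ha (A.inv_mem ha')
  have h1 := hP.add _ hg _ ha'
  rw [inv_mul_cancel_right, h] at h1
  have h0 : β (a * a'⁻¹) = 0 := by
    have : β (a * a'⁻¹) + β a' = 0 + β a' := by rw [zero_add]; exact h1.symm
    exact add_right_cancel this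
  obtain ⟨d, hd⟩ := hs _ (MonoidHom.mem_ker.2 ((hP.zero_iff _ hg).1 h0))
  refine ⟨d, fun x => ?_⟩
  rw [← hd, ← act_mul, inv_mul_cancel_right]

/-- A formal sum as an operator. -/
noncomputable def tc (S : SL D M E) (u : Zm m → E) (hu : ∀ b, u b ∈ A) (c : Zm m →₀ D) :
    S.rg (A : Set E) := c.sum fun b k => S.inc (A : Set E) k * o S A (u b) (hu b)

theorem tc_smul (S : SL D M E) (u : Zm m → E) (hu : ∀ b, u b ∈ A) (c : Zm m →₀ D) (x : M) :
    tc S u hu c • x = S.app u c x := by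
  unfold tc SL.app Finsupp.sum
  rw [Finset.sum_smul]
  rfl

theorem ev_eq {L : Type} [DivisionRing L] (S : SL D M E) (u : Zm m → E) (hu : ∀ b, u b ∈ A)
    (i : S.rg (A : Set E) →+* L) (c : Zm m →₀ D) :
    ev (i.comp (S.inc (A : Set E))) (fun b => i (o S A (u b) (hu b))) c = i (tc S u hu c) := by
  unfold tc ev Finsupp.sum
  rw [map_sum]
  exact Finset.sum_congr rfl fun b _ => (map_mul i _ _).symm

end Tf2x

open Tf2x in
theorem tf_data [Nontrivial M] {n : ℕ} (h : Poly Γ n) (S : SL D M E) (hP : Plinth π A m β φ)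
    (hs : S.Scal π.ker) (hg : S.FGen) (u : Zm m → E) (hu : ∀ b, u b ∈ A ∧ β (u b) = b)
    (hT : S.TFree u) :
    ∃ (L : Type) (_ : DivisionRing L) (M' : Type) (_ : AddCommGroup M') (_ : Module L M')
      (S' : SL L M' E) (j : D →+* L) (w : Zm m → L) (f : M →+ M'), Function.Injective f ∧
      (∀ d x, f (d • x) = j d • f x) ∧ (∀ e x, f (S.act e x) = S'.act e (f x)) ∧
      S'.Scal A ∧ S'.FGen ∧ FC j w ∧ ∀ e, Tw j w (S'.tw e) (φ e) := by
  classical
  obtain ⟨ST, hST⟩ := exists_overT S A hP.normal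
  obtain ⟨hdom, htf⟩ := tf_domain S hP hs u hu hT
  have := hdom
  have := noeth_rg S π h hs A
  obtain ⟨L, iL, M', iM, iLM, S', i, f, hi, hf, hfs, hfa, htw, hM', hL⟩ := loc_exists ST htf
  rw [hST] at hfa
  have hu1 : ∀ b, u b ∈ A := fun b => (hu b).1
  have hi0 : ∀ t, t ≠ 0 → i t ≠ 0 := fun t ht h0 => ht (hi (h0.trans (map_zero i).symm))
  have hinc : ∀ (e : E) (k : D), ST.tw e (S.inc (A : Set E) k) = S.inc (A : Set E) (S.tw e k) :=
    fun e k => tw_eq S ST hST e _ _ fun x => S.act_smul e k x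
  obtain ⟨x0, hx0⟩ := exists_ne (0 : M)
  refine ⟨L, iL, M', iM, iLM, S', i.comp (S.inc (A : Set E)),
    fun b => i (o S A (u b) (hu1 b)), f, hf, fun d x => hfs (S.inc (A : Set E) d) x, hfa,
    ?_, ?_, ⟨⟨?_, ?_, ?_, ?_⟩, ?_, ?_, ?_⟩, fun e => ⟨?_, ?_, ?_⟩⟩
  · intro a ha
    refine ⟨i (o S A a ha), fun y => ?_⟩
    obtain ⟨t, x, ht, hy⟩ := hM' y
    have h1 : o S A a ha * t = ST.tw a t * o S A a ha := by
      refine text S fun z => ?_
      rw [mul_smul, mul_smul, o_smul, o_smul, ← hST, ST.act_smul]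
    have h2 : ST.tw a t ≠ 0 := fun h0 => ht ((ST.tw a).injective (h0.trans (map_zero _).symm))
    have h3 : i (ST.tw a t) • S'.act a y = i (ST.tw a t) • i (o S A a ha) • y := by
      rw [← htw, ← S'.act_smul, hy, ← hfa, ← o_smul S a ha, hfs, ← hy, ← mul_smul, ← map_mul, h1,
        map_mul, mul_smul, htw]
    exact smul_right_injective M' (hi0 _ h2) h3
  · obtain ⟨s, hsg⟩ := hg
    refine ⟨s.image f, eq_top_iff.2 fun y _ => ?_⟩
    have hall : ∀ x ∈ S.gen (s : Set M), f x ∈ S'.gen ((s.image f : Finset M') : Set M') := by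
      intro x hx
      induction hx using Submodule.span_induction with
      | mem z hz =>
        obtain ⟨e, z', hz', rfl⟩ := hz
        exact Submodule.subset_span ⟨e, f z',
          Finset.mem_coe.2 (Finset.mem_image_of_mem f (Finset.mem_coe.1 hz')), hfa e z'⟩
      | zero => rw [map_zero]; exact Submodule.zero_mem _
      | add a b _ _ ha hb => rw [map_add]; exact Submodule.add_mem _ ha hb
      | smul d a _ ha =>
        rw [inc_smul S (A : Set E), hfs]
        exact Submodule.smul_mem _ _ ha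
    obtain ⟨t, x, ht, hy⟩ := hM' y
    have : y = (i t)⁻¹ • f x := by rw [← hy, inv_smul_smul₀ (hi0 t ht)]
    rw [this]
    exact Submodule.smul_mem _ _ (hall x (by rw [hsg]; trivial))
  · intro b
    refine hi0 _ fun h0 => hx0 ?_
    have h1 : S.act (u b) x0 = 0 := by rw [← o_smul S _ (hu1 b), h0, zero_smul]
    exact (S.act (u b)).injective (h1.trans (map_zero _).symm)
  · intro a b
    obtain ⟨k, hk⟩ := line S hP hs (A.mul_mem (hu1 a) (hu1 b)) (hu1 (a + b))
      (by rw [hP.add _ (hu1 a) _ (hu1 b), (hu a).2, (hu b).2, (hu (a + b)).2])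
    refine ⟨k, ?_⟩
    rw [RingHom.comp_apply, ← map_mul, ← map_mul]
    refine congrArg i (text S fun x => ?_)
    rw [mul_smul, mul_smul, o_smul, o_smul, o_smul, ← act_mul, hk]
    rfl
  · intro b k
    refine ⟨S.tw (u b) k, ?_⟩
    rw [RingHom.comp_apply, RingHom.comp_apply, ← map_mul, ← map_mul]
    refine congrArg i (text S fun x => ?_)
    rw [mul_smul, mul_smul, o_smul, o_smul]
    exact S.act_smul (u b) k x
  · intro b k
    refine ⟨(S.tw (u b)).symm k, ?_⟩
    rw [RingHom.comp_apply, RingHom.comp_apply, ← map_mul, ← map_mul]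
    refine congrArg i (text S fun x => ?_)
    rw [mul_smul, mul_smul, o_smul, o_smul]
    have := S.act_smul (u b) ((S.tw (u b)).symm k) x
    rw [RingEquiv.apply_symm_apply] at this
    exact this.symm
  · intro c hc
    rw [ev_eq] at hc
    have h0 : tc S u hu1 c = 0 := hi (hc.trans (map_zero i).symm)
    refine (hT c x0 ?_).resolve_right hx0
    rw [← tc_smul S u hu1, h0, zero_smul]
  · intro x
    obtain ⟨s, t, ht, hx⟩ := hL x
    obtain ⟨a, b, hb, hab⟩ := tf_ore h S hs A s t ht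
    obtain ⟨ca, hca⟩ := rg_app S hP hs u hu a
    obtain ⟨cb, hcb⟩ := rg_app S hP hs u hu b
    have ea : tc S u hu1 ca = a := text S fun z => by rw [tc_smul, hca]
    have eb : tc S u hu1 cb = b := text S fun z => by rw [tc_smul, hcb]
    refine ⟨ca, cb, ?_, ?_⟩
    · rintro rfl
      exact hb (eb.symm.trans Finsupp.sum_zero_index)
    · rw [ev_eq, ev_eq, ea, eb]
      refine mul_left_cancel₀ (hi0 t ht) ?_
      rw [← mul_assoc, hx, ← map_mul, ← map_mul, hab]
  · intro x
    obtain ⟨a, b, hb, hx⟩ := hL x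
    obtain ⟨ca, hca⟩ := rg_app S hP hs u hu a
    obtain ⟨cb, hcb⟩ := rg_app S hP hs u hu b
    have ea : tc S u hu1 ca = a := text S fun z => by rw [tc_smul, hca]
    have eb : tc S u hu1 cb = b := text S fun z => by rw [tc_smul, hcb]
    refine ⟨ca, cb, ?_, ?_⟩
    · rintro rfl
      exact hb (eb.symm.trans Finsupp.sum_zero_index)
    · rw [ev_eq, ev_eq, ea, eb]
      exact hx
  · intro k
    exact ⟨S.tw e k, by rw [RingHom.comp_apply, RingHom.comp_apply, htw, hinc]⟩
  · intro k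
    exact ⟨(S.tw e).symm k, by
      rw [RingHom.comp_apply, RingHom.comp_apply, htw, hinc, RingEquiv.apply_symm_apply]⟩
  · intro b
    obtain ⟨k, hk⟩ := line S hP hs (hP.normal.conj_mem _ (hu1 b) e) (hu1 (φ e b))
      (by rw [hP.conj e _ (hu1 b), (hu b).2, (hu (φ e b)).2])
    refine ⟨k, ?_⟩
    rw [RingHom.comp_apply, ← map_mul, htw]
    refine congrArg i (tw_eq S ST hST e _ _ fun x => ?_)
    rw [mul_smul, o_smul, o_smul, ← inc_smul, ← hk, ← act_mul, ← act_mul, inv_mul_cancel_right]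

end Pool.Agent.Lib.MP_721660_al.Ht
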