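import Pool.Agent.Lib.MP_721660_al.Ht.PlinA

set_option autoImplicit false

namespace Pool.Agent.Lib.MP_721660_al.Ht

namespace Plinx

variable {E Γ : Type} [Group E] [Group Γ]

/-- a lattice of rank `m` in the image of `π`, normalised by a subgroup of finite index -/
def Good (π : E →* Γ) (m : ℕ) (j : Zm m → Γ) : Prop :=
  0 < m ∧ Function.Injective j ∧ (∀ v w, j (v + w) = j v * j w) ∧ (∀ v, ∃ a, π a = j v) ∧
  ∃ H : Subgroup E, H.FiniteIndex ∧ ∀ g ∈ H, ∀ v, ∃ w, π g * j v * (π g)⁻¹ = j w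

theorem good_exists {n : ℕ} (h : Poly Γ n) (π : E →* Γ) (hinf : (π.range : Set Γ).Infinite) :
    ∃ m j, Good π m j := by
  obtain ⟨hs, hfg⟩ := pc_of_poly h
  have h1 : Ser n π.range := by
    have := (Ser.sub h π.range).1
    rwa [top_inf_eq] at this
  obtain ⟨T, hT, hc, ht⟩ := tf_exists h1
  have hT0 : T ≠ ⊥ := by
    rintro rfl
    obtain ⟨F, hF, hc⟩ := hc
    refine hinf (hF.subset fun x hx => ?_)
    obtain ⟨f, hf, e⟩ := hc x hx
    rw [Subgroup.mem_bot, inv_mul_eq_one] at e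
    exact e ▸ hf
  obtain ⟨B, hB, hB0, hcomm, hn⟩ := ab_exists T hT0
  obtain ⟨m, j, j1, j2, j3⟩ := lattice_of B (hfg B) hcomm fun x hx => ht x (hB hx)
  refine ⟨m, j, ?_, j1, j2, fun v => hT (hB ((j3 _).2 ⟨v, rfl⟩)), T.comap π, ⟨?_⟩, ?_⟩
  · by_contra hm
    have hm0 : m = 0 := by omega
    subst hm0
    apply hB0
    rw [eq_bot_iff]
    intro x hx
    obtain ⟨v, rfl⟩ := (j3 x).1 hx
    obtain ⟨w, e⟩ := (j3 1).1 B.one_mem
    rw [Subgroup.mem_bot, e, Subsingleton.elim v w]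
  · rw [Subgroup.index_comap]
    exact hc.relIndex
  · intro g hg v
    exact (j3 _).1 (hn _ hg _ ((j3 _).2 ⟨v, rfl⟩))

section
variable {m : ℕ} {j : Zm m → Γ}

theorem j_zero (j2 : ∀ v w, j (v + w) = j v * j w) : j 0 = 1 := by
  have := j2 0 0
  rw [add_zero] at this
  exact (mul_eq_left.1 this.symm)

theorem j_neg (j2 : ∀ v w, j (v + w) = j v * j w) (v : Zm m) : j (-v) = (j v)⁻¹ := by
  have := j2 v (-v)
  rw [add_neg_cancel, j_zero j2] at this
  exact (eq_inv_of_mul_eq_one_right this.symm)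

/-- the normaliser of the lattice -/
def nrm (π : E →* Γ) (j : Zm m → Γ) : Subgroup E where
  carrier := {g | (∀ v, ∃ w, π g * j v * (π g)⁻¹ = j w) ∧
    ∀ v, ∃ w, π g⁻¹ * j v * (π g⁻¹)⁻¹ = j w}
  one_mem' := ⟨fun v => ⟨v, by simp⟩, fun v => ⟨v, by simp⟩⟩
  mul_mem' := by
    rintro a b ⟨a1, a2⟩ ⟨b1, b2⟩
    constructor
    · intro v
      obtain ⟨w, e⟩ := b1 v
      obtain ⟨u, e'⟩ := a1 w
      exact ⟨u, by rw [← e', ← e, map_mul]; group⟩
    · intro v
      obtain ⟨w, e⟩ := a2 v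
      obtain ⟨u, e'⟩ := b2 w
      exact ⟨u, by rw [← e', ← e, mul_inv_rev, map_mul]; group⟩
  inv_mem' := by
    rintro a ⟨a1, a2⟩
    exact ⟨a2, by simpa only [inv_inv] using a1⟩

/-- the preimage of the lattice -/
def pre (π : E →* Γ) (j2 : ∀ v w, j (v + w) = j v * j w) : Subgroup E where
  carrier := {a | ∃ v, j v = π a}
  one_mem' := ⟨0, by rw [j_zero j2, map_one]⟩
  mul_mem' := by
    rintro a b ⟨v, e⟩ ⟨w, e'⟩
    exact ⟨v + w, by rw [j2, e, e', map_mul]⟩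
  inv_mem' := by
    rintro a ⟨v, e⟩
    exact ⟨-v, by rw [j_neg j2, e, map_inv]⟩

theorem exists_act (π : E →* Γ) (j1 : Function.Injective j)
    (j2 : ∀ v w, j (v + w) = j v * j w) (hn : ∀ (g : E) v, ∃ w, π g * j v * (π g)⁻¹ = j w) :
    ∃ φ : E →* (Zm m ≃ₗ[ℤ] Zm m), ∀ g v, j (φ g v) = π g * j v * (π g)⁻¹ := by
  choose c hc using hn
  have c1 : ∀ v, c 1 v = v := fun v => j1 (by rw [← hc]; simp)
  have cm : ∀ g h v, c (g * h) v = c g (c h v) := fun g h v =>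
    j1 (by rw [← hc, ← hc, ← hc, map_mul]; group)
  have ca : ∀ g v w, c g (v + w) = c g v + c g w := fun g v w =>
    j1 (by rw [j2, ← hc, ← hc, ← hc, j2]; group)
  let ψ : E → (Zm m ≃+ Zm m) := fun g =>
    { toFun := c g
      invFun := c g⁻¹
      left_inv := fun v => by rw [← cm, inv_mul_cancel, c1]
      right_inv := fun v => by rw [← cm, mul_inv_cancel, c1]
      map_add' := ca g }
  refine ⟨MonoidHom.mk' (fun g => (ψ g).toIntLinearEquiv) ?_, fun g v => (hc g v).symm⟩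
  intro g h
  ext1 v
  exact cm g h v

end

theorem good_sub {π : E →* Γ} {m : ℕ} {j : Zm m → Γ} (h : Good π m j) (L : Submodule ℤ (Zm m))
    (hL : L ≠ ⊥) (H : Subgroup E) (hH : H.FiniteIndex)
    (hs : ∀ g ∈ H, ∀ v ∈ L, ∃ w ∈ L, π g * j v * (π g)⁻¹ = j w) :
    ∃ j', Good π (Module.finrank ℤ L) j' := by
  obtain ⟨-, j1, j2, j3, -⟩ := h
  let b := Module.finBasis ℤ L
  refine ⟨fun v => j (b.equivFun.symm v : L), ?_, ?_, ?_, fun v => j3 _, H, hH, ?_⟩
  · have : Nontrivial L := Submodule.nontrivial_iff_ne_bot.2 hL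
    exact Module.finrank_pos
  · intro v w e
    exact b.equivFun.symm.injective (Subtype.ext (j1 e))
  · intro v w
    simp only [map_add, Submodule.coe_add, j2]
  · intro g hg v
    obtain ⟨w, hw, e⟩ := hs g hg _ (b.equivFun.symm v).2
    exact ⟨b.equivFun ⟨w, hw⟩, by rw [e]; simp⟩

theorem full_of_rank {m : ℕ} (L : Submodule ℤ (Zm m)) (h : m ≤ Module.finrank ℤ L) (v : Zm m) :
    ∃ k : ℤ, k ≠ 0 ∧ k • v ∈ L := by
  have h1 := Submodule.finrank_quotient_add_finrank L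
  have h2 : Module.finrank ℤ (Zm m) = m := by simp
  have h3 : Module.finrank ℤ (Zm m ⧸ L) = 0 := by omega
  obtain ⟨k, hk, e⟩ := Module.finrank_eq_zero_iff.1 h3 (Submodule.Quotient.mk v)
  exact ⟨k, hk, (Submodule.Quotient.mk_eq_zero L).1 (by rw [Submodule.Quotient.mk_smul]; exact e)⟩

end Plinx

open Plinx in
theorem plinth_exists {E Γ : Type} [Group E] [Group Γ] {n : ℕ} (h : Poly Γ n) (π : E →* Γ)
    (hinf : (π.range : Set Γ).Infinite) :
    ∃ E1 : Subgroup E, E1.FiniteIndex ∧ ∃ (A : Subgroup E1) (m : ℕ) (β : E1 → Zm m)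
      (φ : E1 →* (Zm m ≃ₗ[ℤ] Zm m)), Plinth (π.comp E1.subtype) A m β φ := by
  classical
  have hex := good_exists h π hinf
  obtain ⟨j, hj⟩ := Nat.find_spec hex
  have hmin : ∀ m', (∃ j', Good π m' j') → Nat.find hex ≤ m' := fun m' h' => Nat.find_min' hex h'
  generalize Nat.find hex = m at j hj hmin
  obtain ⟨m0, j1, j2, j3, H, hH, hn⟩ := id hj
  have hle : H ≤ nrm π j := fun g hg => ⟨hn g hg, hn _ (H.inv_mem hg)⟩
  have hfi : (nrm π j).FiniteIndex := Subgroup.finiteIndex_of_le hle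
  obtain ⟨φ, hφ⟩ := exists_act (π.comp (nrm π j).subtype) j1 j2 (fun g => g.2.1)
  have hβ : ∀ a ∈ pre (π.comp (nrm π j).subtype) j2,
      j (Function.invFun j ((π.comp (nrm π j).subtype) a)) = (π.comp (nrm π j).subtype) a :=
    fun a ha => Function.invFun_eq ha
  have hnorm : (pre (π.comp (nrm π j).subtype) j2).Normal := ⟨by
    rintro a ⟨v, e⟩ g
    exact ⟨φ g v, by rw [hφ, e, map_mul, map_mul, map_inv]⟩⟩
  refine ⟨nrm π j, hfi, pre (π.comp (nrm π j).subtype) j2, m,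
    fun a => Function.invFun j ((π.comp (nrm π j).subtype) a), φ, hnorm, m0, ?_, ?_, ?_, ?_, ?_, ?_⟩
  · intro a ha
    exact ⟨0, by rw [j_zero j2]; exact (MonoidHom.mem_ker.1 ha).symm⟩
  · intro a ha b hb
    apply j1
    rw [j2, hβ a ha, hβ b hb, hβ _ (Subgroup.mul_mem _ ha hb), map_mul]
  · intro v
    obtain ⟨a, e⟩ := j3 v
    have cm : ∀ u w, j u * j w * (j u)⁻¹ = j w := fun u w => by
      rw [← j2, add_comm, j2, mul_inv_cancel_right]
    have ha : a ∈ nrm π j := ⟨fun w => ⟨w, by rw [e, cm]⟩,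
      fun w => ⟨w, by rw [map_inv, e, ← j_neg j2, cm]⟩⟩
    have hA : (⟨a, ha⟩ : nrm π j) ∈ pre (π.comp (nrm π j).subtype) j2 := ⟨v, e.symm⟩
    exact ⟨⟨a, ha⟩, hA, j1 ((hβ _ hA).trans e)⟩
  · intro a ha
    constructor
    · intro e
      rw [← hβ a ha, e, j_zero j2]
    · intro e
      apply j1
      rw [hβ a ha, e, j_zero j2]
  · intro e a ha
    apply j1
    rw [hβ _ (hnorm.conj_mem a ha e), hφ, hβ a ha, map_mul, map_mul, map_inv]
  · intro L H' hL hH' hs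
    have hfi' : (H'.map (nrm π j).subtype).FiniteIndex := ⟨by
      rw [Subgroup.index_map_subtype]
      exact mul_ne_zero hH'.index_ne_zero hfi.index_ne_zero⟩
    have hg := good_sub hj L hL _ hfi' (by
      rintro _ ⟨g, hg, rfl⟩ v hv
      exact ⟨φ g v, hs g hg v hv, (hφ g v).symm⟩)
    exact full_of_rank L (hmin _ hg)

end Pool.Agent.Lib.MP_721660_al.Ht
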