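import Pool.Agent.Lib.MP_721660_al.Ht.Defs
import Pool.Agent.Lib.MP_721660_al.CD.Basic

set_option autoImplicit false

namespace Pool.Agent.Lib.MP_721660_al.Ht

namespace Start49

theorem ser_of_poly {G : Type} [Group G] {H : Subgroup G} (h : Pool.Agent.Cdim.Poly H) :
    ∃ n, Ser n H := by
  induction h with
  | bot => exact ⟨0, Ser.bot 0⟩
  | step N H x _ hle hx hn hc ih =>
    obtain ⟨n, ih⟩ := ih
    refine ⟨n + 1, Ser.inf x ih hle hx hn fun h hh => ?_⟩
    obtain ⟨j, k, hk, rfl⟩ := hc h hh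
    exact ⟨x ^ j * k * (x ^ j)⁻¹, hn _ (H.zpow_mem hx j) k hk, j, by group⟩

section
variable {D M : Type} [Ring D] [AddCommGroup M] [Module D M]

theorem stb_pow {τ : M ≃ₗ[ℤ] M} {U : Submodule D M} (h : Stb τ U) (k : ℕ) : Stb (τ ^ k) U := by
  induction k with
  | zero => intro x; simp
  | succ k ih =>
    intro x
    rw [pow_succ, LinearEquiv.mul_apply, ih, h]

theorem stb_rad {τ : M ≃ₗ[ℤ] M} {W : Submodule D M} (ρ : ℕ) (h : Stb τ W) :
    Stb τ (rad ρ τ W) := by
  intro x
  simp only [rad, Submodule.mem_inf, Submodule.mem_sInf, Set.mem_setOf_eq, h x]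
  exact and_congr_right fun _ => forall_congr' fun U => imp_congr_right fun hU => hU.1 x

theorem sub_mul {τ : M ≃ₗ[ℤ] M} {U : Submodule D M} (h : Stb τ U) {x : M} {d : ℕ}
    (hx : (τ ^ d) x - x ∈ U) (k : ℕ) : (τ ^ (d * k)) x - x ∈ U := by
  induction k with
  | zero => simp
  | succ k ih =>
    have h1 : (τ ^ d) ((τ ^ (d * k)) x - x) ∈ U := (stb_pow h d _).2 ih
    have h2 : (τ ^ (d * (k + 1))) x - x = (τ ^ d) ((τ ^ (d * k)) x - x) + ((τ ^ d) x - x) := by
      rw [map_sub, ← LinearEquiv.mul_apply, ← pow_add, mul_add, mul_one, add_comm d]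
      abel
    rw [h2]
    exact U.add_mem h1 hx

theorem step [Fintype D] {τ : M ≃ₗ[ℤ] M} {U W : Submodule D M} {ρ : ℕ} (hU : Stb τ U)
    (hW : Stb τ W) (hc : Cod ρ U W) {x : M} (hx : x ∈ W) :
    (τ ^ (Fintype.card D ^ ρ).factorial) x - x ∈ U := by
  classical
  obtain ⟨s, hs, hle⟩ := hc
  have hex : ∀ i : ℕ, ∃ c : s → D, (τ ^ i) x - ∑ a : s, c a • (a : M) ∈ U := by
    intro i
    obtain ⟨u, hu, v, hv, huv⟩ := Submodule.mem_sup.1 (hle ((stb_pow hW i x).2 hx))
    obtain ⟨c, hc⟩ := (Submodule.mem_span_finset' ).1 hv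
    refine ⟨c, ?_⟩
    rw [← huv, hc]
    simpa using hu
  choose c hc using hex
  have hpos : 0 < Fintype.card D := Fintype.card_pos
  have hcard : Fintype.card (s → D) < Fintype.card (Fin (Fintype.card D ^ ρ + 1)) := by
    rw [Fintype.card_fun, Fintype.card_coe, Fintype.card_fin]
    exact Nat.lt_succ_of_le (Nat.pow_le_pow_right hpos hs)
  have key : ∀ i j : ℕ, i < j → j ≤ Fintype.card D ^ ρ → c i = c j →
      (τ ^ (Fintype.card D ^ ρ).factorial) x - x ∈ U := by
    intro i j hij hj hcc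
    obtain ⟨d, rfl⟩ := Nat.exists_eq_add_of_lt hij
    have h1 := U.sub_mem (hc (i + d + 1)) (hc i)
    rw [hcc, sub_sub_sub_cancel_right, add_assoc, pow_add, LinearEquiv.mul_apply, ← map_sub,
      stb_pow hU i] at h1
    obtain ⟨k, hk⟩ : d + 1 ∣ (Fintype.card D ^ ρ).factorial :=
      Nat.dvd_factorial (Nat.succ_pos d) (by omega)
    rw [hk]
    exact sub_mul hU h1 k
  obtain ⟨i, j, hij, hcc⟩ := Fintype.exists_ne_map_eq_of_card_lt
    (fun i : Fin (Fintype.card D ^ ρ + 1) => c i) hcard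
  rcases lt_or_gt_of_ne (fun h : (i : ℕ) = j => hij (Fin.ext h)) with h | h
  · exact key i j h (Nat.lt_succ_iff.1 j.2) hcc
  · exact key j i h (Nat.lt_succ_iff.1 i.2) hcc.symm

theorem fix [Fintype D] {τ : M ≃ₗ[ℤ] M} {ρ p : ℕ} (hp : ∀ m : M, p • m = 0) (l : ℕ) :
    ∀ W : Submodule D M, Stb τ W → (rad ρ τ)^[l] W = ⊥ → ∀ x ∈ W,
      (τ ^ ((Fintype.card D ^ ρ).factorial * p ^ l)) x = x := by
  induction l with
  | zero =>
    intro W _ h x hx
    have : W = ⊥ := h
    rw [this, Submodule.mem_bot] at hx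
    rw [hx, map_zero]
  | succ l ih =>
    intro W hW h x hx
    rw [Function.iterate_succ_apply] at h
    have hR := stb_rad ρ hW
    have h0 : (τ ^ (Fintype.card D ^ ρ).factorial) x - x ∈ rad ρ τ W := by
      refine ⟨W.sub_mem ((stb_pow hW _ x).2 hx) hx, Submodule.mem_sInf.2 ?_⟩
      rintro U ⟨hU, -, hc⟩
      exact step hU hW hc hx
    set e := (Fintype.card D ^ ρ).factorial * p ^ l with he
    have h1 : (τ ^ e) x - x ∈ rad ρ τ W := sub_mul hR h0 _
    have h2 := ih _ hR h _ h1
    have h3 : ∀ k : ℕ, (τ ^ (e * k)) x = x + k • ((τ ^ e) x - x) := by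
      intro k
      induction k with
      | zero => simp
      | succ k ihk =>
        rw [mul_add, mul_one, add_comm (e * k), pow_add, LinearEquiv.mul_apply, ihk, map_add,
          map_nsmul, h2, succ_nsmul]
        abel
    rw [pow_succ, ← mul_assoc, ← he, h3, hp, add_zero]

end

end Start49

open Start49 Pool.Agent.Cdim in
theorem er_of_main (h : ∀ n, MainAt n) (Q : Type) [Group Q]
    (hP : Pool.Agent.Cdim.Poly (⊤ : Subgroup Q)) (M : Type) [AddCommGroup M] (ρ : Act Q M)
    (p : ℕ) [hF : Fact p.Prime] [Module (ZMod p) M] (hM : ∀ m : M, p • m = 0) (hN : Noeth ρ) :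
    Er ρ := by
  classical
  have hp : p.Prime := hF.out
  let act : Q →* (M ≃ₗ[ℤ] M) :=
    { toFun := fun g =>
        { toFun := ρ g
          invFun := ρ g⁻¹
          map_add' := map_add (ρ g)
          map_smul' := fun n x => map_zsmul (ρ g) n x
          left_inv := act_inv_act ρ g
          right_inv := act_act_inv ρ g }
      map_one' := LinearEquiv.ext fun x => act_one ρ x
      map_mul' := fun g g' => LinearEquiv.ext fun x => act_mul ρ g g' x }
  have hact : ∀ g x, act g x = ρ g x := fun _ _ => rfl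
  have hsm : ∀ (g : Q) (d : ZMod p) (x : M), ρ g (d • x) = d • ρ g x := fun g d x =>
    ZMod.map_smul (ρ g : M →+ M) d x
  let S : SL (ZMod p) M Q := { act := act, tw := 1, act_smul := fun e d x => hsm e d x }
  obtain ⟨n0, hn0⟩ := ser_of_poly hP
  obtain ⟨-, -, -, -, s, hs⟩ := basic_st Q M ρ hN
  have hfg : S.FGen := by
    refine ⟨s, eq_top_iff.2 fun m _ => ?_⟩
    have hm : m ∈ spanOn ρ ⊤ (s : Set M) := by rw [hs]; trivial
    have : spanOn ρ ⊤ (s : Set M) ≤ (S.gen (s : Set M)).toAddSubgroup := by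
      refine (AddSubgroup.closure_le _).2 ?_
      rintro x ⟨g, -, y, hy, rfl⟩
      exact Submodule.subset_span ⟨g, y, hy, rfl⟩
    exact this hm
  have hsc : S.Scal (MonoidHom.id Q).ker := by
    intro e he
    have : e = 1 := he
    exact ⟨1, fun x => by rw [this, map_one, one_smul]; rfl⟩
  obtain ⟨n, l, r, hn, hB⟩ := h n0 (ZMod p) M Q Q S (MonoidHom.id Q) hn0 hsc hfg
  refine ⟨n * ((Fintype.card (ZMod p) ^ r).factorial * p ^ l),
    Nat.mul_pos hn (Nat.mul_pos (Nat.factorial_pos _) (pow_pos hp.pos l)), fun q m N hN hfix => ?_⟩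
  let W : Submodule (ZMod p) M :=
    Submodule.span (ZMod p) (Set.range fun i : Fin N => ρ (q ^ (i : ℕ)) m)
  have hper : ∀ k : ℕ, ρ (q ^ (N * k)) m = m := by
    intro k
    induction k with
    | zero => rw [mul_zero, pow_zero, act_one]
    | succ k ih => rw [mul_add, mul_one, pow_add, act_mul, hfix, ih]
  have hall : ∀ i : ℕ, ρ (q ^ i) m ∈ W := by
    intro i
    have : ρ (q ^ i) m = ρ (q ^ (i % N)) m := by
      conv_lhs => rw [← Nat.mod_add_div i N, pow_add, act_mul, hper]
    rw [this]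
    exact Submodule.subset_span ⟨⟨i % N, Nat.mod_lt i hN⟩, rfl⟩
  have hinv : ∀ (k : ℕ), ∀ x ∈ W, ρ (q ^ k) x ∈ W := by
    intro k x hx
    induction hx using Submodule.span_induction with
    | mem x hx =>
      obtain ⟨i, rfl⟩ := hx
      rw [← act_mul, ← pow_add]
      exact hall _
    | zero => rw [map_zero]; exact W.zero_mem
    | add x y _ _ hx hy => rw [map_add]; exact W.add_mem hx hy
    | smul d x _ hx => rw [hsm]; exact W.smul_mem d hx
  have hN1 : ∀ x ∈ W, ρ (q ^ N) x = x := by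
    intro x hx
    induction hx using Submodule.span_induction with
    | mem x hx =>
      obtain ⟨i, rfl⟩ := hx
      rw [← act_mul, ← pow_add, add_comm, pow_add, act_mul, hfix]
    | zero => rw [map_zero]
    | add x y _ _ hx hy => rw [map_add, hx, hy]
    | smul d x _ hx => rw [hsm, hx]
  have hst : Stb (S.act q) W := by
    intro x
    constructor
    · intro hx
      obtain ⟨N', rfl⟩ := Nat.exists_eq_succ_of_ne_zero hN.ne'
      have h1 : ρ q x ∈ W := hx
      have h2 := hN1 _ h1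
      rw [← act_mul, ← pow_succ, pow_succ', act_mul] at h2
      have h3 : ρ (q ^ (N' + 1)) x = x := by
        have := congrArg (ρ q⁻¹) h2
        rwa [act_inv_act, act_inv_act] at this
      rw [← h3, pow_succ, act_mul]
      exact hinv N' _ h1
    · intro hx
      have := hinv 1 x hx
      rwa [pow_one] at this
  have hW : W.FG := Submodule.fg_span (Set.finite_range _)
  have hm : m ∈ W := by simpa [act_one] using hall 0
  have := fix hM l W (stb_pow hst n) (hB q W le_top hW hst) m hm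
  rw [← pow_mul, ← map_pow] at this
  exact this

open Pool.Agent.Cdim in
/-- The induction statement gives the heart in prime exponent. -/
theorem charP_of_main (h : ∀ n, MainAt n) (Q : Type) [Group Q]
    (hP : Pool.Agent.Cdim.Poly (⊤ : Subgroup Q)) : CharP Q := by
  intro M _ ρ p hp hM hN
  haveI : Fact p.Prime := ⟨hp⟩
  haveI : NeZero p := ⟨hp.ne_zero⟩
  exact @er_of_main h Q _ hP M _ ρ p _ (AddCommGroup.zmodModule hM) hM hN

end Pool.Agent.Lib.MP_721660_al.Ht
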