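import Pool.Agent.Lib.MP_721660_al.Ht.Sup

set_option autoImplicit false

namespace Pool.Agent.Lib.MP_721660_al.Ht

variable {K L B V : Type} [DivisionRing K] [DivisionRing L] [AddCommGroup B] [AddCommGroup V]
  [Module L V] [Module K V] {j : K →+* L} {u : B → L} {σ : L ≃+* L} {φ : B ≃ₗ[ℤ] B}
  {τ : V ≃ₗ[ℤ] V}

namespace Perx

theorem inj_orbit (hf : FO φ) {b : B} (hb : φ b ≠ b) :
    Function.Injective (fun n : ℕ => (φ ^ n) b) := by
  have key : ∀ m n : ℕ, m < n → (φ ^ m) b ≠ (φ ^ n) b := by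
    intro m n hmn e
    obtain ⟨r, rfl⟩ := Nat.exists_eq_add_of_lt hmn
    have e2 : (φ ^ m) b = (φ ^ m) ((φ ^ (r + 1)) b) := by
      rw [e, ← LinearEquiv.mul_apply, ← pow_add, add_assoc]
    exact hb (hf b (r + 1) (Nat.succ_pos r) ((φ ^ m).injective e2).symm)
  intro m n e
  rcases lt_trichotomy m n with h | h | h
  · exact absurd e (key m n h)
  · exact h
  · exact absurd e.symm (key n m h)

theorem escape (hf : FO φ) (F Ψ : Finset B) (hF : ∀ b ∈ F, φ b ≠ b) :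
    ∃ n : ℕ, ∀ b ∈ F, (φ ^ n) b ∉ Ψ := by
  have h1 : (⋃ b ∈ (F : Set B), (fun n : ℕ => (φ ^ n) b) ⁻¹' (Ψ : Set B)).Finite :=
    F.finite_toSet.biUnion fun b hb =>
      Ψ.finite_toSet.preimage (inj_orbit hf (hF b hb)).injOn
  obtain ⟨n, hn⟩ := h1.infinite_compl.nonempty
  refine ⟨n, fun b hb hm => hn ?_⟩
  exact Set.mem_biUnion (Finset.mem_coe.2 hb) hm

theorem mem_fin (h : CR j u) (hc : Cmp j V) (P : Set B) (X : Submodule K V) {v : V}
    (hv : v ∈ usp K u P (X : Set V)) :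
    ∃ F : Finset B, (∀ b ∈ F, b ∈ P) ∧ v ∈ usp K u (F : Set B) (X : Set V) := by
  obtain ⟨F, y, hF, rfl⟩ := mem_usp h hc P X hv
  refine ⟨F, fun b hb => (hF b hb).1, Submodule.sum_mem _ fun b hb => ?_⟩
  exact Submodule.subset_span ⟨b, hb, y b, (hF b hb).2, rfl⟩

theorem pow_usp (ht : Tw j u σ φ) (hc : Cmp j V) (hτ : Semi σ τ) (P : Set B)
    {X : Submodule K V} (hX : Stb τ X) {v : V} (hv : v ∈ usp K u P (X : Set V)) (n : ℕ) :
    (τ ^ n) v ∈ usp K u ((fun b => (φ ^ n) b) '' P) (X : Set V) := by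
  induction n with
  | zero => simpa using hv
  | succ n ih =>
    rw [pow_succ' τ, LinearEquiv.mul_apply]
    refine tau_usp ht hc hτ ?_ hX ih
    rintro _ ⟨b, hb, rfl⟩
    exact ⟨b, hb, by simp only [pow_succ', LinearEquiv.mul_apply]⟩

end Perx

theorem per_lemma (h : FC j u) (ht : Tw j u σ φ) (hf : FO φ) (hc : Cmp j V) (hτ : Semi σ τ)
    (X : Submodule K V) (hX : X.FG) (hs : Stb τ X) :
    ∀ v ∈ X, v ∈ usp K u {b | φ b ≠ b} (X : Set V) → v = 0 := by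
  intro v hv hu
  obtain ⟨Ψ, hΨ⟩ := sup_lemma h hc X hX
  obtain ⟨F, hF, hvF⟩ := Perx.mem_fin h.toCR hc _ X hu
  obtain ⟨n, hn⟩ := Perx.escape hf F Ψ hF
  have h1 := Perx.pow_usp ht hc hτ _ hs hvF n
  have h2 : (τ ^ n) v = 0 := by
    refine hΨ _ ((hs.pow n v).2 hv) (usp_mono ?_ subset_rfl h1)
    rintro _ ⟨b, hb, rfl⟩
    exact hn b hb
  exact (τ ^ n).injective (by rw [h2, map_zero])

theorem dir_lemma (h : FC j u) (ht : Tw j u σ φ) (hf : FO φ) (hc : Cmp j V) (hτ : Semi σ τ)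
    (X : Submodule K V) (hX : X.FG) (hs : Stb τ X) :
    ∀ v ∈ usp K u {b | φ b = b} (X : Set V), v ∈ usp K u {b | φ b ≠ b} (X : Set V) → v = 0 := by
  classical
  intro v hv hu
  obtain ⟨F, hF, hvF⟩ := Perx.mem_fin h.toCR hc _ X hv
  have hfix : ∀ b ∈ ((insert 0 F : Finset B) : Set B), φ b = b := by
    intro b hb
    rcases Finset.mem_insert.1 (Finset.mem_coe.1 hb) with rfl | hb
    · exact map_zero φ
    · exact hF b hb
  have hle : (X : Set V) ⊆ (usp K u ((insert 0 F : Finset B) : Set B) (X : Set V) : Set V) := by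
    intro x hx
    obtain ⟨k, hk, hu0⟩ := u_zero h.toCR
    refine Submodule.subset_span ⟨0, by simp, k⁻¹ • x, X.smul_mem _ hx, ?_⟩
    rw [hu0, ← hc, smul_smul, mul_inv_cancel₀ hk, one_smul]
  refine per_lemma h ht hf hc hτ _ (usp_fg h.toCR hc (insert 0 F) hX)
    (stb_usp h.toCR ht hc hτ hfix hs) v ?_ (usp_mono subset_rfl hle hu)
  exact usp_mono (by simp) subset_rfl hvF

end Pool.Agent.Lib.MP_721660_al.Ht
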