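import Pool.Agent.Lib.MP_721660_al.Ht.Defs

set_option autoImplicit false

namespace Pool.Agent.Lib.MP_721660_al.Ht

variable {T M : Type} [Ring T] [AddCommGroup M] [Module T M]

theorem crit_exists [IsNoetherianRing T] (x1 : M) (h : x1 ≠ 0) :
    ∃ x0 : M, Crit T x0 ∧ ∃ t : T, ∀ r : T, r • t • x1 = 0 → r • x0 = 0 := by
  obtain ⟨K, ⟨hK, z, y, hy, hz⟩, hmax⟩ := set_has_maximal_iff_noetherian.2
    (inferInstance : IsNoetherian T T)
    {K : Submodule T T | (∀ r : T, r • x1 = 0 → r ∈ K) ∧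
      ∃ (z : T) (y : M), y ≠ 0 ∧ ∀ r : T, r * z ∈ K → r • y = 0}
    ⟨LinearMap.ker (LinearMap.toSpanSingleton T M x1), fun r hr => by simpa using hr,
      1, x1, h, fun r hr => by simpa using hr⟩
  have grow : ∀ (w z' : T) (y' : M), y' ≠ 0 →
      (∀ r a : T, r * z' - a * w ∈ K → r • y' = 0) → w ∈ K := by
    intro w z' y' hy' hw
    by_contra hn
    refine hmax (K ⊔ Submodule.span T {w}) ⟨fun r hr => Submodule.mem_sup_left (hK r hr),
      z', y', hy', fun r hr => ?_⟩ (lt_of_le_of_ne le_sup_left fun e => hn ?_)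
    · obtain ⟨k, hk, v, hv, e⟩ := Submodule.mem_sup.1 hr
      obtain ⟨a, rfl⟩ := Submodule.mem_span_singleton.1 hv
      refine hw r a ?_
      rw [← e, smul_eq_mul, add_sub_cancel_right]
      exact hk
    · rw [e]
      exact Submodule.mem_sup_right (Submodule.mem_span_singleton_self w)
  have back : ∀ (z' : T) (y' : M), y' ≠ 0 → (∀ r : T, r * z' ∈ K → r • y' = 0) →
      ∀ r : T, r • y' = 0 → r * z' ∈ K := by
    intro z' y' hy' hw r hr
    refine grow _ z' y' hy' fun r' a ha => ?_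
    have h1 := hw (r' - a * r) (by rw [sub_mul, mul_assoc]; exact ha)
    rwa [sub_smul, mul_smul, hr, smul_zero, sub_zero] at h1
  refine ⟨y, ⟨hy, fun t y' hy' ht r hr => ?_, fun s t hs ht => ?_⟩, z, fun r hr =>
    hz r (hK _ (by rw [mul_smul]; exact hr))⟩
  · have h1 := back (t * z) y' hy' (fun r' hr' => ht r' (by
      rw [← mul_smul]
      exact hz _ (by rw [mul_assoc]; exact hr'))) r hr
    rw [← mul_smul]
    exact hz _ (by rw [mul_assoc]; exact h1)
  · by_contra hc
    refine ht (hz t (grow _ (s * z) (s • y) hs fun r a ha => ?_))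
    have h1 := hz (r * s - a * t) (by rw [sub_mul, mul_assoc, mul_assoc]; exact ha)
    rw [sub_smul, mul_smul, mul_smul, sub_eq_zero] at h1
    by_contra h2
    exact hc ⟨r, a, h1, h2⟩

end Pool.Agent.Lib.MP_721660_al.Ht
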