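import Pool.Agent.Lib.MP_721660_al.Ht.Cr3
import Pool.Agent.Lib.MP_721660_al.Ht.RgB

set_option autoImplicit false

namespace Pool.Agent.Lib.MP_721660_al.Ht

variable {D M E : Type} [DivisionRing D] [AddCommGroup M] [Module D M] [Group E]

theorem indp_of_crit (S : SL D M E) (A : Subgroup E) (S' : SL (S.rg (A : Set E)) M E)
    (hS : S'.act = S.act) {x0 : M} (h0 : Crit (S.rg (A : Set E)) x0) (H : Subgroup E)
    (hH : ∀ e, e ∈ H ↔ Sim (S.rg (A : Set E)) x0 (S.act e x0)) :
    A ≤ H ∧ S.Indp H ((S.comap H.subtype).gen {x0}) := by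
  have hc : ∀ e, Crit (S.rg (A : Set E)) (S.act e x0) := fun e => hS ▸ Crit.act S' e h0
  have one : ∀ (e : E) (d : D), d • S.act e x0 = 0 ∨ (Crit (S.rg (A : Set E)) (d • S.act e x0) ∧
      (Sim (S.rg (A : Set E)) x0 (d • S.act e x0) ↔ e ∈ H)) := by
    intro e d
    by_cases h : d • S.act e x0 = 0
    · exact Or.inl h
    · rw [inc_smul S (A : Set E)] at h ⊢
      have h1 := (hc e).smul _ h
      have h2 := sim_smul _ h
      exact Or.inr ⟨h1, fun h3 => (hH e).2 (Sim.trans h1 h3 h2.symm),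
        fun h3 => Sim.trans (hc e) ((hH e).1 h3) h2⟩
  have key : ∀ (g : E) (P : Set M), (∀ (h : E) (d : D), h ∈ H → d • S.act (g * h) x0 ≠ 0 →
      d • S.act (g * h) x0 ∈ P) → ∀ y ∈ (S.comap H.subtype).gen {x0},
      S.act g y ∈ AddSubgroup.closure P := by
    intro g P hP y hy
    have hy' := mem_gen _ hy
    clear hy
    induction hy' using AddSubgroup.closure_induction with
    | mem z hz =>
      obtain ⟨d, h, z, rfl, rfl⟩ := hz
      have e1 : S.act g (d • (S.comap H.subtype).act h z) = S.tw g d • S.act (g * h) z := by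
        rw [S.act_smul, act_mul]; rfl
      rw [e1]
      by_cases h1 : S.tw g d • S.act (g * h) z = 0
      · rw [h1]; exact zero_mem _
      · exact AddSubgroup.subset_closure (hP h _ h.2 h1)
    | zero => rw [map_zero]; exact zero_mem _
    | add a b _ _ ha hb => rw [map_add]; exact add_mem ha hb
    | neg a _ ha => rw [map_neg]; exact neg_mem ha
  refine ⟨fun a ha => (hH a).2 ?_, fun x hx hx' => crit_indep h0 x ?_ ?_⟩
  · have e1 : S.act a x0 = (⟨S.op a, op_mem S ha⟩ : S.rg (A : Set E)) • x0 := rfl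
    rw [e1]
    exact sim_smul _ (e1 ▸ (hc a).1)
  · have := key 1 {y | Crit (S.rg (A : Set E)) y ∧ Sim (S.rg (A : Set E)) x0 y} (fun h d hh h1 => by
      obtain ⟨h2, h3⟩ := (one (1 * h) d).resolve_left h1
      exact ⟨h2, h3.2 (by rwa [one_mul])⟩) x hx
    rwa [map_one] at this
  · refine (AddSubgroup.closure_le _).2 ?_ hx'
    rintro _ ⟨g, hg, y, hy, rfl⟩
    refine key g _ (fun h d hh h1 => ?_) y hy
    obtain ⟨h2, h3⟩ := (one (g * h) d).resolve_left h1
    exact ⟨h2, fun h4 => hg ((H.mul_mem_cancel_right hh).1 (h3.1 h4))⟩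

end Pool.Agent.Lib.MP_721660_al.Ht
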