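import Pool.Agent.Lib.MP_721660_al.Ht.Defs
import Pool.Agent.Lib.MP_721660_al.Cover

set_option autoImplicit false

namespace Pool.Agent.Lib.MP_721660_al.Ht

theorem no_char {E : Type} [Group E] {Γ : Type} [Group Γ] {π : E →* Γ} {A : Subgroup E} {m : ℕ} {β : E → Zm m}
  {φ : E →* (Zm m ≃ₗ[ℤ] Zm m)}
    (hP : Plinth π A m β φ) (H : Subgroup E) [H.FiniteIndex] (χ : Zm m →+ ℝ) (F : Finset (Zm m))
    (hF : ∀ f ∈ F, f ≠ 0) (h : ∀ e ∈ H, ∃ f ∈ F, χ (φ e f) = 0) : χ = 0 := by
  classical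
  let σ : H →* AddMonoid.End (Zm m) :=
    { toFun := fun e => (φ (e : E)).toLinearMap.toAddMonoidHom
      map_one' := by
        ext1 v
        change φ ((1 : H) : E) v = v
        rw [OneMemClass.coe_one, map_one]; rfl
      map_mul' := fun a b => by
        ext1 v
        change φ ((a * b : H) : E) v = φ (a : E) (φ (b : E) v)
        rw [Subgroup.coe_mul, map_mul]; rfl }
  have hσ : ∀ (e : H) (v : Zm m), σ e v = φ (e : E) v := fun _ _ => rfl
  obtain ⟨C1, hC1, B, ⟨b, hb, hbB⟩, hst, y, hy⟩ :=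
    Pool.Agent.Lib.MP_721660_al.Cover.cover σ χ.ker F (by
      intro x
      obtain ⟨f, hf, h0⟩ := h x x.2
      exact ⟨f, hf, h0⟩)
  have hfi : (C1.map H.subtype).FiniteIndex := by
    refine ⟨?_⟩
    rw [Subgroup.index_map_subtype]
    exact mul_ne_zero hC1.index_ne_zero Subgroup.FiniteIndex.index_ne_zero
  have hne : B.toIntSubmodule ≠ ⊥ := by
    intro h0
    have : b ∈ B.toIntSubmodule := hbB
    rw [h0, Submodule.mem_bot] at this
    exact hF b hb this
  have key := hP.min B.toIntSubmodule (C1.map H.subtype) hne hfi (by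
    rintro _ ⟨x, hx, rfl⟩ v hv
    exact hst x hx v hv)
  refine AddMonoidHom.ext fun w => ?_
  obtain ⟨k, hk, hkv⟩ := key ((φ (y : E)).symm w)
  have h1 : χ (φ (y : E) (k • (φ (y : E)).symm w)) = 0 := hy _ hkv
  rw [map_zsmul, LinearEquiv.apply_symm_apply, map_zsmul, zsmul_eq_mul] at h1
  rcases mul_eq_zero.1 h1 with h2 | h2
  · exact absurd (Int.cast_eq_zero.1 h2) hk
  · exact h2

end Pool.Agent.Lib.MP_721660_al.Ht
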