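import Pool.Agent.Lib.MP_721660_al.Ht.Mc2
import Pool.Agent.Lib.MP_721660_al.Ht.Cov

set_option autoImplicit false

namespace Pool.Agent.Lib.MP_721660_al.Ht

variable {D M E : Type} [DivisionRing D] [AddCommGroup M] [Module D M] [Group E]
  {Γ : Type} [Group Γ] {π : E →* Γ} {A : Subgroup E} {m : ℕ} {β : E → Zm m}
  {φ : E →* (Zm m ≃ₗ[ℤ] Zm m)}

theorem delta_empty (S : SL D M E) (hP : Plinth π A m β φ) (hs : S.Scal π.ker)
    (S' : SL (S.rg (A : Set E)) M E) (hS : S'.act = S.act) (u : Zm m → E)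
    (hu : ∀ b, u b ∈ A ∧ β (u b) = b) (c : Zm m →₀ D) (hc : c ≠ 0) (x1 : M)
    (hx : S.app u c x1 = 0) {x0 : M} (h0 : Crit (S.rg (A : Set E)) x0) (t : S.rg (A : Set E))
    (ht : ∀ r : S.rg (A : Set E), r • t • x1 = 0 → r • x0 = 0) (H : Subgroup E) [H.FiniteIndex]
    (hH : ∀ e, e ∈ H ↔ Sim (S.rg (A : Set E)) x0 (S.act e x0)) (χ : Zm m →+ ℝ) (hχ : χ ≠ 0) :
    ∃ r : S.rg (A : Set E), r • x0 ≠ 0 ∧ r • x0 ∈ S.Mchi A β χ := by
  classical
  by_contra hcon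
  apply hχ
  refine no_char hP H χ (((c.support ×ˢ c.support).image fun p => p.1 - p.2).erase 0)
    (fun f hf => (Finset.mem_erase.1 hf).1) fun e he => ?_
  by_contra hall
  push Not at hall
  let χe : Zm m →+ ℝ := χ.comp (φ e).toLinearMap.toAddMonoidHom
  have h1 : x1 ∈ S.Mchi A β χe := mchi_generic S hP u hu c hc x1 hx χe fun b hb b' hb' hne =>
    hall _ (Finset.mem_erase.2 ⟨sub_ne_zero.2 hne,
      Finset.mem_image.2 ⟨(b, b'), Finset.mem_product.2 ⟨hb, hb'⟩, rfl⟩⟩)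
  obtain ⟨q, hq, hqx⟩ := mchi_smul S hP hs χe t h1
  have hqr : q ∈ S.rg (A : Set E) := by
    have hle : S.posp A β χe ≤ (S.rg (A : Set E)).toAddSubgroup := by
      rw [SL.posp, AddSubgroup.closure_le]
      rintro _ ⟨d, a, ha, -, rfl⟩
      exact (S.rg (A : Set E)).mul_mem (S.inc (A : Set E) d).2 (op_mem S ha)
    exact hle hq
  have h2 : x0 ∈ S.Mchi A β χe := by
    refine ⟨q, hq, ?_⟩
    have := ht (1 - ⟨q, hqr⟩) (by
      rw [sub_smul, one_smul, sub_eq_zero]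
      exact hqx.symm)
    rw [sub_smul, one_smul, sub_eq_zero] at this
    exact this.symm
  have h3 : S.act e x0 ∈ S.Mchi A β χ := mchi_act S hP e χe χ (fun _ => rfl) h2
  have h4 : Crit (S.rg (A : Set E)) (S.act e x0) := by
    have := h0.act S' e
    rwa [hS] at this
  exact hcon (mchi_sim S hP hs χ h4 ((hH e).1 he).symm
    ⟨1, by rw [one_smul]; exact h4.1, by rwa [one_smul]⟩)

end Pool.Agent.Lib.MP_721660_al.Ht
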