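import Pool.Agent.Lib.MP_721660_al.Ht.Fin1

set_option autoImplicit false

namespace Pool.Agent.Lib.MP_721660_al.Ht

variable {D M E : Type} [DivisionRing D] [AddCommGroup M] [Module D M] [Group E]
  {Γ : Type} [Group Γ] {π : E →* Γ} {A : Subgroup E} {m : ℕ} {β : E → Zm m}
  {φ : E →* (Zm m ≃ₗ[ℤ] Zm m)}

theorem fin_dim (S : SL D M E) (hP : Plinth π A m β φ) (hs : S.Scal π.ker) {y : M}
    (h : ∀ χ : Zm m →+ ℝ, χ ≠ 0 → y ∈ S.Mchi A β χ) :
    (toD (S.inc (A : Set E)) (inc_smul S _)
      (Submodule.span (S.rg (A : Set E)) {y})).FG := by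
  obtain ⟨R, hR⟩ := cpt_norm {F : Finset (Zm m) | ∃ s ∈ AddSubgroup.closure
      {s | ∃ (d : D), ∃ a ∈ A, β a ∈ F ∧ s = S.scal d * S.op a}, s y = y} (by
    intro χ hχ
    obtain ⟨s, h1, h2⟩ := h χ hχ
    obtain ⟨F, h3, h4⟩ := posp_supp S χ h1
    exact ⟨F, ⟨s, h4, h2⟩, h3⟩)
  choose u huA hu using hP.surj
  have hB : {b : Zm m | ∑ i, b i ^ 2 ≤ R}.Finite := by
    refine (Set.finite_Icc (fun _ => -R : Zm m) (fun _ => R)).subset ?_
    intro b hb
    have h1 : ∀ i, b i ^ 2 ≤ R := fun i =>
      le_trans (Finset.single_le_sum (f := fun i => b i ^ 2) (fun _ _ => sq_nonneg _)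
        (Finset.mem_univ i)) hb
    constructor
    · intro i
      have h2 := h1 i
      have h3 := Int.le_self_sq (-b i)
      show -R ≤ b i
      nlinarith
    · intro i
      exact le_trans (Int.le_self_sq _) (h1 i)
  let X : Submodule D M :=
    Submodule.span D ((fun b => S.act (u b) y) '' {b : Zm m | ∑ i, b i ^ 2 ≤ R})
  have key : ∀ n : ℕ, ∀ a ∈ A, (∑ i, β a i ^ 2).toNat = n → S.act a y ∈ X := by
    intro n
    induction n using Nat.strong_induction_on with
    | _ n ih =>
      intro a ha hn
      by_cases hc : ∑ i, β a i ^ 2 ≤ R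
      · have hk : a * (u (β a))⁻¹ ∈ A := A.mul_mem ha (A.inv_mem (huA _))
        have h1 := hP.add _ hk _ (huA (β a))
        rw [inv_mul_cancel_right, hu] at h1
        have h2 : β (a * (u (β a))⁻¹) = 0 := by simpa using h1
        obtain ⟨d, hd⟩ := hs _ (MonoidHom.mem_ker.2 ((hP.zero_iff _ hk).1 h2))
        have h3 : S.act a y = d • S.act (u (β a)) y := by
          rw [← hd, ← act_mul, inv_mul_cancel_right]
        rw [h3]
        exact X.smul_mem _ (Submodule.subset_span ⟨β a, hc, rfl⟩)
      · obtain ⟨F, ⟨s, h1, h2⟩, h3⟩ := hR (β a) (not_le.1 hc)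
        rw [← h2]
        clear h2
        induction h1 using AddSubgroup.closure_induction with
        | mem s hs' =>
          obtain ⟨d, a', ha', hF, rfl⟩ := hs'
          have h4 : S.act a ((S.scal d * S.op a') y) = S.tw a d • S.act (a * a') y := by
            rw [act_mul, ← S.act_smul]; rfl
          rw [h4]
          refine X.smul_mem _ (ih _ ?_ _ (A.mul_mem ha ha') rfl)
          have h5 := h3 _ hF
          have h6 : (0 : ℤ) ≤ ∑ i, (β a i + β a' i) ^ 2 :=
            Finset.sum_nonneg fun _ _ => sq_nonneg _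
          rw [hP.add a ha a' ha', ← hn]
          simp only [Pi.add_apply]
          omega
        | zero => simp
        | add s t _ _ h4 h5 =>
          rw [LinearMap.add_apply, map_add]
          exact X.add_mem h4 h5
        | neg s _ h4 =>
          rw [LinearMap.neg_apply, map_neg]
          exact X.neg_mem h4
  have hX : toD (S.inc (A : Set E)) (inc_smul S _) (Submodule.span (S.rg (A : Set E)) {y}) = X := by
    apply le_antisymm
    · intro x hx
      obtain ⟨t, rfl⟩ := Submodule.mem_span_singleton.1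
        (show x ∈ Submodule.span (S.rg (A : Set E)) {y} from hx)
      rw [rg_smul]
      have h1 := rg_span S A t.1 t.2
      generalize t.1 = s at h1
      induction h1 using AddSubgroup.closure_induction with
      | mem s hs' =>
        obtain ⟨d, a', ha', rfl⟩ := hs'
        exact X.smul_mem d (key _ a' ha' rfl)
      | zero => simp
      | add s t _ _ h4 h5 =>
        rw [LinearMap.add_apply]
        exact X.add_mem h4 h5
      | neg s _ h4 =>
        rw [LinearMap.neg_apply]
        exact X.neg_mem h4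
    · refine Submodule.span_le.2 ?_
      rintro _ ⟨b, -, rfl⟩
      show S.act (u b) y ∈ Submodule.span (S.rg (A : Set E)) {y}
      exact Submodule.mem_span_singleton.2 ⟨⟨S.op (u b), op_mem S (huA b)⟩, rfl⟩
  rw [hX]
  exact Submodule.fg_span (hB.image _)

theorem exists_simple {D T M : Type} [DivisionRing D] [Ring T] [AddCommGroup M] [Module D M]
    [Module T M] (j : D →+* T) (hc : ∀ (d : D) (x : M), d • x = j d • x) (y : M) (hy : y ≠ 0)
    (hfg : (toD j hc (Submodule.span T {y})).FG) :
    ∃ t : T, t • y ≠ 0 ∧ IsSimpleModule T (Submodule.span T {t • y}) ∧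
      (toD j hc (Submodule.span T {t • y})).FG := by
  classical
  have hfd : FiniteDimensional D (toD j hc (Submodule.span T {y})) :=
    (Submodule.fg_iff_finiteDimensional _).1 hfg
  have hall : ∀ t : T, FiniteDimensional D (toD j hc (Submodule.span T {t • y})) := by
    intro t
    refine Submodule.finiteDimensional_of_le (S₂ := toD j hc (Submodule.span T {y})) ?_
    intro x hx
    exact Submodule.span_le.2 (Set.singleton_subset_iff.2
      (Submodule.mem_span_singleton.2 ⟨t, rfl⟩)) hx
  have hex : ∃ n : ℕ, ∃ t : T, t • y ≠ 0 ∧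
      Module.finrank D (toD j hc (Submodule.span T {t • y})) = n :=
    ⟨_, 1, by rwa [one_smul], rfl⟩
  obtain ⟨t, ht, hn⟩ := Nat.find_spec hex
  refine ⟨t, ht, isSimpleModule_iff_isAtom.2 ⟨?_, ?_⟩,
    (Submodule.fg_iff_finiteDimensional _).2 (hall t)⟩
  · exact fun e => ht (Submodule.span_singleton_eq_bot.1 e)
  · intro b hb
    by_contra hb0
    obtain ⟨x, hx, hx0⟩ := Submodule.exists_mem_ne_zero_of_ne_bot hb0
    obtain ⟨r, rfl⟩ := Submodule.mem_span_singleton.1 (hb.le hx)
    rw [← mul_smul] at hx hx0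
    have h1 : Submodule.span T {(r * t) • y} < Submodule.span T {t • y} :=
      lt_of_le_of_lt (Submodule.span_le.2 (Set.singleton_subset_iff.2 hx)) hb
    have h2 : toD j hc (Submodule.span T {(r * t) • y}) < toD j hc (Submodule.span T {t • y}) :=
      ⟨fun z hz => h1.le hz, fun h => h1.2 fun z hz => h hz⟩
    have := hall t
    have h3 := Submodule.finrank_lt_finrank_of_lt h2
    exact Nat.find_min hex (hn ▸ h3) ⟨r * t, hx0, rfl⟩

end Pool.Agent.Lib.MP_721660_al.Ht
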