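import Pool.Agent.Lib.MP_721660_al.Ht.Ser3
import Pool.Agent.Lib.MP_721660_al.CD.Ext
import Pool.Agent.Lib.MP_721660_al.CD.Two
import Pool.Agent.Lib.MP_721660_al.CD.Fg
import Pool.Agent.Lib.MP_721660_al.CD.Model
import Pool.Agent.Lib.MP_721660_al.CD.PEr
import Pool.Agent.Lib.MP_721660_al.CD.Poly

set_option autoImplicit false

namespace Pool.Agent.Lib.MP_721660_al.Ht

namespace Isox

open Pool.Agent.Cdim (GMax GEr)

theorem per : Pool.Agent.Cdim.PErSt.{0} :=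
  Pool.Agent.Cdim.per_st Pool.Agent.Cdim.model_st
    (Pool.Agent.Cdim.fg_st Pool.Agent.Cdim.ext_st Pool.Agent.Cdim.two_st)
    Pool.Agent.Cdim.aff_st Pool.Agent.Cdim.pmax_st

theorem tors {Q : Type} [Group Q] (A : Subgroup Q) (hc : ∀ a ∈ A, ∀ b ∈ A, Commute a b)
    (hf : A.FG) : ∃ t : ℕ, 0 < t ∧ ∀ a ∈ A, ∀ n : ℕ, 0 < n → a ^ n = 1 → a ^ t = 1 := by
  let inst : CommGroup A :=
    { (inferInstance : Group A) with mul_comm := fun a b => Subtype.ext (hc a a.2 b b.2).eq }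
  have h1 : Group.FG A := (Group.fg_iff_subgroup_fg _).2 hf
  have h2 : AddGroup.FG (Additive A) := GroupFG.iff_add_fg.1 h1
  obtain ⟨t, ht, hT⟩ := Pool.Agent.Cdim.PErx.tors_bound (Additive A) h2
  refine ⟨t, ht, fun a ha n hn h => ?_⟩
  have h3 : (⟨a, ha⟩ : A) ^ n = 1 := Subtype.ext h
  have h4 := hT (Additive.ofMul (⟨a, ha⟩ : A)) n hn (congrArg Additive.ofMul h3)
  have h5 : (⟨a, ha⟩ : A) ^ t = 1 := congrArg Additive.toMul h4
  exact congrArg Subtype.val h5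

theorem pow_mem {Q : Type} [Group Q] (A : Subgroup Q) [hA : A.Normal] {a : Q} (ha : a ∈ A) (h : Q)
    (r : ℕ) : (a * h) ^ r * (h ^ r)⁻¹ ∈ A := by
  rw [← QuotientGroup.ker_mk' A, MonoidHom.mem_ker] at ha ⊢
  rw [map_mul, map_inv, map_pow, map_pow, map_mul, ha, one_mul, mul_inv_cancel]

/-- the split case -/
theorem split {Q : Type} [Group Q] (hE : GEr Q) (A H : Subgroup Q) [A.Normal]
    (hc : ∀ a ∈ A, ∀ b ∈ A, Commute a b) (hf : A.FG) (hd : ∀ x ∈ A, x ∈ H → x = 1) :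
    ∃ m : ℕ, 0 < m ∧ ∀ a ∈ A, ∀ h ∈ H, ∀ r : ℕ, 0 < r → (a * h) ^ r ∈ H → (a * h) ^ m ∈ H := by
  obtain ⟨e, he, hE⟩ := hE
  obtain ⟨t, ht, hT⟩ := tors A hc hf
  refine ⟨e * t, Nat.mul_pos he ht, fun a ha h hh r hr hg => ?_⟩
  have h1 : (a * h) ^ r = h ^ r :=
    mul_inv_eq_one.1 (hd _ (pow_mem A ha h r) (H.mul_mem hg (H.inv_mem (H.pow_mem hh r))))
  have h2 : Commute a (h ^ r) := by
    have c1 : Commute (a * h) (h ^ r) := by rw [← h1]; exact (Commute.refl _).pow_right r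
    have c2 : Commute h⁻¹ (h ^ r) := ((Commute.refl h).pow_right r).inv_left
    simpa using c1.mul_left c2
  have h3 := hE a h r hr h2
  have h4 : Commute ((a * h) ^ e) (h ^ e) :=
    (h3.mul_left ((Commute.refl h).pow_right e)).pow_left e
  have h5 : ∀ k : ℕ, ((a * h) ^ e * (h ^ e)⁻¹) ^ k = (a * h) ^ (e * k) * (h ^ (e * k))⁻¹ := by
    intro k
    rw [h4.inv_right.mul_pow, inv_pow, ← pow_mul, ← pow_mul]
  have h6 := hT _ (pow_mem A ha h e) r hr (by
    rw [h5, mul_comm e r, pow_mul, pow_mul, h1, mul_inv_cancel])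
  rw [h5, mul_inv_eq_one] at h6
  rw [h6]
  exact H.pow_mem hh _

/-- the case `G = A H` -/
theorem prod {G : Type} [Group G] (hs : Group.IsSolvable G) (hm : GMax G) (A H : Subgroup G)
    [hA : A.Normal] (hc : ∀ a ∈ A, ∀ b ∈ A, Commute a b)
    (ht : ∀ g : G, ∃ a ∈ A, ∃ h ∈ H, g = a * h) : Isol H := by
  have hB : (H ⊓ A).Normal := ⟨fun b hb g => by
    obtain ⟨a, ha, h, hh, rfl⟩ := ht g
    have h1 : h * b * h⁻¹ ∈ A := hA.conj_mem b hb.2 h
    have h2 : a * h * b * (a * h)⁻¹ = h * b * h⁻¹ := by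
      calc a * h * b * (a * h)⁻¹ = a * (h * b * h⁻¹) * a⁻¹ := by group
        _ = h * b * h⁻¹ := by rw [(hc a ha _ h1).eq, mul_inv_cancel_right]
    rw [h2]
    exact ⟨H.mul_mem (H.mul_mem hh hb.1) (H.inv_mem hh), h1⟩⟩
  let f := QuotientGroup.mk' (H ⊓ A)
  have hf : Function.Surjective f := QuotientGroup.mk'_surjective _
  have hk : f.ker = H ⊓ A := QuotientGroup.ker_mk' _
  have hmQ : GMax (G ⧸ (H ⊓ A)) := Pool.Agent.Cdim.pmax_st.2.2 _ _ f hf hm
  have hsQ : Group.IsSolvable (G ⧸ (H ⊓ A)) := inferInstance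
  have hback : ∀ g : G, f g ∈ H.map f → g ∈ H := by
    intro g hg
    have : g ∈ (H.map f).comap f := hg
    rwa [Subgroup.comap_map_eq_self (by rw [hk]; exact inf_le_left)] at this
  have hN : (A.map f).Normal := hA.map f hf
  obtain ⟨m, hm0, hM⟩ := split (per _ hsQ hmQ) (A.map f) (H.map f) (by
      rintro _ ⟨a, ha, rfl⟩ _ ⟨b, hb, rfl⟩
      exact (hc a ha b hb).map f) (hmQ _) (by
      rintro _ ⟨a, ha, rfl⟩ h
      rw [← MonoidHom.mem_ker, hk]
      exact ⟨hback a h, ha⟩)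
  refine ⟨m, hm0, fun g r hr hg => hback _ ?_⟩
  obtain ⟨a, ha, h, hh, rfl⟩ := ht g
  rw [map_pow, map_mul]
  refine hM _ ⟨a, ha, rfl⟩ _ ⟨h, hh, rfl⟩ r hr ?_
  rw [← map_mul, ← map_pow]
  exact ⟨_, hg, rfl⟩

theorem main : ∀ (n : ℕ) (Q : Type) [Group Q], derivedSeries Q n = ⊥ → GMax Q →
    ∀ H : Subgroup Q, Isol H := by
  intro n
  induction n with
  | zero =>
    intro Q _ h _ H
    refine ⟨1, one_pos, fun g _ _ _ => ?_⟩
    have hx : g ∈ derivedSeries Q 0 := Subgroup.mem_top g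
    rw [h, Subgroup.mem_bot] at hx
    rw [hx, one_pow]; exact H.one_mem
  | succ n ih =>
    intro Q _ h hQ H
    have hsol : Group.IsSolvable Q := ⟨⟨_, h⟩⟩
    let A := derivedSeries Q n
    let f := QuotientGroup.mk' A
    have hs : Function.Surjective f := QuotientGroup.mk'_surjective A
    have hc : ∀ a ∈ A, ∀ b ∈ A, Commute a b := by
      intro a ha b hb
      have h1 := Subgroup.commutator_mem_commutator ha hb
      rw [← derivedSeries_succ, h, Subgroup.mem_bot] at h1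
      exact commutatorElement_eq_one_iff_commute.1 h1
    obtain ⟨n1, hn1, H1⟩ := ih (Q ⧸ A) (by
      rw [← map_derivedSeries_eq hs, Subgroup.map_eq_bot_iff, QuotientGroup.ker_mk'])
      (Pool.Agent.Cdim.pmax_st.2.2 _ _ f hs hQ) (H.map f)
    let P : Subgroup Q := (H.map f).comap f
    have hAP : A ≤ P := fun a ha => by
      show f a ∈ H.map f
      rw [(QuotientGroup.eq_one_iff a).2 ha |> (id : f a = 1 → f a = 1)]
      exact Subgroup.one_mem _
    have hHP : H ≤ P := fun x hx => ⟨x, hx, rfl⟩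
    obtain ⟨m, hm, H2⟩ := prod (G := P) inferInstance (Pool.Agent.Cdim.pmax_st.2.1 _ P hQ)
      (A.subgroupOf P) (H.subgroupOf P)
      (fun a ha b hb => Subtype.ext (hc a ha b hb).eq) (by
        rintro ⟨g, x, hx, e⟩
        have h1 : g * x⁻¹ ∈ A := by
          rw [← QuotientGroup.ker_mk' A, MonoidHom.mem_ker, map_mul, map_inv]
          exact mul_inv_eq_one.2 e.symm
        exact ⟨⟨g * x⁻¹, hAP h1⟩, h1, ⟨x, hHP hx⟩, hx, Subtype.ext (by simp)⟩)
    refine ⟨n1 * m, Nat.mul_pos hn1 hm, fun g r hr hg => ?_⟩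
    have h1 : g ^ n1 ∈ P := by
      show f (g ^ n1) ∈ H.map f
      rw [map_pow]
      exact H1 (f g) r hr (by rw [← map_pow]; exact ⟨_, hg, rfl⟩)
    have h2 := H2 ⟨g ^ n1, h1⟩ r hr (by
      show (g ^ n1) ^ r ∈ H
      rw [← pow_mul, mul_comm, pow_mul]
      exact H.pow_mem hg _)
    rw [pow_mul]
    exact h2

end Isox

theorem isol {E Γ : Type} [Group E] [Group Γ] {n : ℕ} (h : Poly Γ n) (π : E →* Γ)
    (H : Subgroup E) (hk : π.ker ≤ H) : Isol H := by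
  obtain ⟨⟨⟨k, hk'⟩⟩, hm⟩ := pc_of_poly h
  obtain ⟨m, hm0, hM⟩ := Isox.main k Γ hk' hm (H.map π)
  refine ⟨m, hm0, fun g r hr hg => ?_⟩
  have h1 := hM (π g) r hr (by rw [← map_pow]; exact ⟨_, hg, rfl⟩)
  rw [← map_pow] at h1
  have : g ^ m ∈ (H.map π).comap π := h1
  rwa [Subgroup.comap_map_eq_self hk] at this

end Pool.Agent.Lib.MP_721660_al.Ht
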