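import Pool.Agent.Lib.MP_721660_al.Ht.Defs

set_option autoImplicit false

namespace Pool.Agent.Lib.MP_721660_al.Ht

namespace Arx

variable {R Z : Type} [Ring R] [AddCommGroup Z] [Module R Z]

theorem pow_left {a : R} (h1 : ∀ r, ∃ r', a * r = r' * a) (j : ℕ) :
    ∀ r, ∃ r', a ^ j * r = r' * a ^ j := by
  induction j with
  | zero => exact fun r => ⟨r, by simp⟩
  | succ j ih =>
    intro r
    obtain ⟨r1, e1⟩ := h1 r
    obtain ⟨r2, e2⟩ := ih r1
    exact ⟨r2, by rw [pow_succ, mul_assoc, e1, ← mul_assoc, e2, mul_assoc]⟩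

theorem pow_right {a : R} (h2 : ∀ r, ∃ r', r * a = a * r') (j : ℕ) :
    ∀ r, ∃ r', r * a ^ j = a ^ j * r' := by
  induction j with
  | zero => exact fun r => ⟨r, by simp⟩
  | succ j ih =>
    intro r
    obtain ⟨r1, e1⟩ := ih r
    obtain ⟨r2, e2⟩ := h2 r1
    exact ⟨r2, by rw [pow_succ, ← mul_assoc, e1, mul_assoc, e2, mul_assoc]⟩

/-- The multiples of a normal element. -/
def mult (Z : Type) [AddCommGroup Z] [Module R Z] (b : R) (h : ∀ r, ∃ r', r * b = b * r') :
    Submodule R Z where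
  carrier := {x | ∃ y, x = b • y}
  add_mem' := by
    rintro _ _ ⟨y, rfl⟩ ⟨y', rfl⟩
    exact ⟨y + y', (smul_add b y y').symm⟩
  zero_mem' := ⟨0, (smul_zero b).symm⟩
  smul_mem' := by
    rintro r _ ⟨y, rfl⟩
    obtain ⟨r', e⟩ := h r
    exact ⟨r' • y, by rw [smul_smul, e, mul_smul]⟩

/-- The vectors sent into `K` by a normal element. -/
def colon (K : Submodule R Z) (b : R) (h : ∀ r, ∃ r', b * r = r' * b) : Submodule R Z where
  carrier := {x | b • x ∈ K}
  add_mem' := by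
    intro x y hx hy
    show b • (x + y) ∈ K
    rw [smul_add]
    exact K.add_mem hx hy
  zero_mem' := by
    show b • (0 : Z) ∈ K
    rw [smul_zero]
    exact K.zero_mem
  smul_mem' := by
    intro r x hx
    obtain ⟨r', e⟩ := h r
    show b • r • x ∈ K
    rw [smul_smul, e, mul_smul]
    exact K.smul_mem r' hx

theorem nil [IsNoetherian R Z] (K : Submodule R Z) (z : Z) (hz : z ∉ K)
    (hmax : ∀ K' : Submodule R Z, K < K' → z ∈ K') (a : R) (h1 : ∀ r, ∃ r', a * r = r' * a)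
    (h2 : ∀ r, ∃ r', r * a = a * r') (ha : a • z ∈ K) : ∃ j : ℕ, ∀ x : Z, a ^ j • x ∈ K := by
  have hm : Monotone fun j : ℕ => colon K (a ^ j) (pow_left h1 j) := by
    refine monotone_nat_of_le_succ fun j x hx => ?_
    show a ^ (j + 1) • x ∈ K
    rw [pow_succ', mul_smul]
    exact K.smul_mem a hx
  obtain ⟨j, hj⟩ := monotone_stabilizes_iff_noetherian.2 (inferInstance : IsNoetherian R Z)
    ⟨fun j : ℕ => colon K (a ^ j) (pow_left h1 j), hm⟩
  refine ⟨j, fun x => ?_⟩
  by_contra hx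
  have hlt : K < K ⊔ mult Z (a ^ j) (pow_right h2 j) :=
    lt_of_le_of_ne le_sup_left fun e => hx (by
      rw [e]
      exact Submodule.mem_sup_right ⟨x, rfl⟩)
  obtain ⟨k, hk, _, ⟨y, rfl⟩, e⟩ := Submodule.mem_sup.1 (hmax _ hlt)
  have h3 : a ^ (j + 1) • y ∈ K := by
    have := K.sub_mem ha (K.smul_mem a hk)
    rwa [← e, smul_add, add_sub_cancel_left, smul_smul, ← pow_succ'] at this
  have h4 : colon K (a ^ j) (pow_left h1 j) = colon K (a ^ (j + 1)) (pow_left h1 (j + 1)) :=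
    hj (j + 1) (Nat.le_succ j)
  have h5 : y ∈ colon K (a ^ j) (pow_left h1 j) := by
    rw [h4]
    exact h3
  exact hz (e ▸ K.add_mem hk h5)

theorem top_of {ι : Type} (a : ι → R) (h2 : ∀ i r, ∃ r', r * a i = a i * r') (s : Finset ι) :
    ∀ K : Submodule R Z, (∀ i ∈ s, ∃ j : ℕ, ∀ x : Z, a i ^ j • x ∈ K) →
      K ⊔ s.sup (fun i => mult Z (a i) (h2 i)) = ⊤ → K = ⊤ := by
  classical
  induction s using Finset.induction_on with
  | empty => exact fun K _ h => by simpa using h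
  | insert k s _ ih =>
    intro K hn h
    rw [Finset.sup_insert, ← sup_assoc] at h
    have h3 := ih _ (fun i hi => (hn i (Finset.mem_insert_of_mem hi)).imp
      fun j hj x => Submodule.mem_sup_left (hj x)) h
    have h4 : ∀ (n : ℕ) (x : Z), ∃ u ∈ K, ∃ y, x = u + a k ^ n • y := by
      intro n
      induction n with
      | zero => exact fun x => ⟨0, K.zero_mem, x, by simp⟩
      | succ n ihn =>
        intro x
        obtain ⟨u, hu, y, rfl⟩ := ihn x
        have hy : y ∈ K ⊔ mult Z (a k) (h2 k) := h3 ▸ Submodule.mem_top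
        obtain ⟨u', hu', _, ⟨y', rfl⟩, rfl⟩ := Submodule.mem_sup.1 hy
        exact ⟨u + a k ^ n • u', K.add_mem hu (K.smul_mem _ hu'), y', by
          rw [smul_add, pow_succ, mul_smul, add_assoc]⟩
    obtain ⟨j, hj⟩ := hn k (Finset.mem_insert_self k s)
    refine eq_top_iff.2 fun x _ => ?_
    obtain ⟨u, hu, y, rfl⟩ := h4 j x
    exact K.add_mem hu (hj y)

end Arx

theorem ar_lemma {R Z ι : Type} [Ring R] [AddCommGroup Z] [Module R Z] [IsNoetherian R Z]
    [Fintype ι] (a : ι → R) (h1 : ∀ i r, ∃ r', a i * r = r' * a i)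
    (h2 : ∀ i r, ∃ r', r * a i = a i * r') (hZ : ∀ z : Z, ∃ w : ι → Z, z = ∑ i, a i • w i)
    (z : Z) : ∃ r : ι → R, z = ∑ i, (r i * a i) • z := by
  classical
  by_contra hc
  let J : Submodule R Z := Submodule.span R (Set.range fun i => a i • z)
  have hzJ : z ∉ J := by
    intro h
    obtain ⟨r, hr⟩ := (Submodule.mem_span_range_iff_exists_fun R).1 h
    exact hc ⟨r, by simp only [mul_smul]; exact hr.symm⟩
  obtain ⟨K, ⟨hJK, hzK⟩, hmax⟩ := set_has_maximal_iff_noetherian.2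
    (inferInstance : IsNoetherian R Z) {K | J ≤ K ∧ z ∉ K} ⟨J, le_rfl, hzJ⟩
  have hm : ∀ K' : Submodule R Z, K < K' → z ∈ K' := fun K' hlt => by
    by_contra hz
    exact hmax K' ⟨hJK.trans hlt.le, hz⟩ hlt
  have htop := Arx.top_of a h2 Finset.univ K
    (fun i _ => Arx.nil K z hzK hm (a i) (h1 i) (h2 i)
      (hJK (Submodule.subset_span ⟨i, rfl⟩))) (by
      refine eq_top_iff.2 fun x _ => Submodule.mem_sup_right ?_
      obtain ⟨w, rfl⟩ := hZ x
      exact Submodule.sum_mem _ fun i hi =>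
        (Finset.le_sup (f := fun i => Arx.mult Z (a i) (h2 i)) hi) ⟨w i, rfl⟩)
  exact hzK (htop ▸ Submodule.mem_top)

end Pool.Agent.Lib.MP_721660_al.Ht
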