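import Pool.Agent.Lib.MP_721660_al.Ht.Defs

set_option autoImplicit false

namespace Pool.Agent.Lib.MP_721660_al.Ht

variable {T M : Type} [Ring T] [AddCommGroup M] [Module T M] {W : Submodule T M} [IsSimpleModule T W]
  {D2 : Type} [DivisionRing D2] [Module D2 (W →ₗ[T] M)]

namespace Cl2x

theorem range_le_mY {Y : Set (W →ₗ[T] M)} {f : W →ₗ[T] M} (hf : f ∈ Y) :
    LinearMap.range f ≤ mY Y :=
  le_iSup₂_of_le (f := fun (g : W →ₗ[T] M) (_ : g ∈ Y) => LinearMap.range g) f hf le_rfl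

theorem mY_le {Y : Set (W →ₗ[T] M)} {U : Submodule T M}
    (h : ∀ f ∈ Y, LinearMap.range f ≤ U) : mY Y ≤ U :=
  iSup₂_le h

/-- Splitting off one summand. -/
theorem split (N : Submodule T M) (f g : W →ₗ[T] M) (hg : ¬ LinearMap.range g ≤ N)
    (hf : LinearMap.range f ≤ LinearMap.range g ⊔ N) :
    ∃ k : W →ₗ[T] W, LinearMap.range (f - g ∘ₗ k) ≤ N := by
  have hinj : Function.Injective (N.mkQ ∘ₗ g) := by
    rcases LinearMap.injective_or_eq_zero (N.mkQ ∘ₗ g) with h | h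
    · exact h
    · refine absurd ?_ hg
      rintro _ ⟨w, rfl⟩
      have h1 : (N.mkQ ∘ₗ g) w = 0 := by rw [h]; rfl
      exact (Submodule.Quotient.mk_eq_zero N).1 h1
  have hm : ∀ w : W, (N.mkQ ∘ₗ f) w ∈ LinearMap.range (N.mkQ ∘ₗ g) := by
    intro w
    obtain ⟨_, ⟨w', rfl⟩, z, hz, e⟩ := Submodule.mem_sup.1 (hf ⟨w, rfl⟩)
    refine ⟨w', ?_⟩
    have h0 : N.mkQ z = 0 := (Submodule.Quotient.mk_eq_zero N).2 hz
    simp only [LinearMap.comp_apply]
    rw [← e, map_add, h0, add_zero]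
  refine ⟨(LinearEquiv.ofInjective (N.mkQ ∘ₗ g) hinj).symm.toLinearMap ∘ₗ
    LinearMap.codRestrict _ (N.mkQ ∘ₗ f) hm, ?_⟩
  rintro _ ⟨w, rfl⟩
  have h1 := (LinearEquiv.ofInjective (N.mkQ ∘ₗ g) hinj).apply_symm_apply ⟨_, hm w⟩
  have h2 := congrArg Subtype.val h1
  rw [LinearEquiv.ofInjective_apply] at h2
  refine (Submodule.Quotient.mk_eq_zero N).1 ?_
  have h3 : N.mkQ ((f - g ∘ₗ ((LinearEquiv.ofInjective (N.mkQ ∘ₗ g) hinj).symm.toLinearMap ∘ₗ
      LinearMap.codRestrict _ (N.mkQ ∘ₗ f) hm)) w) = 0 := by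
    rw [LinearMap.sub_apply, map_sub, sub_eq_zero]
    exact h2.symm
  exact h3

theorem fin (h : EndSc W D2) (Y : Submodule D2 (W →ₗ[T] M)) (s : Finset Y) :
    ∀ f : W →ₗ[T] M, LinearMap.range f ≤ ⨆ g ∈ s, LinearMap.range (g : W →ₗ[T] M) → f ∈ Y := by
  classical
  induction s using Finset.induction_on with
  | empty =>
    intro f hf
    have h0 : f = 0 := by
      refine LinearMap.range_eq_bot.1 (le_bot_iff.1 ?_)
      simpa using hf
    rw [h0]; exact Y.zero_mem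
  | insert g s _ ih =>
    intro f hf
    rw [Finset.iSup_insert] at hf
    by_cases hg : LinearMap.range (g : W →ₗ[T] M) ≤ ⨆ g ∈ s, LinearMap.range (g : W →ₗ[T] M)
    · exact ih f (hf.trans (sup_le hg le_rfl))
    · obtain ⟨k, hk⟩ := split _ f g hg hf
      obtain ⟨κ, hκ⟩ := h.ex2 k
      have h1 := ih _ hk
      have h2 : (g : W →ₗ[T] M) ∘ₗ k ∈ Y := by rw [← hκ]; exact Y.smul_mem κ g.2
      have h3 := Y.add_mem h1 h2
      rwa [sub_add_cancel] at h3

theorem mY_le_iso (Y : Set (W →ₗ[T] M)) : mY Y ≤ isotypicComponent T M W := by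
  refine mY_le fun f _ => ?_
  rcases LinearMap.injective_or_eq_zero f with h | h
  · exact le_sSup ⟨(LinearEquiv.ofInjective f h).symm⟩
  · rw [h, LinearMap.range_zero]; exact bot_le

end Cl2x

theorem mem_of_range_le (h : EndSc W D2) (Y : Submodule D2 (W →ₗ[T] M)) (f : W →ₗ[T] M)
    (hf : LinearMap.range f ≤ mY (Y : Set (W →ₗ[T] M))) : f ∈ Y := by
  have : Nontrivial W := IsSimpleModule.nontrivial T W
  obtain ⟨w, hw⟩ := exists_ne (0 : W)
  have e : mY (Y : Set (W →ₗ[T] M)) = ⨆ g : Y, LinearMap.range (g : W →ₗ[T] M) :=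
    iSup_subtype' 
  have h1 : f w ∈ ⨆ g : Y, LinearMap.range (g : W →ₗ[T] M) := e ▸ hf ⟨w, rfl⟩
  obtain ⟨s, hs⟩ := Submodule.mem_iSup_iff_exists_finset.1 h1
  refine Cl2x.fin h Y s f ?_
  rintro _ ⟨x, rfl⟩
  obtain ⟨r, rfl⟩ := IsSimpleModule.toSpanSingleton_surjective T hw x
  rw [LinearMap.toSpanSingleton_apply, map_smul]
  exact Submodule.smul_mem _ r hs

theorem le_mY_of_le (Y : Set (W →ₗ[T] M)) (U : Submodule T M) (hU : U ≤ mY Y) :
    U ≤ mY {f : W →ₗ[T] M | LinearMap.range f ≤ U} := by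
  have h1 : U ≤ isotypicComponent T M W := hU.trans (Cl2x.mY_le_iso Y)
  have hinj := Submodule.inclusion_injective h1
  have hs : IsSemisimpleModule T U := IsSemisimpleModule.of_injective _ hinj
  have hi : IsIsotypicOfType T U W :=
    (IsIsotypicOfType.isotypicComponent T M W).of_injective _ hinj
  have h2 : (⊤ : Submodule T U) ≤
      (mY {f : W →ₗ[T] M | LinearMap.range f ≤ U}).comap U.subtype := by
    rw [← IsSemisimpleModule.sSup_simples_eq_top T U]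
    refine sSup_le fun m hm => ?_
    have : IsSimpleModule T m := hm
    obtain ⟨e⟩ := hi m
    intro x hx
    have h3 : LinearMap.range (U.subtype ∘ₗ m.subtype ∘ₗ e.symm.toLinearMap) ≤ U := by
      rintro _ ⟨w, rfl⟩
      exact (m.subtype (e.symm w)).2
    refine Cl2x.range_le_mY (f := U.subtype ∘ₗ m.subtype ∘ₗ e.symm.toLinearMap) h3
      ⟨e ⟨x, hx⟩, ?_⟩
    simp
  intro x hx
  exact h2 (Submodule.mem_top (x := (⟨x, hx⟩ : U)))

theorem mY_span (h : EndSc W D2) (Y : Set (W →ₗ[T] M)) :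
    mY (Submodule.span D2 Y : Set (W →ₗ[T] M)) = mY Y := by
  refine le_antisymm (Cl2x.mY_le fun f hf => ?_)
    (Cl2x.mY_le fun f hf => Cl2x.range_le_mY (Submodule.subset_span hf))
  induction hf using Submodule.span_induction with
  | mem g hg => exact Cl2x.range_le_mY hg
  | zero => rw [LinearMap.range_zero]; exact bot_le
  | add g g' _ _ h1 h2 =>
    rintro _ ⟨w, rfl⟩
    exact Submodule.add_mem _ (h1 ⟨w, rfl⟩) (h2 ⟨w, rfl⟩)
  | smul κ g _ h1 =>
    obtain ⟨k, hk⟩ := h.ex1 κ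
    rw [hk]
    rintro _ ⟨w, rfl⟩
    exact h1 ⟨k w, rfl⟩

end Pool.Agent.Lib.MP_721660_al.Ht
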