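import Pool.Agent.Lib.MP_721660_al.Ht.Defs

set_option autoImplicit false

namespace Pool.Agent.Lib.MP_721660_al.Ht

namespace Cptx

/-- the character given by a real vector -/
def chi {m : ℕ} (v : Fin m → ℝ) : Zm m →+ ℝ where
  toFun b := ∑ i, v i * (b i : ℝ)
  map_zero' := by simp
  map_add' a b := by simp [mul_add, Finset.sum_add_distrib]

theorem chi_apply {m : ℕ} (v : Fin m → ℝ) (b : Zm m) : chi v b = ∑ i, v i * (b i : ℝ) := rfl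

theorem chi_single {m : ℕ} (v : Fin m → ℝ) (i : Fin m) : chi v (Pi.single i 1) = v i := by
  rw [chi_apply, Finset.sum_eq_single i]
  · simp
  · intro j _ hj
    simp [hj]
  · simp

theorem chi_ne {m : ℕ} {v : Fin m → ℝ} (hv : v ≠ 0) : chi v ≠ 0 := by
  intro h
  apply hv
  funext i
  rw [← chi_single v i, h]
  rfl

theorem eq_chi {m : ℕ} (χ : Zm m →+ ℝ) (b : Zm m) :
    χ b = chi (fun i => χ (Pi.single i 1)) b := by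
  rw [chi_apply]
  conv_lhs => rw [← Finset.univ_sum_single b, map_sum]
  refine Finset.sum_congr rfl fun i _ => ?_
  have h1 : (Pi.single i (b i) : Zm m) = b i • (Pi.single i 1 : Zm m) := by
    rw [← Pi.single_smul, smul_eq_mul, mul_one]
  rw [h1, map_zsmul, zsmul_eq_mul, mul_comm]

theorem core {m : ℕ} (𝓕 : Set (Finset (Zm m)))
    (h : ∀ χ : Zm m →+ ℝ, χ ≠ 0 → ∃ F ∈ 𝓕, ∀ f ∈ F, 0 < χ f) :
    ∃ (𝓖 : Finset (Finset (Zm m))) (ε : ℝ), 0 < ε ∧ (↑𝓖 : Set _) ⊆ 𝓕 ∧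
      ∀ v : Fin m → ℝ, v ≠ 0 → ∃ F ∈ 𝓖, ∀ f ∈ F, ε * ‖v‖ ≤ chi v f := by
  classical
  let U : 𝓕 × ℕ → Set (Fin m → ℝ) := fun p =>
    ⋂ f ∈ p.1.1, {v | 1 / ((p.2 : ℝ) + 1) < ∑ i, v i * (f i : ℝ)}
  have hU : ∀ p, IsOpen (U p) := by
    intro p
    refine isOpen_biInter_finset fun f _ => isOpen_lt continuous_const ?_
    fun_prop
  have hcov : Metric.sphere (0 : Fin m → ℝ) 1 ⊆ ⋃ p, U p := by
    intro v hv
    have hv0 : v ≠ 0 := by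
      rintro rfl
      simp at hv
    obtain ⟨F, hF, hpos⟩ := h (chi v) (chi_ne hv0)
    have hev : ∀ᶠ k : ℕ in Filter.atTop, ∀ f ∈ F, 1 / ((k : ℝ) + 1) < chi v f :=
      (Filter.eventually_all_finset F).2 fun f hf =>
        tendsto_one_div_add_atTop_nhds_zero_nat.eventually (gt_mem_nhds (hpos f hf))
    obtain ⟨k, hk⟩ := hev.exists
    refine Set.mem_iUnion.2 ⟨(⟨F, hF⟩, k), ?_⟩
    simp only [U, Set.mem_iInter, Set.mem_ofPred_eq]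
    exact fun f hf => hk f hf
  obtain ⟨t, ht⟩ := (isCompact_sphere (0 : Fin m → ℝ) 1).elim_finite_subcover U hU hcov
  refine ⟨t.image fun p => p.1.1, 1 / (((t.sup fun p => p.2 : ℕ) : ℝ) + 1), by positivity, ?_, ?_⟩
  · intro F hF
    obtain ⟨p, _, rfl⟩ := Finset.mem_image.1 (Finset.mem_coe.1 hF)
    exact p.1.2
  · intro v hv
    have hn : 0 < ‖v‖ := norm_pos_iff.2 hv
    have hs : ‖v‖⁻¹ • v ∈ Metric.sphere (0 : Fin m → ℝ) 1 := by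
      rw [mem_sphere_zero_iff_norm, norm_smul, norm_inv, norm_norm, inv_mul_cancel₀ hn.ne']
    obtain ⟨p, hp, hm⟩ := Set.mem_iUnion₂.1 (ht hs)
    refine ⟨p.1.1, Finset.mem_image.2 ⟨p, hp, rfl⟩, fun f hf => ?_⟩
    simp only [U, Set.mem_iInter, Set.mem_ofPred_eq] at hm
    have h1 := hm f hf
    have h2 : 1 / (((t.sup fun p => p.2 : ℕ) : ℝ) + 1) ≤ 1 / ((p.2 : ℝ) + 1) := by
      refine one_div_le_one_div_of_le (by positivity) ?_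
      have : p.2 ≤ t.sup fun p => p.2 := Finset.le_sup (f := fun p : 𝓕 × ℕ => p.2) hp
      have h3 : (p.2 : ℝ) ≤ ((t.sup fun p => p.2 : ℕ) : ℝ) := by exact_mod_cast this
      linarith
    have h3 : chi v f = (∑ i, (‖v‖⁻¹ • v) i * (f i : ℝ)) * ‖v‖ := by
      rw [chi_apply, Finset.sum_mul]
      refine Finset.sum_congr rfl fun i _ => ?_
      rw [Pi.smul_apply, smul_eq_mul]
      field_simp
    rw [h3]
    exact mul_le_mul_of_nonneg_right (h2.trans h1.le) hn.le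

end Cptx

open Cptx in
theorem cpt_fin {m : ℕ} (𝓕 : Set (Finset (Zm m)))
    (h : ∀ χ : Zm m →+ ℝ, χ ≠ 0 → ∃ F ∈ 𝓕, ∀ f ∈ F, 0 < χ f) :
    ∃ 𝓖 : Finset (Finset (Zm m)), (↑𝓖 : Set _) ⊆ 𝓕 ∧
      ∀ χ : Zm m →+ ℝ, χ ≠ 0 → ∃ F ∈ 𝓖, ∀ f ∈ F, 0 < χ f := by
  obtain ⟨𝓖, ε, hε, h1, h2⟩ := core 𝓕 h
  refine ⟨𝓖, h1, fun χ hχ => ?_⟩
  have hv : (fun i => χ (Pi.single i 1) : Fin m → ℝ) ≠ 0 := by
    intro h0
    apply hχ
    refine AddMonoidHom.ext fun b => ?_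
    rw [eq_chi χ b, h0, chi_apply]
    simp
  obtain ⟨F, hF, h3⟩ := h2 _ hv
  refine ⟨F, hF, fun f hf => ?_⟩
  rw [eq_chi χ f]
  exact lt_of_lt_of_le (mul_pos hε (norm_pos_iff.2 hv)) (h3 f hf)

open Cptx in
theorem cpt_norm {m : ℕ} (𝓕 : Set (Finset (Zm m)))
    (h : ∀ χ : Zm m →+ ℝ, χ ≠ 0 → ∃ F ∈ 𝓕, ∀ f ∈ F, 0 < χ f) :
    ∃ R : ℤ, ∀ b : Zm m, R < ∑ i, b i ^ 2 → ∃ F ∈ 𝓕, ∀ f ∈ F,
      ∑ i, (b i + f i) ^ 2 < ∑ i, b i ^ 2 := by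
  obtain ⟨𝓖, ε, hε, h1, h2⟩ := core 𝓕 h
  obtain ⟨c, hc⟩ : ∃ c : ℝ, c = ∑ F ∈ 𝓖, ∑ f ∈ F, ∑ i, (f i : ℝ) ^ 2 := ⟨_, rfl⟩
  have hc0 : 0 ≤ c := by rw [hc]; positivity
  have hcf : ∀ F ∈ 𝓖, ∀ f ∈ F, ∑ i, (f i : ℝ) ^ 2 ≤ c := by
    intro F hF f hf
    rw [hc]
    refine le_trans ?_ (Finset.single_le_sum (f := fun F : Finset (Zm m) =>
      ∑ f ∈ F, ∑ i, (f i : ℝ) ^ 2) (fun _ _ => by positivity) hF)
    exact Finset.single_le_sum (f := fun f : Zm m => ∑ i, (f i : ℝ) ^ 2)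
      (fun _ _ => by positivity) hf
  obtain ⟨T, hT⟩ : ∃ T : ℝ, T = c / ε := ⟨_, rfl⟩
  have hT0 : 0 ≤ T := by rw [hT]; positivity
  have hTe : ε * T = c := by rw [hT]; field_simp
  refine ⟨⌈(m : ℝ) * T ^ 2⌉, fun b hb => ?_⟩
  obtain ⟨v, hv⟩ : ∃ v : Fin m → ℝ, v = fun i => -(b i : ℝ) := ⟨_, rfl⟩
  have hb1 : (m : ℝ) * T ^ 2 < ∑ i, (b i : ℝ) ^ 2 := by
    have h3 : ((⌈(m : ℝ) * T ^ 2⌉ : ℤ) : ℝ) < ((∑ i, b i ^ 2 : ℤ) : ℝ) := by exact_mod_cast hb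
    have h4 := Int.le_ceil ((m : ℝ) * T ^ 2)
    push_cast at h3
    linarith
  have hb2 : ∑ i, (b i : ℝ) ^ 2 ≤ (m : ℝ) * ‖v‖ ^ 2 := by
    have h3 : ∀ i ∈ (Finset.univ : Finset (Fin m)), (b i : ℝ) ^ 2 ≤ ‖v‖ ^ 2 := by
      intro i _
      have h4 : ‖v i‖ ≤ ‖v‖ := norm_le_pi_norm v i
      have h5 : ‖v i‖ ^ 2 = (b i : ℝ) ^ 2 := by
        rw [hv, Real.norm_eq_abs, sq_abs]
        ring
      rw [← h5]
      exact pow_le_pow_left₀ (norm_nonneg _) h4 2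
    simpa using Finset.sum_le_card_nsmul _ _ _ h3
  have hTv : T < ‖v‖ := by
    by_contra hn
    have h3 : ‖v‖ ^ 2 ≤ T ^ 2 := pow_le_pow_left₀ (norm_nonneg _) (not_lt.1 hn) 2
    have h4 := mul_le_mul_of_nonneg_left h3 (Nat.cast_nonneg (α := ℝ) m)
    linarith
  have hv0 : v ≠ 0 := norm_pos_iff.1 (lt_of_le_of_lt hT0 hTv)
  obtain ⟨F, hF, h3⟩ := h2 v hv0
  refine ⟨F, h1 (Finset.mem_coe.2 hF), fun f hf => ?_⟩
  have h4 := h3 f hf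
  have h5 := hcf F hF f hf
  have h6 : ε * T < ε * ‖v‖ := mul_lt_mul_of_pos_left hTv hε
  have h7 : ∑ i, ((b i : ℝ) + f i) ^ 2 =
      ∑ i, (b i : ℝ) ^ 2 - 2 * chi v f + ∑ i, (f i : ℝ) ^ 2 := by
    rw [chi_apply, Finset.mul_sum, ← Finset.sum_sub_distrib, ← Finset.sum_add_distrib]
    refine Finset.sum_congr rfl fun i _ => ?_
    rw [hv]
    ring
  have h8 : ∑ i, ((b i : ℝ) + f i) ^ 2 < ∑ i, (b i : ℝ) ^ 2 := by
    rw [h7]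
    linarith
  exact_mod_cast h8

end Pool.Agent.Lib.MP_721660_al.Ht
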