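import Pool.Agent.Lib.MP_721660_al.Ht.Cr2

set_option autoImplicit false

namespace Pool.Agent.Lib.MP_721660_al.Ht

variable {T M : Type} [Ring T] [AddCommGroup M] [Module T M]

theorem crit_key {ι : Type} (s : Finset ι) (y : ι → M) (hy : ∀ i ∈ s, y i = 0 ∨ Crit T (y i))
    (hz : ∑ i ∈ s, y i ≠ 0) :
    ∃ (t : T), ∃ i ∈ s, t • ∑ i ∈ s, y i ≠ 0 ∧
      ∀ r : T, r • t • ∑ i ∈ s, y i = 0 ↔ r • t • y i = 0 := by
  classical
  have hex : ∃ k : ℕ, ∃ t : T, t • ∑ i ∈ s, y i ≠ 0 ∧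
      (s.filter fun i => t • y i ≠ 0).card = k := ⟨_, 1, by rwa [one_smul], rfl⟩
  obtain ⟨t, ht, hk⟩ := Nat.find_spec hex
  have hmin : ∀ t' : T, t' • ∑ i ∈ s, y i ≠ 0 →
      (s.filter fun i => t • y i ≠ 0).card ≤ (s.filter fun i => t' • y i ≠ 0).card := by
    intro t' ht'
    rw [hk]
    exact Nat.find_min' hex ⟨t', ht', rfl⟩
  have ht2 : ∑ i ∈ s, t • y i ≠ 0 := by rwa [← Finset.smul_sum]
  obtain ⟨i, hi, hti⟩ := Finset.exists_ne_zero_of_sum_ne_zero ht2
  have hc : Crit T (y i) := (hy i hi).resolve_left fun h => hti (by rw [h, smul_zero])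
  have back : ∀ r : T, r • t • y i = 0 → r • t • ∑ i ∈ s, y i = 0 := by
    intro r hr
    by_contra hne
    rw [← mul_smul] at hne
    have h1 := hmin (r * t) hne
    have h2 : (s.filter fun i => (r * t) • y i ≠ 0) ⊂ s.filter fun i => t • y i ≠ 0 := by
      refine Finset.ssubset_iff_subset_ne.2 ⟨?_, ?_⟩
      · intro j hj
        obtain ⟨a, b⟩ := Finset.mem_filter.1 hj
        refine Finset.mem_filter.2 ⟨a, fun h => b ?_⟩
        rw [mul_smul, h, smul_zero]
      · intro h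
        have h3 : i ∈ s.filter fun i => (r * t) • y i ≠ 0 := by
          rw [h]
          exact Finset.mem_filter.2 ⟨hi, hti⟩
        exact (Finset.mem_filter.1 h3).2 (by rw [mul_smul, hr])
    exact absurd (Finset.card_lt_card h2) (not_lt.2 h1)
  exact ⟨t, i, hi, ht, fun r => ⟨hc.2.1 t _ ht back r, back r⟩⟩

namespace Cr3x

theorem sum_of_mem (P : Set M) (z : M) (h : z ∈ AddSubgroup.closure P) :
    ∃ (n : ℕ) (c : Fin n → T) (g : Fin n → P), ∑ i, c i • (g i : M) = z := by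
  have h1 : AddSubgroup.closure P ≤ (Submodule.span T P).toAddSubgroup :=
    (AddSubgroup.closure_le _).2 Submodule.subset_span
  exact Submodule.mem_span_set'.1 (h1 h)

theorem zero_or (c : T) {g : M} (hg : Crit T g) : c • g = 0 ∨ Crit T (c • g) := by
  by_cases h : c • g = 0
  · exact Or.inl h
  · exact Or.inr (hg.smul c h)

end Cr3x

theorem crit_indep {x0 : M} (h0 : Crit T x0) (z : M)
    (h1 : z ∈ AddSubgroup.closure {y | Crit T y ∧ Sim T x0 y})
    (h2 : z ∈ AddSubgroup.closure {y | Crit T y ∧ ¬ Sim T x0 y}) : z = 0 := by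
  by_contra hz
  obtain ⟨n, c, g, e1⟩ := Cr3x.sum_of_mem (T := T) _ z h1
  obtain ⟨n', c', g', e2⟩ := Cr3x.sum_of_mem (T := T) _ z h2
  obtain ⟨t, i, _, ht, hi⟩ := crit_key (T := T) Finset.univ (fun i => c i • (g i : M))
    (fun i _ => Cr3x.zero_or (c i) (g i).2.1) (by rwa [e1])
  rw [e1] at ht hi
  have a1 : t • c i • (g i : M) ≠ 0 := fun h => ht (by
    have := (hi 1).2 (by rw [one_smul]; exact h)
    rwa [one_smul] at this)
  have a1' : (t * c i) • (g i : M) ≠ 0 := by rwa [mul_smul]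
  have a2 : Crit T ((t * c i) • (g i : M)) := (g i).2.1.smul _ a1'
  have hi' : ∀ r : T, r • (t * c i) • (g i : M) = 0 ↔ r • t • z = 0 := fun r => by
    rw [mul_smul]
    exact (hi r).symm
  have a3 : Crit T (t • z) := a2.of_ann hi'
  have a4 : Sim T x0 ((t * c i) • (g i : M)) := Sim.trans (g i).2.1 (g i).2.2 (sim_smul _ a1')
  have a5 : Sim T ((t * c i) • (g i : M)) (t • z) :=
    ⟨1, 1, by rwa [one_smul], fun r => by rw [one_smul, one_smul]; exact hi' r⟩
  have a6 : Sim T x0 (t • z) := Sim.trans a2 a4 a5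
  have e3 : ∑ j, (t * c' j) • (g' j : M) = t • z := by
    rw [← e2, Finset.smul_sum]
    exact Finset.sum_congr rfl fun j _ => mul_smul _ _ _
  obtain ⟨t', j, _, ht', hj⟩ := crit_key (T := T) Finset.univ (fun j => (t * c' j) • (g' j : M))
    (fun j _ => Cr3x.zero_or (t * c' j) (g' j).2.1) (by rwa [e3])
  rw [e3] at ht' hj
  have b1 : (t * c' j) • (g' j : M) ≠ 0 := fun h => ht' (by
    have := (hj 1).2 (by rw [h, smul_zero, smul_zero])
    rwa [one_smul] at this)
  have b2 : Sim T (t • z) ((t * c' j) • (g' j : M)) := ⟨t', t', ht', hj⟩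
  have b3 : Sim T x0 ((t * c' j) • (g' j : M)) := Sim.trans a3 a6 b2
  exact (g' j).2.2 (Sim.trans ((g' j).2.1.smul _ b1) b3 (sim_smul _ b1).symm)

end Pool.Agent.Lib.MP_721660_al.Ht
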