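import Mathlib

set_option autoImplicit false

namespace Pool.Agent.Lib.MP_721660_al.Ht

/-! ## Cyclic series with a count of the infinite factors -/

/-- `Ser n H`: there is a subnormal series from the trivial group up to `H` with cyclic factors,
at most `n` of them infinite. -/
inductive Ser {G : Type} [Group G] : ℕ → Subgroup G → Prop
  | bot (n : ℕ) : Ser n ⊥
  | fin {n : ℕ} {K H : Subgroup G} (t : G) : Ser n K → K ≤ H → t ∈ H →
      (∀ h ∈ H, ∀ k ∈ K, h * k * h⁻¹ ∈ K) → (∀ h ∈ H, ∃ k ∈ K, ∃ z : ℤ, h = k * t ^ z) →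
      (∃ r : ℕ, 0 < r ∧ t ^ r ∈ K) → Ser n H
  | inf {n : ℕ} {K H : Subgroup G} (t : G) : Ser n K → K ≤ H → t ∈ H →
      (∀ h ∈ H, ∀ k ∈ K, h * k * h⁻¹ ∈ K) → (∀ h ∈ H, ∃ k ∈ K, ∃ z : ℤ, h = k * t ^ z) →
      Ser (n + 1) H

/-- Polycyclic of Hirsch length at most `n`. -/
def Poly (G : Type) [Group G] (n : ℕ) : Prop := Ser n (⊤ : Subgroup G)

/-- The lattice of rank `m`. -/
abbrev Zm (m : ℕ) : Type := Fin m → ℤ

/-- `A` is the full preimage of a plinth of the image of `π`; `β` are coordinates on it and `φ`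
is the conjugation action in these coordinates. -/
structure Plinth {E Γ : Type} [Group E] [Group Γ] (π : E →* Γ) (A : Subgroup E) (m : ℕ)
    (β : E → Zm m) (φ : E →* (Zm m ≃ₗ[ℤ] Zm m)) : Prop where
  normal : A.Normal
  pos : 0 < m
  ker_le : π.ker ≤ A
  add : ∀ a ∈ A, ∀ b ∈ A, β (a * b) = β a + β b
  surj : ∀ v, ∃ a ∈ A, β a = v
  zero_iff : ∀ a ∈ A, β a = 0 ↔ π a = 1
  conj : ∀ e, ∀ a ∈ A, β (e * a * e⁻¹) = φ e (β a)
  min : ∀ (L : Submodule ℤ (Zm m)) (H : Subgroup E), L ≠ ⊥ → H.FiniteIndex →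
    (∀ h ∈ H, ∀ v ∈ L, φ h v ∈ L) → ∀ v, ∃ k : ℤ, k ≠ 0 ∧ k • v ∈ L

/-- Roots of `H` have bounded order. -/
def Isol {E : Type} [Group E] (H : Subgroup E) : Prop :=
  ∃ n : ℕ, 0 < n ∧ ∀ (g : E) (r : ℕ), 0 < r → g ^ r ∈ H → g ^ n ∈ H

/-- Every periodic vector is fixed. -/
def FO {B : Type} [AddCommGroup B] (φ : B ≃ₗ[ℤ] B) : Prop :=
  ∀ (b : B) (r : ℕ), 0 < r → (φ ^ r) b = b → φ b = b

/-! ## The radical -/

section Rad
variable {D M : Type} [Ring D] [AddCommGroup M] [Module D M]

/-- Two sided stability. -/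
def Stb (τ : M ≃ₗ[ℤ] M) (U : Submodule D M) : Prop := ∀ x, τ x ∈ U ↔ x ∈ U

/-- `W` is spanned over `U` by at most `ρ` vectors. -/
def Cod (ρ : ℕ) (U W : Submodule D M) : Prop :=
  ∃ s : Finset M, s.card ≤ ρ ∧ W ≤ U ⊔ Submodule.span D (s : Set M)

/-- Intersection of the stable subspaces of codimension at most `ρ`. -/
def rad (ρ : ℕ) (τ : M ≃ₗ[ℤ] M) (W : Submodule D M) : Submodule D M :=
  W ⊓ sInf {U | Stb τ U ∧ U ≤ W ∧ Cod ρ U W}

/-- A minimal non zero stable subspace. -/
def Smp (τ : M ≃ₗ[ℤ] M) (Z : Submodule D M) : Prop :=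
  Z ≠ ⊥ ∧ Stb τ Z ∧ ∀ U : Submodule D M, Stb τ U → U ≤ Z → U = ⊥ ∨ U = Z

end Rad

/-! ## Semilinear actions -/

/-- A group `E` acting additively on an `R`-module, semilinearly. -/
structure SL (R M E : Type) [Ring R] [AddCommGroup M] [Module R M] [Group E] where
  act : E →* (M ≃ₗ[ℤ] M)
  tw : E →* RingAut R
  act_smul : ∀ (e : E) (d : R) (x : M), act e (d • x) = tw e d • act e x

namespace SL
variable {R M E : Type} [Ring R] [AddCommGroup M] [Module R M] [Group E]

/-- Pull back along a group homomorphism. -/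
def comap (S : SL R M E) {E' : Type} [Group E'] (f : E' →* E) : SL R M E' where
  act := S.act.comp f
  tw := S.tw.comp f
  act_smul e d x := S.act_smul (f e) d x

/-- The stable subspace generated by a set. -/
def gen (S : SL R M E) (s : Set M) : Submodule R M :=
  Submodule.span R {y | ∃ e : E, ∃ x ∈ s, y = S.act e x}

/-- Finitely generated. -/
def FGen (S : SL R M E) : Prop := ∃ s : Finset M, S.gen (s : Set M) = ⊤

/-- Invariant subspace. -/
def Inv (S : SL R M E) (N : Submodule R M) : Prop := ∀ (e : E), ∀ x ∈ N, S.act e x ∈ N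

/-- The subgroup acts by scalars. -/
def Scal (S : SL R M E) (N : Subgroup E) : Prop :=
  ∀ e ∈ N, ∃ d : R, ∀ x : M, S.act e x = d • x

/-- The uniform bound, for the finitely generated stable subspaces inside `N`. -/
def Bd (S : SL R M E) (N : Submodule R M) : Prop :=
  ∃ n l ρ : ℕ, 0 < n ∧ ∀ (e : E) (W : Submodule R M), W ≤ N → W.FG → Stb (S.act e) W →
    (rad ρ (S.act e ^ n))^[l] W = ⊥

/-- A scalar as an additive endomorphism. -/
def scal (_S : SL R M E) : R →+* Module.End ℤ M := Module.toModuleEnd ℤ M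

/-- A group element as an additive endomorphism. -/
def op (S : SL R M E) (e : E) : Module.End ℤ M := (S.act e).toLinearMap

/-- The ring of additive endomorphisms generated by the scalars and the elements of `H`. -/
def rg (S : SL R M E) (H : Set E) : Subring (Module.End ℤ M) :=
  Subring.closure (Set.range S.scal ∪ S.op '' H)

/-- Scalars inside `rg`. -/
def inc (S : SL R M E) (H : Set E) : R →+* S.rg H :=
  S.scal.codRestrict (S.rg H) fun d => Subring.subset_closure (Or.inl ⟨d, rfl⟩)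

/-- Additive span of the `d * a` with `a` in `A` and `χ (β a)` positive. -/
def posp (S : SL R M E) (A : Subgroup E) {m : ℕ} (β : E → Zm m) (χ : Zm m →+ ℝ) :
    AddSubgroup (Module.End ℤ M) :=
  AddSubgroup.closure {s | ∃ (d : R), ∃ a ∈ A, 0 < χ (β a) ∧ s = S.scal d * S.op a}

/-- Vectors fixed by an element of `posp`. -/
def Mchi (S : SL R M E) (A : Subgroup E) {m : ℕ} (β : E → Zm m) (χ : Zm m →+ ℝ) : Set M :=
  {y | ∃ s ∈ S.posp A β χ, s y = y}

/-- A formal sum applied to a vector. -/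
def app (S : SL R M E) {m : ℕ} (u : Zm m → E) (c : Zm m →₀ R) (x : M) : M :=
  c.sum fun b d => d • S.act (u b) x

/-- No non zero formal sum kills a non zero vector. -/
def TFree (S : SL R M E) {m : ℕ} (u : Zm m → E) : Prop :=
  ∀ (c : Zm m →₀ R) (x : M), S.app u c x = 0 → c = 0 ∨ x = 0

/-- `N` meets the sum of its translates by elements outside `H` trivially. -/
def Indp (S : SL R M E) (H : Subgroup E) (N : Submodule R M) : Prop :=
  ∀ x ∈ N, x ∈ AddSubgroup.closure {z | ∃ g : E, g ∉ H ∧ ∃ y ∈ N, z = S.act g y} → x = 0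

end SL

/-- The induction statement. -/
def MainAt (n : ℕ) : Prop :=
  ∀ (D M E Γ : Type) [DivisionRing D] [AddCommGroup M] [Module D M] [Group E] [Group Γ]
    (S : SL D M E) (π : E →* Γ), Poly Γ n → S.Scal π.ker → S.FGen → S.Bd ⊤

/-- Restriction of scalars along an explicit homomorphism. -/
def toD {D T M : Type} [Ring D] [Ring T] [AddCommGroup M] [Module D M] [Module T M]
    (j : D →+* T) (hc : ∀ (d : D) (x : M), d • x = j d • x) (U : Submodule T M) :
    Submodule D M where
  carrier := U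
  add_mem' := fun ha hb => U.add_mem ha hb
  zero_mem' := U.zero_mem
  smul_mem' := fun d x hx => by
    have := U.smul_mem (j d) hx
    rw [← hc] at this
    exact this

/-! ## Critical elements -/

section Crit
variable (T : Type) {M : Type} [Ring T] [AddCommGroup M] [Module T M]

/-- Every non zero map from a cyclic submodule of `T x` to `M` is injective, and `T x` is
uniform. -/
def Crit (x : M) : Prop :=
  x ≠ 0 ∧
  (∀ (t : T) (y : M), y ≠ 0 → (∀ r : T, r • t • x = 0 → r • y = 0) →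
    ∀ r : T, r • y = 0 → r • t • x = 0) ∧
  (∀ s t : T, s • x ≠ 0 → t • x ≠ 0 → ∃ s' t' : T, s' • s • x = t' • t • x ∧ s' • s • x ≠ 0)

/-- `T x` and `T y` have isomorphic non zero cyclic submodules. -/
def Sim (x y : M) : Prop :=
  ∃ s t : T, s • x ≠ 0 ∧ ∀ r : T, r • s • x = 0 ↔ r • t • y = 0

end Crit

/-! ## Clifford data -/

/-- Sum of the ranges of a set of maps. -/
def mY {T M : Type} [Ring T] [AddCommGroup M] [Module T M] {W : Submodule T M}
    (Y : Set (W →ₗ[T] M)) : Submodule T M := ⨆ f ∈ Y, LinearMap.range f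

/-- The scalars on the space of maps are the compositions with endomorphisms of `W`. -/
structure EndSc {T M : Type} [Ring T] [AddCommGroup M] [Module T M] (W : Submodule T M)
    (D2 : Type) [DivisionRing D2] [Module D2 (W →ₗ[T] M)] : Prop where
  ex1 : ∀ κ : D2, ∃ k : W →ₗ[T] W, ∀ f : W →ₗ[T] M, κ • f = f ∘ₗ k
  ex2 : ∀ k : W →ₗ[T] W, ∃ κ : D2, ∀ f : W →ₗ[T] M, κ • f = f ∘ₗ k

/-! ## Skew fields of fractions of twisted group rings of lattices -/

section Frac
variable {K L B : Type} [DivisionRing K] [DivisionRing L] [AddCommGroup B]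

/-- Value of a formal sum. -/
def ev (j : K →+* L) (u : B → L) (c : B →₀ K) : L := c.sum fun b k => j k * u b

/-- The multiplication rules. -/
structure CR (j : K →+* L) (u : B → L) : Prop where
  ne : ∀ b, u b ≠ 0
  mul : ∀ a b, ∃ k, u a * u b = j k * u (a + b)
  nl : ∀ b k, ∃ k', u b * j k = j k' * u b
  nr : ∀ b k, ∃ k', j k * u b = u b * j k'

/-- `L` is the skew field of right and of left fractions of the free span of the `u b`. -/
structure FC (j : K →+* L) (u : B → L) : Prop extends CR j u where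
  ind : ∀ c : B →₀ K, ev j u c = 0 → c = 0
  frac : ∀ x : L, ∃ s t : B →₀ K, t ≠ 0 ∧ x * ev j u t = ev j u s
  fracl : ∀ x : L, ∃ s t : B →₀ K, t ≠ 0 ∧ ev j u t * x = ev j u s

/-- `σ` preserves `K` and permutes the lines through the `u b` by `φ`. -/
structure Tw (j : K →+* L) (u : B → L) (σ : L ≃+* L) (φ : B ≃ₗ[ℤ] B) : Prop where
  jl : ∀ k, ∃ k', σ (j k) = j k'
  jr : ∀ k, ∃ k', σ (j k') = j k
  uu : ∀ b, ∃ k, σ (u b) = j k * u (φ b)

variable {V : Type} [AddCommGroup V] [Module L V]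

/-- Span over `K` of the `u b • x` with `b` in `P` and `x` in `X`. -/
def usp (K : Type) [DivisionRing K] [Module K V] (u : B → L) (P : Set B) (X : Set V) :
    Submodule K V :=
  Submodule.span K {y | ∃ b ∈ P, ∃ x ∈ X, y = u b • x}

/-- `τ` is semilinear for `σ`. -/
def Semi (σ : L ≃+* L) (τ : V ≃ₗ[ℤ] V) : Prop := ∀ (c : L) (v : V), τ (c • v) = σ c • τ v

/-- `X` lies in the span over `L` of at most `ρ` vectors. -/
def Dim (L : Type) [DivisionRing L] {V : Type} [AddCommGroup V] [Module L V] (ρ : ℕ)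
    (X : Set V) : Prop :=
  ∃ s : Finset V, s.card ≤ ρ ∧ X ⊆ Submodule.span L (s : Set V)

/-- The two module structures agree along `j`. -/
def Cmp (j : K →+* L) (V : Type) [AddCommGroup V] [Module L V] [Module K V] : Prop :=
  ∀ (k : K) (v : V), k • v = j k • v

/-- Small dimension over `L` gives a short radical series over `K`. -/
def Down (j : K →+* L) (σ : L ≃+* L) (ρ l : ℕ) : Prop :=
  ∀ (V : Type) [AddCommGroup V] [Module L V] [Module K V] (τ : V ≃ₗ[ℤ] V) (X : Submodule K V),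
    Cmp j V → Semi σ τ → Dim L ρ (X : Set V) → X.FG → Stb τ X → (rad ρ τ)^[l] X = ⊥

end Frac

end Pool.Agent.Lib.MP_721660_al.Ht
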