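import Pool.Agent.Lib.MP_721660_al.Ht.Rad

set_option autoImplicit false

namespace Pool.Agent.Lib.MP_721660_al.Ht

variable {K L B V : Type} [DivisionRing K] [DivisionRing L] [AddCommGroup B] [AddCommGroup V]
  [Module L V] [Module K V] {j : K →+* L} {u : B → L} {σ : L ≃+* L} {φ : B ≃ₗ[ℤ] B}
  {τ : V ≃ₗ[ℤ] V}

namespace Evx

theorem ev_zero : ev j u 0 = 0 := Finsupp.sum_zero_index

theorem ev_add (s t : B →₀ K) : ev j u (s + t) = ev j u s + ev j u t :=
  Finsupp.sum_add_index' (fun _ => by rw [map_zero, zero_mul])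
    (fun _ _ _ => by rw [map_add, add_mul])

theorem ev_single (b : B) (k : K) : ev j u (Finsupp.single b k) = j k * u b :=
  Finsupp.sum_single_index (by rw [map_zero, zero_mul])

theorem ev_sum {ι : Type} (I : Finset ι) (c : ι → B →₀ K) :
    ev j u (∑ i ∈ I, c i) = ∑ i ∈ I, ev j u (c i) := by
  classical
  induction I using Finset.induction_on with
  | empty => simpa using ev_zero
  | insert i I hi ih => rw [Finset.sum_insert hi, Finset.sum_insert hi, ev_add, ih]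

theorem u_smul (h : CR j u) (hc : Cmp j V) (a : B) (k : K) :
    ∃ k' : K, ∀ v : V, u a • k • v = k' • u a • v := by
  obtain ⟨k', e⟩ := h.nl a k
  exact ⟨k', fun v => by rw [hc, hc, ← mul_smul, e, mul_smul]⟩

theorem gen_mem {P : Set B} {X : Set V} {b : B} {x : V} (hb : b ∈ P) (hx : x ∈ X) :
    u b • x ∈ usp K u P X := Submodule.subset_span ⟨b, hb, x, hx, rfl⟩

theorem map_usp (hc : Cmp j V) (f : V →+ V) (g : L → L)
    (hf : ∀ (c : L) (v : V), f (c • v) = g c • f v) (hj : ∀ k, ∃ k', g (j k) = j k')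
    {P P' : Set B} (hu : ∀ b ∈ P, ∃ k, ∃ b' ∈ P', g (u b) = j k * u b') {X : Set V}
    (hX : ∀ x ∈ X, f x ∈ X) {v : V} (hv : v ∈ usp K u P X) : f v ∈ usp K u P' X := by
  induction hv using Submodule.span_induction with
  | mem y hy =>
    obtain ⟨b, hb, x, hx, rfl⟩ := hy
    obtain ⟨k, b', hb', e⟩ := hu b hb
    rw [hf, e, mul_smul, ← hc]
    exact Submodule.smul_mem _ k (gen_mem hb' (hX x hx))
  | zero => rw [map_zero]; exact zero_mem _
  | add x y _ _ hx hy => rw [map_add]; exact add_mem hx hy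
  | smul k x _ hx =>
    obtain ⟨k', e⟩ := hj k
    rw [hc, hf, e, ← hc]
    exact Submodule.smul_mem _ k' hx

end Evx

open Evx

theorem ev_mul (h : CR j u) (s t : B →₀ K) : ∃ c : B →₀ K, ev j u c = ev j u s * ev j u t ∧
    ∀ b ∈ c.support, ∃ a ∈ s.support, ∃ a' ∈ t.support, b = a + a' := by
  classical
  have h1 : ∀ (a a' : B) (k k' : K), ∃ m, j k * u a * (j k' * u a') = j m * u (a + a') := by
    intro a a' k k'
    obtain ⟨k1, e1⟩ := h.nl a k'
    obtain ⟨k2, e2⟩ := h.mul a a'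
    refine ⟨k * k1 * k2, ?_⟩
    rw [mul_assoc, ← mul_assoc (u a), e1, mul_assoc, e2, map_mul, map_mul]
    simp only [mul_assoc]
  choose m hm using h1
  refine ⟨∑ a ∈ s.support, ∑ a' ∈ t.support, Finsupp.single (a + a') (m a a' (s a) (t a')),
    ?_, fun b hb => ?_⟩
  · rw [ev_sum]
    simp only [ev_sum, ev_single, ← hm]
    exact (Finset.sum_mul_sum _ _ _ _).symm
  · by_contra hn
    refine Finsupp.mem_support_iff.1 hb ?_
    rw [Finsupp.finsetSum_apply]
    refine Finset.sum_eq_zero fun a ha => ?_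
    rw [Finsupp.finsetSum_apply]
    exact Finset.sum_eq_zero fun a' ha' =>
      Finsupp.single_eq_of_ne fun e => hn ⟨a, ha, a', ha', e⟩

theorem common_right (h : FC j u) {ι : Type} (I : Finset ι) (x : ι → L) :
    ∃ t : B →₀ K, t ≠ 0 ∧ ∀ i ∈ I, ∃ s : B →₀ K, x i * ev j u t = ev j u s := by
  classical
  induction I using Finset.induction_on with
  | empty => exact ⟨Finsupp.single 0 1, by simp, by simp⟩
  | insert i I _ ih =>
    obtain ⟨t, ht, hI⟩ := ih
    obtain ⟨s', t', ht', e⟩ := h.frac (x i * ev j u t)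
    obtain ⟨c, hc, -⟩ := ev_mul h.toCR t t'
    refine ⟨c, fun e0 => ?_, fun i' hi' => ?_⟩
    · rw [e0, ev_zero] at hc
      exact mul_ne_zero (fun e1 => ht (h.ind _ e1)) (fun e1 => ht' (h.ind _ e1)) hc.symm
    · rcases Finset.mem_insert.1 hi' with rfl | hi'
      · exact ⟨s', by rw [hc, ← mul_assoc, e]⟩
      · obtain ⟨s, hs⟩ := hI i' hi'
        obtain ⟨c', hc', -⟩ := ev_mul h.toCR s t'
        exact ⟨c', by rw [hc, ← mul_assoc, hs, hc']⟩

theorem common_left (h : FC j u) {ι : Type} (I : Finset ι) (x : ι → L) :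
    ∃ t : B →₀ K, t ≠ 0 ∧ ∀ i ∈ I, ∃ s : B →₀ K, ev j u t * x i = ev j u s := by
  classical
  induction I using Finset.induction_on with
  | empty => exact ⟨Finsupp.single 0 1, by simp, by simp⟩
  | insert i I _ ih =>
    obtain ⟨t, ht, hI⟩ := ih
    obtain ⟨s', t', ht', e⟩ := h.fracl (ev j u t * x i)
    obtain ⟨c, hc, -⟩ := ev_mul h.toCR t' t
    refine ⟨c, fun e0 => ?_, fun i' hi' => ?_⟩
    · rw [e0, ev_zero] at hc
      exact mul_ne_zero (fun e1 => ht' (h.ind _ e1)) (fun e1 => ht (h.ind _ e1)) hc.symm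
    · rcases Finset.mem_insert.1 hi' with rfl | hi'
      · exact ⟨s', by rw [hc, mul_assoc, e]⟩
      · obtain ⟨s, hs⟩ := hI i' hi'
        obtain ⟨c', hc', -⟩ := ev_mul h.toCR t' s
        exact ⟨c', by rw [hc, mul_assoc, hs, hc']⟩

theorem u_smul_mem (h : CR j u) (hc : Cmp j V) (P : Set B) (X : Set V) (a : B) {v : V}
    (hv : v ∈ usp K u P X) : u a • v ∈ usp K u ((fun b => a + b) '' P) X := by
  induction hv using Submodule.span_induction with
  | mem y hy =>
    obtain ⟨b, hb, x, hx, rfl⟩ := hy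
    obtain ⟨k, e⟩ := h.mul a b
    rw [← mul_smul, e, mul_smul, ← hc]
    exact Submodule.smul_mem _ k (gen_mem ⟨b, hb, rfl⟩ hx)
  | zero => rw [smul_zero]; exact zero_mem _
  | add x y _ _ hx hy => rw [smul_add]; exact add_mem hx hy
  | smul k x _ hx =>
    obtain ⟨k', e⟩ := u_smul h hc a k
    rw [e]
    exact Submodule.smul_mem _ k' hx

theorem u_inv (h : CR j u) (a : B) : ∃ k, (u a)⁻¹ = j k * u (-a) := by
  obtain ⟨k, e⟩ := h.mul a (-a)
  obtain ⟨k0, e0⟩ := h.mul 0 0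
  rw [add_zero] at e0
  rw [add_neg_cancel, mul_right_cancel₀ (h.ne 0) e0, ← map_mul] at e
  have hm : j (k * k0) ≠ 0 := e ▸ mul_ne_zero (h.ne a) (h.ne (-a))
  obtain ⟨k', e'⟩ := h.nl (-a) (k * k0)⁻¹
  refine ⟨k', inv_eq_of_mul_eq_one_right ?_⟩
  rw [← e', ← mul_assoc, e, map_inv₀, mul_inv_cancel₀ hm]

theorem u_zero (h : CR j u) : ∃ k, k ≠ 0 ∧ u 0 = j k := by
  obtain ⟨k0, e0⟩ := h.mul 0 0
  rw [add_zero] at e0
  have e := mul_right_cancel₀ (h.ne 0) e0
  exact ⟨k0, fun e1 => h.ne 0 (by rw [e, e1, map_zero]), e⟩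

theorem usp_mono {P P' : Set B} {X X' : Set V} (hP : P ⊆ P') (hX : X ⊆ X') :
    usp K u P X ≤ usp K u P' X' :=
  Submodule.span_mono fun _ ⟨b, hb, x, hx, e⟩ => ⟨b, hP hb, x, hX hx, e⟩

theorem usp_usp (h : CR j u) (hc : Cmp j V) {P P' Q : Set B} (X : Set V)
    (hQ : ∀ a ∈ P, ∀ b ∈ P', a + b ∈ Q) :
    usp K u P (usp K u P' X : Set V) ≤ usp K u Q X := by
  refine Submodule.span_le.2 ?_
  rintro _ ⟨a, ha, v, hv, rfl⟩
  refine usp_mono ?_ (Set.Subset.refl X) (u_smul_mem h hc P' X a hv)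
  rintro _ ⟨b, hb, rfl⟩
  exact hQ a ha b hb

theorem mem_usp (h : CR j u) (hc : Cmp j V) (P : Set B) (X : Submodule K V) {v : V}
    (hv : v ∈ usp K u P (X : Set V)) :
    ∃ (F : Finset B) (y : B → V), (∀ b ∈ F, b ∈ P ∧ y b ∈ X) ∧ v = ∑ b ∈ F, u b • y b := by
  classical
  induction hv using Submodule.span_induction with
  | mem y hy =>
    obtain ⟨b, hb, x, hx, rfl⟩ := hy
    exact ⟨{b}, fun _ => x, fun b' hb' => ⟨Finset.mem_singleton.1 hb' ▸ hb, hx⟩, by simp⟩
  | zero => exact ⟨∅, fun _ => 0, by simp, by simp⟩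
  | add x x' _ _ hx hx' =>
    obtain ⟨F, y, hF, rfl⟩ := hx
    obtain ⟨F', y', hF', rfl⟩ := hx'
    refine ⟨F ∪ F', fun b => (if b ∈ F then y b else 0) + (if b ∈ F' then y' b else 0),
      fun b hb => ⟨?_, add_mem ?_ ?_⟩, ?_⟩
    · rcases Finset.mem_union.1 hb with h1 | h1
      exacts [(hF b h1).1, (hF' b h1).1]
    · split_ifs with h1
      exacts [(hF b h1).2, zero_mem _]
    · split_ifs with h1
      exacts [(hF' b h1).2, zero_mem _]
    · simp only [smul_add, smul_ite, smul_zero, Finset.sum_add_distrib, Finset.sum_ite_mem,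
        Finset.union_inter_cancel_left, Finset.union_inter_cancel_right]
  | smul k x _ hx =>
    obtain ⟨F, y, hF, rfl⟩ := hx
    choose k' hk' using fun b => h.nr b k
    refine ⟨F, fun b => k' b • y b, fun b hb => ⟨(hF b hb).1, X.smul_mem _ (hF b hb).2⟩, ?_⟩
    rw [Finset.smul_sum]
    refine Finset.sum_congr rfl fun b _ => ?_
    show k • u b • y b = u b • k' b • y b
    rw [hc, hc, ← mul_smul, hk', mul_smul]

theorem tau_usp (ht : Tw j u σ φ) (hc : Cmp j V) (hτ : Semi σ τ) {P P' : Set B}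
    (hP : ∀ b ∈ P, φ b ∈ P') {X : Submodule K V} (hX : Stb τ X) {v : V}
    (hv : v ∈ usp K u P (X : Set V)) : τ v ∈ usp K u P' (X : Set V) :=
  map_usp hc τ.toAddEquiv.toAddMonoidHom σ hτ ht.jl
    (fun b hb => (ht.uu b).imp fun _ e => ⟨φ b, hP b hb, e⟩) (fun x hx => (hX x).2 hx) hv

theorem stb_usp (h : CR j u) (ht : Tw j u σ φ) (hc : Cmp j V) (hτ : Semi σ τ) {P : Set B}
    (hP : ∀ b ∈ P, φ b = b) {X : Submodule K V} (hX : Stb τ X) :
    Stb τ (usp K u P (X : Set V)) := by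
  refine stb_of (fun x hx => tau_usp ht hc hτ (fun b hb => (hP b hb).symm ▸ hb) hX hx)
    fun x hx => ?_
  refine map_usp hc τ.symm.toAddEquiv.toAddMonoidHom σ.symm (fun c v => ?_) (fun k => ?_)
    (fun b hb => ?_) (fun x hx => hX.symm_mem hx) hx
  · show τ.symm (c • v) = σ.symm c • τ.symm v
    rw [LinearEquiv.symm_apply_eq, hτ, RingEquiv.apply_symm_apply, LinearEquiv.apply_symm_apply]
  · obtain ⟨k', e⟩ := ht.jr k
    exact ⟨k', by rw [← e, RingEquiv.symm_apply_apply]⟩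
  · obtain ⟨k, e⟩ := ht.uu b
    obtain ⟨k', e'⟩ := ht.jr k
    rw [hP b hb] at e
    have h0 : j k ≠ 0 := fun e0 => h.ne b (by
      rw [e0, zero_mul] at e
      exact (map_eq_zero_iff σ σ.injective).1 e)
    refine ⟨k'⁻¹, b, hb, ?_⟩
    rw [RingEquiv.symm_apply_eq, map_mul, map_inv₀, map_inv₀, e', e, inv_mul_cancel_left₀ h0]

theorem usp_fg (h : CR j u) (hc : Cmp j V) (F : Finset B) {X : Submodule K V} (hX : X.FG) :
    (usp K u (F : Set B) (X : Set V)).FG := by
  obtain ⟨s, rfl⟩ := hX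
  refine Submodule.fg_def.2 ⟨{y | ∃ b ∈ (F : Set B), ∃ x ∈ (s : Set V), y = u b • x}, ?_, ?_⟩
  · refine (Set.Finite.image2 (fun b x => u b • x) F.finite_toSet s.finite_toSet).subset ?_
    rintro _ ⟨b, hb, x, hx, rfl⟩
    exact ⟨b, hb, x, hx, rfl⟩
  · refine le_antisymm (usp_mono (Set.Subset.refl _) Submodule.subset_span)
      (Submodule.span_le.2 ?_)
    rintro _ ⟨b, hb, x, hx, rfl⟩
    induction hx using Submodule.span_induction with
    | mem y hy => exact gen_mem hb hy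
    | zero => rw [smul_zero]; exact zero_mem _
    | add x y _ _ hx hy => rw [smul_add]; exact add_mem hx hy
    | smul k x _ hx =>
      obtain ⟨k', e⟩ := u_smul h hc b k
      rw [e]
      exact Submodule.smul_mem _ k' hx

end Pool.Agent.Lib.MP_721660_al.Ht
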