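import Pool.Agent.Lib.MP_721660_al.Ht.Mc1
import Pool.Agent.Lib.MP_721660_al.Ht.Cr2
import Pool.Agent.Lib.MP_721660_al.Ht.Cpt

set_option autoImplicit false

namespace Pool.Agent.Lib.MP_721660_al.Ht

variable {D M E : Type} [DivisionRing D] [AddCommGroup M] [Module D M] [Group E]
  {Γ : Type} [Group Γ] {π : E →* Γ} {A : Subgroup E} {m : ℕ} {β : E → Zm m}
  {φ : E →* (Zm m ≃ₗ[ℤ] Zm m)}

theorem posp_supp (S : SL D M E) (χ : Zm m →+ ℝ) {s : Module.End ℤ M} (hs : s ∈ S.posp A β χ) :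
    ∃ F : Finset (Zm m), (∀ f ∈ F, 0 < χ f) ∧
      s ∈ AddSubgroup.closure {s | ∃ (d : D), ∃ a ∈ A, β a ∈ F ∧ s = S.scal d * S.op a} := by
  classical
  have mono : ∀ F G : Finset (Zm m), F ⊆ G →
      AddSubgroup.closure {s | ∃ (d : D), ∃ a ∈ A, β a ∈ F ∧ s = S.scal d * S.op a} ≤
      AddSubgroup.closure {s | ∃ (d : D), ∃ a ∈ A, β a ∈ G ∧ s = S.scal d * S.op a} := by
    intro F G hFG
    refine AddSubgroup.closure_mono ?_
    rintro _ ⟨d, a, ha, hb, rfl⟩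
    exact ⟨d, a, ha, hFG hb, rfl⟩
  unfold SL.posp at hs
  induction hs using AddSubgroup.closure_induction with
  | mem s h =>
    obtain ⟨d, a, ha, hb, rfl⟩ := h
    refine ⟨{β a}, fun f hf => ?_,
      AddSubgroup.subset_closure ⟨d, a, ha, Finset.mem_singleton_self _, rfl⟩⟩
    rw [Finset.mem_singleton.1 hf]
    exact hb
  | zero => exact ⟨∅, by simp, AddSubgroup.zero_mem _⟩
  | add s s' _ _ h h' =>
    obtain ⟨F, hF, h⟩ := h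
    obtain ⟨G, hG, h'⟩ := h'
    refine ⟨F ∪ G, fun f hf => (Finset.mem_union.1 hf).elim (hF f) (hG f), ?_⟩
    exact AddSubgroup.add_mem _ (mono _ _ Finset.subset_union_left h)
      (mono _ _ Finset.subset_union_right h')
  | neg s _ h =>
    obtain ⟨F, hF, h⟩ := h
    exact ⟨F, hF, AddSubgroup.neg_mem _ h⟩

theorem all_chi (S : SL D M E) (hP : Plinth π A m β φ) (hs : S.Scal π.ker) {x0 : M}
    (h0 : Crit (S.rg (A : Set E)) x0)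
    (h : ∀ χ : Zm m →+ ℝ, χ ≠ 0 → ∃ r : S.rg (A : Set E), r • x0 ≠ 0 ∧ r • x0 ∈ S.Mchi A β χ) :
    ∃ r : S.rg (A : Set E), r • x0 ≠ 0 ∧ ∀ χ : Zm m →+ ℝ, χ ≠ 0 → r • x0 ∈ S.Mchi A β χ := by
  classical
  obtain ⟨𝓖, h1, h2⟩ := cpt_fin {F : Finset (Zm m) | ∃ r : S.rg (A : Set E), r • x0 ≠ 0 ∧
      ∀ χ : Zm m →+ ℝ, (∀ f ∈ F, 0 < χ f) → r • x0 ∈ S.Mchi A β χ} (by
    intro χ hχ
    obtain ⟨r, hr, s, hs1, hs2⟩ := h χ hχ
    obtain ⟨F, hF, hs3⟩ := posp_supp S χ hs1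
    refine ⟨F, ⟨r, hr, fun χ' hχ' => ⟨s, ?_, hs2⟩⟩, hF⟩
    refine AddSubgroup.closure_mono ?_ hs3
    rintro _ ⟨d, a, ha, hb, rfl⟩
    exact ⟨d, a, ha, hχ' _ hb, rfl⟩)
  have key : ∃ r : S.rg (A : Set E), r • x0 ≠ 0 ∧ ∀ F ∈ 𝓖, ∀ χ : Zm m →+ ℝ,
      (∀ f ∈ F, 0 < χ f) → r • x0 ∈ S.Mchi A β χ := by
    clear h2
    induction 𝓖 using Finset.induction_on with
    | empty => exact ⟨1, by rw [one_smul]; exact h0.1, by simp⟩
    | insert F 𝓖 _ ih =>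
      obtain ⟨r, hr, hr'⟩ := ih fun G hG => h1 (Finset.mem_coe.2 (Finset.mem_insert_of_mem hG))
      obtain ⟨q, hq, hq'⟩ := h1 (Finset.mem_coe.2 (Finset.mem_insert_self F 𝓖))
      obtain ⟨s', t', e, hne⟩ := h0.2.2 r q hr hq
      refine ⟨s' * r, by rw [mul_smul]; exact hne, fun G hG χ hχ => ?_⟩
      rw [mul_smul]
      rcases Finset.mem_insert.1 hG with rfl | hG
      · rw [e]
        exact mchi_smul S hP hs χ t' (hq' χ hχ)
      · exact mchi_smul S hP hs χ s' (hr' G hG χ hχ)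
  obtain ⟨r, hr, hr'⟩ := key
  refine ⟨r, hr, fun χ hχ => ?_⟩
  obtain ⟨F, hF, hF'⟩ := h2 χ hχ
  exact hr' F hF χ hF'

end Pool.Agent.Lib.MP_721660_al.Ht
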