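import Pool.Agent.Lib.MP_721660_al.Ht.Defs

set_option autoImplicit false

namespace Pool.Agent.Lib.MP_721660_al.Ht

namespace Hilbx

variable {S0 : Type} [Ring S0] (R : Subring S0) (x : S0ˣ)

/-- The left span of the powers below `k`. -/
def F (k : ℕ) : Submodule R S0 := Submodule.span R {y | ∃ i, i < k ∧ y = (x : S0) ^ i}

variable {R x}

theorem F_mono {k l : ℕ} (h : k ≤ l) : F R x k ≤ F R x l :=
  Submodule.span_mono fun _ ⟨i, hi, e⟩ => ⟨i, hi.trans_le h, e⟩

theorem pow_mem_F {i k : ℕ} (h : i < k) : (x : S0) ^ i ∈ F R x k :=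
  Submodule.subset_span ⟨i, h, rfl⟩

theorem mul_mem_F {r y : S0} (hr : r ∈ R) {k : ℕ} (hy : y ∈ F R x k) : r * y ∈ F R x k :=
  (F R x k).smul_mem ⟨r, hr⟩ hy

section
variable (hx : ∀ r ∈ R, (x : S0) * r * ↑x⁻¹ ∈ R ∧ (↑x⁻¹ : S0) * r * x ∈ R)
include hx

theorem left_comm (k : ℕ) : ∀ r ∈ R, ∃ s ∈ R, (x : S0) ^ k * r = s * (x : S0) ^ k := by
  induction k with
  | zero => exact fun r hr => ⟨r, hr, by simp⟩
  | succ k ih =>
    intro r hr
    obtain ⟨s, hs, e⟩ := ih _ (hx r hr).1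
    refine ⟨s, hs, ?_⟩
    rw [pow_succ, ← mul_assoc, ← e]
    simp [mul_assoc]

theorem right_comm (k : ℕ) : ∀ r ∈ R, ∃ s ∈ R, r * (x : S0) ^ k = (x : S0) ^ k * s := by
  induction k with
  | zero => exact fun r hr => ⟨r, hr, by simp⟩
  | succ k ih =>
    intro r hr
    obtain ⟨s, hs, e⟩ := ih r hr
    refine ⟨_, (hx s hs).2, ?_⟩
    rw [pow_succ, ← mul_assoc, e]
    simp [mul_assoc]

theorem x_mul_F {k : ℕ} {y : S0} (hy : y ∈ F R x k) : (x : S0) * y ∈ F R x (k + 1) := by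
  induction hy using Submodule.span_induction with
  | mem y h =>
    obtain ⟨i, hi, rfl⟩ := h
    rw [← pow_succ']
    exact pow_mem_F (by omega)
  | zero => simp
  | add a b _ _ ha hb => rw [mul_add]; exact add_mem ha hb
  | smul r a _ ha =>
    have e : (x : S0) * (r • a) = ((x : S0) * r * ↑x⁻¹) * ((x : S0) * a) := by
      simp [Subring.smul_def, mul_assoc]
    rw [e]
    exact mul_mem_F (hx r r.2).1 ha

theorem top_term {k : ℕ} {y : S0} (hy : y ∈ F R x (k + 1)) :
    ∃ r ∈ R, y - (x : S0) ^ k * r ∈ F R x k := by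
  induction hy using Submodule.span_induction with
  | mem y h =>
    obtain ⟨i, hi, rfl⟩ := h
    rcases (Nat.lt_succ_iff.1 hi).eq_or_lt with rfl | h
    · exact ⟨1, R.one_mem, by simp⟩
    · exact ⟨0, R.zero_mem, by simpa using pow_mem_F h⟩
  | zero => exact ⟨0, R.zero_mem, by simp⟩
  | add a b _ _ ha hb =>
    obtain ⟨r, hr, h1⟩ := ha
    obtain ⟨s, hs, h2⟩ := hb
    refine ⟨r + s, R.add_mem hr hs, ?_⟩
    convert add_mem h1 h2 using 1
    noncomm_ring
  | smul t a _ ha =>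
    obtain ⟨r, hr, h1⟩ := ha
    obtain ⟨s, hs, e⟩ := right_comm hx k t t.2
    refine ⟨s * r, R.mul_mem hs hr, ?_⟩
    convert mul_mem_F t.2 h1 using 1
    rw [← mul_assoc, ← e, Subring.smul_def, smul_eq_mul, mul_sub, mul_assoc]

theorem mem_F {y : S0} (hy : y ∈ Subring.closure ((R : Set S0) ∪ {(x : S0)})) :
    ∃ k, y ∈ F R x k := by
  have key : ∀ z : S0, (∃ k, z ∈ F R x k) → ∃ k, y * z ∈ F R x k := by
    induction hy using Subring.closure_induction with
    | mem y h =>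
      rintro z ⟨k, hk⟩
      rcases h with h | h
      · exact ⟨k, mul_mem_F h hk⟩
      · rw [Set.mem_singleton_iff.1 h]; exact ⟨k + 1, x_mul_F hx hk⟩
    | zero => exact fun z _ => ⟨0, by simp⟩
    | one => exact fun z h => by simpa using h
    | add a b _ _ ha hb =>
      intro z hz
      obtain ⟨k, hk⟩ := ha z hz
      obtain ⟨l, hl⟩ := hb z hz
      exact ⟨max k l, by
        rw [add_mul]; exact add_mem (F_mono (le_max_left _ _) hk) (F_mono (le_max_right _ _) hl)⟩
    | neg a _ ha =>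
      intro z hz
      obtain ⟨k, hk⟩ := ha z hz
      exact ⟨k, by rw [neg_mul]; exact neg_mem hk⟩
    | mul a b _ _ ha hb =>
      intro z hz
      rw [mul_assoc]
      exact ha _ (hb z hz)
  simpa using key 1 ⟨1, by simpa using pow_mem_F (R := R) (x := x) (i := 0) (k := 1) one_pos⟩

end

/-- The bigger ring. -/
abbrev Rx (R : Subring S0) (x : S0ˣ) : Subring S0 := Subring.closure ((R : Set S0) ∪ {(x : S0)})

/-- The ideal of top coefficients. -/
def L (hx : ∀ r ∈ R, (x : S0) * r * ↑x⁻¹ ∈ R ∧ (↑x⁻¹ : S0) * r * x ∈ R)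
    (k : ℕ) (I : Submodule (Rx R x) (Rx R x)) : Submodule R R where
  carrier := {r | ∃ y ∈ I, (y : S0) - (x : S0) ^ k * r ∈ F R x k}
  add_mem' := by
    rintro r s ⟨y, hy, h1⟩ ⟨z, hz, h2⟩
    refine ⟨y + z, add_mem hy hz, ?_⟩
    convert add_mem h1 h2 using 1
    push_cast
    noncomm_ring
  zero_mem' := ⟨0, zero_mem _, by simp⟩
  smul_mem' := by
    rintro t r ⟨y, hy, h1⟩
    obtain ⟨s, hs, e⟩ := left_comm hx k t t.2
    refine ⟨(⟨s, Subring.subset_closure (Or.inl hs)⟩ : Rx R x) • y, I.smul_mem _ hy, ?_⟩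
    convert mul_mem_F hs h1 using 1
    simp only [smul_eq_mul, Subring.coe_mul, MulMemClass.coe_mul]
    rw [← mul_assoc, e, mul_sub, mul_assoc]

variable (hx : ∀ r ∈ R, (x : S0) * r * ↑x⁻¹ ∈ R ∧ (↑x⁻¹ : S0) * r * x ∈ R)

theorem L_succ (k : ℕ) (I : Submodule (Rx R x) (Rx R x)) : L hx k I ≤ L hx (k + 1) I := by
  rintro r ⟨y, hy, h1⟩
  refine ⟨(⟨x, Subring.subset_closure (Or.inr rfl)⟩ : Rx R x) • y, I.smul_mem _ hy, ?_⟩
  convert x_mul_F hx h1 using 1
  simp only [smul_eq_mul, Subring.coe_mul, MulMemClass.coe_mul]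
  rw [mul_sub, pow_succ', mul_assoc]

theorem L_mono {k l : ℕ} (h : k ≤ l) {I J : Submodule (Rx R x) (Rx R x)} (hI : I ≤ J) :
    L hx k I ≤ L hx l J :=
  le_trans (monotone_nat_of_le_succ (f := fun k => L hx k I) (fun k => L_succ hx k I) h)
    fun _ ⟨y, hy, h1⟩ => ⟨y, hI hy, h1⟩

theorem eq_of_L {I J : Submodule (Rx R x) (Rx R x)} (hI : I ≤ J)
    (h : ∀ k, L hx k J ≤ L hx k I) : I = J := by
  have key : ∀ k, ∀ y ∈ J, (y : S0) ∈ F R x k → y ∈ I := by
    intro k
    induction k with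
    | zero =>
      intro y _ hy
      have : (y : S0) = 0 := by simpa [F] using hy
      rw [show y = 0 from Subtype.ext this]; exact zero_mem _
    | succ k ih =>
      intro y hy hF
      obtain ⟨r, hr, h1⟩ := top_term hx hF
      obtain ⟨z, hz, h2⟩ := h k (show (⟨r, hr⟩ : R) ∈ L hx k J from ⟨y, hy, h1⟩)
      have := ih (y - z) (sub_mem hy (hI hz)) (by
        convert sub_mem h1 h2 using 1
        push_cast
        noncomm_ring)
      simpa using add_mem this hz
  refine le_antisymm hI fun y hy => ?_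
  obtain ⟨k, hk⟩ := mem_F hx y.2
  exact key k y hy hk

end Hilbx

open Hilbx in
theorem hilb {S0 : Type} [Ring S0] (R : Subring S0) [IsNoetherianRing R] (x : S0ˣ)
    (hx : ∀ r ∈ R, (x : S0) * r * ↑x⁻¹ ∈ R ∧ (↑x⁻¹ : S0) * r * x ∈ R) :
    IsNoetherianRing (Subring.closure ((R : Set S0) ∪ {(x : S0)})) := by
  refine isNoetherianRing_iff.2 (monotone_stabilizes_iff_noetherian.1 fun f => ?_)
  have hR := monotone_stabilizes_iff_noetherian.2 (inferInstance : IsNoetherian R R)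
  obtain ⟨N, hN⟩ := hR ⟨fun n => L hx n (f n), fun _ _ h => L_mono hx h (f.monotone h)⟩
  choose g hg using fun k => hR ⟨fun n => L hx k (f n), fun _ _ h => L_mono hx le_rfl (f.monotone h)⟩
  refine ⟨max N ((Finset.range N).sup g), fun m hm => eq_of_L hx (f.monotone hm) fun k => ?_⟩
  have h1 : N ≤ max N ((Finset.range N).sup g) := le_max_left _ _
  rcases lt_or_ge k N with hk | hk
  · have h2 : g k ≤ max N ((Finset.range N).sup g) :=
      (Finset.le_sup (f := g) (Finset.mem_range.2 hk)).trans (le_max_right _ _)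
    exact ((hg k m (h2.trans hm)).symm.trans (hg k _ h2)).le
  · have h3 : L hx N (f N) = L hx (max k m) (f (max k m)) := hN _ (hk.trans (le_max_left _ _))
    exact (L_mono hx (le_max_left k m) (f.monotone (le_max_right k m))).trans
      (h3.symm.le.trans (L_mono hx hk (f.monotone h1)))

end Pool.Agent.Lib.MP_721660_al.Ht
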