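import Pool.Agent.Lib.MP_721660_al.Ht.RadMap

set_option autoImplicit false

namespace Pool.Agent.Lib.MP_721660_al.Ht

namespace Trx

/-- The additive automorphism induced on the quotient by a stable subspace. -/
theorem exists_quot {L V : Type} [Ring L] [AddCommGroup V] [Module L V] (τ : V ≃ₗ[ℤ] V)
    (U : Submodule L V) (hU : Stb τ U) :
    ∃ τ' : (V ⧸ U) ≃ₗ[ℤ] (V ⧸ U), ∀ v, τ' (U.mkQ v) = U.mkQ (τ v) := by
  have h : U.toAddSubgroup.map (τ.toAddEquiv : V →+ V) = U.toAddSubgroup := by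
    ext y
    constructor
    · rintro ⟨x, hx, rfl⟩
      exact (hU x).2 hx
    · intro hy
      exact ⟨τ.symm y, hU.symm_mem hy, τ.apply_symm_apply y⟩
  let e : (V ⧸ U) ≃+ (V ⧸ U) :=
    QuotientAddGroup.congr U.toAddSubgroup U.toAddSubgroup τ.toAddEquiv h
  exact ⟨e.toIntLinearEquiv, fun _ => rfl⟩

theorem step {K L V : Type} [DivisionRing K] [DivisionRing L] [AddCommGroup V]
    [Module L V] [Module K V] {j : K →+* L} {σ : L ≃+* L} {τ : V ≃ₗ[ℤ] V} {ρ l0 : ℕ}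
    (hD : Down j σ ρ l0) (hc : Cmp j V) (hτ : Semi σ τ) (W : Submodule L V)
    (X : Submodule K V) (hX : X.FG) (hs : Stb τ X) (hXW : (X : Set V) ⊆ W) :
    (((rad ρ τ)^[l0] X : Submodule K V) : Set V) ⊆ (rad ρ τ W : Submodule L V) := by
  classical
  intro x hx
  refine mem_rad.2 ⟨hXW (iter_le ρ l0 X hx), fun U hU _ hC => ?_⟩
  obtain ⟨τ', hτ'⟩ := exists_quot τ U hU
  let _ : Module K (V ⧸ U) := Module.compHom (V ⧸ U) j
  have hcq : Cmp j (V ⧸ U) := fun _ _ => rfl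
  let g : V →ₗ[K] (V ⧸ U) :=
    { toFun := U.mkQ
      map_add' := fun a b => map_add _ a b
      map_smul' := fun d v => by
        rw [hc d v, map_smul]
        rfl }
  have hg : ∀ v, g v = U.mkQ v := fun _ => rfl
  have hsemi : Semi σ τ' := by
    intro c q
    obtain ⟨v, rfl⟩ := U.mkQ_surjective q
    rw [← map_smul, hτ', hτ', hτ c v, map_smul]
  have hdim : Dim L ρ ((X.map g : Submodule K (V ⧸ U)) : Set (V ⧸ U)) := by
    obtain ⟨s, hs1, hs2⟩ := hC
    refine ⟨s.image U.mkQ, Finset.card_image_le.trans hs1, ?_⟩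
    rintro _ ⟨v, hv, rfl⟩
    obtain ⟨a, ha, b, hb, hab⟩ := Submodule.mem_sup.1 (hs2 (hXW hv))
    have h0 : U.mkQ a = 0 := (Submodule.Quotient.mk_eq_zero U).2 ha
    have h1 : g v = U.mkQ b := by rw [hg, ← hab, map_add, h0, zero_add]
    rw [h1, Finset.coe_image, ← Submodule.map_span]
    exact Submodule.mem_map_of_mem hb
  have hstb : Stb τ' (X.map g) := by
    refine stb_of ?_ ?_
    · rintro _ ⟨v, hv, rfl⟩
      exact ⟨τ v, (hs v).2 hv, (hτ' v).symm⟩
    · rintro _ ⟨v, hv, rfl⟩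
      refine ⟨τ.symm v, hs.symm_mem hv, ?_⟩
      rw [eq_comm, LinearEquiv.symm_apply_eq, hg, hg, hτ', τ.apply_symm_apply]
  have hbot := hD (V ⧸ U) τ' (X.map g) hcq hsemi hdim (hX.map g) hstb
  have hm := iter_map (RingEquiv.refl K) g.toAddMonoidHom (fun d v => g.map_smul d v)
    (τ := τ) (τ' := τ') (W := X) (W' := X.map g) hs (fun v hv => ⟨v, hv, rfl⟩)
    (fun v _ => (hτ' v).symm) (le_refl ρ) l0 x hx
  rw [hbot, Submodule.mem_bot] at hm
  exact (Submodule.Quotient.mk_eq_zero U).1 hm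

end Trx

theorem down_iter {K L V : Type} [DivisionRing K] [DivisionRing L] [AddCommGroup V]
    [Module L V] [Module K V] {j : K →+* L} {σ : L ≃+* L} {τ : V ≃ₗ[ℤ] V} {ρ l0 : ℕ}
    (hD : Down j σ ρ l0) (hc : Cmp j V) (hτ : Semi σ τ) (l : ℕ) (W : Submodule L V)
    (X : Submodule K V) (hX : X.FG) (hs : Stb τ X) (hXW : (X : Set V) ⊆ W) :
    (((rad ρ τ)^[l0 * l] X : Submodule K V) : Set V) ⊆ ((rad ρ τ)^[l] W : Submodule L V) := by
  induction l with
  | zero => exact hXW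
  | succ l ih =>
    rw [Nat.mul_succ, add_comm (l0 * l) l0, Function.iterate_add_apply,
      Function.iterate_succ_apply']
    exact Trx.step hD hc hτ _ _ (fg_of_le hX (iter_le _ _ _)) (hs.iter _ _) ih

end Pool.Agent.Lib.MP_721660_al.Ht
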