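import Pool.Agent.Lib.MP_721660_al.Ht.Tor
import Pool.Agent.Lib.MP_721660_al.Ht.Tf
import Pool.Agent.Lib.MP_721660_al.Ht.Gen
import Pool.Agent.Lib.MP_721660_al.Ht.Plin

set_option autoImplicit false

namespace Pool.Agent.Lib.MP_721660_al.Ht

theorem mainAt (n : ℕ) : MainAt n := by
  induction n using Nat.strong_induction_on with
  | _ n IH =>
  intro D M E Γ _ _ _ _ _ S π h hs hg
  by_cases hf : (π.range : Set Γ).Finite
  · exact bd_finite S π hf hs hg
  obtain ⟨E1, hE1, A, m, β, φ, hP⟩ := plinth_exists h π hf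
  haveI := hE1
  refine bd_fin_index S E1 ⊤ ?_
  have hs1 : (S.comap E1.subtype).Scal (π.comp E1.subtype).ker := by
    intro e he
    exact hs (e : E) he
  refine gen_ind (S.comap E1.subtype) (π.comp E1.subtype) h hs1 (fgen_fin_index S E1 hg) ?_
  intro M' _ _ S' hnt hs' hg'
  haveI := hnt
  choose u hu using hP.surj
  by_cases hT : S'.TFree u
  · refine ⟨⊤, top_ne_bot, fun _ _ _ => Submodule.mem_top, ?_⟩
    exact tf_case IH h S' hP hs' hg' u hu hT
  · exact torsion_case IH h S' hP hs' u hu hT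

end Pool.Agent.Lib.MP_721660_al.Ht
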