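import Pool.Agent.Lib.MP_721660_al.Ht.Hilb
import Pool.Agent.Lib.MP_721660_al.Ht.RgB

set_option autoImplicit false

namespace Pool.Agent.Lib.MP_721660_al.Ht

variable {D M E : Type} [DivisionRing D] [AddCommGroup M] [Module D M] [Group E]
  {Γ : Type} [Group Γ] {π : E →* Γ} {A : Subgroup E} {m : ℕ} {β : E → Zm m}
  {φ : E →* (Zm m ≃ₗ[ℤ] Zm m)}

namespace NoePx

theorem op_mul (S : SL D M E) (e e' : E) : S.op (e * e') = S.op e * S.op e' := by
  ext x
  exact act_mul S e e' x

theorem op_one (S : SL D M E) : S.op 1 = 1 := by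
  ext x
  rw [op_apply, map_one]
  rfl

theorem scal_mem (S : SL D M E) (H : Set E) (d : D) : S.scal d ∈ S.rg H :=
  Subring.subset_closure (Or.inl ⟨d, rfl⟩)

theorem normal (S : SL D M E) (hP : Plinth π A m β φ) (hs : S.Scal π.ker) (F : Set E)
    (hF : ∀ a ∈ F, a ∈ A) (a : E) (ha : a ∈ A) :
    ∀ r ∈ S.rg F, S.op a * r * S.op a⁻¹ ∈ S.rg F := by
  have h1 : S.op a * S.op a⁻¹ = 1 := by rw [← op_mul, mul_inv_cancel, op_one]
  have h2 : S.op a⁻¹ * S.op a = 1 := by rw [← op_mul, inv_mul_cancel, op_one]
  have b1 : β 1 = 0 := by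
    have := hP.add 1 A.one_mem 1 A.one_mem
    rw [mul_one] at this
    simpa using this
  have binv : ∀ f ∈ A, β f⁻¹ = -β f := by
    intro f hf
    have := hP.add f hf f⁻¹ (A.inv_mem hf)
    rw [mul_inv_cancel, b1] at this
    exact (neg_eq_of_add_eq_zero_right this.symm).symm
  intro r hr
  induction hr using Subring.closure_induction with
  | mem x hx =>
    rcases hx with ⟨d, rfl⟩ | ⟨f, hf, rfl⟩
    · have : S.op a * S.scal d * S.op a⁻¹ = S.scal (S.tw a d) := by
        ext x
        change S.act a (d • S.act a⁻¹ x) = S.tw a d • x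
        rw [S.act_smul, ← act_mul, mul_inv_cancel, map_one]
        rfl
      rw [this]
      exact scal_mem S F _
    · have hfA := hF f hf
      have hm : a * f * a⁻¹ * f⁻¹ ∈ A :=
        A.mul_mem (A.mul_mem (A.mul_mem ha hfA) (A.inv_mem ha)) (A.inv_mem hfA)
      have h0 : β (a * f * a⁻¹ * f⁻¹) = 0 := by
        rw [hP.add _ (A.mul_mem (A.mul_mem ha hfA) (A.inv_mem ha)) _ (A.inv_mem hfA),
          hP.add _ (A.mul_mem ha hfA) _ (A.inv_mem ha), hP.add _ ha _ hfA, binv a ha, binv f hfA]
        abel
      obtain ⟨d, hd⟩ := hs _ (MonoidHom.mem_ker.2 ((hP.zero_iff _ hm).1 h0))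
      have e1 : S.op (a * f * a⁻¹ * f⁻¹) = S.scal d := by
        ext x
        exact hd x
      have : S.op a * S.op f * S.op a⁻¹ = S.scal d * S.op f := by
        rw [← e1, ← op_mul, ← op_mul, ← op_mul, inv_mul_cancel_right]
      rw [this]
      exact (S.rg F).mul_mem (scal_mem S F d) (op_mem S hf)
  | zero => simpa using (S.rg F).zero_mem
  | one => rw [mul_one, h1]; exact (S.rg F).one_mem
  | add x y _ _ hx hy => rw [mul_add, add_mul]; exact (S.rg F).add_mem hx hy
  | neg x _ hx => rw [mul_neg, neg_mul]; exact (S.rg F).neg_mem hx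
  | mul x y _ _ hx hy =>
    have : S.op a * (x * y) * S.op a⁻¹ =
        (S.op a * x * S.op a⁻¹) * (S.op a * y * S.op a⁻¹) := by
      calc S.op a * (x * y) * S.op a⁻¹ = S.op a * x * (S.op a⁻¹ * S.op a) * y * S.op a⁻¹ := by
            rw [h2]; simp only [mul_one, mul_assoc]
        _ = _ := by simp only [mul_assoc]
    rw [this]
    exact (S.rg F).mul_mem hx hy

end NoePx

open NoePx in
theorem noeth_fin (S : SL D M E) (hP : Plinth π A m β φ) (hs : S.Scal π.ker) (F : Finset E)
    (hF : ∀ a ∈ F, a ∈ A) : IsNoetherianRing (S.rg (F : Set E)) := by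
  classical
  induction F using Finset.induction_on with
  | empty =>
    have : S.rg ((∅ : Finset E) : Set E) = S.scal.range := by
      unfold SL.rg
      rw [Finset.coe_empty, Set.image_empty, Set.union_empty, ← RingHom.coe_range,
        Subring.closure_eq]
    rw [this]
    infer_instance
  | insert a F _ ih =>
    have hF' : ∀ b ∈ F, b ∈ A := fun b hb => hF b (Finset.mem_insert_of_mem hb)
    have ha : a ∈ A := hF a (Finset.mem_insert_self _ _)
    haveI := ih hF'
    let x : (Module.End ℤ M)ˣ := ⟨S.op a, S.op a⁻¹, by rw [← op_mul, mul_inv_cancel, op_one],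
      by rw [← op_mul, inv_mul_cancel, op_one]⟩
    have h := hilb (S.rg (F : Set E)) x (fun r hr => ⟨normal S hP hs F hF' a ha r hr, by
      have := normal S hP hs F hF' a⁻¹ (A.inv_mem ha) r hr
      rw [inv_inv] at this
      exact this⟩)
    have e : S.rg ((insert a F : Finset E) : Set E) =
        Subring.closure ((S.rg (F : Set E) : Set (Module.End ℤ M)) ∪ {(x : Module.End ℤ M)}) := by
      apply le_antisymm
      · refine Subring.closure_le.2 ?_
        rintro y (⟨d, rfl⟩ | ⟨f, hf, rfl⟩)
        · exact Subring.subset_closure (Or.inl (scal_mem S _ d))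
        · rcases Finset.mem_insert.1 (Finset.mem_coe.1 hf) with rfl | hf
          · exact Subring.subset_closure (Or.inr rfl)
          · exact Subring.subset_closure (Or.inl (op_mem S (Finset.mem_coe.2 hf)))
      · refine Subring.closure_le.2 ?_
        rintro y (hy | hy)
        · exact Subring.closure_mono (Set.union_subset_union_right _
            (Set.image_mono (Finset.coe_subset.2 (Finset.subset_insert a F)))) hy
        · rw [Set.mem_singleton_iff.1 hy]
          exact op_mem S (Finset.mem_coe.2 (Finset.mem_insert_self _ _))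
    rw [e]
    exact h

/-- An element of `A` normalises the ring generated by any subset of `A`. -/
theorem op_normal (S : SL D M E) (hP : Plinth π A m β φ) (hs : S.Scal π.ker) (F : Set E)
    (hF : ∀ a ∈ F, a ∈ A) (a : E) (ha : a ∈ A) :
    ∀ r ∈ S.rg F, S.op a * r * S.op a⁻¹ ∈ S.rg F := NoePx.normal S hP hs F hF a ha

end Pool.Agent.Lib.MP_721660_al.Ht
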