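import Pool.Agent.Lib.MP_721660_al.Ht.Ar
import Pool.Agent.Lib.MP_721660_al.Ht.NoeP

set_option autoImplicit false

namespace Pool.Agent.Lib.MP_721660_al.Ht

variable {D M E : Type} [DivisionRing D] [AddCommGroup M] [Module D M] [Group E]
  {Γ : Type} [Group Γ] {π : E →* Γ} {A : Subgroup E} {m : ℕ} {β : E → Zm m}
  {φ : E →* (Zm m ≃ₗ[ℤ] Zm m)}

namespace Mc1x

theorem op_mul (S : SL D M E) (e e' : E) : S.op (e * e') = S.op e * S.op e' :=
  LinearMap.ext fun x => act_mul S e e' x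

theorem op_one (S : SL D M E) : S.op 1 = 1 :=
  LinearMap.ext fun x => by rw [op_apply, map_one]; rfl

theorem op_scal (S : SL D M E) (e : E) (d : D) : S.op e * S.scal d = S.scal (S.tw e d) * S.op e :=
  LinearMap.ext fun x => S.act_smul e d x

theorem beta_one (hP : Plinth π A m β φ) : β 1 = 0 := (hP.zero_iff 1 A.one_mem).2 (map_one π)

theorem beta_conj (hP : Plinth π A m β φ) {a b : E} (ha : a ∈ A) (hb : b ∈ A) :
    β (a * b * a⁻¹) = β b := by
  have h1 := hP.add a ha a⁻¹ (A.inv_mem ha)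
  rw [mul_inv_cancel, beta_one hP] at h1
  rw [hP.add _ (A.mul_mem ha hb) _ (A.inv_mem ha), hP.add a ha b hb, add_right_comm, ← h1,
    zero_add]

/-- An additive map that sends the generators into `posp` sends `posp` into `posp`. -/
theorem posp_map (S : SL D M E) (χ : Zm m →+ ℝ) (l r : Module.End ℤ M)
    (h : ∀ (d : D), ∀ a ∈ A, 0 < χ (β a) → l * (S.scal d * S.op a) * r ∈ S.posp A β χ)
    {s : Module.End ℤ M} (hs : s ∈ S.posp A β χ) : l * s * r ∈ S.posp A β χ := by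
  induction hs using AddSubgroup.closure_induction with
  | mem x hx =>
    obtain ⟨d, a, ha, hχ, rfl⟩ := hx
    exact h d a ha hχ
  | zero => rw [mul_zero, zero_mul]; exact zero_mem _
  | add x y _ _ hx hy => rw [mul_add, add_mul]; exact add_mem hx hy
  | neg x _ hx => rw [mul_neg, neg_mul]; exact neg_mem hx

theorem gen_mem (S : SL D M E) (χ : Zm m →+ ℝ) (d : D) {a : E} (ha : a ∈ A) (hχ : 0 < χ (β a)) :
    S.scal d * S.op a ∈ S.posp A β χ := AddSubgroup.subset_closure ⟨d, a, ha, hχ, rfl⟩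

theorem scal_conj (S : SL D M E) (χ : Zm m →+ ℝ) (c c' : D) {s : Module.End ℤ M}
    (hs : s ∈ S.posp A β χ) : S.scal c * s * S.scal c' ∈ S.posp A β χ := by
  refine posp_map S χ _ _ (fun d a ha hχ => ?_) hs
  have : S.scal c * (S.scal d * S.op a) * S.scal c' = S.scal (c * d * S.tw a c') * S.op a := by
    rw [map_mul, map_mul, mul_assoc, mul_assoc, op_scal]
    simp only [mul_assoc]
  rw [this]
  exact gen_mem S χ _ ha hχ

theorem op_conj (S : SL D M E) (hP : Plinth π A m β φ) (χ : Zm m →+ ℝ) {b : E} (hb : b ∈ A)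
    {s : Module.End ℤ M} (hs : s ∈ S.posp A β χ) : S.op b * s * S.op b⁻¹ ∈ S.posp A β χ := by
  refine posp_map S χ _ _ (fun d a ha hχ => ?_) hs
  have : S.op b * (S.scal d * S.op a) * S.op b⁻¹ = S.scal (S.tw b d) * S.op (b * a * b⁻¹) := by
    rw [op_mul, op_mul, ← mul_assoc (S.op b), op_scal]
    simp only [mul_assoc]
  rw [this]
  exact gen_mem S χ _ (A.mul_mem (A.mul_mem hb ha) (A.inv_mem hb)) (by rwa [beta_conj hP hb ha])

theorem op_left (S : SL D M E) (hP : Plinth π A m β φ) (χ : Zm m →+ ℝ) {b : E} (hb : b ∈ A)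
    (hχb : 0 < χ (β b)) {s : Module.End ℤ M} (hs : s ∈ S.posp A β χ) :
    S.op b * s ∈ S.posp A β χ := by
  rw [← mul_one (S.op b * s)]
  refine posp_map S χ _ _ (fun d a ha hχ => ?_) hs
  have : S.op b * (S.scal d * S.op a) * 1 = S.scal (S.tw b d) * S.op (b * a) := by
    rw [op_mul, ← mul_assoc (S.op b), op_scal, mul_one, mul_assoc]
  rw [this]
  refine gen_mem S χ _ (A.mul_mem hb ha) ?_
  rw [hP.add b hb a ha, map_add]
  exact add_pos hχb hχ

theorem rg_left (S : SL D M E) (hP : Plinth π A m β φ) (χ : Zm m →+ ℝ) (F : Set E)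
    (hF : ∀ a ∈ F, a ∈ A ∧ 0 < χ (β a)) {r : Module.End ℤ M} (hr : r ∈ S.rg F) :
    ∀ s ∈ S.posp A β χ, r * s ∈ S.posp A β χ := by
  induction hr using Subring.closure_induction with
  | mem x hx =>
    intro s hs
    rcases hx with ⟨d, rfl⟩ | ⟨a, ha, rfl⟩
    · have := scal_conj S χ d 1 hs
      rwa [map_one, mul_one] at this
    · exact op_left S hP χ (hF a ha).1 (hF a ha).2 hs
  | zero => intro s _; rw [zero_mul]; exact zero_mem _
  | one => intro s hs; rwa [one_mul]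
  | add x y _ _ hx hy => intro s hs; rw [add_mul]; exact add_mem (hx s hs) (hy s hs)
  | neg x _ hx => intro s hs; rw [neg_mul]; exact neg_mem (hx s hs)
  | mul x y _ _ hx hy => intro s hs; rw [mul_assoc]; exact hx _ (hy s hs)

/-- Additive span of the `d * a` with `a` in `F`. -/
def sp (S : SL D M E) (F : Finset E) : AddSubgroup (Module.End ℤ M) :=
  AddSubgroup.closure {s | ∃ (d : D), ∃ a ∈ F, s = S.scal d * S.op a}

theorem sp_mono (S : SL D M E) {F F' : Finset E} (h : F ⊆ F') : sp S F ≤ sp S F' :=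
  AddSubgroup.closure_mono fun _ ⟨d, a, ha, e⟩ => ⟨d, a, h ha, e⟩

theorem exists_sp (S : SL D M E) (χ : Zm m →+ ℝ) {s : Module.End ℤ M} (hs : s ∈ S.posp A β χ) :
    ∃ F : Finset E, (∀ a ∈ F, a ∈ A ∧ 0 < χ (β a)) ∧ s ∈ sp S F := by
  classical
  induction hs using AddSubgroup.closure_induction with
  | mem x hx =>
    obtain ⟨d, a, ha, hχ, rfl⟩ := hx
    refine ⟨{a}, fun b hb => ?_, AddSubgroup.subset_closure ⟨d, a, Finset.mem_singleton_self a, rfl⟩⟩
    rw [Finset.mem_singleton.1 hb]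
    exact ⟨ha, hχ⟩
  | zero => exact ⟨∅, by simp, zero_mem _⟩
  | add x y _ _ hx hy =>
    obtain ⟨F, hF, hx⟩ := hx
    obtain ⟨F', hF', hy⟩ := hy
    exact ⟨F ∪ F', fun a ha => (Finset.mem_union.1 ha).elim (hF a) (hF' a),
      add_mem (sp_mono S Finset.subset_union_left hx) (sp_mono S Finset.subset_union_right hy)⟩
  | neg x _ hx =>
    obtain ⟨F, hF, hx⟩ := hx
    exact ⟨F, hF, neg_mem hx⟩

theorem sp_apply (S : SL D M E) (F : Finset E) (Z : Submodule (S.rg (F : Set E)) M) {z : M}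
    (hz : z ∈ Z) {s : Module.End ℤ M} (hs : s ∈ sp S F) :
    ∃ w : F → M, (∀ i, w i ∈ Z) ∧ s z = ∑ i : F, S.op i (w i) := by
  classical
  induction hs using AddSubgroup.closure_induction with
  | mem x hx =>
    obtain ⟨d, a, ha, rfl⟩ := hx
    refine ⟨Pi.single ⟨a, ha⟩ ((S.tw a).symm d • z), fun i => ?_, ?_⟩
    · by_cases hi : i = ⟨a, ha⟩
      · rw [hi, Pi.single_eq_same, inc_smul S (F : Set E)]
        exact Z.smul_mem _ hz
      · rw [Pi.single_eq_of_ne hi]
        exact Z.zero_mem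
    · rw [Finset.sum_eq_single ⟨a, ha⟩]
      · rw [Pi.single_eq_same, op_apply, S.act_smul, RingEquiv.apply_symm_apply]
        rfl
      · intro i _ hi
        rw [Pi.single_eq_of_ne hi, map_zero]
      · exact fun h => absurd (Finset.mem_univ _) h
  | zero => exact ⟨0, fun _ => Z.zero_mem, by simp⟩
  | add x y _ _ hx hy =>
    obtain ⟨w, hw, e⟩ := hx
    obtain ⟨w', hw', e'⟩ := hy
    refine ⟨w + w', fun i => Z.add_mem (hw i) (hw' i), ?_⟩
    rw [LinearMap.add_apply, e, e', ← Finset.sum_add_distrib]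
    exact Finset.sum_congr rfl fun i _ => (map_add _ _ _).symm
  | neg x _ hx =>
    obtain ⟨w, hw, e⟩ := hx
    refine ⟨-w, fun i => Z.neg_mem (hw i), ?_⟩
    rw [LinearMap.neg_apply, e, ← Finset.sum_neg_distrib]
    exact Finset.sum_congr rfl fun i _ => (map_neg _ _).symm

end Mc1x

open Mc1x in
theorem mchi_add (S : SL D M E) (hP : Plinth π A m β φ) (hs : S.Scal π.ker) (χ : Zm m →+ ℝ)
    {y y' : M} (hy : y ∈ S.Mchi A β χ) (hy' : y' ∈ S.Mchi A β χ) :
    y + y' ∈ S.Mchi A β χ := by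
  classical
  obtain ⟨s, hsp, hsy⟩ := hy
  obtain ⟨s', hsp', hsy'⟩ := hy'
  obtain ⟨F1, hF1, h1⟩ := exists_sp S χ hsp
  obtain ⟨F2, hF2, h2⟩ := exists_sp S χ hsp'
  obtain ⟨F, hF, h1, h2⟩ : ∃ F : Finset E, (∀ a ∈ F, a ∈ A ∧ 0 < χ (β a)) ∧ s ∈ sp S F ∧
      s' ∈ sp S F := ⟨F1 ∪ F2, fun a ha => (Finset.mem_union.1 ha).elim (hF1 a) (hF2 a),
    sp_mono S Finset.subset_union_left h1, sp_mono S Finset.subset_union_right h2⟩
  haveI := noeth_fin S hP hs F fun a ha => (hF a ha).1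
  let Z : Submodule (S.rg (F : Set E)) M := Submodule.span (S.rg (F : Set E)) {y, y'}
  haveI : IsNoetherian (S.rg (F : Set E)) Z :=
    isNoetherian_span_of_finite _ (Set.toFinite _)
  let a : F → S.rg (F : Set E) := fun i => ⟨S.op i, op_mem S i.2⟩
  have hinv : ∀ e : E, S.op e⁻¹ * S.op e = 1 := fun e => by rw [← op_mul, inv_mul_cancel, op_one]
  have hinv' : ∀ e : E, S.op e * S.op e⁻¹ = 1 := fun e => by rw [← op_mul, mul_inv_cancel, op_one]
  have ha1 : ∀ i r, ∃ r', a i * r = r' * a i := fun i r =>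
    ⟨⟨_, op_normal S hP hs (F : Set E) (fun b hb => (hF b hb).1) i (hF i i.2).1 r r.2⟩,
      Subtype.ext (by
        show S.op i * r = S.op i * r * S.op (i : E)⁻¹ * S.op i
        rw [mul_assoc, hinv, mul_one])⟩
  have ha2 : ∀ i r, ∃ r', r * a i = a i * r' := fun i r =>
    ⟨⟨_, op_normal S hP hs (F : Set E) (fun b hb => (hF b hb).1) (i : E)⁻¹
      (A.inv_mem (hF i i.2).1) r r.2⟩,
      Subtype.ext (by
        show (r : Module.End ℤ M) * S.op i = S.op i * (S.op (i : E)⁻¹ * r * S.op (i : E)⁻¹⁻¹)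
        rw [inv_inv, ← mul_assoc, ← mul_assoc, hinv', one_mul])⟩
  have hyZ : y ∈ Z := Submodule.subset_span (Set.mem_insert _ _)
  have hyZ' : y' ∈ Z := Submodule.subset_span (Set.mem_insert_of_mem _ rfl)
  have hZ : ∀ x ∈ Z, ∃ w : F → M, (∀ i, w i ∈ Z) ∧ x = ∑ i, a i • w i := by
    intro x hx
    induction hx using Submodule.span_induction with
    | mem x hx =>
      rcases hx with rfl | rfl
      · obtain ⟨w, hw, e⟩ := sp_apply S F Z hyZ h1
        exact ⟨w, hw, hsy.symm.trans e⟩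
      · obtain ⟨w, hw, e⟩ := sp_apply S F Z hyZ' h2
        exact ⟨w, hw, hsy'.symm.trans e⟩
    | zero => exact ⟨0, fun _ => Z.zero_mem, by simp⟩
    | add x x' _ _ hx hx' =>
      obtain ⟨w, hw, e⟩ := hx
      obtain ⟨w', hw', e'⟩ := hx'
      refine ⟨w + w', fun i => Z.add_mem (hw i) (hw' i), ?_⟩
      rw [e, e', ← Finset.sum_add_distrib]
      exact Finset.sum_congr rfl fun i _ => (smul_add _ _ _).symm
    | smul r x _ hx =>
      obtain ⟨w, hw, e⟩ := hx
      choose r' hr' using fun i => ha2 i r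
      refine ⟨fun i => r' i • w i, fun i => Z.smul_mem _ (hw i), ?_⟩
      rw [e, Finset.smul_sum]
      exact Finset.sum_congr rfl fun i _ => by rw [smul_smul, hr', mul_smul]
  obtain ⟨r, hr⟩ := ar_lemma (Z := Z) a ha1 ha2 (fun z => by
    obtain ⟨w, hw, e⟩ := hZ z z.2
    refine ⟨fun i => ⟨w i, hw i⟩, Subtype.ext ?_⟩
    rw [e, Submodule.coe_sum]
    rfl) ⟨y + y', Z.add_mem hyZ hyZ'⟩
  refine ⟨∑ i : F, (r i : Module.End ℤ M) * S.op i, sum_mem fun i _ => ?_, ?_⟩
  · refine rg_left S hP χ (F : Set E) hF (r i).2 _ ?_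
    have := gen_mem S χ 1 (hF i i.2).1 (hF i i.2).2
    rwa [map_one, one_mul] at this
  · have e := congrArg Subtype.val hr
    rw [Submodule.coe_sum] at e
    rw [LinearMap.sum_apply]
    exact e.symm

open Mc1x in
theorem mchi_smul (S : SL D M E) (hP : Plinth π A m β φ) (hs : S.Scal π.ker) (χ : Zm m →+ ℝ)
    (t : S.rg (A : Set E)) {y : M} (hy : y ∈ S.Mchi A β χ) : t • y ∈ S.Mchi A β χ := by
  have h0 : (0 : M) ∈ S.Mchi A β χ := ⟨0, zero_mem _, rfl⟩
  obtain ⟨t, ht⟩ := t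
  have ht' := rg_span S A t ht
  show t y ∈ S.Mchi A β χ
  clear ht
  induction ht' using AddSubgroup.closure_induction with
  | mem x hx =>
    obtain ⟨d, a, ha, rfl⟩ := hx
    by_cases hd : d = 0
    · rw [hd, map_zero, zero_mul]
      exact h0
    · obtain ⟨s, hsp, hsy⟩ := hy
      refine ⟨_, scal_conj S χ d d⁻¹ (op_conj S hP χ ha hsp), ?_⟩
      show d • S.act a (s (S.act a⁻¹ (d⁻¹ • d • S.act a y))) = d • S.act a y
      rw [smul_smul, inv_mul_cancel₀ hd, one_smul, ← act_mul, inv_mul_cancel, map_one]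
      show d • S.act a (s y) = d • S.act a y
      rw [hsy]
  | zero => exact h0
  | add x x' _ _ hx hx' => exact mchi_add S hP hs χ hx hx'
  | neg x _ hx =>
    obtain ⟨s, hsp, e⟩ := hx
    exact ⟨s, hsp, by rw [LinearMap.neg_apply, map_neg, e]⟩

end Pool.Agent.Lib.MP_721660_al.Ht
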