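import Pool.Agent.Lib.MP_721660_al.Ht.Mc1
import Pool.Agent.Lib.MP_721660_al.Ht.Cr2

set_option autoImplicit false

namespace Pool.Agent.Lib.MP_721660_al.Ht

variable {D M E : Type} [DivisionRing D] [AddCommGroup M] [Module D M] [Group E]
  {Γ : Type} [Group Γ] {π : E →* Γ} {A : Subgroup E} {m : ℕ} {β : E → Zm m}
  {φ : E →* (Zm m ≃ₗ[ℤ] Zm m)}

namespace Mc2x

theorem beta_one (hP : Plinth π A m β φ) : β 1 = 0 :=
  (hP.zero_iff 1 A.one_mem).2 (map_one π)

theorem beta_inv (hP : Plinth π A m β φ) {a : E} (ha : a ∈ A) : β a⁻¹ = -β a := by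
  have := hP.add _ (A.inv_mem ha) _ ha
  rw [inv_mul_cancel, beta_one hP] at this
  exact eq_neg_of_add_eq_zero_left this.symm

theorem act_inv (S : SL D M E) (e : E) (x : M) : S.act e⁻¹ (S.act e x) = x := by
  rw [← act_mul, inv_mul_cancel, map_one]; rfl

theorem posp_le (S : SL D M E) (χ : Zm m →+ ℝ) {q : Module.End ℤ M} (hq : q ∈ S.posp A β χ) :
    q ∈ S.rg (A : Set E) := by
  have : S.posp A β χ ≤ (S.rg (A : Set E)).toAddSubgroup := by
    refine (AddSubgroup.closure_le _).2 ?_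
    rintro _ ⟨d, a, ha, -, rfl⟩
    exact (S.rg (A : Set E)).mul_mem (Subring.subset_closure (Or.inl ⟨d, rfl⟩)) (op_mem S ha)
  exact this hq

end Mc2x

theorem mchi_generic (S : SL D M E) (hP : Plinth π A m β φ) (u : Zm m → E)
    (hu : ∀ b, u b ∈ A ∧ β (u b) = b) (c : Zm m →₀ D) (hc : c ≠ 0) (x : M)
    (hx : S.app u c x = 0) (χ : Zm m →+ ℝ)
    (hχ : ∀ b ∈ c.support, ∀ b' ∈ c.support, b ≠ b' → χ (b - b') ≠ 0) :
    x ∈ S.Mchi A β χ := by
  classical
  obtain ⟨b0, hb0, hmin⟩ := c.support.exists_min_image χ (Finsupp.support_nonempty_iff.2 hc)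
  have hc0 : c b0 ≠ 0 := Finsupp.mem_support_iff.1 hb0
  refine ⟨∑ b ∈ c.support.erase b0,
    S.scal (S.tw (u b0)⁻¹ (-((c b0)⁻¹ * c b))) * S.op ((u b0)⁻¹ * u b), ?_, ?_⟩
  · refine AddSubgroup.sum_mem _ fun b hb => AddSubgroup.subset_closure
      ⟨_, _, A.mul_mem (A.inv_mem (hu b0).1) (hu b).1, ?_, rfl⟩
    obtain ⟨hne, hb⟩ := Finset.mem_erase.1 hb
    rw [hP.add _ (A.inv_mem (hu b0).1) _ (hu b).1, Mc2x.beta_inv hP (hu b0).1, (hu b0).2,
      (hu b).2, neg_add_eq_sub]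
    have h1 := hχ b hb b0 hb0 hne
    have h2 := hmin b hb
    rw [map_sub] at h1 ⊢
    exact lt_of_le_of_ne (sub_nonneg.2 h2) h1.symm
  · have h1 : c b0 • S.act (u b0) x + ∑ b ∈ c.support.erase b0, c b • S.act (u b) x = 0 := by
      rw [Finset.add_sum_erase c.support (fun b => c b • S.act (u b) x) hb0]
      exact hx
    have h2 : S.act (u b0) x =
        ∑ b ∈ c.support.erase b0, (-((c b0)⁻¹ * c b)) • S.act (u b) x := by
      have h3 : S.act (u b0) x = (c b0)⁻¹ • (c b0 • S.act (u b0) x) := (inv_smul_smul₀ hc0 _).symm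
      rw [h3, eq_neg_of_add_eq_zero_left h1, smul_neg, Finset.smul_sum, ← Finset.sum_neg_distrib]
      exact Finset.sum_congr rfl fun b _ => by rw [neg_smul, mul_smul]
    conv_rhs => rw [← Mc2x.act_inv S (u b0) x, h2, map_sum]
    rw [LinearMap.sum_apply]
    refine Finset.sum_congr rfl fun b _ => ?_
    rw [Module.End.mul_apply, scal_apply, op_apply, S.act_smul, act_mul]

theorem mchi_act (S : SL D M E) (hP : Plinth π A m β φ) (e : E) (χ χ' : Zm m →+ ℝ)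
    (hχ : ∀ b, χ' (φ e b) = χ b) {y : M} (hy : y ∈ S.Mchi A β χ) :
    S.act e y ∈ S.Mchi A β χ' := by
  obtain ⟨s, hs, hy⟩ := hy
  refine ⟨S.op e * s * S.op e⁻¹, ?_, ?_⟩
  · clear hy
    induction hs using AddSubgroup.closure_induction with
    | mem s hs =>
      obtain ⟨d, a, ha, hpos, rfl⟩ := hs
      refine AddSubgroup.subset_closure ⟨S.tw e d, e * a * e⁻¹, hP.normal.conj_mem a ha e, ?_, ?_⟩
      · rwa [hP.conj e a ha, hχ]
      · ext x
        simp only [Module.End.mul_apply, scal_apply, op_apply, S.act_smul, act_mul]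
    | zero => simp
    | add s s' _ _ h1 h2 =>
      rw [mul_add, add_mul]
      exact AddSubgroup.add_mem _ h1 h2
    | neg s _ h1 =>
      rw [mul_neg, neg_mul]
      exact AddSubgroup.neg_mem _ h1
  · rw [Module.End.mul_apply, Module.End.mul_apply, op_apply, op_apply, Mc2x.act_inv, hy]

theorem mchi_sim (S : SL D M E) (hP : Plinth π A m β φ) (hs : S.Scal π.ker) (χ : Zm m →+ ℝ)
    {x y : M} (hx : Crit (S.rg (A : Set E)) x) (h : Sim (S.rg (A : Set E)) x y)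
    (h1 : ∃ t : S.rg (A : Set E), t • x ≠ 0 ∧ t • x ∈ S.Mchi A β χ) :
    ∃ t : S.rg (A : Set E), t • y ≠ 0 ∧ t • y ∈ S.Mchi A β χ := by
  obtain ⟨s0, t0, hs0, hann⟩ := h
  obtain ⟨t, ht, htm⟩ := h1
  obtain ⟨s', t', e, hne⟩ := hx.2.2 s0 t hs0 ht
  have hw : s' • s0 • x ∈ S.Mchi A β χ := e ▸ mchi_smul S hP hs χ t' htm
  obtain ⟨q, hq, hqw⟩ := hw
  refine ⟨s' * t0, ?_, q, hq, ?_⟩
  · rw [mul_smul]
    exact fun h => hne ((hann s').2 h)
  · have h2 := (hann ((1 - (⟨q, Mc2x.posp_le S χ hq⟩ : S.rg (A : Set E))) * s')).1 (by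
      rw [mul_smul, sub_smul, one_smul, sub_eq_zero]
      exact hqw.symm)
    rw [mul_smul, sub_smul, one_smul, sub_eq_zero] at h2
    rw [mul_smul]
    exact h2.symm

end Pool.Agent.Lib.MP_721660_al.Ht
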