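import Pool.Agent.Lib.MP_721660_al.Ht.Ser3

set_option autoImplicit false

namespace Pool.Agent.Lib.MP_721660_al.Ht

namespace Plinx

variable {G : Type} [Group G]

/-- finitely many left cosets of `L` cover `H` -/
def Cof (L H : Subgroup G) : Prop :=
  ∃ F : Set G, F.Finite ∧ ∀ h ∈ H, ∃ f ∈ F, f⁻¹ * h ∈ L

theorem Cof.relIndex {L H : Subgroup G} (h : Cof L H) : L.relIndex H ≠ 0 := by
  obtain ⟨F, hF, hc⟩ := h
  choose! f hf1 hf2 using hc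
  have : Finite F := hF
  have hfin : Finite (H ⧸ L.subgroupOf H) := by
    refine Finite.of_injective
      (fun q : H ⧸ L.subgroupOf H => (⟨f (q.out : H), hf1 _ (q.out : H).2⟩ : F)) ?_
    intro q q' e
    have e1 : f (q.out : H) = f (q'.out : H) := congrArg Subtype.val e
    rw [← QuotientGroup.out_eq' q, ← QuotientGroup.out_eq' q', QuotientGroup.eq,
      Subgroup.mem_subgroupOf]
    have h1 := hf2 _ (q.out : H).2
    have h2 := hf2 _ (q'.out : H).2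
    rw [← e1] at h2
    have h3 := L.mul_mem (L.inv_mem h1) h2
    have e2 : ((f (q.out : H))⁻¹ * (q.out : H))⁻¹ * ((f (q.out : H))⁻¹ * (q'.out : H)) =
        ((q.out : H) : G)⁻¹ * (q'.out : H) := by group
    rw [e2] at h3
    simpa using h3
  exact Subgroup.index_ne_zero_of_finite

theorem Cof.pow {L H : Subgroup G} (h : Cof L H) : ∃ e : ℕ, 0 < e ∧ ∀ k ∈ H, k ^ e ∈ L :=
  ⟨(L.relIndex H).factorial, Nat.factorial_pos _, fun _ hk =>
    (Subgroup.pow_mem_of_relIndex_ne_zero_of_dvd h.relIndex hk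
      (fun _ h1 h2 => Nat.dvd_factorial h1 h2)).1⟩

theorem Cof.mono {L L' H : Subgroup G} (h : Cof L H) (hL : L ≤ L') : Cof L' H := by
  obtain ⟨F, hF, hc⟩ := h
  exact ⟨F, hF, fun x hx => (hc x hx).imp fun f hf => ⟨hf.1, hL hf.2⟩⟩

theorem cof_bot (L : Subgroup G) : Cof L ⊥ :=
  ⟨{1}, Set.finite_singleton _, fun h hh => ⟨1, rfl, by
    rw [Subgroup.mem_bot.1 hh]; simp⟩⟩

theorem Cof.step {L K H : Subgroup G} {t : G} (h : Cof L K) (ht : t ∈ H)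
    (hn : ∀ h ∈ H, ∀ k ∈ K, h * k * h⁻¹ ∈ K) (hg : ∀ h ∈ H, ∃ k ∈ K, ∃ z : ℤ, h = k * t ^ z)
    {r : ℕ} (hr : 0 < r) (hL : t ^ r ∈ L) : Cof L H := by
  obtain ⟨F, hF, hc⟩ := h
  refine ⟨(fun p : ℤ × G => t ^ p.1 * p.2) '' (Set.Ico (0 : ℤ) r ×ˢ F),
    ((Set.finite_Ico _ _).prod hF).image _, ?_⟩
  intro x hx
  obtain ⟨k, hk, z, rfl⟩ := hg x hx
  have hr' : (0 : ℤ) < r := by exact_mod_cast hr
  have h1 : (t ^ (z % r))⁻¹ * k * ((t ^ (z % r))⁻¹)⁻¹ ∈ K :=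
    hn _ (H.inv_mem (H.zpow_mem ht _)) k hk
  obtain ⟨f, hf, hf2⟩ := hc _ h1
  refine ⟨t ^ (z % r) * f, ⟨(z % r, f), ⟨⟨Int.emod_nonneg _ hr'.ne', Int.emod_lt_of_pos _ hr'⟩,
    hf⟩, rfl⟩, ?_⟩
  have h2 : (t ^ r) ^ (z / r) ∈ L := L.zpow_mem hL _
  have e : t ^ z = t ^ (z % r) * (t ^ r) ^ (z / r) := by
    rw [← zpow_natCast, ← zpow_mul, ← zpow_add, Int.emod_add_mul_ediv]
  have h3 := L.mul_mem hf2 h2
  rw [e]
  have e2 : (t ^ (z % r) * f)⁻¹ * (k * (t ^ (z % r) * (t ^ r) ^ (z / r))) =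
      f⁻¹ * ((t ^ (z % r))⁻¹ * k * ((t ^ (z % r))⁻¹)⁻¹) * (t ^ r) ^ (z / r) := by group
  rw [e2]
  exact h3

theorem cof_of_pow {n : ℕ} {H : Subgroup G} (h : Ser n H) (L : Subgroup G)
    (hp : ∀ x ∈ H, ∃ r : ℕ, 0 < r ∧ x ^ r ∈ L) : Cof L H := by
  induction h with
  | bot n => exact cof_bot L
  | fin t _ hK ht hn hg _ ih =>
    obtain ⟨r, hr, hL⟩ := hp t ht
    exact (ih fun x hx => hp x (hK hx)).step ht hn hg hr hL
  | inf t _ hK ht hn hg ih =>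
    obtain ⟨r, hr, hL⟩ := hp t ht
    exact (ih fun x hx => hp x (hK hx)).step ht hn hg hr hL

/-- torsion free -/
def TF (T : Subgroup G) : Prop := ∀ x ∈ T, ∀ r : ℕ, 0 < r → x ^ r = 1 → x = 1

theorem tf_fin {K H T : Subgroup G} {t : G} (hT : T ≤ K) (h : Cof T K) (h2 : TF T) (hK : K ≤ H)
    (ht : t ∈ H) (hn : ∀ h ∈ H, ∀ k ∈ K, h * k * h⁻¹ ∈ K)
    (hg : ∀ h ∈ H, ∃ k ∈ K, ∃ z : ℤ, h = k * t ^ z) (hr : ∃ r : ℕ, 0 < r ∧ t ^ r ∈ K) :
    ∃ T, T ≤ H ∧ Cof T H ∧ TF T := by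
  obtain ⟨r, hr, hL⟩ := hr
  obtain ⟨e, he, hp⟩ := h.pow
  refine ⟨T, hT.trans hK, h.step ht hn hg (Nat.mul_pos hr he) ?_, h2⟩
  rw [pow_mul]
  exact hp _ hL

theorem pow_form {K H : Subgroup G} (hn : ∀ h ∈ H, ∀ k ∈ K, h * k * h⁻¹ ∈ K) {k s : G}
    (hk : k ∈ K) (hs : s ∈ H) (r : ℕ) : (k * s) ^ r * (s ^ r)⁻¹ ∈ K := by
  induction r with
  | zero => simp
  | succ r ih =>
    have h1 := K.mul_mem ih (hn _ (H.pow_mem hs r) k hk)
    have e : (k * s) ^ (r + 1) * (s ^ (r + 1))⁻¹ =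
        (k * s) ^ r * (s ^ r)⁻¹ * (s ^ r * k * (s ^ r)⁻¹) := by
      rw [pow_succ, pow_succ]; group
    rw [e]; exact h1

theorem tf_inf {n : ℕ} {K H T : Subgroup G} {t : G} (hS : Ser n K) (h : Cof T K) (h2 : TF T)
    (hK : K ≤ H) (ht : t ∈ H) (hn : ∀ h ∈ H, ∀ k ∈ K, h * k * h⁻¹ ∈ K)
    (hg : ∀ h ∈ H, ∃ k ∈ K, ∃ z : ℤ, h = k * t ^ z) (hr : ¬ ∃ r : ℕ, 0 < r ∧ t ^ r ∈ K) :
    ∃ T, T ≤ H ∧ Cof T H ∧ TF T := by
  obtain ⟨e, he, hp⟩ := h.pow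
  let K1 : Subgroup G := Subgroup.closure {x | ∃ k ∈ K, x = k ^ e}
  have a1 : K1 ≤ T := (Subgroup.closure_le _).2 (by rintro _ ⟨k, hk, rfl⟩; exact hp k hk)
  have a2 : K1 ≤ K := (Subgroup.closure_le _).2 (by rintro _ ⟨k, hk, rfl⟩; exact K.pow_mem hk e)
  have a3 : ∀ g ∈ H, ∀ k ∈ K1, g * k * g⁻¹ ∈ K1 := by
    intro g hg k hk
    induction hk using Subgroup.closure_induction with
    | mem x hx =>
      obtain ⟨k, hk, rfl⟩ := hx
      exact Subgroup.subset_closure ⟨g * k * g⁻¹, hn g hg k hk, (conj_pow).symm⟩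
    | one => simp
    | mul x y _ _ hx hy =>
      have e1 : g * (x * y) * g⁻¹ = g * x * g⁻¹ * (g * y * g⁻¹) := by group
      rw [e1]; exact K1.mul_mem hx hy
    | inv x _ hx =>
      have e1 : g * x⁻¹ * g⁻¹ = (g * x * g⁻¹)⁻¹ := by group
      rw [e1]; exact K1.inv_mem hx
  have a4 : Cof K1 K := cof_of_pow hS K1 fun x hx => ⟨e, he, Subgroup.subset_closure ⟨x, hx, rfl⟩⟩
  let T1 : Subgroup G :=
    { carrier := {x | ∃ k ∈ K1, ∃ z : ℤ, x = k * t ^ z}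
      one_mem' := ⟨1, K1.one_mem, 0, by simp⟩
      mul_mem' := by
        rintro _ _ ⟨k, hk, z, rfl⟩ ⟨k', hk', z', rfl⟩
        refine ⟨k * (t ^ z * k' * (t ^ z)⁻¹), K1.mul_mem hk (a3 _ (H.zpow_mem ht z) _ hk'),
          z + z', ?_⟩
        group
      inv_mem' := by
        rintro _ ⟨k, hk, z, rfl⟩
        refine ⟨t ^ (-z) * k⁻¹ * (t ^ (-z))⁻¹, a3 _ (H.zpow_mem ht _) _ (K1.inv_mem hk), -z, ?_⟩
        group }
  have b1 : K1 ≤ T1 := fun k hk => ⟨k, hk, 0, by simp⟩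
  refine ⟨T1, ?_, (a4.mono b1).step ht hn hg Nat.one_pos ⟨1, K1.one_mem, 1, by simp⟩, ?_⟩
  · rintro _ ⟨k, hk, z, rfl⟩
    exact H.mul_mem (hK (a2 hk)) (H.zpow_mem ht z)
  · rintro _ ⟨k, hk, z, rfl⟩ r hr0 hx
    have c1 := pow_form hn (a2 hk) (H.zpow_mem ht z) r
    rw [hx, one_mul] at c1
    have c2 : t ^ (z * r) ∈ K := by
      rw [zpow_mul, zpow_natCast]; exact (K.inv_mem_iff).1 c1
    have c3 : z = 0 := by
      by_contra hz
      refine hr ⟨(z * r).natAbs, Int.natAbs_pos.2 (mul_ne_zero hz (by exact_mod_cast hr0.ne')), ?_⟩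
      rcases Int.natAbs_eq (z * r) with e1 | e1
      · rw [← zpow_natCast, ← e1]; exact c2
      · rw [e1, zpow_neg, zpow_natCast] at c2
        exact (K.inv_mem_iff).1 c2
    subst c3
    rw [zpow_zero, mul_one] at hx ⊢
    exact h2 k (a1 hk) r hr0 hx

theorem tf_exists {n : ℕ} {H : Subgroup G} (h : Ser n H) : ∃ T, T ≤ H ∧ Cof T H ∧ TF T := by
  induction h with
  | bot n => exact ⟨⊥, le_rfl, cof_bot _, fun x hx _ _ _ => Subgroup.mem_bot.1 hx⟩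
  | fin t _ hK ht hn hg hr ih =>
    obtain ⟨T, h1, h2, h3⟩ := ih
    exact tf_fin h1 h2 h3 hK ht hn hg hr
  | @inf n K H t hS hK ht hn hg ih =>
    obtain ⟨T, h1, h2, h3⟩ := ih
    by_cases hr : ∃ r : ℕ, 0 < r ∧ t ^ r ∈ K
    · exact tf_fin h1 h2 h3 hK ht hn hg hr
    · exact tf_inf hS h2 h3 hK ht hn hg hr

theorem ab_exists [Group.IsSolvable G] (T : Subgroup G) (hT : T ≠ ⊥) :
    ∃ B, B ≤ T ∧ B ≠ ⊥ ∧ (∀ x ∈ B, ∀ y ∈ B, x * y = y * x) ∧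
      ∀ g ∈ T, ∀ x ∈ B, g * x * g⁻¹ ∈ B := by
  classical
  have hs : ∃ k, derivedSeries T k = ⊥ := Group.IsSolvable.solvable
  have h0 : Nat.find hs ≠ 0 := by
    intro e
    have h1 := Nat.find_spec hs
    rw [e, derivedSeries_zero] at h1
    apply hT
    rw [eq_bot_iff]
    intro x hx
    have h2 : (⟨x, hx⟩ : T) ∈ (⊥ : Subgroup T) := h1 ▸ Subgroup.mem_top _
    exact Subgroup.mem_bot.2 (congrArg Subtype.val (Subgroup.mem_bot.1 h2))
  obtain ⟨k, hk⟩ := Nat.exists_eq_succ_of_ne_zero h0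
  have h1 : derivedSeries T (k + 1) = ⊥ := by
    have := Nat.find_spec hs
    rwa [hk] at this
  have h2 : derivedSeries T k ≠ ⊥ := Nat.find_min hs (by omega)
  refine ⟨(derivedSeries T k).map T.subtype, Subgroup.map_subtype_le _, ?_, ?_, ?_⟩
  · intro e
    exact h2 ((Subgroup.map_eq_bot_iff_of_injective _ T.subtype_injective).1 e)
  · rintro _ ⟨x, hx, rfl⟩ _ ⟨y, hy, rfl⟩
    have h3 := Subgroup.commutator_mem_commutator hx hy
    rw [← derivedSeries_succ, h1, Subgroup.mem_bot, commutatorElement_eq_one_iff_mul_comm] at h3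
    rw [← map_mul, ← map_mul, h3]
  · rintro g hg _ ⟨x, hx, rfl⟩
    exact ⟨⟨g, hg⟩ * x * (⟨g, hg⟩)⁻¹, (derivedSeries_normal T k).conj_mem x hx _, rfl⟩

theorem lattice_of (B : Subgroup G) (hfg : B.FG) (hc : ∀ x ∈ B, ∀ y ∈ B, x * y = y * x)
    (ht : TF B) : ∃ (m : ℕ) (j : Zm m → G), Function.Injective j ∧
      (∀ v w, j (v + w) = j v * j w) ∧ ∀ x, x ∈ B ↔ ∃ v, x = j v := by
  let _ : CommGroup B := { (inferInstance : Group B) with
    mul_comm := fun x y => Subtype.ext (hc x x.2 y y.2) }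
  have h1 : Group.FG B := (Group.fg_iff_subgroup_fg B).2 hfg
  have h2 : Module.Finite ℤ (Additive B) := Module.Finite.iff_addGroup_fg.2 inferInstance
  have h3 : IsMulTorsionFree B := ⟨fun r hr x y e => by
    have e1 : x ^ r = y ^ r := e
    have e2 : (x * y⁻¹) ^ r = 1 := by rw [mul_pow, inv_pow, e1, mul_inv_cancel]
    have e3 := ht _ (x * y⁻¹).2 r (Nat.pos_of_ne_zero hr) (by
      have := congrArg Subtype.val e2
      simpa using this)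
    exact mul_inv_eq_one.1 (Subtype.ext e3)⟩
  have h4 : Module.Free ℤ (Additive B) := inferInstance
  let b := Module.finBasis ℤ (Additive B)
  refine ⟨_, fun v => ((b.equivFun.symm v).toMul : B), ?_, ?_, ?_⟩
  · intro v w e
    exact b.equivFun.symm.injective (Additive.toMul.injective (Subtype.ext e))
  · intro v w
    simp only [map_add, toMul_add, Subgroup.coe_mul]
  · intro x
    constructor
    · intro hx
      exact ⟨b.equivFun (Additive.ofMul (⟨x, hx⟩ : B)), by simp⟩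
    · rintro ⟨v, rfl⟩
      exact Subtype.property _

end Plinx

end Pool.Agent.Lib.MP_721660_al.Ht
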