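import Pool.Agent.Lib.MP_721660_al.Ht.Defs

set_option autoImplicit false

namespace Pool.Agent.Lib.MP_721660_al.Ht

variable {D M : Type} [Ring D] [AddCommGroup M] [Module D M] {τ : M ≃ₗ[ℤ] M}

theorem rad_le (ρ : ℕ) (τ : M ≃ₗ[ℤ] M) (W : Submodule D M) : rad ρ τ W ≤ W := inf_le_left

theorem rad_le_of {ρ : ℕ} {U W : Submodule D M} (hs : Stb τ U) (hU : U ≤ W) (hc : Cod ρ U W) :
    rad ρ τ W ≤ U := le_trans inf_le_right (sInf_le ⟨hs, hU, hc⟩)

theorem mem_rad {ρ : ℕ} {W : Submodule D M} {x : M} :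
    x ∈ rad ρ τ W ↔ x ∈ W ∧ ∀ U : Submodule D M, Stb τ U → U ≤ W → Cod ρ U W → x ∈ U := by
  simp only [rad, Submodule.mem_inf, Submodule.mem_sInf, Set.mem_setOf_eq, and_imp]

theorem stb_bot : Stb τ (⊥ : Submodule D M) := fun x => by
  simp only [Submodule.mem_bot, EmbeddingLike.map_eq_zero_iff]

theorem stb_top : Stb τ (⊤ : Submodule D M) := fun _ => by simp

theorem Stb.inf {U W : Submodule D M} (hU : Stb τ U) (hW : Stb τ W) : Stb τ (U ⊓ W) :=
  fun x => by simp only [Submodule.mem_inf, hU x, hW x]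

theorem Stb.symm_mem {U : Submodule D M} (hU : Stb τ U) {x : M} (hx : x ∈ U) :
    τ.symm x ∈ U := by
  rw [← hU (τ.symm x)]
  simpa using hx

theorem stb_of {U : Submodule D M} (h1 : ∀ x ∈ U, τ x ∈ U) (h2 : ∀ x ∈ U, τ.symm x ∈ U) :
    Stb τ U := fun x => ⟨fun h => by simpa using h2 _ h, h1 x⟩

theorem Stb.sup {U W : Submodule D M} (hU : Stb τ U) (hW : Stb τ W) : Stb τ (U ⊔ W) := by
  refine stb_of ?_ ?_
  · intro x hx
    obtain ⟨a, ha, b, hb, rfl⟩ := Submodule.mem_sup.1 hx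
    rw [map_add]
    exact Submodule.add_mem_sup ((hU a).2 ha) ((hW b).2 hb)
  · intro x hx
    obtain ⟨a, ha, b, hb, rfl⟩ := Submodule.mem_sup.1 hx
    rw [map_add]
    exact Submodule.add_mem_sup (hU.symm_mem ha) (hW.symm_mem hb)

theorem Stb.pow {U : Submodule D M} (hU : Stb τ U) (n : ℕ) : Stb (τ ^ n) U := by
  induction n with
  | zero => intro x; simp
  | succ n ih =>
    intro x
    rw [pow_succ, LinearEquiv.mul_apply, ih, hU]

theorem Stb.rad {W : Submodule D M} (hW : Stb τ W) (ρ : ℕ) : Stb τ (rad ρ τ W) := fun x => by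
  rw [mem_rad, mem_rad, hW x]
  exact and_congr_right fun _ => forall_congr' fun U => forall_congr' fun hU => by rw [hU x]

theorem Stb.iter {W : Submodule D M} (hW : Stb τ W) (ρ l : ℕ) :
    Stb τ ((Ht.rad ρ τ)^[l] W) := by
  induction l with
  | zero => exact hW
  | succ l ih => rw [Function.iterate_succ_apply']; exact ih.rad ρ

theorem iter_le (ρ l : ℕ) (W : Submodule D M) : (rad ρ τ)^[l] W ≤ W := by
  induction l with
  | zero => exact le_rfl
  | succ l ih => rw [Function.iterate_succ_apply']; exact (rad_le _ _ _).trans ih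

theorem iter_bot_of_le {ρ l l' : ℕ} {W : Submodule D M} (hl : l ≤ l')
    (h : (rad ρ τ)^[l] W = ⊥) : (rad ρ τ)^[l'] W = ⊥ := by
  obtain ⟨k, rfl⟩ := Nat.exists_eq_add_of_le hl
  rw [add_comm, Function.iterate_add_apply, h]
  exact le_bot_iff.1 (iter_le _ _ _)

theorem rad_eq_bot {ρ : ℕ} {W : Submodule D M} (h : Cod ρ ⊥ W) : rad ρ τ W = ⊥ :=
  le_bot_iff.1 (rad_le_of stb_bot bot_le h)

theorem Cod.mono {ρ ρ' : ℕ} {U W : Submodule D M} (h : Cod ρ U W) (hρ : ρ ≤ ρ') :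
    Cod ρ' U W := by
  obtain ⟨s, hs, hW⟩ := h
  exact ⟨s, hs.trans hρ, hW⟩

end Pool.Agent.Lib.MP_721660_al.Ht
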