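import Pool.Agent.Lib.MP_721660_al.Ht.Defs

set_option autoImplicit false

namespace Pool.Agent.Lib.MP_721660_al.Ht

variable {G : Type} [Group G]

namespace Ser1x

theorem zpow_cong {K H : Subgroup G} (hn : ∀ h ∈ H, ∀ k ∈ K, h * k * h⁻¹ ∈ K) {a b : G}
    (ha : a ∈ H) (hab : a * b⁻¹ ∈ K) (m : ℤ) : a ^ m * (b ^ m)⁻¹ ∈ K := by
  induction m using Int.induction_on with
  | zero => simpa using K.one_mem
  | succ m ih =>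
    have h := K.mul_mem (hn _ (H.zpow_mem ha m) _ hab) ih
    have e : a ^ ((m : ℤ) + 1) * (b ^ ((m : ℤ) + 1))⁻¹ =
        a ^ (m : ℤ) * (a * b⁻¹) * (a ^ (m : ℤ))⁻¹ * (a ^ (m : ℤ) * (b ^ (m : ℤ))⁻¹) := by
      rw [zpow_add_one, zpow_add_one]; group
    rw [e]; exact h
  | pred m ih =>
    have h0 := hn _ (H.inv_mem ha) _ (K.inv_mem hab)
    have h := K.mul_mem (hn _ (H.zpow_mem ha (-m)) _ h0) ih
    have e : a ^ (-(m : ℤ) - 1) * (b ^ (-(m : ℤ) - 1))⁻¹ =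
        a ^ (-(m : ℤ)) * (a⁻¹ * (a * b⁻¹)⁻¹ * a⁻¹⁻¹) * (a ^ (-(m : ℤ)))⁻¹ *
          (a ^ (-(m : ℤ)) * (b ^ (-(m : ℤ)))⁻¹) := by
      rw [zpow_sub_one, zpow_sub_one]; group
    rw [e]; exact h

/-- the intersection with `L` is again a cyclic extension -/
theorem step {K H : Subgroup G} {t : G} (hKH : K ≤ H) (ht : t ∈ H)
    (hn : ∀ h ∈ H, ∀ k ∈ K, h * k * h⁻¹ ∈ K) (hg : ∀ h ∈ H, ∃ k ∈ K, ∃ z : ℤ, h = k * t ^ z)
    (L : Subgroup G) : ∃ (d : ℤ) (t' : G), t' ∈ H ⊓ L ∧ t' * (t ^ d)⁻¹ ∈ K ∧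
      ∀ h ∈ H ⊓ L, ∃ k ∈ K ⊓ L, ∃ z : ℤ, h = k * t' ^ z := by
  let Z : AddSubgroup ℤ :=
    { carrier := {z | ∃ k ∈ K, k * t ^ z ∈ L}
      zero_mem' := ⟨1, K.one_mem, by simpa using L.one_mem⟩
      add_mem' := by
        rintro z z' ⟨k, hk, h1⟩ ⟨k', hk', h2⟩
        refine ⟨k * (t ^ z * k' * (t ^ z)⁻¹), K.mul_mem hk (hn _ (H.zpow_mem ht z) _ hk'), ?_⟩
        have e : k * (t ^ z * k' * (t ^ z)⁻¹) * t ^ (z + z') = k * t ^ z * (k' * t ^ z') := by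
          group
        rw [e]; exact L.mul_mem h1 h2
      neg_mem' := by
        rintro z ⟨k, hk, h1⟩
        refine ⟨t ^ (-z) * k⁻¹ * (t ^ (-z))⁻¹, hn _ (H.zpow_mem ht _) _ (K.inv_mem hk), ?_⟩
        have e : t ^ (-z) * k⁻¹ * (t ^ (-z))⁻¹ * t ^ (-z) = (k * t ^ z)⁻¹ := by group
        rw [e]; exact L.inv_mem h1 }
  obtain ⟨d, hd⟩ := Int.subgroup_cyclic Z
  obtain ⟨k0, hk0, h0⟩ : d ∈ Z := by
    rw [hd]; exact AddSubgroup.subset_closure rfl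
  have hH : k0 * t ^ d ∈ H := H.mul_mem (hKH hk0) (H.zpow_mem ht d)
  have hK : k0 * t ^ d * (t ^ d)⁻¹ ∈ K := by simpa using hk0
  refine ⟨d, k0 * t ^ d, ⟨hH, h0⟩, hK, fun h hh => ?_⟩
  obtain ⟨k, hk, z, rfl⟩ := hg h hh.1
  have hz : z ∈ Z := ⟨k, hk, hh.2⟩
  rw [hd, AddSubgroup.mem_closure_singleton] at hz
  obtain ⟨m, rfl⟩ := hz
  refine ⟨k * t ^ (m • d) * ((k0 * t ^ d) ^ m)⁻¹, ⟨?_, L.mul_mem hh.2
    (L.inv_mem (L.zpow_mem h0 m))⟩, m, by simp⟩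
  have h1 := K.mul_mem hk (K.inv_mem (zpow_cong hn hH hK m))
  have e : k * t ^ (m • d) * ((k0 * t ^ d) ^ m)⁻¹ =
      k * ((k0 * t ^ d) ^ m * ((t ^ d) ^ m)⁻¹)⁻¹ := by
    rw [smul_eq_mul, mul_comm m d, zpow_mul, mul_inv_rev, inv_inv, mul_assoc]
  rw [e]; exact h1

/-- finite index passes up -/
theorem idx {K H L : Subgroup G} {t t' : G} {d : ℤ} (hKH : K ≤ H) (ht : t ∈ H)
    (hn : ∀ h ∈ H, ∀ k ∈ K, h * k * h⁻¹ ∈ K) (hg : ∀ h ∈ H, ∃ k ∈ K, ∃ z : ℤ, h = k * t ^ z)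
    (h1 : t' ∈ H ⊓ L) (h2 : t' * (t ^ d)⁻¹ ∈ K) (hd : d ≠ 0) (h0 : L.relIndex H = 0) :
    L.relIndex K = 0 := by
  by_contra hK
  haveI : Finite (K ⧸ L.subgroupOf K) := Subgroup.index_ne_zero_iff_finite.1 hK
  refine Subgroup.index_ne_zero_iff_finite.2 (Finite.of_surjective
    (fun p : Set.Ico (0 : ℤ) |d| × (K ⧸ L.subgroupOf K) =>
      ((⟨t ^ (p.1 : ℤ) * (p.2.out : K), H.mul_mem (H.zpow_mem ht _) (hKH p.2.out.2)⟩ : H) :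
        H ⧸ L.subgroupOf H)) ?_) h0
  intro c
  obtain ⟨⟨h, hh⟩, rfl⟩ := QuotientGroup.mk_surjective c
  obtain ⟨k, hk, z, rfl⟩ := hg h hh
  have ez : t ^ z = t ^ (z % d) * (t ^ d) ^ (z / d) := by
    rw [← zpow_mul, ← zpow_add, Int.emod_def, sub_add_cancel]
  have hk' : (t ^ (z % d))⁻¹ * (k * t ^ z) * (t' ^ (z / d))⁻¹ ∈ K := by
    have k1 := K.mul_mem (hn _ (H.inv_mem (H.zpow_mem ht (z % d))) _ hk)
      (K.inv_mem (zpow_cong hn h1.1 h2 (z / d)))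
    have e : (t ^ (z % d))⁻¹ * (k * t ^ z) * (t' ^ (z / d))⁻¹ =
        (t ^ (z % d))⁻¹ * k * (t ^ (z % d))⁻¹⁻¹ * (t' ^ (z / d) * ((t ^ d) ^ (z / d))⁻¹)⁻¹ := by
      rw [mul_inv_rev, inv_inv, inv_inv]
      conv_lhs => rw [ez]
      simp only [mul_assoc]
    rw [e]; exact k1
  obtain ⟨l, hl⟩ := QuotientGroup.mk_out_eq_mul (L.subgroupOf K) ⟨_, hk'⟩
  refine ⟨(⟨z % d, Int.emod_nonneg z hd, Int.emod_lt_abs z hd⟩, ((⟨_, hk'⟩ : K) : K ⧸ _)), ?_⟩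
  rw [QuotientGroup.eq, Subgroup.mem_subgroupOf]
  have hl' : ((l : K) : G) ∈ L := l.2
  have k2 := L.mul_mem (L.inv_mem hl') (L.zpow_mem h1.2 (z / d))
  simp only [hl, Subgroup.coe_mul, Subgroup.coe_inv]
  convert k2 using 1
  generalize t ^ (z % d) = a
  generalize t' ^ (z / d) = b
  generalize t ^ z = c
  group

end Ser1x

theorem Ser.mono {n n' : ℕ} {H : Subgroup G} (h : Ser n H) (hn : n ≤ n') : Ser n' H := by
  induction h generalizing n' with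
  | bot n => exact Ser.bot _
  | fin t _ h1 h2 h3 h4 h5 ih => exact Ser.fin t (ih hn) h1 h2 h3 h4 h5
  | inf t _ h1 h2 h3 h4 ih =>
    obtain ⟨k, rfl⟩ : ∃ k, n' = k + 1 := ⟨n' - 1, by omega⟩
    exact Ser.inf t (ih (by omega)) h1 h2 h3 h4

open Ser1x in
theorem Ser.sub {n : ℕ} {H : Subgroup G} (h : Ser n H) (L : Subgroup G) :
    Ser n (H ⊓ L) ∧ (L.relIndex H = 0 → ∃ n' < n, Ser n' (H ⊓ L)) := by
  induction h with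
  | bot n =>
    rw [bot_inf_eq]
    exact ⟨Ser.bot _, fun h => by simp at h⟩
  | @fin n K H t _ h1 h2 h3 h4 h5 ih =>
    obtain ⟨d, t', a1, a2, a3⟩ := step h1 h2 h3 h4 L
    obtain ⟨r, hr, hrK⟩ := h5
    have hn : ∀ h ∈ H ⊓ L, ∀ k ∈ K ⊓ L, h * k * h⁻¹ ∈ K ⊓ L := fun h hh k hk =>
      ⟨h3 h hh.1 k hk.1, L.mul_mem (L.mul_mem hh.2 hk.2) (L.inv_mem hh.2)⟩
    have hp : t' ^ r ∈ K ⊓ L := by
      refine ⟨?_, L.pow_mem a1.2 r⟩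
      have k1 := K.mul_mem (zpow_cong h3 a1.1 a2 r) (K.zpow_mem hrK d)
      have e : t' ^ (r : ℤ) * ((t ^ d) ^ (r : ℤ))⁻¹ * (t ^ r) ^ d = t' ^ r := by
        rw [← zpow_natCast t, ← zpow_mul, ← zpow_mul, mul_comm d, inv_mul_cancel_right,
          zpow_natCast]
      rw [e] at k1; exact k1
    have key : ∀ m, Ser m (K ⊓ L) → Ser m (H ⊓ L) := fun m hm =>
      Ser.fin t' hm (inf_le_inf_right L h1) a1 hn a3 ⟨r, hr, hp⟩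
    refine ⟨key n ih.1, fun h0 => ?_⟩
    obtain ⟨n', b1, b2⟩ := ih.2 (idx (t' := 1) (d := r) h1 h2 h3 h4 (H ⊓ L).one_mem
      (by simpa using hrK) (by exact_mod_cast hr.ne') h0)
    exact ⟨n', b1, key n' b2⟩
  | @inf n K H t _ h1 h2 h3 h4 ih =>
    obtain ⟨d, t', a1, a2, a3⟩ := step h1 h2 h3 h4 L
    have hn : ∀ h ∈ H ⊓ L, ∀ k ∈ K ⊓ L, h * k * h⁻¹ ∈ K ⊓ L := fun h hh k hk =>
      ⟨h3 h hh.1 k hk.1, L.mul_mem (L.mul_mem hh.2 hk.2) (L.inv_mem hh.2)⟩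
    have key : ∀ m, Ser m (K ⊓ L) → Ser (m + 1) (H ⊓ L) := fun m hm =>
      Ser.inf t' hm (inf_le_inf_right L h1) a1 hn a3
    refine ⟨key n ih.1, fun h0 => ?_⟩
    by_cases hd : d = 0
    · refine ⟨n, Nat.lt_succ_self n, ?_⟩
      have hK : t' ∈ K ⊓ L := ⟨by simpa [hd] using a2, a1.2⟩
      have e : H ⊓ L = K ⊓ L := le_antisymm (fun h hh => by
        obtain ⟨k, hk, z, rfl⟩ := a3 h hh
        exact (K ⊓ L).mul_mem hk ((K ⊓ L).zpow_mem hK z)) (inf_le_inf_right L h1)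
      rw [e]; exact ih.1
    · obtain ⟨n', b1, b2⟩ := ih.2 (idx h1 h2 h3 h4 a1 a2 hd h0)
      exact ⟨n' + 1, by omega, key n' b2⟩

end Pool.Agent.Lib.MP_721660_al.Ht
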