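import Pool.Agent.Lib.MP_721660_al.Ht.Ser1

set_option autoImplicit false

namespace Pool.Agent.Lib.MP_721660_al.Ht

variable {G G' : Type} [Group G] [Group G']

namespace Ser2x

theorem conj_map {K H : Subgroup G} (f : G →* G')
    (hn : ∀ h ∈ H, ∀ k ∈ K, h * k * h⁻¹ ∈ K) :
    ∀ h ∈ H.map f, ∀ k ∈ K.map f, h * k * h⁻¹ ∈ K.map f := by
  rintro _ ⟨h, hh, rfl⟩ _ ⟨k, hk, rfl⟩
  exact ⟨h * k * h⁻¹, hn h hh k hk, by simp⟩

theorem gen_map {K H : Subgroup G} (f : G →* G') {t : G}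
    (hg : ∀ h ∈ H, ∃ k ∈ K, ∃ z : ℤ, h = k * t ^ z) :
    ∀ h ∈ H.map f, ∃ k ∈ K.map f, ∃ z : ℤ, h = k * f t ^ z := by
  rintro _ ⟨h, hh, rfl⟩
  obtain ⟨k, hk, z, rfl⟩ := hg h hh
  exact ⟨f k, ⟨k, hk, rfl⟩, z, by simp⟩

theorem fin_inf {K H N : Subgroup G} {t : G}
    (hg : ∀ h ∈ H, ∃ k ∈ K, ∃ z : ℤ, h = k * t ^ z) {r : ℕ} (hr : 0 < r) (ht : t ^ r ∈ K)
    (hf : ((K ⊓ N : Subgroup G) : Set G).Finite) : ((H ⊓ N : Subgroup G) : Set G).Finite := by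
  have h1 : ∀ i : ℤ, {h : G | h ∈ N ∧ h * (t ^ i)⁻¹ ∈ K}.Finite := by
    intro i
    rcases Set.eq_empty_or_nonempty {h : G | h ∈ N ∧ h * (t ^ i)⁻¹ ∈ K} with he | ⟨h0, h0N, h0K⟩
    · rw [he]; exact Set.finite_empty
    · refine (hf.image fun x => x * h0).subset ?_
      rintro h ⟨hN, hK⟩
      refine ⟨h * h0⁻¹, ⟨?_, N.mul_mem hN (N.inv_mem h0N)⟩, by simp⟩
      have := K.mul_mem hK (K.inv_mem h0K)
      simpa [mul_assoc] using this
  refine ((Set.finite_Ico (0 : ℤ) r).biUnion fun i _ => h1 i).subset ?_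
  rintro h ⟨hH, hN⟩
  obtain ⟨k, hk, z, rfl⟩ := hg h hH
  have hr' : (0 : ℤ) < r := by exact_mod_cast hr
  refine Set.mem_biUnion (x := z % r) ⟨Int.emod_nonneg _ hr'.ne', Int.emod_lt_of_pos _ hr'⟩
    ⟨hN, ?_⟩
  have e : t ^ z * (t ^ (z % r))⁻¹ = (t ^ r) ^ (z / r) := by
    rw [← zpow_sub, ← zpow_natCast, ← zpow_mul, Int.emod_def]
    congr 1
    ring
  rw [mul_assoc, e]
  exact K.mul_mem hk (K.zpow_mem ht _)

end Ser2x

theorem Ser.map {n : ℕ} {H : Subgroup G} (h : Ser n H) (f : G →* G') :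
    Ser n (H.map f) ∧
      (((H ⊓ f.ker : Subgroup G) : Set G).Infinite → ∃ n' < n, Ser n' (H.map f)) := by
  induction h with
  | bot n =>
    refine ⟨by rw [Subgroup.map_bot]; exact Ser.bot n, fun hi => absurd ?_ hi⟩
    rw [bot_inf_eq]
    simp
  | @fin n K H t _ hKH ht hn hg hr ih =>
    obtain ⟨r, hr0, hr⟩ := hr
    have step : ∀ m, Ser m (K.map f) → Ser m (H.map f) := fun m hm =>
      Ser.fin (f t) hm (Subgroup.map_mono hKH) ⟨t, ht, rfl⟩ (Ser2x.conj_map f hn)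
        (Ser2x.gen_map f hg) ⟨r, hr0, t ^ r, hr, by simp⟩
    refine ⟨step n ih.1, fun hi => ?_⟩
    obtain ⟨n', hn', hs⟩ := ih.2 fun hf => hi (Ser2x.fin_inf hg hr0 hr hf)
    exact ⟨n', hn', step n' hs⟩
  | @inf n K H t _ hKH ht hn hg ih =>
    have step : ∀ m, Ser m (K.map f) → Ser (m + 1) (H.map f) := fun m hm =>
      Ser.inf (f t) hm (Subgroup.map_mono hKH) ⟨t, ht, rfl⟩ (Ser2x.conj_map f hn)
        (Ser2x.gen_map f hg)
    refine ⟨step n ih.1, fun hi => ?_⟩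
    by_cases hr : ∃ r : ℕ, 0 < r ∧ f t ^ r ∈ K.map f
    · exact ⟨n, n.lt_succ_self, Ser.fin (f t) ih.1 (Subgroup.map_mono hKH) ⟨t, ht, rfl⟩
        (Ser2x.conj_map f hn) (Ser2x.gen_map f hg) hr⟩
    · obtain ⟨n', hn', hs⟩ := ih.2 (hi.mono (by
        rintro h ⟨hH, hN⟩
        obtain ⟨k, hk, z, rfl⟩ := hg h hH
        have h1 : f k * f t ^ z = 1 := by simpa using (MonoidHom.mem_ker.1 hN)
        have h2 : f t ^ z ∈ K.map f := by
          rw [eq_inv_of_mul_eq_one_right h1]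
          exact (K.map f).inv_mem ⟨k, hk, rfl⟩
        have hz : z = 0 := by
          by_contra hz
          refine hr ⟨z.natAbs, Int.natAbs_pos.2 hz, ?_⟩
          rw [← zpow_natCast]
          rcases Int.natAbs_eq z with e | e
          · rwa [← e]
          · rw [e, zpow_neg] at h2
            exact (K.map f).inv_mem_iff.1 h2
        subst hz
        exact ⟨by simpa using hk, hN⟩))
      exact ⟨n' + 1, by omega, step n' hs⟩

theorem Ser.comap {n : ℕ} {H : Subgroup G} (h : Ser n H) (f : G' →* G)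
    (hf : Function.Injective f) (hH : H ≤ f.range) : Ser n (H.comap f) := by
  have cj : ∀ {K H : Subgroup G}, (∀ h ∈ H, ∀ k ∈ K, h * k * h⁻¹ ∈ K) →
      ∀ h ∈ H.comap f, ∀ k ∈ K.comap f, h * k * h⁻¹ ∈ K.comap f := by
    intro K H hn h hh k hk
    rw [Subgroup.mem_comap, map_mul, map_mul, map_inv]
    exact hn _ hh _ hk
  have gn : ∀ {K H : Subgroup G} {t : G'}, K ≤ f.range →
      (∀ h ∈ H, ∃ k ∈ K, ∃ z : ℤ, h = k * f t ^ z) →
      ∀ h ∈ H.comap f, ∃ k ∈ K.comap f, ∃ z : ℤ, h = k * t ^ z := by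
    intro K H t hK hg h hh
    obtain ⟨k, hk, z, e⟩ := hg _ hh
    obtain ⟨k', rfl⟩ := hK hk
    exact ⟨k', hk, z, hf (by simpa using e)⟩
  induction h with
  | bot n =>
    rw [MonoidHom.comap_bot, (MonoidHom.ker_eq_bot_iff f).2 hf]
    exact Ser.bot n
  | @fin n K H t _ hKH ht hn hg hr ih =>
    obtain ⟨t', rfl⟩ := hH ht
    obtain ⟨r, hr0, hr⟩ := hr
    exact Ser.fin t' (ih (hKH.trans hH)) (Subgroup.comap_mono hKH) ht (cj hn)
      (gn (hKH.trans hH) hg) ⟨r, hr0, by rwa [Subgroup.mem_comap, map_pow]⟩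
  | @inf n K H t _ hKH ht hn hg ih =>
    obtain ⟨t', rfl⟩ := hH ht
    exact Ser.inf t' (ih (hKH.trans hH)) (Subgroup.comap_mono hKH) ht (cj hn)
      (gn (hKH.trans hH) hg)

end Pool.Agent.Lib.MP_721660_al.Ht
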