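import Pool.Agent.Lib.MP_721660_al.Ht.Ev

set_option autoImplicit false

namespace Pool.Agent.Lib.MP_721660_al.Ht

variable {K L B V : Type} [DivisionRing K] [DivisionRing L] [AddCommGroup B] [AddCommGroup V]
  [Module L V] [Module K V] {j : K →+* L} {u : B → L} {σ : L ≃+* L} {φ : B ≃ₗ[ℤ] B}
  {τ : V ≃ₗ[ℤ] V}

namespace Supx

theorem ev_zero : ev j u (0 : B →₀ K) = 0 := Finsupp.sum_zero_index

theorem ev_add (c c' : B →₀ K) : ev j u (c + c') = ev j u c + ev j u c' :=
  Finsupp.sum_add_index' (fun b => by rw [map_zero, zero_mul])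
    (fun b k k' => by rw [map_add, add_mul])

theorem ev_sub (c c' : B →₀ K) : ev j u (c - c') = ev j u c - ev j u c' :=
  Finsupp.sum_sub_index (fun b k k' => by rw [map_sub, sub_mul])

theorem ev_smul (k : K) (c : B →₀ K) : ev j u (k • c) = j k * ev j u c := by
  unfold ev
  rw [Finsupp.sum_smul_index' (fun b => by rw [map_zero, zero_mul]), Finsupp.mul_sum]
  refine Finsupp.sum_congr fun b _ => ?_
  rw [smul_eq_mul, map_mul, mul_assoc]

theorem ev_single (a : B) : ev j u (Finsupp.single a (1 : K)) = u a := by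
  unfold ev
  rw [Finsupp.sum_single_index (by rw [map_zero, zero_mul]), map_one, one_mul]

/-- `z` is the value of a formal sum supported in `Q`. -/
def Pr (j : K →+* L) (u : B → L) (Q : Set B) (z : L) : Prop :=
  ∃ c : B →₀ K, (∀ b ∈ c.support, b ∈ Q) ∧ z = ev j u c

theorem pr_zero (Q : Set B) : Pr j u Q 0 := ⟨0, fun b hb => by simp at hb, ev_zero.symm⟩

theorem pr_add {Q : Set B} {z z' : L} (h : Pr j u Q z) (h' : Pr j u Q z') :
    Pr j u Q (z + z') := by
  classical
  obtain ⟨c, hc, rfl⟩ := h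
  obtain ⟨c', hc', rfl⟩ := h'
  refine ⟨c + c', fun b hb => ?_, (ev_add c c').symm⟩
  rcases Finset.mem_union.1 (Finsupp.support_add hb) with h1 | h1
  · exact hc b h1
  · exact hc' b h1

theorem pr_smul {Q : Set B} {z : L} (k : K) (h : Pr j u Q z) : Pr j u Q (j k * z) := by
  obtain ⟨c, hc, rfl⟩ := h
  exact ⟨k • c, fun b hb => hc b (Finsupp.support_smul hb), (ev_smul k c).symm⟩

theorem pr_u (h : CR j u) {Q Q' : Set B} {z : L} (a : B) (hQ : ∀ b ∈ Q, a + b ∈ Q')
    (hz : Pr j u Q z) : Pr j u Q' (u a * z) := by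
  obtain ⟨c, hc, rfl⟩ := hz
  obtain ⟨c', h1, h2⟩ := ev_mul h (Finsupp.single a (1 : K)) c
  refine ⟨c', fun b hb => ?_, by rw [h1, ev_single]⟩
  obtain ⟨a', ha', b', hb', rfl⟩ := h2 b hb
  rw [Finset.mem_singleton.1 (Finsupp.support_single_subset ha')]
  exact hQ b' (hc b' hb')

theorem pr_disj (h : FC j u) {Q : Set B} {z : L} (h1 : Pr j u Q z) (h2 : Pr j u Qᶜ z) :
    z = 0 := by
  obtain ⟨c, hc, rfl⟩ := h1
  obtain ⟨c', hc', he⟩ := h2
  have h3 : c - c' = 0 := h.ind _ (by rw [ev_sub, he, sub_self])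
  have h4 : c = c' := sub_eq_zero.1 h3
  have h5 : c = 0 := by
    rw [← Finsupp.support_eq_empty, Finset.eq_empty_iff_forall_notMem]
    intro b hb
    exact hc' b (h4 ▸ hb) (hc b hb)
  rw [h5, ev_zero]

theorem pr_span (hc : Cmp j V) (lam : V →ₗ[L] L) (w : L) (Q : Set B) (s : Set V)
    (hs : ∀ x ∈ s, Pr j u Q (lam x * w)) :
    ∀ x ∈ Submodule.span K s, Pr j u Q (lam x * w) := by
  intro x hx
  induction hx using Submodule.span_induction with
  | mem x hx => exact hs x hx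
  | zero => rw [map_zero, zero_mul]; exact pr_zero Q
  | add x y _ _ hx hy => rw [map_add, add_mul]; exact pr_add hx hy
  | smul k x _ hx =>
    rw [hc k x, map_smul, smul_eq_mul, mul_assoc]
    exact pr_smul k hx

end Supx

open Supx in
theorem sup_lemma (h : FC j u) (hc : Cmp j V) (X : Submodule K V) (hX : X.FG) :
    ∃ Ψ : Finset B, ∀ v ∈ X, v ∈ usp K u {b | b ∉ Ψ} (X : Set V) → v = 0 := by
  classical
  obtain ⟨s, rfl⟩ := hX
  let e := Module.Basis.ofVectorSpace L V
  obtain ⟨t, ht, hI⟩ := common_right h (s ×ˢ s.biUnion fun x => (e.repr x).support)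
    (fun p => e.repr p.1 p.2)
  choose! f hf using hI
  set Φ : Finset B :=
    (s ×ˢ s.biUnion fun x => (e.repr x).support).biUnion (fun p => (f p).support) with hΦ
  have hin : ∀ i, ∀ x ∈ Submodule.span K (s : Set V),
      Pr j u (Φ : Set B) (e.coord i x * ev j u t) := by
    intro i
    refine pr_span hc (e.coord i) _ _ _ fun x hx => ?_
    by_cases hi : i ∈ (e.repr x).support
    · have hp : (x, i) ∈ s ×ˢ s.biUnion fun x => (e.repr x).support :=
        Finset.mem_product.2 ⟨hx, Finset.mem_biUnion.2 ⟨x, hx, hi⟩⟩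
      refine ⟨f (x, i), fun b hb => ?_, hf (x, i) hp⟩
      exact Finset.mem_coe.2 (Finset.mem_biUnion.2 ⟨(x, i), hp, hb⟩)
    · have h0 : e.coord i x = 0 := Finsupp.notMem_support_iff.1 hi
      rw [h0, zero_mul]
      exact pr_zero _
  refine ⟨(Φ ×ˢ Φ).image (fun p => p.1 - p.2), fun v hv hv' => ?_⟩
  have hout : ∀ i, Pr j u (Φ : Set B)ᶜ (e.coord i v * ev j u t) := by
    intro i
    refine pr_span hc (e.coord i) _ _ _ ?_ v hv'
    rintro _ ⟨b, hb, x, hx, rfl⟩
    rw [map_smul, smul_eq_mul, mul_assoc]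
    refine pr_u h.toCR b (fun a ha hab => hb ?_) (hin i x hx)
    exact Finset.mem_image.2 ⟨(b + a, a), Finset.mem_product.2 ⟨hab, ha⟩, add_sub_cancel_right b a⟩
  have ht0 : ev j u t ≠ 0 := fun h0 => ht (h.ind t h0)
  refine e.repr.injective (Finsupp.ext fun i => ?_)
  have h1 := pr_disj h (hin i v hv) (hout i)
  rw [map_zero]
  exact (mul_eq_zero.1 h1).resolve_right ht0

end Pool.Agent.Lib.MP_721660_al.Ht
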