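import Pool.Agent.Lib.MP_721660_al.Ht.Noe

set_option autoImplicit false

namespace Pool.Agent.Lib.MP_721660_al.Ht

variable {D M E : Type} [DivisionRing D] [AddCommGroup M] [Module D M] [Group E]
  {Γ : Type} [Group Γ] {π : E →* Γ} {A : Subgroup E} {m : ℕ} {β : E → Zm m}
  {φ : E →* (Zm m ≃ₗ[ℤ] Zm m)}

theorem Tf1x.app_add (S : SL D M E) (u : Zm m → E) (c c' : Zm m →₀ D) (x : M) :
    S.app u (c + c') x = S.app u c x + S.app u c' x :=
  Finsupp.sum_add_index' (fun _ => zero_smul _ _) (fun _ _ _ => add_smul _ _ _)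

theorem Tf1x.app_zero (S : SL D M E) (u : Zm m → E) (x : M) : S.app u 0 x = 0 :=
  Finsupp.sum_zero_index

theorem Tf1x.op_mul (S : SL D M E) (a b : E) : S.op (a * b) = S.op a * S.op b :=
  LinearMap.ext fun x => act_mul S a b x

theorem Tf1x.op_one (S : SL D M E) : S.op 1 = 1 :=
  LinearMap.ext fun x => by rw [op_apply, map_one]; rfl

theorem rg_app (S : SL D M E) (hP : Plinth π A m β φ) (hs : S.Scal π.ker) (u : Zm m → E)
    (hu : ∀ b, u b ∈ A ∧ β (u b) = b) (t : S.rg (A : Set E)) :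
    ∃ c : Zm m →₀ D, ∀ x, t • x = S.app u c x := by
  have key : ∀ t ∈ AddSubgroup.closure {s | ∃ (d : D), ∃ a ∈ A, s = S.scal d * S.op a},
      ∃ c : Zm m →₀ D, ∀ x, t x = S.app u c x := by
    intro t ht
    induction ht using AddSubgroup.closure_induction with
    | mem s hs' =>
      obtain ⟨d, a, ha, rfl⟩ := hs'
      have hk : a * (u (β a))⁻¹ ∈ A := A.mul_mem ha (A.inv_mem (hu _).1)
      have h0 : β (a * (u (β a))⁻¹) = 0 := by
        have := hP.add _ hk _ (hu (β a)).1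
        rw [inv_mul_cancel_right, (hu _).2] at this
        exact right_eq_add.1 this
      obtain ⟨d', hd'⟩ := hs _ ((hP.zero_iff _ hk).1 h0)
      refine ⟨Finsupp.single (β a) (d * d'), fun x => ?_⟩
      have e1 : S.app u (Finsupp.single (β a) (d * d')) x = (d * d') • S.act (u (β a)) x :=
        Finsupp.sum_single_index (zero_smul _ _)
      rw [e1, mul_smul, ← hd', ← act_mul, inv_mul_cancel_right]
      rfl
    | zero => exact ⟨0, fun x => (Tf1x.app_zero S u x).symm⟩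
    | add s s' _ _ h1 h2 =>
      obtain ⟨c, hc⟩ := h1
      obtain ⟨c', hc'⟩ := h2
      exact ⟨c + c', fun x => by rw [Tf1x.app_add, ← hc, ← hc']; rfl⟩
    | neg s _ h1 =>
      obtain ⟨c, hc⟩ := h1
      refine ⟨-c, fun x => ?_⟩
      have := Tf1x.app_add S u (-c) c x
      rw [neg_add_cancel, Tf1x.app_zero, ← hc] at this
      rw [LinearMap.neg_apply]
      exact neg_eq_of_add_eq_zero_left this.symm
  exact key t (rg_span S A t t.2)

theorem tf_domain [Nontrivial M] (S : SL D M E) (hP : Plinth π A m β φ) (hs : S.Scal π.ker)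
    (u : Zm m → E) (hu : ∀ b, u b ∈ A ∧ β (u b) = b) (hT : S.TFree u) :
    IsDomain (S.rg (A : Set E)) ∧
      ∀ (t : S.rg (A : Set E)) (x : M), t • x = 0 → t = 0 ∨ x = 0 := by
  have h2 : ∀ (t : S.rg (A : Set E)) (x : M), t • x = 0 → t = 0 ∨ x = 0 := by
    intro t x hx
    obtain ⟨c, hc⟩ := rg_app S hP hs u hu t
    rcases hT c x (by rw [← hc, hx]) with h | h
    · left
      refine Subtype.ext (LinearMap.ext fun y => ?_)
      have := hc y
      rw [h, Tf1x.app_zero] at this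
      exact this
    · exact Or.inr h
  refine ⟨?_, h2⟩
  obtain ⟨x, hx⟩ := exists_ne (0 : M)
  have : Nontrivial (S.rg (A : Set E)) := ⟨⟨1, 0, fun h => hx (by
    rw [← one_smul (S.rg (A : Set E)) x, h, zero_smul])⟩⟩
  have : NoZeroDivisors (S.rg (A : Set E)) := ⟨fun {s t} hst => by
    rcases h2 s (t • x) (by rw [← mul_smul, hst, zero_smul]) with h | h
    · exact Or.inl h
    · exact Or.inr ((h2 t x h).resolve_right hx)⟩
  exact NoZeroDivisors.to_isDomain _

theorem tf_ore {n : ℕ} (h : Poly Γ n) (S : SL D M E) (hs : S.Scal π.ker) (A : Subgroup E)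
    [IsDomain (S.rg (A : Set E))] (s t : S.rg (A : Set E)) (ht : t ≠ 0) :
    ∃ a b : S.rg (A : Set E), b ≠ 0 ∧ s * b = t * a := by
  let f : Dᵐᵒᵖ →+* (Module.End ℤ M)ᵐᵒᵖ := RingHom.op S.scal
  let g : A →* (Module.End ℤ M)ᵐᵒᵖ :=
    { toFun := fun a => MulOpposite.op (S.op (a : E)⁻¹)
      map_one' := by
        rw [Subgroup.coe_one, inv_one, Tf1x.op_one]; rfl
      map_mul' := fun a b => by
        rw [Subgroup.coe_mul, mul_inv_rev, Tf1x.op_mul, MulOpposite.op_mul] }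
  have hg : ∀ a : A, ((g.toHomUnits a : ((Module.End ℤ M)ᵐᵒᵖ)ˣ) : (Module.End ℤ M)ᵐᵒᵖ) =
      MulOpposite.op (S.op (a : E)⁻¹) := fun a => rfl
  have hN := noeth_ser f.range g.toHomUnits (π.comp A.subtype) (by
    rintro e _ ⟨d, rfl⟩
    refine ⟨MulOpposite.op (S.tw e d.unop), ?_⟩
    rw [← map_inv, hg, hg, Subgroup.coe_inv, inv_inv]
    refine MulOpposite.unop_injective (LinearMap.ext fun x => ?_)
    change S.tw e d.unop • x = S.act e (d.unop • S.act (e : E)⁻¹ x)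
    rw [S.act_smul, ← act_mul, mul_inv_cancel, map_one]
    rfl) (by
    intro e he
    obtain ⟨d, hd⟩ := hs _ (π.ker.inv_mem (he : (e : E) ∈ π.ker))
    refine ⟨MulOpposite.op d, ?_⟩
    rw [hg]
    exact MulOpposite.unop_injective (LinearMap.ext fun x => (hd x).symm)) h
  have e1 : Subring.closure ((f.range : Set (Module.End ℤ M)ᵐᵒᵖ) ∪
      Set.range fun e => ((g.toHomUnits e : ((Module.End ℤ M)ᵐᵒᵖ)ˣ) : (Module.End ℤ M)ᵐᵒᵖ)) =
      (S.rg (A : Set E)).op := by
    rw [SL.rg, Subring.op_closure]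
    congr 1
    ext z
    constructor
    · rintro (⟨d, rfl⟩ | ⟨a, rfl⟩)
      · exact Or.inl ⟨d.unop, rfl⟩
      · exact Or.inr ⟨(a : E)⁻¹, A.inv_mem a.2, rfl⟩
    · rintro (⟨d, hd⟩ | ⟨a, ha, hz⟩)
      · exact Or.inl ⟨MulOpposite.op d, MulOpposite.unop_injective hd⟩
      · refine Or.inr ⟨⟨a⁻¹, A.inv_mem ha⟩, MulOpposite.unop_injective ?_⟩
        rw [← hz]
        change S.op a⁻¹⁻¹ = _
        rw [inv_inv]
  rw [e1] at hN
  have hN' : IsNoetherianRing (S.rg (A : Set E))ᵐᵒᵖ :=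
    isNoetherianRing_of_ringEquiv _ (S.rg (A : Set E)).mopRingEquivOp.symm
  obtain ⟨O⟩ := nonempty_oreSet_of_strongRankCondition (R := (S.rg (A : Set E))ᵐᵒᵖ)
  obtain ⟨r', s', hrs⟩ := OreLocalization.oreCondition (MulOpposite.op s)
    (⟨MulOpposite.op t, mem_nonZeroDivisors_iff_ne_zero.2 (by simpa using ht)⟩ :
      nonZeroDivisors (S.rg (A : Set E))ᵐᵒᵖ)
  refine ⟨r'.unop, s'.1.unop, ?_, congrArg MulOpposite.unop hrs⟩
  exact fun h0 => nonZeroDivisors.ne_zero s'.2 (MulOpposite.unop_injective h0)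

end Pool.Agent.Lib.MP_721660_al.Ht
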